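import Pool.Agent.P.MP_b0885c_lc.Mod

namespace Pool.Agent.P.MP_b0885c_lc

open Ordinal Set FreeGroup FirstOrder FirstOrder.Language

namespace Tr

variable {T : Tr} {A A' : Set Re} {b b' : ℕ → G}

theorem at_inl {n : ℕ} {a : Fin n → T.Md A b} {a' : Fin n → T.Md A' b'} (h : AtEq LT a a')
    {i : Fin n} {e : Re} (he : (a i).1 = .inl e) : (a' i).1 = .inl e := by
  obtain ⟨e', he'⟩ : ∃ e', (a' i).1 = .inl e' := (h.rel Rl.A.cd fun _ => i).1 ⟨e, he⟩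
  rw [he']
  congr 1
  funext ⟨p, q⟩
  have : (∃ x, (a i).1 = .inl x ∧ x (p, q) = true) ↔ ∃ x, (a' i).1 = .inl x ∧ x (p, q) = true :=
    h.rel (Rl.R p q).cd fun _ => i
  simp only [he, he', Sum.inl.injEq, exists_eq_left'] at this
  exact Bool.eq_iff_iff.2 this.symm

theorem at_inr {n : ℕ} {a : Fin n → T.Md A b} {a' : Fin n → T.Md A' b'} (h : AtEq LT a a')
    {i : Fin n} {N : ℕ} {g : G} (he : (a i).1 = .inr (N, g)) : ∃ g', (a' i).1 = .inr (N, g') :=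
  (h.rel (Rl.X N).cd fun _ => i).1 ⟨g, he⟩

theorem snoc2 {α : Type} (x a z : α) : (Fin.snoc ![x, a] z : Fin 3 → α) = ![x, a, z] := by
  funext i; fin_cases i <;> rfl

theorem snoc3 {α : Type} (x a z w : α) : (Fin.snoc ![x, a, z] w : Fin 4 → α) = ![x, a, z, w] := by
  funext i; fin_cases i <;> rfl

/-- equivalence of two points, each with a companion -/
def Q (θ : Ordinal.{0}) (n : ℕ) (g g' : G) (a c : T.Md A b) : Prop :=
  ∃ x y : T.Md A b, x.1 = .inr (n, g) ∧ y.1 = .inr (n, g') ∧ BFE LT θ ![x, a] ![y, c]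

variable {θ : Ordinal.{0}} {n : ℕ} {g g' : G} {a c : T.Md A b}

theorem Q.mem (h : Q θ n g g' a c) : g ∈ H ((T.fo A).Lab n) ∧ g' ∈ H ((T.fo A).Lab n) := by
  obtain ⟨⟨_, hx⟩, ⟨_, hy⟩, rfl, rfl, -⟩ := h
  exact ⟨hx, hy⟩

theorem Q.mono {θ' : Ordinal.{0}} (h : Q θ n g g' a c) (h' : θ' ≤ θ) : Q θ' n g g' a c :=
  let ⟨x, y, h1, h2, h3⟩ := h
  ⟨x, y, h1, h2, h3.mono h'⟩

theorem Q.mv (h : Q (θ + 1 + 1) n g g' a c) {s : Lb × Bool} (hs : s.1 ∈ (T.fo A).Lab n) :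
    Q θ n (FreeGroup.mk [s] * g) (FreeGroup.mk [s] * g') a c := by
  have hm := h.mem
  obtain ⟨x, y, h1, h2, h3⟩ := h
  obtain ⟨⟨e, σ⟩, ε⟩ := s
  obtain ⟨he, rfl, hσ⟩ := id hs
  obtain ⟨e', h4⟩ := h3.forth (lt_add_one _) ⟨.inl e, he⟩
  obtain ⟨z', h5⟩ := h4.forth (lt_add_one _)
    ⟨.inr (σ.length, FreeGroup.mk [((e, σ), ε)] * g), mul_mem (mk_mem_H (by simpa using hs)) hm.1⟩
  rw [snoc2, snoc2, snoc3, snoc3] at h5
  have h6 : e'.1 = .inl e := at_inl h5.at (i := 2) rfl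
  refine ⟨_, z', rfl, ?_, by
    convert h5.comp ![3, 1] using 1 <;> funext i <;> fin_cases i <;> rfl⟩
  cases ε with
  | true =>
    obtain ⟨e1, g1, -, h7, h8, h9⟩ := (h5.at.rel (Rl.Act σ).cd ![0, 2, 3]).1 ⟨e, g, hσ, h1, rfl, rfl⟩
    change y.1 = _ at h7
    change e'.1 = _ at h8
    change z'.1 = _ at h9
    rw [h2] at h7
    rw [h6] at h8
    obtain rfl := Sum.inl.inj h8
    obtain rfl := (Prod.mk.inj (Sum.inr.inj h7)).2
    exact h9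
  | false =>
    have hi : (FreeGroup.mk [((e, σ), false)] : G) = (of (e, σ))⁻¹ := rfl
    obtain ⟨e1, g1, -, h7, h8, h9⟩ := (h5.at.rel (Rl.Act σ).cd ![3, 2, 0]).1
      ⟨e, _, hσ, rfl, rfl, by
        change x.1 = _
        rw [h1, hi]; simp⟩
    change z'.1 = _ at h7
    change e'.1 = _ at h8
    change y.1 = _ at h9
    rw [h2] at h9
    rw [h6] at h8
    obtain rfl := Sum.inl.inj h8
    obtain rfl := (Prod.mk.inj (Sum.inr.inj h9)).2
    rw [h7, hi]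
    simp

theorem Q.word (h : ∀ k : ℕ, Q (θ + k) n g g' a c) {w : G} (hw : w ∈ H ((T.fo A).Lab n)) (k : ℕ) :
    Q (θ + k) n (w * g) (w * g') a c := by
  have : ∀ l : List (Lb × Bool), (∀ s ∈ l, s.1 ∈ (T.fo A).Lab n) → ∀ k : ℕ,
      Q (θ + k) n (FreeGroup.mk l * g) (FreeGroup.mk l * g') a c := by
    intro l
    induction l with
    | nil => exact fun _ k => by simpa [← one_eq_mk] using h k
    | cons s l ih =>
      intro hl k
      have h1 := ih (fun s hs => hl s (List.mem_cons_of_mem _ hs)) (k + 1 + 1)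
      rw [Nat.cast_succ, Nat.cast_succ, ← add_assoc, ← add_assoc] at h1
      have h2 := h1.mv (hl s List.mem_cons_self)
      rwa [← mul_assoc, ← mul_assoc, mul_mk] at h2
  simpa [mk_toWord] using this _ hw k

theorem Q.down (hb : (T.fo A).Co b) (h : Q (θ + 1) (n + 1) g g' a c) :
    Q θ n (map pd0 g * b n) (map pd0 g' * b n) a c := by
  have hm := h.mem
  obtain ⟨x, y, h1, h2, h3⟩ := h
  obtain ⟨z', h5⟩ := h3.forth (lt_add_one _) ⟨.inr (n, map pd0 g * b n), Fo.pp_mem hb hm.1⟩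
  rw [snoc2, snoc2] at h5
  refine ⟨_, z', rfl, ?_, by
    convert h5.comp ![2, 1] using 1 <;> funext i <;> fin_cases i <;> rfl⟩
  obtain ⟨m, g1, h7, h8⟩ := (h5.at.rel Rl.Pj.cd ![0, 2]).1 ⟨n, g, h1, rfl⟩
  change y.1 = _ at h7
  change z'.1 = _ at h8
  rw [h2] at h7
  obtain ⟨h9, rfl⟩ := Prod.mk.inj (Sum.inr.inj h7)
  obtain rfl := Nat.succ.inj h9
  exact h8

theorem Q.up {z : G} (hz : z ∈ H ((T.fo A).Lab (n + 1)))
    (h : Q (θ + 1) n (map pd0 z * b n) g' a c) :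
    ∃ z', map pd0 z' * b n = g' ∧ Q θ (n + 1) z z' a c := by
  obtain ⟨x, y, h1, h2, h3⟩ := h
  obtain ⟨z', h5⟩ := h3.forth (lt_add_one _) ⟨.inr (n + 1, z), hz⟩
  rw [snoc2, snoc2] at h5
  obtain ⟨m, g1, h7, h8⟩ := (h5.at.rel Rl.Pj.cd ![2, 0]).1 ⟨n, z, rfl, h1⟩
  change z'.1 = _ at h7
  change y.1 = _ at h8
  rw [h2] at h8
  obtain ⟨rfl, rfl⟩ := Prod.mk.inj (Sum.inr.inj h8)
  exact ⟨g1, rfl, _, z', rfl, h7, by
    convert h5.comp ![2, 1] using 1 <;> funext i <;> fin_cases i <;> rfl⟩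

theorem Q.rk (hb : (T.fo A).Co b) {l : Ordinal.{0}} (h : Q (ω * l) n g g' a c) :
    Rk ((T.fo A).rT b) l (n, g, g') := by
  induction l using WellFoundedLT.induction generalizing n g g' with
  | ind l ih =>
    refine rk_iff.2 fun μ hμ => ?_
    have hw : b n * g⁻¹ ∈ H ((T.fo A).Lab n) := mul_mem (hb n) (inv_mem h.mem.1)
    have h1 := Q.word (fun k => h.mono (om_mul_add_lt hμ k).le) hw 1
    rw [Nat.cast_one, show b n * g⁻¹ * g = map pd0 (1 : G) * b n by simp] at h1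
    obtain ⟨z', h2, h3⟩ := Q.up (one_mem _) h1
    exact ⟨(n + 1, 1, z'), ⟨rfl, one_mem _, h3.mem.2, _, hw, by simp [Fo.pp], h2⟩, ih μ hμ h3⟩

theorem Q.coord (hb : (T.fo A).Co b) {N : ℕ} {u u' : ℕ → G} (hu : T.Thr A b N u)
    (hu' : T.Thr A b N u') (h : ∀ k : ℕ, Q (θ + k) N (u N) (u' N) a c) (ha : lev a.1 ≤ N) :
    c.1 = Φ u' (Φ (fun n => (u n)⁻¹) a.1) := by
  have key : ∀ m, m ≤ N → ∀ k : ℕ, Q (θ + k) m (u m) (u' m) a c := by
    intro m hm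
    induction hm using Nat.decreasingInduction with
    | self => exact h
    | of_succ m hm ih =>
      intro k
      have := ih (k + 1)
      rw [Nat.cast_succ, ← add_assoc] at this
      rw [← hu.2 m hm, ← hu'.2 m hm]
      exact this.down hb
  obtain ⟨e | ⟨m, g⟩, hx⟩ := a
  · obtain ⟨x, y, -, -, h1⟩ := h 0
    exact at_inl h1.at (i := 1) rfl
  · obtain ⟨x, y, h1, h2, h3⟩ := Q.word (key m ha) (mul_mem hx (inv_mem (hu.1 m ha))) 0
    have : y = c := (h3.at.eq 0 1).1 (Subtype.ext (by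
      change x.1 = _
      rw [h1]; simp))
    rw [← this, h2]
    rfl

theorem stab_of (hb : (T.fo A).Co b) {l : Ordinal.{0}}
    (h : ∀ N, (T.fo A).Ys b l N ⊆ (T.fo A).Ys b (l + 1) N) : Stab LT (T.Md A b) (ω * (l + 1)) := by
  intro n a a' hab
  by_cases h0 : ∀ i, ∃ e, (a i).1 = .inl e
  · have : a' = a := funext fun i => Subtype.ext <| by
      obtain ⟨e, he⟩ := h0 i
      rw [he, at_inl hab.at he]
    rw [this]
    exact BFE.refl _ _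
  push Not at h0
  obtain ⟨i0, hi0, hmax⟩ := Set.exists_max_image {i | ∀ e, (a i).1 ≠ .inl e}
    (fun i => lev (a i).1) (Set.toFinite _) h0
  obtain ⟨N, g, hg⟩ : ∃ N g, (a i0).1 = .inr (N, g) := by
    rcases h1 : (a i0).1 with e | ⟨N, g⟩
    · exact (hi0 e h1).elim
    · exact ⟨N, g, rfl⟩
  obtain ⟨g', hg'⟩ := at_inr hab.at hg
  have hlev : ∀ i, lev (a i).1 ≤ N := fun i => by
    by_cases h1 : ∀ e, (a i).1 ≠ .inl e
    · simpa [hg, lev] using hmax i h1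
    · push Not at h1
      obtain ⟨e, he⟩ := h1
      simp [he, lev]
  have hQ : ∀ j, Q (ω * (l + 1)) N g g' (a j) (a' j) := fun j => ⟨_, _, hg, hg', by
    convert hab.comp ![i0, j] using 1 <;> funext i <;> fin_cases i <;> rfl⟩
  have hQ' : ∀ j (k : ℕ), Q (ω * l + k) N g g' (a j) (a' j) := fun j k =>
    (hQ j).mono (om_mul_add_lt (lt_add_one l) k).le
  have hm := (hQ i0).mem
  have hΦ : ∀ (u : ℕ → G) (x : U), x = Φ u (Φ (fun n => (u n)⁻¹) x) := by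
    rintro u (e | ⟨n, g⟩) <;> simp [Φ]
  by_cases hne : g = g'
  · subst hne
    obtain ⟨u, h1, h2⟩ := exists_thr hb N g hm.1
    have : a' = a := funext fun i => Subtype.ext <| by
      rw [Q.coord hb h1 h1 (by simpa [h2] using hQ' i) (hlev i), ← hΦ]
    rw [this]
    exact BFE.refl _ _
  obtain ⟨w, hw, hmin⟩ := exists_min (H ((T.fo A).Lab N) : Set G)
    (fun w => FreeGroup.norm (w * (g' * g⁻¹) * w⁻¹)) ⟨1, one_mem _⟩
  obtain ⟨h1, h2⟩ := Fo.lemA (((hQ i0).rk hb).mono (le_add_right le_rfl : l ≤ l + 1)) hm.1 hm.2 hne hw hmin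
  obtain ⟨u, h3, h4⟩ := exists_thr hb N _ h1.1
  obtain ⟨u', h5, h6⟩ := exists_thr hb N _ h2.1
  have hL : T.Lift A b b fun _ N v v' => v ∈ (T.fo A).Ys b l N ∧ v' ∈ (T.fo A).Ys b l N :=
    ⟨fun _ _ _ _ _ _ hR => hR, fun θ N _ _ hR =>
      let ⟨z, h1, h2⟩ := (Fo.mem_Ys.1 (h N hR.1)).2 l (lt_add_one _)
      let ⟨z', h3, h4⟩ := (Fo.mem_Ys.1 (h N hR.2)).2 l (lt_add_one _)
      ⟨z, h1.1, z', h3.1, h2, h4, h1, h3⟩⟩
  refine hL.bfe _ h3 h5 (by rw [h4, h6]; exact ⟨h1, h2⟩)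
    (fun i => Φ (fun n => (u n)⁻¹) (a i).1) _ _ fun i => ⟨?_, hΦ _ _, ?_⟩
  · have := hlev i
    rcases h7 : (a i).1 with e | ⟨n, g⟩
    · exact Nat.zero_le _
    · rwa [h7] at this
  · exact Q.coord hb h3 h5 (by rw [h4, h6]; exact Q.word (hQ' i) hw) (hlev i)

theorem sr_le_of_empty (hb : (T.fo A).Co b) {l : Ordinal.{0}} (h : (T.fo A).Ys b l 0 = ∅) :
    SR LT (T.Md A b) ≤ ω * (l + 1) :=
  (stab_of hb fun N => by
    have := Fo.Ys_dead hb h N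
    rw [Nat.cast_zero, add_zero] at this
    simp [this]).sr_le

theorem stab_of_Cs (hb : (T.fo A).Co b) {l : Ordinal.{0}}
    (h : ∀ N, (T.fo A).Cs l N ⊆ (T.fo A).Cs (l + 1) N) :
    ∃ γ ≤ ω * (l + ω + 1), Stab LT (T.Md A b) γ := by
  by_cases h0 : ∃ N, (T.fo A).Ys b (l + 1) N = ∅
  · obtain ⟨N, hN⟩ := h0
    refine ⟨_, le_rfl, stab_of hb fun M x hx => ?_⟩
    have h1 := Fo.Ys_dead hb hN M
    have h2 : l + 1 + N ≤ l + ω := by
      rw [add_assoc]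
      gcongr
      exact_mod_cast (natCast_lt_omega0 (1 + N)).le
    have := Fo.Ys_mono h2 hx
    simp [h1] at this
  · push Not at h0
    refine ⟨_, by gcongr; exact le_add_right le_rfl, stab_of hb (l := l) fun M x hx => ?_⟩
    obtain ⟨y, hy⟩ := h0 M
    have h1 : x * y⁻¹ ∈ H ((T.fo A).Lab M) := mul_mem hx.1 (inv_mem hy.1)
    have h2 := (Fo.coset y (Fo.Ys_mono (le_add_right le_rfl : l ≤ l + 1) hy) _ h1).1 (by simpa)
    simpa using (Fo.coset y hy _ h1).2 (H_mono (h M) h2)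

theorem not_stab {β β0 δ : Ordinal.{0}} {s : Lb} (h1 : s ∈ (T.fo A).Cs (ω * β) n)
    (h2 : s ∉ (T.fo A).Cs δ n) (h3 : β0 ≤ β) : ¬ Stab LT (T.Md A fun _ => 1) β0 := by
  intro h
  have hb : (T.fo A).Co fun _ => 1 := fun _ => one_mem _
  have hs : of s ∈ H ((T.fo A).Lab n) := of_mem_H.2 h1.1
  obtain ⟨u, h4, h5⟩ := exists_thr hb n 1 (one_mem _)
  obtain ⟨u', h6, h7⟩ := exists_thr hb n _ hs
  let x : T.Md A fun _ => 1 := ⟨.inr (n, 1), one_mem _⟩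
  let y : T.Md A fun _ => 1 := ⟨.inr (n, of s), hs⟩
  have h8 : BFE LT β ![x, x] ![y, y] := (lift_Ys A _ _).bfe β h4 h6
    ⟨by rw [h5]; exact Fo.one_mem_Ys, by
      rw [h7]
      simpa using (Fo.coset 1 Fo.one_mem_Ys _ hs).2 (of_mem_H.2 h1)⟩ (fun _ => .inr (n, 1)) _ _
    fun i => by fin_cases i <;> simp [lev, Φ, h5, h7, x, y]
  have h9 : Q (ω * δ) n 1 (of s) x y := ⟨x, y, rfl, rfl, h.all _ (h8.mono h3)⟩
  have h10 := (Fo.lemA (h9.rk hb) (one_mem _) hs (of_ne_one s).symm (one_mem _) fun w _ => by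
    have : w * (of s * 1⁻¹) * w⁻¹ ≠ 1 := by simp
    have := mt FreeGroup.norm_eq_zero.1 this
    simp only [inv_one, mul_one, one_mul, norm_of] at this ⊢
    omega).2
  exact h2 (of_mem_H.1 ((Fo.coset 1 Fo.one_mem_Ys _ hs).1 (by simpa using h10)))

theorem mem_Cs_iff {s : Lb} :
    s ∈ (T.fo A).Cs θ n ↔ s ∈ (T.fo A).Lab n ∧ Rk (ch (T.In s.1)) θ s.2 := by
  refine and_congr_right fun hs => ⟨fun h => ?_, fun h => ?_⟩
  · refine Rk.map (fun p σ => p.2 = (s.1, σ)) ?_ rfl h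
    rintro ⟨m, _⟩ σ ⟨_, e, τ⟩ rfl ⟨rfl, ⟨h1, h2, h3⟩, h4⟩
    obtain ⟨rfl, h5⟩ := Prod.mk.inj h4
    refine ⟨τ, rfl, h3, ?_⟩
    cases τ with
    | nil => simp at h2
    | cons c τ => exact ⟨c, by rw [← h5]; rfl⟩
  · refine Rk.map (fun σ p => p = (σ.length, (s.1, σ))) ?_ (by rw [hs.2.1]) h
    rintro σ _ _ rfl ⟨h1, c, rfl⟩
    exact ⟨_, rfl, rfl, ⟨hs.1, rfl, h1⟩, rfl⟩

end Tr

end Pool.Agent.P.MP_b0885c_lc
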