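import Pool.Agent.P.MP_b0885c_lc.Tree
import Pool.Agent.P.MP_b0885c_lc.SR

namespace Pool.Agent.P.MP_b0885c_lc

open Set Ordinal FirstOrder FirstOrder.Language

theorem sr_iso {L : FirstOrder.Language.{0, 0}} {M N : Type} [L.Structure M] [L.Structure N]
    (e : M ≃[L] N) : SR L M = SR L N :=
  congrArg sInf (Set.ext fun _ => ⟨Stab.iso e.symm, Stab.iso e⟩)

theorem bfe_iso0 {L : FirstOrder.Language.{0, 0}} {M N : Type} [L.Structure M] [L.Structure N]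
    (e : M ≃[L] N) (β : Ordinal.{0}) :
    BFE L β (Fin.elim0 : Fin 0 → M) (Fin.elim0 : Fin 0 → N) := by
  have := BFE.iso e β (Fin.elim0 : Fin 0 → M)
  rwa [show e ∘ (Fin.elim0 : Fin 0 → M) = Fin.elim0 from Subsingleton.elim _ _] at this

theorem bd_lt {l : Ordinal.{0}} (h : l < w1) : ω * (l + ω + 1) < w1 :=
  mul_lt_w1 om_lt_w1 (succ_lt_w1 (add_lt_w1 h om_lt_w1))

namespace Tr

variable (T : Tr)

theorem exists_Cs (t : Re) : ∃ l < w1, ∀ N, (T.fo (orb t)).Cs l N ⊆ (T.fo (orb t)).Cs (l + 1) N := by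
  choose θ h1 h2 using fun l => exists_stab (ch (T.In (md t l)))
  obtain ⟨b, h3, h4⟩ := exists_bound θ h1
  refine ⟨b, h3, fun N s hs => ?_⟩
  rw [mem_Cs_iff] at hs ⊢
  obtain ⟨l, hl⟩ := hs.1.1
  exact ⟨hs.1, hl ▸ h2 l _ ((hl ▸ hs.2 :).mono (h4 l).le) _⟩

theorem le_sr_can {t : Re} {σ : List ℕ} {β δ : Ordinal.{0}} (h1 : T.In t σ)
    (h2 : Rk (ch (T.In t)) (ω * β) σ) (h3 : ¬ Rk (ch (T.In t)) δ σ) :
    β ≤ SR LT (T.Md (orb t) fun _ => 1) := by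
  obtain ⟨l, -, hl⟩ := T.exists_Cs t
  obtain ⟨γ, -, hγ⟩ := stab_of_Cs (b := fun _ => 1) (fun _ => one_mem _) hl
  exact le_sr hγ fun β0 h => not_stab (s := (t, σ))
    (mem_Cs_iff.2 ⟨⟨self_mem_orb t, rfl, h1⟩, h2⟩) (fun h => h3 (mem_Cs_iff.1 h).2) h.le

theorem decided {φ : Fml LT 0} {γ : Ordinal.{0}} (hγ : γ < w1) {p : Prop}
    (h : ∀ t σ δ, Rk (ch (T.In t)) γ σ → ¬ Rk (ch (T.In t)) δ σ →
      (φ.Sat (Fin.elim0 : Fin 0 → T.Md (orb t) fun _ => 1) ↔ p)) :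
    ∃ α < w1, ∀ (M : Type) [LT.Structure M], IsM T.In M → α ≤ SR LT M →
      (φ.Sat (Fin.elim0 : Fin 0 → M) ↔ p) := by
  obtain ⟨β, h1, h2⟩ := karp φ
  refine ⟨max (ω * (ω * β + 1)) (ω * (γ + ω + 1)) + 1, succ_lt_w1 (max_lt (mul_lt_w1 om_lt_w1
    (succ_lt_w1 (mul_lt_w1 om_lt_w1 h1))) (bd_lt hγ)), fun M _ hM hs => ?_⟩
  obtain ⟨t, b, hb, ht, ⟨e⟩⟩ := hM.classify
  rw [← sr_iso e, Order.add_one_le_iff, max_lt_iff] at hs
  rw [← sat_iso e, h2 _ _ _ _ (bfe_can (nonempty_iff_ne_empty.2 fun h =>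
    hs.1.not_ge (sr_le_of_empty hb h)))]
  by_contra h3
  obtain ⟨γ', h4, h5⟩ := stab_of_Cs hb (l := γ) fun N s h4 => by
    by_contra h5
    rw [mem_Cs_iff] at h4 h5
    have := h s.1 s.2 (γ + 1) h4.2 fun h => h5 ⟨h4.1, h⟩
    rw [Subset.antisymm (orb_sub h4.1.1) (orb_sub (ht _ h4.1.1))] at this
    exact h3 this
  exact hs.2.not_ge (h5.sr_le.trans h4)

end Tr

theorem main (q : Zt) : ∃ (T : Fml LT 0) (Z : Zt), range q ⊆ range Z ∧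
    (fun i _ _ => T.code i = true) ∈ range Z ∧
    (∀ β < w1, ∃ (M : Type) (_ : LT.Structure M), Countable M ∧ Infinite M ∧
      T.Sat (Fin.elim0 : Fin 0 → M) ∧ β ≤ SR LT M) ∧
    ∀ φ : Fml LT 0, Reals (fun z => ∃ α, Lh Z α z) φ.code → ∃ α < w1, ∃ p : Prop,
      ∀ (M : Type) [LT.Structure M], T.Sat (Fin.elim0 : Fin 0 → M) → α ≤ SR LT M →
        (φ.Sat (Fin.elim0 : Fin 0 → M) ↔ p) := by
  have := (measurableSet_setOfPred.2 (meas_Wit q)).analyticSet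
  rw [MeasureTheory.AnalyticSet] at this
  obtain ⟨f, hf, hw⟩ := this.resolve_left fun h => by
    obtain ⟨w, hw, -⟩ := exists_wit q (fun _ => true) om_lt_w1
    exact (h ▸ (show w ∈ {w | Wit q w} from hw) : w ∈ (∅ : Set _))
  have hw' : ∀ w, Wit q w ↔ ∃ z, f z = w := fun w => (Set.ext_iff.1 hw w).symm
  have hs : ∀ (M : Type) [LT.Structure M] (v : Fin 0 → M),
      (TT (xf f)).Sat v ↔ IsM (trf f).In M := fun M _ v => by rw [sat_TT, inX_xf]; rfl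
  refine ⟨TT (xf f), ZZ q (xf f), fun _ ⟨k, hk⟩ => ⟨k + 1, hk⟩, ⟨0, rfl⟩, fun β hβ => ?_,
    fun φ h => ?_⟩
  · obtain ⟨t, σ, δ, a1, a2, a3, a4⟩ := exists_high hw' (mul_lt_w1 om_lt_w1 hβ)
    exact ⟨(trf f).Md (orb t) fun _ => 1, _, inferInstance, .of_injective (fun n : ℕ => ⟨.inr (n, 1), one_mem _⟩)
      fun _ _ h => (Prod.mk.inj (Sum.inr.inj (congrArg Subtype.val h))).1,
      (hs _ _).2 (Tr.isM_can a1), (trf f).le_sr_can a2 a3 a4⟩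
  · obtain ⟨γ, h1, p, h2⟩ := decide_side hf (fun z => (hw' _).2 ⟨z, rfl⟩) h
    obtain ⟨β, h3, h4⟩ := (trf f).decided h1 h2
    exact ⟨β, h3, p, fun M _ hM => h4 M ((hs _ _).1 hM)⟩

end Pool.Agent.P.MP_b0885c_lc
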