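import Pool.Agent.P.MP_b0885c_lc.Sh
import Pool.Agent.P.MP_b0885c_lc.Main

namespace Pool.Agent.P.MP_b0885c_lc

open Set Ordinal Filter Encodable FirstOrder FirstOrder.Language

/-- reals -/
abbrev Rr : Type := ℕ → Bool

/-- clauses of the truth definition -/
def Cl (D : Rr) (j : Jt) (v : List ℕ) (F : ℕ → List ℕ → Prop) (p : Prop) : Prop :=
  (j.1 = 0 → (p ↔ v.getD (j.2.2.getD 0 0) 0 = v.getD (j.2.2.getD 1 0) 0)) ∧
  (j.1 = 1 → (p ↔ D (encode (j.2.1, j.2.2.map (v.getD · 0))) = true)) ∧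
  (j.1 = 2 → (p ↔ ¬ F 0 v)) ∧ (j.1 = 3 → (p ↔ ∀ k, F k v)) ∧
  (j.1 = 4 → v.length = j.2.2.getD 0 0 → (p ↔ ∀ x, F 0 (v ++ [x])))

/-- truth tables -/
abbrev T1 : Type := List ℕ → List ℕ → Prop

/-- `τ` is a truth table -/
def ST (c D : Rr) (τ : T1) : Prop :=
  ∀ u j, c ((encode u).pair (encode j)) = true → ∀ v, Cl D j v (fun k => τ (u ++ [k])) (τ u v)

theorem realize_vr {D : Rr} {n : ℕ} (t : LT.Term (Fin n)) (v : List ℕ) :
    t.realize (M := Str D) (fun i : Fin n => v.getD i 0) = v.getD (vr t) 0 := by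
  cases t with
  | var i => rfl
  | func f _ => exact f.elim

theorem cl_use {D : Rr} {n : ℕ} (φ : Fml LT n) : ∀ τ : T1,
    (∀ u v, Cl D (φ.lab u) v (fun k => τ (u ++ [k])) (τ u v)) → ∀ v : List ℕ, v.length = n →
    (τ [] v ↔ φ.Sat (M := Str D) fun i => v.getD i 0) := by
  induction φ with
  | eq t u =>
    intro τ h v _
    rw [Fml.Sat, realize_vr, realize_vr]
    exact (h [] v).1 rfl
  | rel r ts =>
    intro τ h v _
    simp only [Fml.Sat, realize_vr]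
    refine ((h [] v).2.1 rfl).trans ?_
    simp only [Fml.lab, List.map_ofFn]
    rfl
  | neg φ ih =>
    exact fun τ h v hv => ((h [] v).2.2.1 rfl).trans
      (not_congr (ih (fun u => τ (0 :: u)) (fun u => h (0 :: u)) v hv))
  | conj f ih =>
    exact fun τ h v hv => ((h [] v).2.2.2.1 rfl).trans
      (forall_congr' fun k => ih k (fun u => τ (k :: u)) (fun u => h (k :: u)) v hv)
  | all φ ih =>
    rintro τ h v rfl
    refine ((h [] v).2.2.2.2 rfl rfl).trans (forall_congr' fun x => (ih (fun u => τ (0 :: u))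
      (fun u => h (0 :: u)) (v ++ [x]) (by simp)).trans (iff_of_eq (congrArg _ (funext fun i => ?_))))
    refine Fin.lastCases ?_ (fun i => ?_) i
    · simp
    · simp

theorem cl_ex (D : Rr) {n : ℕ} (φ : Fml LT n) :
    ∃ τ : T1, ∀ u v, Cl D (φ.lab u) v (fun k => τ (u ++ [k])) (τ u v) := by
  induction φ with
  | eq t u =>
    refine ⟨fun _ v => v.getD (vr t) 0 = v.getD (vr u) 0, ?_⟩
    rintro (_ | _) v <;> simp [Cl, Fml.lab]
  | rel r ts =>
    refine ⟨fun _ v => D (@encode ((ℕ × List ℕ) × List ℕ) _ (r, (List.ofFn fun i => vr (ts i)).map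
      (v.getD · 0))) = true, ?_⟩
    rintro (_ | _) v <;> simp [Cl, Fml.lab, -encode_prod_val]
  | neg φ ih =>
    obtain ⟨τ, h⟩ := ih
    refine ⟨fun u => List.casesOn u (fun v => ¬ τ [] v) fun _ => τ, ?_⟩
    rintro (_ | ⟨k, u⟩) v
    exacts [by simp [Cl, Fml.lab], h u v]
  | conj f ih =>
    choose τ h using ih
    refine ⟨fun u => List.casesOn u (fun v => ∀ k, τ k [] v) τ, ?_⟩
    rintro (_ | ⟨k, u⟩) v
    exacts [by simp [Cl, Fml.lab], h k u v]
  | all φ ih =>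
    obtain ⟨τ, h⟩ := ih
    refine ⟨fun u => List.casesOn u (fun v => ∀ x, τ [] (v ++ [x])) fun _ => τ, ?_⟩
    rintro (_ | ⟨k, u⟩) v
    exacts [by simp [Cl, Fml.lab], h u v]

theorem st_ex (φ : Fml LT 0) (D : Rr) : ∃ τ, ST φ.code D τ :=
  (cl_ex D φ).imp fun _ h u _ hj v => code_pair.1 hj ▸ h u v

theorem ST.use {φ : Fml LT 0} {D : Rr} {τ : T1} (h : ST φ.code D τ) : τ [] [] ↔ Mod φ D :=
  (cl_use φ τ (fun u => h u _ (code_pair.2 rfl)) [] rfl).trans
    (iff_of_eq (congrArg _ (Subsingleton.elim _ _)))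

/-- relations between tuples -/
abbrev T0 : Type := (n : ℕ) → (Fin n → ℕ) → (Fin n → ℕ) → Prop

/-- atomic equivalence -/
def AE (D D' : Rr) {n : ℕ} (a b : Fin n → ℕ) : Prop :=
  (∀ i j, a i = a j ↔ b i = b j) ∧ ∀ k (r : ℕ × List ℕ) (s : Fin k → Fin n),
    D (encode (r, List.ofFn fun i => a (s i))) = true ↔
      D' (encode (r, List.ofFn fun i => b (s i))) = true

theorem ae_iff {D D' : Rr} {n : ℕ} {a b : Fin n → ℕ} :
    AtEq LT (M := Str D) (N := Str D') a b ↔ AE D D' a b :=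
  ⟨fun h => ⟨h.eq, fun _ r s => h.rel r s⟩, fun h => atEq_of h.1 h.2⟩

/-- one back and forth step -/
def BF (B : T0) {n : ℕ} (a b : Fin n → ℕ) : Prop :=
  (∀ x, ∃ y, B (n + 1) (Fin.snoc a x) (Fin.snoc b y)) ∧
    ∀ y, ∃ x, B (n + 1) (Fin.snoc a x) (Fin.snoc b y)

/-- back and forth systems -/
def Sy (B : T0) : Prop := ∀ n a b, B n a b → BF B a b

/-- back and forth tables -/
def BT (W D D' : Rr) (β : ℕ → T0) : Prop :=
  ∀ i n a b, β i n a b ↔ AE D D' a b ∧ ∀ j, W (j.pair i) = true → BF (β j) a b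

/-- the relation coded by a real -/
abbrev wr (W : Rr) : ℕ → ℕ → Prop := fun a b => W (a.pair b) = true

/-- the back and forth relations -/
def bf (D D' : Rr) (γ : Ordinal.{0}) : T0 := fun _ a b => BFE LT (M := Str D) (N := Str D') γ a b

theorem bt_ex (W D D' : Rr) [IsWellOrder ℕ (wr W)] :
    BT W D D' fun i => bf D D' (typein (wr W) i) := fun i _ _ _ =>
  bfe_iff.trans (and_congr ae_iff ⟨fun h j hj => h _ ((typein_lt_typein _).2 hj), fun h β hβ => by
    obtain ⟨j, rfl⟩ := typein_surj _ (hβ.trans (typein_lt_type _ i))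
    exact h j ((typein_lt_typein (wr W)).1 hβ)⟩)

theorem BT.use {W D D' : Rr} [IsWellOrder ℕ (wr W)] {β : ℕ → T0} (h : BT W D D' β) (i : ℕ) :
    β i = bf D D' (typein (wr W) i) := by
  induction i using (IsWellFounded.wf (r := wr W)).induction with
  | _ i ih =>
    funext n a b
    exact propext ((h i n a b).trans ((and_congr_right fun _ => forall₂_congr fun j hj => by
      rw [ih j hj]).trans (bt_ex W D D' i n a b).symm))

theorem sy_iff {D D' : Rr} {γ : Ordinal.{0}} :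
    Sy (bf D D' γ) ↔ ∀ n a b, bf D D' γ n a b → bf D D' (γ + 1) n a b :=
  forall₄_congr fun _ _ _ h => ⟨fun h1 => bfe_iff.2 ⟨BFE.at h, fun β hβ =>
    (Order.lt_add_one_iff.1 hβ).lt_or_eq.elim ((bfe_iff.1 h).2 β) fun h2 => h2 ▸ h1⟩,
    fun h1 => (bfe_iff.1 h1).2 γ (lt_add_one γ)⟩

theorem exists_Stab (D : Rr) : ∃ γ < w1, Stab LT (Str D) γ := by
  have : ∀ q : Σ n, (Fin n → ℕ) × (Fin n → ℕ), ∃ θ < w1, bf D D θ _ q.2.1 q.2.2 →
      ∀ θ' < w1, bf D D θ' _ q.2.1 q.2.2 := fun q => by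
    by_cases h : ∀ θ' < w1, bf D D θ' _ q.2.1 q.2.2
    · exact ⟨0, nat_lt_w1 0, fun _ => h⟩
    · push Not at h
      exact h.imp fun _ h => ⟨h.1, fun h' => (h.2 h').elim⟩
  choose θ h1 h2 using this
  obtain ⟨γ, h3, h4⟩ := exists_bound θ h1
  exact ⟨γ, h3, fun n a b h => h2 ⟨n, a, b⟩ (h.mono (h4 _).le) _ (succ_lt_w1 h3)⟩

theorem le_sr_iff {W D : Rr} [IsWellOrder ℕ (wr W)] :
    type (wr W) ≤ SR LT (Str D) ↔ ∀ i, ¬ Sy (bf D D (typein (wr W) i)) :=
  ⟨fun h i h1 => ((typein_lt_type _ i).trans_le h).not_ge (Stab.sr_le (sy_iff.1 h1)), fun h =>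
    let ⟨_, _, h1⟩ := exists_Stab D
    le_sr h1 fun β hβ h2 => by
      obtain ⟨i, rfl⟩ := typein_surj _ hβ
      exact h i (sy_iff.2 h2)⟩

/-- matrix of being a well-order -/
def WO (W : Rr) (s : ℕ → ℕ) : Prop :=
  (∀ a b, ¬ wr W a b → ¬ wr W b a → a = b) ∧ ¬ ∀ n a b, s (n + 1) = a → s n = b → wr W a b

theorem wo_iff {W : Rr} : IsWellOrder ℕ (wr W) ↔ ∀ s, WO W s :=
  ⟨fun h s => ⟨h.trichotomous, fun h1 =>
    (wellFounded_iff_isEmpty_descending_chain.1 h.wf).1 ⟨s, fun n => h1 n _ _ rfl rfl⟩⟩, fun h =>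
    { wf := wellFounded_iff_isEmpty_descending_chain.2
        ⟨fun s => (h s.1).2 fun n _ _ h1 h2 => h1 ▸ h2 ▸ s.2 n⟩
      trichotomous := (h id).1 }⟩

theorem exists_wo {α : Ordinal.{0}} (h : α < w1) :
    ∃ W, ∃ _ : IsWellOrder ℕ (wr W), α ≤ type (wr W) := by
  have : Countable (max α ω).ToType := Cardinal.mk_le_aleph0_iff.1
    (by simpa only [Cardinal.mk_toType] using lt_w1_iff.1 (max_lt h om_lt_w1))
  have : Infinite (max α ω).ToType := Cardinal.infinite_iff.2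
    (by simpa only [Cardinal.mk_toType] using aleph0_le_card.2 (le_max_right _ _))
  obtain ⟨d⟩ := nonempty_denumerable (max α ω).ToType
  let e := (Denumerable.eqv (max α ω).ToType).symm
  have h1 : ∀ r : ℕ → ℕ → Prop, r = e ⁻¹'o (· < ·) → ∃ _ : IsWellOrder ℕ r, α ≤ type r := by
    rintro _ rfl
    exact ⟨inferInstance, by rw [type_preimage, type_toType]; exact le_max_left _ _⟩
  exact ⟨fun n => decide (e n.unpair.1 < e n.unpair.2), h1 _ (by funext a b; simp)⟩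

/-- graphs of isomorphisms -/
def IG (E D D' : Rr) : Prop :=
  (∀ x, ∃ y, ∀ y', wr E x y' ↔ y' = y) ∧ (∀ y, ∃ x, ∀ x', wr E x' y ↔ x' = x) ∧
  ∀ k (r : ℕ × List ℕ) (v w : Fin k → ℕ), (∀ i, wr E (v i) (w i)) →
    (D (encode (r, List.ofFn v)) = true ↔ D' (encode (r, List.ofFn w)) = true)

theorem iso_iff {R : Rr → Prop} {D D' : Rr} : Iso R D D' ↔ ∃ E, R E ∧ IG E D D' := by
  refine ⟨fun ⟨e, h⟩ => ⟨_, h, fun x => ⟨e x, by simp [eq_comm]⟩,
    fun y => ⟨e.symm y, fun x => ?_⟩, fun k r v w h => ?_⟩, fun ⟨E, h, h1, h2, h3⟩ => ?_⟩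
  · simp only [wr, Nat.unpair_pair, decide_eq_true_iff]
    exact e.toEquiv.eq_symm_apply.symm
  · obtain rfl : e ∘ v = w := funext fun i => show @Eq ℕ _ _ by simpa using h i
    exact (e.map_rel r v).symm
  · choose f h1 using h1
    choose g h2 using h2
    refine ⟨⟨⟨f, g, fun x => ((h2 _ _).1 ((h1 x _).2 rfl)).symm,
      fun y => ((h1 _ _).1 ((h2 y _).2 rfl)).symm⟩, fun f => f.elim,
      fun r v => (h3 _ r v _ fun i => (h1 _ _).2 rfl).symm⟩, ?_⟩
    convert h with n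
    rw [Bool.eq_iff_iff, decide_eq_true_iff]
    exact eq_comm.trans ((h1 _ _).symm.trans (by simp))

theorem bnf {D D' : Rr} {B : T0} (h0 : B 0 Fin.elim0 Fin.elim0) (hs : Sy B)
    (ha : ∀ n a b, B n a b → AE D D' a b) : ∃ E, IG E D D' := by
  classical
  have : ∀ n (q : (Fin n → ℕ) × (Fin n → ℕ)), ∃ p : ℕ × ℕ, (B n q.1 q.2 →
      B (n + 1) (Fin.snoc q.1 p.1) (Fin.snoc q.2 p.2)) ∧ (∀ k, n = 2 * k → p.1 = k) ∧
      ∀ k, n = 2 * k + 1 → p.2 = k := fun n q => by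
    by_cases h : B n q.1 q.2
    · rcases Nat.even_or_odd' n with ⟨k, h1 | h1⟩
      · obtain ⟨y, h2⟩ := (hs _ _ _ h).1 k
        exact ⟨(k, y), fun _ => h2, fun _ _ => by dsimp only; omega, fun _ _ => by omega⟩
      · obtain ⟨x, h2⟩ := (hs _ _ _ h).2 k
        exact ⟨(x, k), fun _ => h2, fun _ _ => by omega, fun _ _ => by dsimp only; omega⟩
    · exact ⟨(n / 2, n / 2), fun h1 => (h h1).elim, fun _ _ => by dsimp only; omega,
        fun _ _ => by dsimp only; omega⟩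
  choose f h1 h2 h3 using this
  let T : ∀ n, (Fin n → ℕ) × (Fin n → ℕ) := fun n => Nat.rec (Fin.elim0, Fin.elim0)
    (fun n q => (Fin.snoc q.1 (f n q).1, Fin.snoc q.2 (f n q).2)) n
  have h4 : ∀ n, B n (T n).1 (T n).2 := fun n => by
    induction n with
    | zero => exact h0
    | succ n ih => exact h1 n _ ih
  have h5 : ∀ n, T n = (fun i : Fin n => (f i (T i)).1, fun i : Fin n => (f i (T i)).2) := by
    intro n
    induction n with
    | zero => exact Subsingleton.elim _ _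
    | succ n ih =>
      change ((Fin.snoc (T n).1 (f n (T n)).1 : Fin (n + 1) → ℕ),
        (Fin.snoc (T n).2 (f n (T n)).2 : Fin (n + 1) → ℕ)) = _
      refine Prod.ext (funext fun i => ?_) (funext fun i => ?_) <;>
        refine Fin.lastCases ?_ (fun i => ?_) i
      · simp
      · simpa using congrFun (congrArg Prod.fst ih) i
      · simp
      · simpa using congrFun (congrArg Prod.snd ih) i
  have h6 := fun n => ha n _ _ (h5 n ▸ h4 n :)
  have h7 : ∀ i j, (f i (T i)).1 = (f j (T j)).1 ↔ (f i (T i)).2 = (f j (T j)).2 := fun i j =>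
    (h6 (i + j + 1)).1 ⟨i, by omega⟩ ⟨j, by omega⟩
  refine ⟨fun n => decide (∃ i, (f i (T i)).1 = n.unpair.1 ∧ (f i (T i)).2 = n.unpair.2),
    fun x => ⟨(f _ (T (2 * x))).2, fun y => ?_⟩, fun y => ⟨(f _ (T (2 * y + 1))).1, fun x => ?_⟩,
    fun k r v w h => ?_⟩
  · simp only [Nat.unpair_pair, decide_eq_true_iff]
    exact ⟨fun ⟨i, h, h'⟩ => h' ▸ (h7 _ _).1 (h.trans (h2 _ _ x rfl).symm),
      fun h => ⟨_, h2 _ _ x rfl, h.symm⟩⟩
  · simp only [Nat.unpair_pair, decide_eq_true_iff]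
    exact ⟨fun ⟨i, h, h'⟩ => h ▸ (h7 _ _).2 (h'.trans (h3 _ _ y rfl).symm),
      fun h => ⟨_, h.symm, h3 _ _ y rfl⟩⟩
  · simp only [Nat.unpair_pair, decide_eq_true_iff] at h
    choose s h h' using h
    obtain ⟨N, hN⟩ := (finite_range s).bddAbove
    rw [← funext h, ← funext h']
    exact (h6 (N + 1)).2 k r fun i => ⟨s i, Nat.lt_succ_of_le (hN ⟨i, rfl⟩)⟩

theorem exists_str (M : Type) [LT.Structure M] [Countable M] [Infinite M] :
    ∃ D, Nonempty (Str D ≃[LT] M) := by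
  classical
  obtain ⟨d⟩ := nonempty_denumerable M
  refine ⟨fun n => decide (∃ k, ∃ r : ℕ × List ℕ, ∃ v : Fin k → ℕ, encode (r, List.ofFn v) = n ∧
    Structure.RelMap (L := LT) r ((Denumerable.eqv M).symm ∘ v)),
    ⟨⟨(Denumerable.eqv M).symm, fun f => f.elim, fun r v => ⟨fun h => decide_eq_true ⟨_, r, v, rfl, h⟩,
      fun h => ?_⟩⟩⟩⟩
  obtain ⟨k, r', v', h1, h2⟩ := of_decide_eq_true h
  obtain ⟨rfl, h3⟩ := Prod.mk.inj (encode_injective h1)
  obtain rfl : k = _ := by simpa using congrArg List.length h3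
  exact List.ofFn_injective h3 ▸ h2

end Pool.Agent.P.MP_b0885c_lc
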