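import Pool.Agent.P.MP_b0885c_lc.BC

namespace Pool.Agent.P.MP_b0885c_lc

open Set FreeGroup FirstOrder FirstOrder.Language

/-- definable properties -/
def Df (n : ℕ) (P : Tb → ∀ (M : Type) [LT.Structure M], (Fin n → M) → Prop) : Prop :=
  ∃ φ : Tb → Fml LT n, (∀ u k, Measurable fun x => (φ x).lab u = k) ∧
    ∀ (x : Tb) (M : Type) [LT.Structure M] (v : Fin n → M), (φ x).Sat v ↔ P x M v

section
variable {M : Type} [LT.Structure M]

/-- unary relations -/
def r1 (r : Rl 1) (x : M) : Prop := Structure.RelMap (L := LT) r.cd ![x]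

/-- projection relation -/
def r2 (x y : M) : Prop := Structure.RelMap (L := LT) Rl.Pj.cd ![x, y]

/-- action relation -/
def r3 (σ : List ℕ) (x e y : M) : Prop := Structure.RelMap (L := LT) (Rl.Act σ).cd ![x, e, y]

theorem rel1 (r : Rl 1) (f : Fin 1 → M) : Structure.RelMap (L := LT) r.cd f ↔ r1 r (f 0) := by
  rw [r1]; congr! 1; funext i; fin_cases i; rfl

theorem rel2 (f : Fin 2 → M) : Structure.RelMap (L := LT) Rl.Pj.cd f ↔ r2 (f 0) (f 1) := by
  rw [r2]; congr! 1; funext i; fin_cases i <;> rfl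

theorem rel3 (σ : List ℕ) (f : Fin 3 → M) :
    Structure.RelMap (L := LT) (Rl.Act σ).cd f ↔ r3 σ (f 0) (f 1) (f 2) := by
  rw [r3]; congr! 1; funext i; fin_cases i <;> rfl

open Classical in
/-- the real attached to an element -/
noncomputable def tp (x : M) : Re := fun p => decide (r1 (.R p.1 p.2) x)

/-- paths along a word -/
def Pa (e0 x : M) : List Ln → M → Prop
  | [], y => x = y
  | s :: w, y => ∃ z e, Pa e0 x w z ∧ r1 .A e ∧ tp e = md (tp e0) s.1.1 ∧
      ((s.2 = true ∧ r3 s.1.2 z e y) ∨ (s.2 = false ∧ r3 s.1.2 y e z))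

end

namespace Df

variable {n : ℕ} {P Q : Tb → ∀ (M : Type) [LT.Structure M], (Fin n → M) → Prop}

theorem congr (h : Df n P)
    (h' : ∀ (x : Tb) (M : Type) [LT.Structure M] (v : Fin n → M), P x M v ↔ Q x M v) : Df n Q :=
  let ⟨φ, h0, hφ⟩ := h
  ⟨φ, h0, fun x M _ v => (hφ x M v).trans (h' x M v)⟩

theorem not (h : Df n P) : Df n fun x M _ v => ¬ P x M v :=
  let ⟨φ, h0, hφ⟩ := h
  ⟨fun x => (φ x).neg, fun u k => by
    cases u with
    | nil => simp only [Fml.lab]; exact measurable_const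
    | cons _ u => exact h0 u k, fun x M _ v => not_congr (hφ x M v)⟩

theorem iAll {ι : Type} [Countable ι] [Nonempty ι]
    {P : ι → Tb → ∀ (M : Type) [LT.Structure M], (Fin n → M) → Prop} (h : ∀ i, Df n (P i)) :
    Df n fun x M _ v => ∀ i, P i x M v := by
  choose φ h0 hφ using h
  obtain ⟨f, hf⟩ := exists_surjective_nat ι
  refine ⟨fun x => .conj fun k => φ (f k) x, fun u k => ?_, fun x M _ v =>
    (forall_congr' fun k => hφ (f k) x M v).trans (hf.forall (p := fun i => P i x M v)).symm⟩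
  cases u with
  | nil => simp only [Fml.lab]; exact measurable_const
  | cons j u => exact h0 _ u k

theorem and (h : Df n P) (h' : Df n Q) : Df n fun x M _ v => P x M v ∧ Q x M v :=
  (iAll (P := fun b : Bool => cond b P Q) fun b => by cases b <;> assumption).congr
    fun _ _ _ _ => by simp [and_comm]

theorem or (h : Df n P) (h' : Df n Q) : Df n fun x M _ v => P x M v ∨ Q x M v :=
  (h.not.and h'.not).not.congr fun _ _ _ _ => by tauto

theorem imp (h : Df n P) (h' : Df n Q) : Df n fun x M _ v => P x M v → Q x M v :=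
  (h.and h'.not).not.congr fun _ _ _ _ => by tauto

theorem iff (h : Df n P) (h' : Df n Q) : Df n fun x M _ v => P x M v ↔ Q x M v :=
  ((h.imp h').and (h'.imp h)).congr fun _ _ _ _ => by tauto

theorem iEx {ι : Type} [Countable ι] [Nonempty ι]
    {P : ι → Tb → ∀ (M : Type) [LT.Structure M], (Fin n → M) → Prop} (h : ∀ i, Df n (P i)) :
    Df n fun x M _ v => ∃ i, P i x M v :=
  (iAll fun i => (h i).not).not.congr fun _ _ _ _ => by simp

theorem all {P : Tb → ∀ (M : Type) [LT.Structure M], (Fin n → M) → M → Prop}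
    (h : Df (n + 1) fun x M _ v => P x M (Fin.init v) (v (Fin.last n))) :
    Df n fun x M _ v => ∀ y, P x M v y :=
  let ⟨φ, h0, hφ⟩ := h
  ⟨fun x => (φ x).all, fun u k => by
    cases u with
    | nil => simp only [Fml.lab]; exact measurable_const
    | cons _ u => exact h0 u k,
    fun x M _ v => forall_congr' fun y => by simpa using hφ x M (Fin.snoc v y)⟩

theorem ex {P : Tb → ∀ (M : Type) [LT.Structure M], (Fin n → M) → M → Prop}
    (h : Df (n + 1) fun x M _ v => P x M (Fin.init v) (v (Fin.last n))) :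
    Df n fun x M _ v => ∃ y, P x M v y :=
  (all (P := fun x M _ v y => ¬ P x M v y) h.not).not.congr fun _ _ _ _ => by simp

theorem eq (i j : Fin n) : Df n fun _ _ _ v => v i = v j :=
  ⟨fun _ => .eq (.var i) (.var j), fun _ _ => measurable_const, fun _ _ _ _ => Iff.rfl⟩

theorem u1 (r : Rl 1) (i : Fin n) : Df n fun _ _ _ v => r1 r (v i) :=
  ⟨fun _ => .rel (L := LT) r.cd ![.var i], fun _ _ => measurable_const, fun _ _ _ _ => rel1 _ _⟩

theorem u2 (i j : Fin n) : Df n fun _ _ _ v => r2 (v i) (v j) :=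
  ⟨fun _ => .rel (L := LT) Rl.Pj.cd ![.var i, .var j], fun _ _ => measurable_const,
    fun _ _ _ _ => rel2 _⟩

theorem u3 (σ : List ℕ) (i j k : Fin n) : Df n fun _ _ _ v => r3 σ (v i) (v j) (v k) :=
  ⟨fun _ => .rel (L := LT) (Rl.Act σ).cd ![.var i, .var j, .var k], fun _ _ => measurable_const,
    fun _ _ _ _ => rel3 _ _⟩

theorem par {p : Tb → Prop} (hp : Measurable p) : Df n fun x _ _ _ => p x := by
  classical
  let φ : Fml LT n := .all (.eq (.var (Fin.last n)) (.var (Fin.last n)))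
  have hφ : ∀ (M : Type) [LT.Structure M] (v : Fin n → M), φ.Sat v := fun _ _ _ _ => rfl
  refine ⟨fun x => if p x then φ else φ.neg, fun u k => ?_, fun x M _ v => ?_⟩
  · have : (fun x => (if p x then φ else φ.neg).lab u = k) =
        fun x => (p x ∧ φ.lab u = k) ∨ (¬ p x ∧ φ.neg.lab u = k) := by
      funext x
      by_cases h : p x <;> simp [h]
    rw [this]
    exact (hp.and measurable_const).or (hp.not.and measurable_const)
  · by_cases h : p x
    · simp [h, hφ]
    · simp [h, Fml.Sat, hφ]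

theorem const (p : Prop) : Df n fun _ _ _ _ => p := par measurable_const

theorem meas {S : Tb → Re → Prop} (h : Measurable fun q : Tb × Re => S q.1 q.2) (i : Fin n) :
    Df n fun x _ _ v => S x (tp (v i)) := by
  obtain ⟨c, hc⟩ := exists_code (S := fun y : (List (ℕ × ℕ) × List ℕ) ⊕ (ℕ × ℕ) → Bool =>
    S (fun k => y (.inl k)) fun k => y (.inr k)) (h.comp
      (f := fun y : (List (ℕ × ℕ) × List ℕ) ⊕ (ℕ × ℕ) → Bool =>
        (fun k => y (.inl k), fun k => y (.inr k)))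
      ((measurable_pi_lambda _ fun _ => measurable_pi_apply _).prodMk
        (measurable_pi_lambda _ fun _ => measurable_pi_apply _)))
  have : Df n fun x _ _ v => c.ev (Sum.elim x (tp (v i))) := by
    clear hc
    induction c with
    | leaf k =>
      rcases k with k | ⟨p, q⟩
      · exact par (meas_bit (measurable_pi_apply k))
      · exact (u1 (.R p q) i).congr fun _ _ _ _ => by simp [BC.ev, tp]
    | nor f ih => exact iAll fun k => (ih k).not
  exact this.congr fun _ _ _ _ => hc _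

theorem mo (l : List ℕ) (i j : Fin n) : Df n fun _ _ _ v => tp (v i) = md (tp (v j)) l :=
  (iAll fun p : ℕ × ℕ => (u1 (.R p.1 p.2) i).iff
    (u1 (.R (l.getD p.1 p.1) (l.getD p.2 p.2)) j)).congr fun _ _ _ _ => by
      simp only [funext_iff, tp, md, decide_eq_decide]

theorem pa (w : List Ln) :
    ∀ {n : ℕ} (i j k : Fin n), Df n fun _ _ _ v => Pa (v i) (v j) w (v k) := by
  induction w with
  | nil => exact fun i j k => eq j k
  | cons s w ih =>
    exact fun i j k => ex (ex ((ih _ _ _).and ((u1 _ _).and ((mo _ _ _).and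
      (((const _).and (u3 _ _ _ _)).or ((const _).and (u3 _ _ _ _)))))))

theorem allN {k : ℕ} : ∀ {P : Tb → ∀ (M : Type) [LT.Structure M], (Fin k → M) → Prop},
    Df k P → Df 0 fun x M _ _ => ∀ v, P x M v := by
  induction k with
  | zero => exact fun h => h.congr fun _ _ _ v => ⟨fun h w => Subsingleton.elim v w ▸ h, fun h => h v⟩
  | succ k ih =>
    intro P h
    refine (ih (all (P := fun x M _ v y => P x M (Fin.snoc v y))
      (h.congr fun _ _ _ v => by rw [Fin.snoc_init_self]))).congr fun _ _ _ _ =>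
      ⟨fun h v => ?_, fun h v y => h _⟩
    simpa using h (Fin.init v) (v (Fin.last k))

end Df

/-- the models -/
structure IsM (In : Re → List ℕ → Prop) (M : Type) [LT.Structure M] : Prop where
  s1 : ∀ x : M, r1 .A x ∨ ∃ n, r1 (.X n) x
  s2 : ∀ (x : M) n, r1 (.X n) x → ¬ r1 .A x ∧ ∀ m, r1 (.X m) x → m = n
  s3 : ∀ (x : M) i j, r1 (.R i j) x → r1 .A x
  a1 : ∃ x : M, r1 .A x
  a2 : ∀ x y : M, r1 .A x → r1 .A y → tp x = md (tp y) [] → x = y
  a3 : ∀ (x : M) l, r1 .A x → ∃ y : M, r1 .A y ∧ tp y = md (tp x) l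
  a4 : ∀ x y : M, r1 .A x → r1 .A y → ∃ l, tp y = md (tp x) l
  x1 : ∀ n, ∃ x : M, r1 (.X n) x
  p1 : ∀ x y : M, r2 x y → ∃ n, r1 (.X (n + 1)) x ∧ r1 (.X n) y
  p2 : ∀ (x : M) n, r1 (.X (n + 1)) x → ∃ y, r2 x y
  p3 : ∀ x y y' : M, r2 x y → r2 x y' → y = y'
  c1 : ∀ σ (x e y : M), r3 σ x e y →
    r1 (.X σ.length) x ∧ r1 .A e ∧ r1 (.X σ.length) y ∧ In (tp e) σ
  c2 : ∀ σ (x e : M), r1 .A e → In (tp e) σ → r1 (.X σ.length) x →
    (∃ y, r3 σ x e y) ∧ ∃ y, r3 σ y e x
  c3 : ∀ σ (x e y y' : M), r3 σ x e y → r3 σ x e y' → y = y'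
  c4 : ∀ σ (x e y y' : M), r3 σ y e x → r3 σ y' e x → y = y'
  c5 : ∀ c σ (x e y x' y' : M), r3 (c :: σ) x e y → r2 x x' → r2 y y' → r3 σ x' e y'
  tr : ∀ n (e x y : M), r1 .A e → r1 (.X n) x → r1 (.X n) y → ∃ w, Pa e x w y
  fr : ∀ n w (e x : M), r1 .A e → r1 (.X n) x → Pa e x w x → wd (tp e) w = wd (tp e) []
  jk : ∀ k (r : ℕ × List ℕ) (v : Fin k → M), Structure.RelMap (L := LT) r v → ∃ s : Rl k, s.cd = r

theorem df_isM : Df 0 fun z M _ _ => IsM (InX z) M := by
  open Df in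
  have s1 : Df 0 fun z M _ _ => ∀ x : M, r1 .A x ∨ ∃ n, r1 (.X n) x :=
    all ((u1 _ _).or (iEx fun _ => u1 _ _))
  open Df in
  have s2 : Df 0 fun z M _ _ => ∀ (x : M) n, r1 (.X n) x → ¬ r1 .A x ∧ ∀ m, r1 (.X m) x → m = n :=
    all (iAll fun _ => (u1 _ _).imp ((u1 _ _).not.and (iAll fun _ => (u1 _ _).imp (const _))))
  open Df in
  have s3 : Df 0 fun z M _ _ => ∀ (x : M) i j, r1 (.R i j) x → r1 .A x :=
    all (iAll fun _ => iAll fun _ => (u1 _ _).imp (u1 _ _))
  open Df in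
  have a1 : Df 0 fun z M _ _ => ∃ x : M, r1 .A x := ex (u1 _ _)
  open Df in
  have a2 : Df 0 fun z M _ _ => ∀ x y : M, r1 .A x → r1 .A y → tp x = md (tp y) [] → x = y :=
    all (all ((u1 _ _).imp ((u1 _ _).imp ((mo _ _ _).imp (eq _ _)))))
  open Df in
  have a3 : Df 0 fun z M _ _ => ∀ (x : M) l, r1 .A x → ∃ y : M, r1 .A y ∧ tp y = md (tp x) l :=
    all (iAll fun _ => (u1 _ _).imp (ex ((u1 _ _).and (mo _ _ _))))
  open Df in
  have a4 : Df 0 fun z M _ _ => ∀ x y : M, r1 .A x → r1 .A y → ∃ l, tp y = md (tp x) l :=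
    all (all ((u1 _ _).imp ((u1 _ _).imp (iEx fun _ => mo _ _ _))))
  open Df in
  have x1 : Df 0 fun z M _ _ => ∀ n, ∃ x : M, r1 (.X n) x := iAll fun _ => ex (u1 _ _)
  open Df in
  have p1 : Df 0 fun z M _ _ => ∀ x y : M, r2 x y → ∃ n, r1 (.X (n + 1)) x ∧ r1 (.X n) y :=
    all (all ((u2 _ _).imp (iEx fun _ => (u1 _ _).and (u1 _ _))))
  open Df in
  have p2 : Df 0 fun z M _ _ => ∀ (x : M) n, r1 (.X (n + 1)) x → ∃ y, r2 x y :=
    all (iAll fun _ => (u1 _ _).imp (ex (u2 _ _)))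
  open Df in
  have p3 : Df 0 fun z M _ _ => ∀ x y y' : M, r2 x y → r2 x y' → y = y' :=
    all (all (all ((u2 _ _).imp ((u2 _ _).imp (eq _ _)))))
  open Df in
  have c1 : Df 0 fun z M _ _ => ∀ σ (x e y : M), r3 σ x e y →
      r1 (.X σ.length) x ∧ r1 .A e ∧ r1 (.X σ.length) y ∧ InX z (tp e) σ :=
    iAll fun σ => all (all (all ((u3 _ _ _ _).imp ((u1 _ _).and ((u1 _ _).and ((u1 _ _).and
      (meas (S := fun z t => InX z t σ) (meas_InX measurable_fst measurable_snd σ) _)))))))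
  open Df in
  have c2 : Df 0 fun z M _ _ => ∀ σ (x e : M), r1 .A e → InX z (tp e) σ → r1 (.X σ.length) x →
      (∃ y, r3 σ x e y) ∧ ∃ y, r3 σ y e x :=
    iAll fun σ => all (all ((u1 _ _).imp ((meas (S := fun z t => InX z t σ) (meas_InX measurable_fst measurable_snd σ) _).imp ((u1 _ _).imp
      ((ex (u3 _ _ _ _)).and (ex (u3 _ _ _ _)))))))
  open Df in
  have c3 : Df 0 fun z M _ _ => ∀ σ (x e y y' : M), r3 σ x e y → r3 σ x e y' → y = y' :=
    iAll fun σ => all (all (all (all ((u3 _ _ _ _).imp ((u3 _ _ _ _).imp (eq _ _))))))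
  open Df in
  have c4 : Df 0 fun z M _ _ => ∀ σ (x e y y' : M), r3 σ y e x → r3 σ y' e x → y = y' :=
    iAll fun σ => all (all (all (all ((u3 _ _ _ _).imp ((u3 _ _ _ _).imp (eq _ _))))))
  open Df in
  have c5 : Df 0 fun z M _ _ => ∀ c σ (x e y x' y' : M), r3 (c :: σ) x e y → r2 x x' → r2 y y' →
      r3 σ x' e y' :=
    iAll fun c => iAll fun σ => all (all (all (all (all ((u3 _ _ _ _).imp ((u2 _ _).imp
      ((u2 _ _).imp (u3 _ _ _ _))))))))
  open Df in
  have tr : Df 0 fun z M _ _ => ∀ n (e x y : M), r1 .A e → r1 (.X n) x → r1 (.X n) y →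
      ∃ w, Pa e x w y :=
    iAll fun n => all (all (all ((u1 _ _).imp ((u1 _ _).imp ((u1 _ _).imp
      (iEx fun w => pa w _ _ _))))))
  open Df in
  have fr : Df 0 fun z M _ _ => ∀ n w (e x : M), r1 .A e → r1 (.X n) x → Pa e x w x →
      wd (tp e) w = wd (tp e) [] :=
    iAll fun n => iAll fun w => all (all ((u1 _ _).imp ((u1 _ _).imp ((pa w _ _ _).imp
      (meas (S := fun _ t => wd t w = wd t []) ((meas_wd w []).comp measurable_snd) _)))))
  open Df in
  have jk : Df 0 fun z M _ _ => ∀ k (r : ℕ × List ℕ) (v : Fin k → M),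
      Structure.RelMap (L := LT) r v → ∃ s : Rl k, s.cd = r :=
    iAll fun k => iAll fun r => allN (imp ⟨fun _ => .rel (L := LT) r .var,
      fun _ _ => measurable_const, fun _ _ _ _ => Iff.rfl⟩ (const _))
  refine (s1.and (s2.and (s3.and (a1.and (a2.and (a3.and (a4.and (x1.and (p1.and (p2.and (p3.and
    (c1.and (c2.and (c3.and (c4.and (c5.and (tr.and (fr.and jk)))))))))))))))))).congr fun _ M _ _ =>
    ⟨fun ⟨a, b, c, d, e, f, g, h, i, j, k, l, m, n, o, p, q, r, s⟩ =>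
      ⟨a, b, c, d, e, f, g, h, i, j, k, l, m, n, o, p, q, r, s⟩,
    fun ⟨a, b, c, d, e, f, g, h, i, j, k, l, m, n, o, p, q, r, s⟩ =>
      ⟨a, b, c, d, e, f, g, h, i, j, k, l, m, n, o, p, q, r, s⟩⟩

end Pool.Agent.P.MP_b0885c_lc
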