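import Pool.Agent.P.MP_b0885c_lc.Mod

namespace Pool.Agent.P.MP_b0885c_lc

open Set FreeGroup

/-- Borel codes -/
inductive BC (K : Type) : Type
  | leaf (k : K) : BC K
  | nor (f : ℕ → BC K) : BC K

/-- the Borel set of a code -/
def BC.ev {K : Type} : BC K → (K → Bool) → Prop
  | .leaf k, t => t k = true
  | .nor f, t => ∀ n, ¬ (f n).ev t

theorem meas_bit {X : Type} [MeasurableSpace X] {f : X → Bool} (h : Measurable f) :
    Measurable fun x => f x = true := measurableSet_setOfPred.1 (h (measurableSet_singleton true))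

theorem BC.meas {K : Type} (c : BC K) : Measurable c.ev := by
  induction c with
  | leaf k => exact meas_bit (measurable_pi_apply k)
  | nor f ih => exact Measurable.forall fun n => (ih n).not

theorem exists_code {K : Type} [Nonempty K] {S : (K → Bool) → Prop} (h : Measurable S) :
    ∃ c : BC K, ∀ t, c.ev t ↔ S t := by
  have h' : MeasurableSet {t | S t} := measurableSet_setOfPred.2 h
  obtain ⟨k⟩ := ‹Nonempty K›
  let m : MeasurableSpace (K → Bool) :=
    { MeasurableSet' := fun S => ∃ c : BC K, ∀ t, c.ev t ↔ t ∈ S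
      measurableSet_empty := ⟨.nor fun n => if n = 0 then .leaf k else .nor fun _ => .leaf k,
        fun t => ⟨fun h => by
          have h0 := h 0
          have h1 := h 1
          simp [BC.ev] at h0 h1
          simp [h0] at h1, fun h => h.elim⟩⟩
      measurableSet_compl := fun S ⟨c, hc⟩ => ⟨.nor fun _ => c, fun t => by simp [BC.ev, hc]⟩
      measurableSet_iUnion := fun f hf => by
        choose c hc using hf
        exact ⟨.nor fun _ => .nor c, fun t => by simp [BC.ev, hc]⟩ }
  have : @Measurable (K → Bool) (K → Bool) m MeasurableSpace.pi id :=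
    @measurable_pi_lambda (K → Bool) K (fun _ => Bool) m _ _ fun p =>
      @measurable_to_bool (K → Bool) m _ ⟨.leaf p, fun t => Iff.rfl⟩
  exact this h'

/-- finite modification of a real -/
def md (t : Re) (l : List ℕ) : Re := fun p => t (l.getD p.1 p.1, l.getD p.2 p.2)

theorem md_nil (t : Re) : md t [] = t := by funext p; simp [md]

theorem exists_list (π : ℕ → ℕ) (N : ℕ) (h : ∀ i, N ≤ i → π i = i) :
    ∃ l : List ℕ, ∀ i, l.getD i i = π i := by
  refine ⟨(List.range N).map π, fun i => ?_⟩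
  rcases lt_or_ge i N with h1 | h1
  · simp [h1]
  · simp [h1, h i h1]

theorem md_md (l l' : List ℕ) : ∃ l'', ∀ t, md (md t l) l' = md t l'' := by
  obtain ⟨l'', h⟩ := exists_list (fun i => l.getD (l'.getD i i) (l'.getD i i))
    (max l.length l'.length) fun i hi => by
      rw [List.getD_eq_default l' _ (by omega), List.getD_eq_default l _ (by omega)]
  exact ⟨l'', fun t => by funext p; simp only [md, h]⟩

/-- the orbit of a real -/
def orb (t : Re) : Set Re := range (md t)

theorem self_mem_orb (t : Re) : t ∈ orb t := ⟨[], md_nil t⟩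

theorem orb_sub {t t' : Re} (h : t' ∈ orb t) : orb t' ⊆ orb t := by
  obtain ⟨l, rfl⟩ := h
  rintro _ ⟨l', rfl⟩
  obtain ⟨l'', h⟩ := md_md l l'
  exact ⟨l'', (h t).symm⟩

theorem measurable_md (l : List ℕ) : Measurable fun t => md t l :=
  measurable_pi_lambda _ fun _ => measurable_pi_apply _

theorem meas_fin {X ι : Type} [MeasurableSpace X] (F : Set ι) (hF : F.Finite) (f : ι → X → Prop)
    (hf : ∀ i ∈ F, Measurable (f i)) (P : X → Prop)
    (h : ∀ t t', (∀ i ∈ F, f i t ↔ f i t') → P t → P t') : Measurable P := by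
  have := hF.to_subtype
  have h1 : Measurable fun (t : X) (i : F) => f i t := measurable_pi_lambda _ fun i => hf i i.2
  have h2 : P = (fun s : F → Prop => ∃ t, P t ∧ s = fun i : F => f i t) ∘
      fun (t : X) (i : F) => f i t := by
    funext t
    exact propext ⟨fun ht => ⟨t, ht, rfl⟩, fun ⟨t', h3, h4⟩ =>
      h t' t (fun i hi => iff_of_eq (congrFun h4 ⟨i, hi⟩).symm) h3⟩
  rw [h2]
  exact (measurable_of_countable _).comp h1

theorem meas_eq_re {X : Type} [MeasurableSpace X] {f g : X → Re} (hf : Measurable f)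
    (hg : Measurable g) : Measurable fun x => f x = g x := by
  simp only [funext_iff]
  exact Measurable.forall fun p => measurableSet_setOfPred.1
    (measurableSet_eq_fun ((measurable_pi_apply p).comp hf) ((measurable_pi_apply p).comp hg))

/-- names of letters -/
abbrev Ln : Type := (List ℕ × List ℕ) × Bool

/-- value of a letter name -/
def gt (t : Re) (s : Ln) : Lb × Bool := ((md t s.1.1, s.1.2), s.2)

/-- value of a word -/
def wd (t : Re) (w : List Ln) : G := mk (w.map (gt t))

theorem wd_cons (t : Re) (s : Ln) (w : List Ln) : wd t (s :: w) = mk [gt t s] * wd t w := by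
  simp [wd, mul_mk]

theorem meas_wd (w w' : List Ln) : Measurable fun t => wd t w = wd t w' := by
  refine meas_fin {p : Ln × Ln | p.1 ∈ w ++ w' ∧ p.2 ∈ w ++ w'}
    ((List.finite_toSet _).prod (List.finite_toSet _)) (fun p t => md t p.1.1.1 = md t p.2.1.1)
    (fun p _ => meas_eq_re (measurable_md _) (measurable_md _)) _ fun t t' h ht => ?_
  classical
  let φ : Lb → Lb := fun a =>
    if h : ∃ s ∈ w ++ w', md t s.1.1 = a.1 then (md t' h.choose.1.1, a.2) else a
  have key : ∀ v : List Ln, (∀ s ∈ v, s ∈ w ++ w') → map φ (wd t v) = wd t' v := by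
    intro v hv
    rw [wd, map.mk, List.map_map, wd]
    congr 1
    refine List.map_congr_left fun s hs => ?_
    have h1 : ∃ s' ∈ w ++ w', md t s'.1.1 = md t s.1.1 := ⟨s, hv s hs, rfl⟩
    simp only [Function.comp, gt, φ, dif_pos h1]
    rw [show md t' h1.choose.1.1 = md t' s.1.1 from
      (h (h1.choose, s) ⟨h1.choose_spec.1, hv s hs⟩).1 h1.choose_spec.2]
  rw [← key w (by simp +contextual), ← key w' (by simp +contextual), ht]

/-- valid words -/
def Tr.Vw (T : Tr) (t : Re) (n : ℕ) (w : List Ln) : Prop :=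
  ∀ s ∈ w, s.1.2.length = n ∧ T.In (md t s.1.1) s.1.2

theorem Tr.Vw.mem {T : Tr} {t : Re} {n : ℕ} {w : List Ln} (h : T.Vw t n w) :
    wd t w ∈ H ((T.fo (orb t)).Lab n) := mk_mem_H fun a ha => by
  obtain ⟨s, hs, rfl⟩ := List.mem_map.1 ha
  exact ⟨⟨_, rfl⟩, h s hs⟩

theorem Tr.exists_wd {T : Tr} {t : Re} {n : ℕ} {g : G} (h : g ∈ H ((T.fo (orb t)).Lab n)) :
    ∃ w, T.Vw t n w ∧ wd t w = g := by
  have : ∀ v : List (Lb × Bool), (∀ a ∈ v, a.1 ∈ (T.fo (orb t)).Lab n) →
      ∃ w, T.Vw t n w ∧ w.map (gt t) = v := by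
    intro v
    induction v with
    | nil => exact fun _ => ⟨[], by simp [Tr.Vw], rfl⟩
    | cons a v ih =>
      intro hv
      obtain ⟨w, h1, h2⟩ := ih fun b hb => hv b (List.mem_cons_of_mem _ hb)
      obtain ⟨⟨l, h3⟩, h4, h5⟩ := hv a List.mem_cons_self
      refine ⟨((l, a.1.2), a.2) :: w, fun s hs => ?_, by simp [gt, h2, h3]⟩
      rcases List.mem_cons.1 hs with rfl | hs
      · exact ⟨h4, h3 ▸ h5⟩
      · exact h1 s hs
  obtain ⟨w, h1, h2⟩ := this _ h
  exact ⟨w, h1, by rw [wd, h2, mk_toWord]⟩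

theorem Tr.meas_Vw (T : Tr) (n : ℕ) (w : List Ln) : Measurable fun t => T.Vw t n w :=
  Measurable.forall fun s => measurable_const.imp
    (measurable_const.and ((T.meas s.1.2).comp (measurable_md s.1.1)))

/-- tables -/
abbrev Tb : Type := List (ℕ × ℕ) × List ℕ → Bool

/-- the real of a finite list -/
def ind (s : List (ℕ × ℕ)) : Re := fun q => decide (q ∈ s)

/-- the family of trees read from a table -/
def InX (x : Tb) (t : Re) (σ : List ℕ) : Prop :=
  ∃ N, ∀ N' ≥ N, ∀ s : List (ℕ × ℕ), (∀ q, q ∈ s ↔ q.1 < N' ∧ q.2 < N' ∧ t q = true) →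
    x (s, σ) = true

theorem meas_InX {X : Type} [MeasurableSpace X] {f : X → Tb} {g : X → Re} (hf : Measurable f)
    (hg : Measurable g) (σ : List ℕ) : Measurable fun x => InX (f x) (g x) σ :=
  Measurable.exists fun _ => Measurable.forall fun _ => measurable_const.imp
    (Measurable.forall fun _ => (Measurable.forall fun q => measurable_const.iff
      (measurable_const.and (measurable_const.and (meas_bit ((measurable_pi_apply q).comp hg))))).imp
      (meas_bit ((measurable_pi_apply _).comp hf)))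

/-- dependence on finitely many bits -/
def LC (P : Re → Prop) : Prop :=
  ∃ F : Set (ℕ × ℕ), F.Finite ∧ ∀ t t', (∀ q ∈ F, t q = t' q) → P t → P t'

theorem LC.meas {P : Re → Prop} (h : LC P) : Measurable P :=
  let ⟨F, h1, h2⟩ := h
  meas_fin F h1 (fun q t => t q = true) (fun q _ => meas_bit (f := fun t : Re => t q) (measurable_pi_apply q)) P
    fun t t' h => h2 t t' fun q hq => Bool.eq_iff_iff.2 (h q hq)

theorem LC.md {P : Re → Prop} (h : LC P) (l : List ℕ) : LC fun t => P (md t l) :=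
  let ⟨_, h1, h2⟩ := h
  ⟨_, h1.image fun q => (l.getD q.1 q.1, l.getD q.2 q.2), fun _ _ h =>
    h2 _ _ fun q hq => h _ ⟨q, hq, rfl⟩⟩

theorem LC.bound {P : Re → Prop} (h : LC P) :
    ∃ N, ∀ t t', (∀ q : ℕ × ℕ, q.1 < N → q.2 < N → t q = t' q) → P t → P t' := by
  obtain ⟨F, h1, h2⟩ := h
  obtain ⟨N, hN⟩ := (h1.image fun q => max q.1 q.2).bddAbove
  refine ⟨N + 1, fun t t' h => h2 t t' fun q hq => ?_⟩
  have : max q.1 q.2 ≤ N := hN ⟨q, hq, rfl⟩
  exact h q (by omega) (by omega)

theorem inX_iff {In : Re → List ℕ → Prop} {x : Tb} (hx : ∀ s σ, x (s, σ) = true ↔ In (ind s) σ)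
    {σ : List ℕ} (h : LC fun t => In t σ) (t : Re) : InX x t σ ↔ In t σ := by
  obtain ⟨N, hN⟩ := h.bound
  have key : ∀ N' ≥ N, ∀ s : List (ℕ × ℕ), (∀ q, q ∈ s ↔ q.1 < N' ∧ q.2 < N' ∧ t q = true) →
      ∀ q : ℕ × ℕ, q.1 < N → q.2 < N → ind s q = t q := fun N' h1 s hs q h2 h3 => by
    simp [ind, hs, h2.trans_le h1, h3.trans_le h1]
  refine ⟨fun ⟨M, hM⟩ => ?_, fun h => ⟨N, fun N' h1 s hs => (hx _ _).2
    (hN _ _ (fun q h2 h3 => (key N' h1 s hs q h2 h3).symm) h)⟩⟩
  have hs : ∀ q, q ∈ ((List.range (max M N)).product (List.range (max M N))).filter t ↔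
      q.1 < max M N ∧ q.2 < max M N ∧ t q = true := fun ⟨a, b⟩ => by
    simp only [List.mem_filter, List.pair_mem_product, List.mem_range, and_assoc]
  exact hN _ _ (key _ (le_max_right _ _) _ hs) ((hx _ _).1 (hM _ (le_max_left _ _) _ hs))

end Pool.Agent.P.MP_b0885c_lc
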