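import Pool.Agent.P.MP_b0885c_lc.Rank

namespace Pool.Agent.P.MP_b0885c_lc

open Ordinal Set FirstOrder FirstOrder.Language

variable {L : FirstOrder.Language.{0, 0}} {M N K : Type} [L.Structure M] [L.Structure N]
  [L.Structure K]

theorem AtEq.refl {n : ℕ} (a : Fin n → M) : AtEq L a a := ⟨fun _ _ => Iff.rfl, fun _ _ _ => Iff.rfl⟩

theorem AtEq.symm {n : ℕ} {a : Fin n → M} {b : Fin n → N} (h : AtEq L a b) : AtEq L b a :=
  ⟨fun t u => (h.1 t u).symm, fun k r ts => (h.2 k r ts).symm⟩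

theorem AtEq.trans {n : ℕ} {a : Fin n → M} {b : Fin n → N} {c : Fin n → K} (h : AtEq L a b)
    (h' : AtEq L b c) : AtEq L a c :=
  ⟨fun t u => (h.1 t u).trans (h'.1 t u), fun k r ts => (h.2 k r ts).trans (h'.2 k r ts)⟩

theorem AtEq.comp {n m : ℕ} {a : Fin n → M} {b : Fin n → N} (h : AtEq L a b) (f : Fin m → Fin n) :
    AtEq L (a ∘ f) (b ∘ f) :=
  ⟨fun t u => by simpa using h.1 (t.relabel f) (u.relabel f),
    fun k r ts => by simpa using h.2 k r fun i => (ts i).relabel f⟩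

theorem AtEq.iso {n : ℕ} (e : M ≃[L] N) (a : Fin n → M) : AtEq L a (e ∘ a) := by
  have key : ∀ t : L.Term (Fin n), t.realize (e ∘ a) = e (t.realize a) := fun t =>
    HomClass.realize_term e
  refine ⟨fun t u => by rw [key, key]; exact e.injective.eq_iff.symm, fun k r ts => ?_⟩
  simp only [key]
  exact (e.map_rel r fun i => (ts i).realize a).symm

theorem AtEq.eq {n : ℕ} {a : Fin n → M} {b : Fin n → N} (h : AtEq L a b) (i j : Fin n) :
    a i = a j ↔ b i = b j := h.1 (.var i) (.var j)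

theorem AtEq.rel {n k : ℕ} {a : Fin n → M} {b : Fin n → N} (h : AtEq L a b) (r : L.Relations k)
    (s : Fin k → Fin n) :
    (Structure.RelMap r fun i => a (s i)) ↔ Structure.RelMap r fun i => b (s i) :=
  h.2 k r fun i => .var (s i)

theorem bfe_iff {α : Ordinal.{0}} {n : ℕ} {a : Fin n → M} {b : Fin n → N} :
    BFE L α a b ↔ AtEq L a b ∧ ∀ β < α,
    (∀ x : M, ∃ y : N, BFE L β (Fin.snoc a x : Fin (n + 1) → M) (Fin.snoc b y : Fin (n + 1) → N)) ∧
    (∀ y : N, ∃ x : M, BFE L β (Fin.snoc a x : Fin (n + 1) → M) (Fin.snoc b y : Fin (n + 1) → N)) := by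
  rw [BFE]

theorem BFE.at {α : Ordinal.{0}} {n : ℕ} {a : Fin n → M} {b : Fin n → N} (h : BFE L α a b) :
    AtEq L a b := (bfe_iff.1 h).1

theorem BFE.forth {α β : Ordinal.{0}} {n : ℕ} {a : Fin n → M} {b : Fin n → N} (h : BFE L α a b)
    (hβ : β < α) (x : M) :
    ∃ y : N, BFE L β (Fin.snoc a x : Fin (n + 1) → M) (Fin.snoc b y : Fin (n + 1) → N) :=
  ((bfe_iff.1 h).2 β hβ).1 x

theorem BFE.back {α β : Ordinal.{0}} {n : ℕ} {a : Fin n → M} {b : Fin n → N} (h : BFE L α a b)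
    (hβ : β < α) (y : N) :
    ∃ x : M, BFE L β (Fin.snoc a x : Fin (n + 1) → M) (Fin.snoc b y : Fin (n + 1) → N) :=
  ((bfe_iff.1 h).2 β hβ).2 y

theorem BFE.mono {α β : Ordinal.{0}} {n : ℕ} {a : Fin n → M} {b : Fin n → N} (h : BFE L α a b)
    (hβ : β ≤ α) : BFE L β a b :=
  bfe_iff.2 ⟨h.at, fun γ hγ => (bfe_iff.1 h).2 γ (hγ.trans_le hβ)⟩

theorem BFE.symm {α : Ordinal.{0}} {n : ℕ} {a : Fin n → M} {b : Fin n → N} (h : BFE L α a b) :
    BFE L α b a := by
  induction α using WellFoundedLT.induction generalizing n with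
  | ind α ih =>
    exact bfe_iff.2 ⟨h.at.symm, fun β hβ => ⟨fun x => (h.back hβ x).imp fun _ h => ih β hβ h,
      fun x => (h.forth hβ x).imp fun _ h => ih β hβ h⟩⟩

theorem BFE.trans {α : Ordinal.{0}} {n : ℕ} {a : Fin n → M} {b : Fin n → N} {c : Fin n → K}
    (h : BFE L α a b) (h' : BFE L α b c) : BFE L α a c := by
  induction α using WellFoundedLT.induction generalizing n with
  | ind α ih =>
    refine bfe_iff.2 ⟨h.at.trans h'.at, fun β hβ => ⟨fun x => ?_, fun z => ?_⟩⟩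
    · obtain ⟨y, h1⟩ := h.forth hβ x
      obtain ⟨z, h2⟩ := h'.forth hβ y
      exact ⟨z, ih β hβ h1 h2⟩
    · obtain ⟨y, h2⟩ := h'.back hβ z
      obtain ⟨x, h1⟩ := h.back hβ y
      exact ⟨x, ih β hβ h1 h2⟩

theorem BFE.comp {α : Ordinal.{0}} {n m : ℕ} {a : Fin n → M} {b : Fin n → N} (h : BFE L α a b)
    (f : Fin m → Fin n) : BFE L α (a ∘ f) (b ∘ f) := by
  induction α using WellFoundedLT.induction generalizing n m with
  | ind α ih =>
    have key : ∀ {P : Type} (a : Fin n → P) (x : P), (Fin.snoc (a ∘ f) x : Fin (m + 1) → P) =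
        (Fin.snoc a x : Fin (n + 1) → P) ∘
          (Fin.snoc (Fin.castSucc ∘ f) (Fin.last n) : Fin (m + 1) → Fin (n + 1)) := by
      intro P a x
      funext i
      refine Fin.lastCases ?_ (fun i => ?_) i <;> simp
    refine bfe_iff.2 ⟨h.at.comp f, fun β hβ => ⟨fun x => ?_, fun y => ?_⟩⟩
    · obtain ⟨y, h1⟩ := h.forth hβ x
      exact ⟨y, by rw [key a, key b]; exact ih β hβ h1 _⟩
    · obtain ⟨x, h1⟩ := h.back hβ y
      exact ⟨x, by rw [key a, key b]; exact ih β hβ h1 _⟩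

theorem BFE.iso (e : M ≃[L] N) (α : Ordinal.{0}) {n : ℕ} (a : Fin n → M) : BFE L α a (e ∘ a) := by
  induction α using WellFoundedLT.induction generalizing n with
  | ind α ih =>
    refine bfe_iff.2 ⟨AtEq.iso e a, fun β hβ => ⟨fun x => ⟨e x, ?_⟩, fun y => ⟨e.symm y, ?_⟩⟩⟩
    · rw [← Fin.comp_snoc]; exact ih β hβ _
    · have := ih β hβ (Fin.snoc a (e.symm y) : Fin (n + 1) → M)
      rwa [Fin.comp_snoc, e.apply_symm_apply] at this

theorem BFE.refl (α : Ordinal.{0}) {n : ℕ} (a : Fin n → M) : BFE L α a a :=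
  BFE.iso (FirstOrder.Language.Equiv.refl L M) α a

theorem karp {n : ℕ} (φ : Fml L n) : ∃ β < w1, ∀ (M N : Type) [L.Structure M] [L.Structure N]
    (a : Fin n → M) (b : Fin n → N), BFE L β a b → (φ.Sat a ↔ φ.Sat b) := by
  induction φ with
  | eq t u => exact ⟨0, nat_lt_w1 0, fun M N _ _ a b h => h.at.1 t u⟩
  | rel r ts => exact ⟨0, nat_lt_w1 0, fun M N _ _ a b h => h.at.2 _ r ts⟩
  | neg φ ih =>
    obtain ⟨β, h1, h2⟩ := ih
    exact ⟨β, h1, fun M N _ _ a b h => not_congr (h2 M N a b h)⟩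
  | conj f ih =>
    choose β h1 h2 using ih
    obtain ⟨γ, h3, h4⟩ := exists_bound β h1
    exact ⟨γ, h3, fun M N _ _ a b h => forall_congr' fun i => h2 i M N a b (h.mono (h4 i).le)⟩
  | all φ ih =>
    obtain ⟨β, h1, h2⟩ := ih
    refine ⟨β + 1, succ_lt_w1 h1, fun M N _ _ a b h => ⟨fun H y => ?_, fun H x => ?_⟩⟩
    · obtain ⟨x, h3⟩ := h.back (lt_add_one β) y
      exact (h2 M N _ _ h3).1 (H x)
    · obtain ⟨y, h3⟩ := h.forth (lt_add_one β) x
      exact (h2 M N _ _ h3).2 (H y)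

theorem sat_iso (e : M ≃[L] N) (φ : Fml L 0) :
    φ.Sat (Fin.elim0 : Fin 0 → M) ↔ φ.Sat (Fin.elim0 : Fin 0 → N) := by
  obtain ⟨β, -, h⟩ := karp φ
  have := h M N _ _ (BFE.iso e β (Fin.elim0 : Fin 0 → M))
  rwa [show e ∘ (Fin.elim0 : Fin 0 → M) = Fin.elim0 from Subsingleton.elim _ _] at this

variable (L M) in
/-- the back and forth hierarchy is stable at `α` -/
def Stab (α : Ordinal.{0}) : Prop :=
  ∀ (n : ℕ) (a b : Fin n → M), BFE L α a b → BFE L (α + 1) a b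

theorem Stab.all {α : Ordinal.{0}} (h : Stab L M α) (κ : Ordinal.{0}) {n : ℕ} {a b : Fin n → M}
    (hab : BFE L α a b) : BFE L κ a b := by
  induction κ using WellFoundedLT.induction generalizing n with
  | ind κ ih =>
    exact bfe_iff.2 ⟨hab.at, fun β hβ =>
      ⟨fun x => ((h n a b hab).forth (lt_add_one α) x).imp fun _ h => ih β hβ h,
       fun x => ((h n a b hab).back (lt_add_one α) x).imp fun _ h => ih β hβ h⟩⟩

theorem Stab.sr_le {α : Ordinal.{0}} (h : Stab L M α) : SR L M ≤ α := csInf_le' h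

theorem le_sr {α γ : Ordinal.{0}} (h : Stab L M γ) (h' : ∀ β < α, ¬ Stab L M β) : α ≤ SR L M :=
  le_csInf ⟨γ, h⟩ fun β hβ => not_lt.1 fun h1 => h' β h1 hβ

theorem Stab.iso (e : M ≃[L] N) {α : Ordinal.{0}} (h : Stab L N α) : Stab L M α :=
  fun n a b hab => ((BFE.iso e _ a).trans (h n _ _
    (((BFE.iso e α a).symm.trans hab).trans (BFE.iso e α b)))).trans (BFE.iso e _ b).symm

theorem sat_and {n : ℕ} {φ ψ : Fml L n} {v : Fin n → M} : (φ.and ψ).Sat v ↔ φ.Sat v ∧ ψ.Sat v :=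
  ⟨fun h => ⟨by simpa using h 0, by simpa using h 1⟩, fun h i => by
    by_cases hi : i = 0
    · simpa [hi] using h.1
    · simpa [hi] using h.2⟩

end Pool.Agent.P.MP_b0885c_lc
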