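import Pool.Agent.P.MP_b0885c_lc.Cls

namespace Pool.Agent.P.MP_b0885c_lc

open Set FreeGroup FirstOrder FirstOrder.Language

namespace Tr

variable {T : Tr} {t : Re}

instance (T : Tr) (t : Re) (b : ℕ → G) : Nonempty (T.Md (orb t) b) :=
  ⟨⟨.inl t, self_mem_orb t⟩⟩

theorem tp_inl {A : Set Re} {b : ℕ → G} {x : T.Md A b} {e : Re} (h : x.1 = .inl e) : tp x = e := by
  funext p
  have : r1 (.R p.1 p.2) x ↔ e p = true :=
    ⟨fun ⟨_, h1, h2⟩ => by rw [Sum.inl.inj (h.symm.trans h1)]; exact h2, fun h1 => ⟨e, h, h1⟩⟩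
  simp [tp, this]

theorem pa_iff {b : ℕ → G} {e0 x : T.Md (orb t) b} {r : Re} (he : e0.1 = .inl r)
    {n : ℕ} {g : G} (hx : x.1 = .inr (n, g)) (w : List Ln) :
    ∀ y, Pa e0 x w y ↔ T.Vw r n w ∧ y.1 = .inr (n, wd r w * g) := by
  have hr : r ∈ orb t := by have := e0.2; rwa [he] at this
  have hg : g ∈ H ((T.fo (orb t)).Lab n) := by have := x.2; rwa [hx] at this
  induction w with
  | nil =>
    intro y
    simp only [Pa, Vw, List.not_mem_nil, false_imp_iff, implies_true, true_and, wd, List.map_nil,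
      ← one_eq_mk, one_mul, ← hx]
    exact ⟨fun h => h ▸ rfl, fun h => (Subtype.ext h).symm⟩
  | cons s w ih =>
    intro y
    obtain ⟨⟨l, σ⟩, ε⟩ := s
    simp only [Pa, ih, wd_cons, tp_inl he]
    have hi : (FreeGroup.mk [((md r l, σ), false)] : G) = (of (md r l, σ))⁻¹ := rfl
    constructor
    · rintro ⟨z, e, ⟨h1, h2⟩, -, h3, ⟨rfl, e', g', h4, h5, h6, h7⟩ | ⟨rfl, e', g', h4, h5, h6, h7⟩⟩
      · obtain rfl := (tp_inl h6).symm.trans h3
        obtain ⟨rfl, rfl⟩ := Prod.mk.inj (Sum.inr.inj (h2.symm.trans h5))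
        exact ⟨List.forall_mem_cons.2 ⟨⟨rfl, h4⟩, h1⟩, by rw [mul_assoc]; exact h7⟩
      · obtain rfl := (tp_inl h6).symm.trans h3
        obtain ⟨rfl, h8⟩ := Prod.mk.inj (Sum.inr.inj (h2.symm.trans h7))
        refine ⟨List.forall_mem_cons.2 ⟨⟨rfl, h4⟩, h1⟩, ?_⟩
        rw [mul_assoc, h8, gt, hi, inv_mul_cancel_left]
        exact h5
    · rintro ⟨h1, h2⟩
      obtain ⟨⟨rfl, h3⟩, h4⟩ := List.forall_mem_cons.1 h1
      have h5 : wd r w ∈ H ((T.fo (orb t)).Lab σ.length) :=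
        H_mono (C := (T.fo (orb r)).Lab _) (D := (T.fo (orb t)).Lab _)
          (fun a ha => And.intro (orb_sub hr ha.1) ha.2) (Vw.mem h4)
      refine ⟨⟨.inr (σ.length, wd r w * g), mul_mem h5 hg⟩, ⟨.inl (md r l), orb_sub hr ⟨l, rfl⟩⟩,
        ⟨h4, rfl⟩, ⟨_, rfl⟩, tp_inl rfl, ?_⟩
      cases ε with
      | true => exact .inl ⟨rfl, _, _, h3, rfl, rfl, by rw [← mul_assoc]; exact h2⟩
      | false =>
        refine .inr ⟨rfl, _, _, h3, h2, rfl, ?_⟩
        change Sum.inr _ = _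
        rw [mul_assoc, gt, hi, mul_inv_cancel_left]

theorem isM_can (h : ∀ t' ∈ orb t, t ∈ orb t') : IsM T.In (T.Md (orb t) fun _ => 1) where
  s1 := by
    rintro ⟨e | ⟨n, g⟩, hx⟩
    exacts [.inl ⟨e, rfl⟩, .inr ⟨n, g, rfl⟩]
  s2 := by
    rintro x n ⟨g, hg⟩
    exact ⟨fun ⟨e, he⟩ => Sum.inr_ne_inl (hg.symm.trans he), fun m ⟨g', hg'⟩ =>
      (Prod.mk.inj (Sum.inr.inj (hg'.symm.trans hg))).1⟩
  s3 := fun _ _ _ ⟨e, he, _⟩ => ⟨e, he⟩
  a1 := ⟨⟨.inl t, self_mem_orb t⟩, t, rfl⟩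
  a2 := by
    rintro x y ⟨e, he⟩ ⟨e', he'⟩ h
    rw [md_nil, tp_inl (x := x) he, tp_inl (x := y) he'] at h
    exact Subtype.ext (he.trans (h ▸ he'.symm))
  a3 := by
    rintro ⟨_, hx⟩ l ⟨e, rfl⟩
    exact ⟨⟨.inl (md e l), orb_sub hx ⟨l, rfl⟩⟩, ⟨_, rfl⟩, by rw [tp_inl rfl, tp_inl rfl]⟩
  a4 := by
    rintro ⟨_, hx⟩ ⟨_, hy⟩ ⟨e, rfl⟩ ⟨e', rfl⟩
    obtain ⟨l, hl⟩ := orb_sub (h e hx) hy
    exact ⟨l, by rw [tp_inl rfl, tp_inl rfl, hl]⟩
  x1 := fun n => ⟨⟨.inr (n, 1), one_mem _⟩, 1, rfl⟩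
  p1 := fun _ _ ⟨n, _, h1, h2⟩ => ⟨n, ⟨_, h1⟩, _, h2⟩
  p2 := by
    rintro ⟨_, hx⟩ n ⟨g, rfl⟩
    exact ⟨⟨.inr (n, map pd0 g * 1), Fo.pp_mem (b := fun _ => 1) (fun _ => one_mem _) hx⟩,
      n, g, rfl, rfl⟩
  p3 := by
    rintro x y y' ⟨n, g, h1, h2⟩ ⟨n', g', h3, h4⟩
    obtain ⟨h5, rfl⟩ := Prod.mk.inj (Sum.inr.inj (h1.symm.trans h3))
    obtain rfl := Nat.succ.inj h5
    exact Subtype.ext (h2.trans h4.symm)
  c1 := fun _ _ x _ ⟨e, g, h0, h1, h2, h3⟩ => ⟨⟨_, h1⟩, ⟨_, h2⟩, ⟨_, h3⟩, by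
    rw [tp_inl (x := x) h2]; exact h0⟩
  c2 := by
    rintro σ ⟨_, hx⟩ ⟨_, he⟩ ⟨e, rfl⟩ h1 ⟨g, rfl⟩
    rw [tp_inl rfl] at h1
    have h2 : of (e, σ) ∈ H ((T.fo (orb t)).Lab σ.length) := of_mem_H.2 ⟨he, rfl, h1⟩
    exact ⟨⟨⟨.inr (_, of (e, σ) * g), mul_mem h2 hx⟩, e, g, h1, rfl, rfl, rfl⟩,
      ⟨.inr (_, (of (e, σ))⁻¹ * g), mul_mem (inv_mem h2) hx⟩, e, _, h1, rfl, rfl, by
        change Sum.inr _ = _
        rw [mul_inv_cancel_left]⟩
  c3 := by
    rintro σ x e y y' ⟨r, g, -, h1, h2, h3⟩ ⟨r', g', -, h4, h5, h6⟩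
    obtain rfl := (Prod.mk.inj (Sum.inr.inj (h1.symm.trans h4))).2
    obtain rfl := Sum.inl.inj (h2.symm.trans h5)
    exact Subtype.ext (h3.trans h6.symm)
  c4 := by
    rintro σ x e y y' ⟨r, g, -, h1, h2, h3⟩ ⟨r', g', -, h4, h5, h6⟩
    obtain rfl := Sum.inl.inj (h2.symm.trans h5)
    obtain rfl := mul_left_cancel (Prod.mk.inj (Sum.inr.inj (h3.symm.trans h6))).2
    exact Subtype.ext (h1.trans h4.symm)
  c5 := by
    rintro c σ x e y x' y' ⟨r, g, h0, h1, h2, h3⟩ ⟨n, g1, h4, h5⟩ ⟨m, g2, h6, h7⟩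
    obtain ⟨h8, rfl⟩ := Prod.mk.inj (Sum.inr.inj (h1.symm.trans h4))
    obtain ⟨h9, rfl⟩ := Prod.mk.inj (Sum.inr.inj (h3.symm.trans h6))
    obtain rfl := Nat.succ.inj h8
    obtain rfl := Nat.succ.inj h9
    exact ⟨r, _, T.tl _ _ _ h0, h5, h2, h7.trans (by simp [pd0])⟩
  tr := by
    rintro n ⟨_, he⟩ ⟨_, hx⟩ ⟨_, hy⟩ ⟨e, rfl⟩ ⟨g, rfl⟩ ⟨g', rfl⟩
    obtain ⟨w, h1, h2⟩ := exists_wd (T := T) (t := e) (n := n) (H_mono (C := (T.fo (orb t)).Lab _)
      (fun a ha => And.intro (orb_sub (h e he) ha.1) ha.2) (mul_mem hy (inv_mem hx)))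
    exact ⟨w, (pa_iff rfl rfl w _).2 ⟨h1, by simp [h2]⟩⟩
  fr := by
    rintro n w e x ⟨r, he⟩ ⟨g, hg⟩ h1
    have := ((pa_iff he hg w x).1 h1).2
    rw [tp_inl (x := e) he]
    exact mul_eq_right.1 (Prod.mk.inj (Sum.inr.inj (this.symm.trans hg))).2
  jk := fun _ _ _ h => T.rel_junk h

end Tr

/-- basic clopen sets -/
abbrev Kt : Type := (ℕ × ℕ) ⊕ (List ℕ × List ℕ)

open Classical in
/-- valuation of the basic clopen sets -/
noncomputable def XV (In : Re → List ℕ → Prop) (t : Re) : Kt → Bool :=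
  Sum.elim t fun p => decide (In (md t p.1) p.2)

/-- names -/
abbrev Nm : Type := List ℕ ⊕ (ℕ × List Ln)

/-- value of a name -/
def val (t : Re) : Nm → U
  | .inl l => .inl (md t l)
  | .inr p => .inr (p.1, wd t p.2)

/-- valid names -/
def Vd (x : Kt → Bool) : Nm → Prop
  | .inl _ => True
  | .inr p => ∀ s ∈ p.2, s.1.2.length = p.1 ∧ x (.inr s.1) = true

theorem meas_Vd (μ : Nm) : Measurable fun x => Vd x μ := by
  rcases μ with l | p
  · exact measurable_const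
  · exact Measurable.forall fun s => measurable_const.imp
      (measurable_const.and (meas_bit (measurable_pi_apply _)))

theorem meas_val (μ μ' : Nm) : Measurable fun t => val t μ = val t μ' := by
  rcases μ with l | ⟨n, w⟩ <;> rcases μ' with l' | ⟨n', w'⟩ <;>
    simp only [val, Sum.inl.injEq, Sum.inr.injEq, Prod.mk.injEq, reduceCtorEq]
  exacts [meas_eq_re (measurable_md _) (measurable_md _), measurable_const, measurable_const,
    measurable_const.and (meas_wd _ _)]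

theorem Tr.exists_nm {T : Tr} {t : Re} {b : ℕ → G} (a : T.Md (orb t) b) :
    ∃ μ, Vd (XV T.In t) μ ∧ a.1 = val t μ := by
  obtain ⟨e | ⟨n, g⟩, ha⟩ := a
  · obtain ⟨l, rfl⟩ := ha
    exact ⟨.inl l, trivial, rfl⟩
  · obtain ⟨w, h1, rfl⟩ := Tr.exists_wd ha
    exact ⟨.inr (n, w), fun s hs => ⟨(h1 s hs).1, by simpa [XV] using (h1 s hs).2⟩, rfl⟩

theorem Tr.un_val {T : Tr} {t : Re} {μ : Nm} (h : Vd (XV T.In t) μ) : T.Un (orb t) (val t μ) := by
  rcases μ with l | ⟨n, w⟩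
  · exact ⟨l, rfl⟩
  · exact Tr.Vw.mem (T := T) fun s hs => ⟨(h s hs).1, by simpa [XV] using (h s hs).2⟩

instance (T : Tr) (t : Re) (b : ℕ → G) : Countable (T.Md (orb t) b) := by
  choose f _ hf using Tr.exists_nm (T := T) (t := t) (b := b)
  exact Function.Injective.countable (f := f) fun a a' h => Subtype.ext (by rw [hf, hf, h])

/-- labels -/
abbrev Jt : Type := ℕ × (ℕ × List ℕ) × List ℕ

/-- atomic truth -/
def SAt (j : Jt) (g : ℕ → Nm) (x : Kt → Bool) : Prop :=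
  (j.1 = 0 ∧ val (fun q => x (.inl q)) (g 0) = val (fun q => x (.inl q)) (g 1)) ∨ (j.1 = 1 ∧ (
  (j.2.2.length = 1 ∧ j.2.1 = (0, []) ∧ ∃ l, g 0 = .inl l) ∨
  (j.2.2.length = 1 ∧ ∃ n w, j.2.1 = (1, [n]) ∧ g 0 = .inr (n, w)) ∨
  (j.2.2.length = 1 ∧ ∃ p q l, j.2.1 = (2, [p, q]) ∧ g 0 = .inl l ∧
    md (fun q => x (.inl q)) l (p, q) = true) ∨
  (j.2.2.length = 2 ∧ j.2.1 = (3, []) ∧ ∃ n w, g 0 = .inr (n + 1, w) ∧
    val (fun q => x (.inl q)) (g 1) =
    val (fun q => x (.inl q)) (.inr (n, w.map fun s => ((s.1.1, s.1.2.tail), s.2)))) ∨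
  (j.2.2.length = 3 ∧ j.2.1.1 = 4 ∧ ∃ l w, x (.inr (l, j.2.1.2)) = true ∧
    g 0 = .inr (j.2.1.2.length, w) ∧
    val (fun q => x (.inl q)) (g 1) = val (fun q => x (.inl q)) (.inl l) ∧
    val (fun q => x (.inl q)) (g 2) =
      val (fun q => x (.inl q)) (.inr (j.2.1.2.length, ((l, j.2.1.2), true) :: w)))))

theorem meas_SAt (j : Jt) (g : ℕ → Nm) : Measurable (SAt j g) := by
  have h : Measurable fun (x : Kt → Bool) (q : ℕ × ℕ) => x (.inl q) :=
    measurable_pi_lambda _ fun _ => measurable_pi_apply _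
  have hv := fun μ μ' => (meas_val μ μ').comp h
  exact (measurable_const.and (hv _ _)).or (measurable_const.and (measurable_const.or
    (measurable_const.or ((measurable_const.and (.exists fun _ => .exists fun _ => .exists fun l =>
      measurable_const.and (measurable_const.and (meas_bit (measurable_pi_apply _))))).or
    ((measurable_const.and (measurable_const.and
      (.exists fun _ => .exists fun _ => measurable_const.and (hv _ _)))).or
    (measurable_const.and (measurable_const.and (.exists fun _ => .exists fun _ =>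
      (meas_bit (measurable_pi_apply _)).and
      (measurable_const.and ((hv _ _).and (hv _ _)))))))))))

theorem val_inl {t : Re} {μ : Nm} {e : Re} : val t μ = .inl e ↔ ∃ l, μ = .inl l ∧ md t l = e := by
  rcases μ with l | p <;> simp [val]

theorem val_inr {t : Re} {μ : Nm} {n : ℕ} {g : G} :
    val t μ = .inr (n, g) ↔ ∃ w, μ = .inr (n, w) ∧ wd t w = g := by
  rcases μ with l | ⟨m, w⟩
  · simp [val]
  · simp only [val, Sum.inr.injEq, Prod.mk.injEq]
    exact ⟨fun ⟨h1, h2⟩ => ⟨w, ⟨h1, rfl⟩, h2⟩, fun ⟨_, ⟨h1, h2⟩, h3⟩ => ⟨h1, h2 ▸ h3⟩⟩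

theorem map_wd (t : Re) (w : List Ln) :
    map pd0 (wd t w) = wd t (w.map fun s => ((s.1.1, s.1.2.tail), s.2)) := by
  rw [wd, wd, map.mk, List.map_map, List.map_map]
  rfl

theorem rel_iff (T : Tr) (t : Re) {k : ℕ} (r : ℕ × List ℕ) {l : List ℕ} (hl : l.length = k)
    (g : ℕ → Nm) : (T.rel (fun _ => 1) r fun i : Fin k => val t (g i)) ↔
      SAt (1, r, l) g (XV T.In t) := by
  have ht : (fun q => XV T.In t (.inl q)) = t := rfl
  simp only [SAt, ht, hl, one_ne_zero, false_and, true_and, false_or]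
  constructor
  · intro h
    obtain ⟨r, rfl⟩ := T.rel_junk h
    cases r with
    | A => exact .inl ⟨rfl, rfl, let ⟨_, h⟩ := h; let ⟨l, h, _⟩ := val_inl.1 h; ⟨l, h⟩⟩
    | X n =>
      exact .inr (.inl ⟨rfl, let ⟨_, h⟩ := h; let ⟨w, h, _⟩ := val_inr.1 h; ⟨n, w, rfl, h⟩⟩)
    | R i j =>
      obtain ⟨_, h1, h2⟩ := h
      obtain ⟨l, h3, rfl⟩ := val_inl.1 h1
      exact .inr (.inr (.inl ⟨rfl, i, j, l, rfl, h3, h2⟩))
    | Pj =>
      obtain ⟨n, _, h1, h2⟩ := h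
      obtain ⟨w, h3, rfl⟩ := val_inr.1 h1
      exact .inr (.inr (.inr (.inl ⟨rfl, rfl, n, w, h3, by
        rw [mul_one, map_wd] at h2; exact h2⟩)))
    | Act σ =>
      obtain ⟨e, _, h0, h1, h2, h3⟩ := h
      obtain ⟨w, h4, rfl⟩ := val_inr.1 h1
      obtain ⟨l, -, rfl⟩ := val_inl.1 h2
      exact .inr (.inr (.inr (.inr ⟨rfl, rfl, l, w, by simpa [XV, Rl.cd] using h0, h4, h2, h3⟩)))
  · rintro (⟨rfl, rfl, l, h⟩ | ⟨rfl, n, w, rfl, h⟩ | ⟨rfl, p, q, l, rfl, h1, h2⟩ |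
      ⟨rfl, rfl, n, w, h1, h2⟩ | ⟨rfl, h, l, w, h0, h1, h2, h3⟩)
    · exact ⟨_, val_inl.2 ⟨l, h, rfl⟩⟩
    · exact ⟨_, val_inr.2 ⟨w, h, rfl⟩⟩
    · exact ⟨_, val_inl.2 ⟨l, h1, rfl⟩, h2⟩
    · exact ⟨n, _, val_inr.2 ⟨w, h1, rfl⟩, by rw [mul_one, map_wd]; exact h2⟩
    · obtain ⟨_, σ⟩ := r
      obtain rfl : _ = 4 := h
      exact ⟨_, _, by simpa [XV] using h0, val_inr.2 ⟨w, h1, rfl⟩, h2, h3⟩

/-- codes of atomic truth -/
noncomputable def cAt (j : Jt) (ν : List Nm) : BC Kt :=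
  (exists_code (meas_SAt j fun i => ν.getD (j.2.2.getD i 0) (.inl []))).choose

/-- codes of invalidity -/
noncomputable def cInv (μ : Nm) : BC Kt := (exists_code (meas_Vd μ).not).choose

/-- enumeration of names -/
noncomputable def nm : ℕ → Nm := (exists_surjective_nat Nm).choose

/-- states -/
abbrev St : Type := List ℕ × List Nm × ℕ × ℕ

/-- transitions -/
noncomputable def act (s : St) (j : Jt) : BC Kt ⊕ (ℕ → St) :=
  match s with
  | (u, ν, 0, _) => if j.1 = 2 then .inr fun _ => (u ++ [0], ν, 0, 0) else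
      if j.1 = 3 ∨ j.1 = 4 then .inr fun k => (u, ν, 2, k) else .inl (cAt j ν)
  | (u, ν, 1, _) => .inr fun _ => (u, ν, 0, 0)
  | (u, ν, 2, k) => if j.1 = 3 then .inr fun _ => (u ++ [k], ν, 0, 0) else
      .inr fun i => if i = 0 then (u, ν, 3, k) else (u ++ [0], ν ++ [nm k], 0, 0)
  | (_, _, _ + 3, k) => .inl (cInv (nm k))

/-- the code computed from a labelling -/
inductive Cb (D : List ℕ → Jt → Prop) : St → BC Kt → Prop
  | leaf {s j c} : D s.1 j → act s j = .inl c → Cb D s c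
  | nor {s j g} {c : ℕ → BC Kt} : D s.1 j → act s j = .inr g → (∀ n, Cb D (g n) (c n)) →
      Cb D s (.nor c)

theorem exists_cb {D : List ℕ → Jt → Prop} {n : ℕ} (φ : Fml LT n) :
    ∀ (u : List ℕ) (ν : List Nm), ν.length = n → (∀ v, D (u ++ v) (φ.lab v)) →
    ∃ c, Cb D (u, ν, 0, 0) c ∧ ∀ (T : Tr) (t : Re) (a : Fin n → T.Md (orb t) fun _ => 1),
      (∀ i, (a i).1 = val t (ν.getD i (.inl []))) → (φ.Sat a ↔ c.ev (XV T.In t)) := by
  have hv : ∀ {n : ℕ} (t : LT.Term (Fin n)), ∃ i, t = .var i := fun t => by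
    cases t with
    | var i => exact ⟨i, rfl⟩
    | func f _ => exact f.elim
  induction φ with
  | eq t1 t2 =>
    intro u ν hν hD
    obtain ⟨i, rfl⟩ := hv t1
    obtain ⟨j, rfl⟩ := hv t2
    refine ⟨cAt (0, (0, []), [i, j]) ν, .leaf (j := (0, (0, []), [i, j])) (by simpa [Fml.lab, vr] using hD []) rfl,
      fun T t a ha => ?_⟩
    rw [cAt, (exists_code (meas_SAt _ _)).choose_spec]
    change a i = a j ↔ _
    rw [show a i = a j ↔ (a i).1 = (a j).1 from Subtype.ext_iff, ha, ha]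
    simp only [SAt, true_and, zero_ne_one, false_and, or_false]
    rfl
  | @rel n k r ts =>
    intro u ν hν hD
    choose s hs using fun i => hv (ts i)
    obtain rfl : ts = fun i => .var (s i) := funext hs
    refine ⟨cAt (1, r, List.ofFn fun i => (s i : ℕ)) ν,
      .leaf (j := (1, r, List.ofFn fun i => (s i : ℕ)))
      (by simpa [Fml.lab, vr] using hD []) rfl, fun T t a ha => ?_⟩
    rw [cAt, (exists_code (meas_SAt _ _)).choose_spec, ← rel_iff T t r List.length_ofFn]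
    change T.rel _ r _ ↔ _
    congr! 2 with i
    simp [ha]
  | neg φ ih =>
    intro u ν hν hD
    obtain ⟨c, h1, h2⟩ := ih (u ++ [0]) ν hν fun v => by simpa [Fml.lab] using hD (0 :: v)
    exact ⟨.nor fun _ => c, .nor (j := (2, (0, []), [])) (by simpa [Fml.lab, vr] using hD []) rfl fun _ => h1,
      fun T t a ha => by simp [BC.ev, Fml.Sat, h2 T t a ha]⟩
  | conj f ih =>
    intro u ν hν hD
    choose c h1 h2 using fun k => ih k (u ++ [k]) ν hν fun v => by simpa [Fml.lab] using hD (k :: v)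
    have h0 : D u (3, (0, []), []) := by simpa [Fml.lab, vr] using hD []
    exact ⟨.nor fun k => .nor fun _ => c k, .nor h0 rfl fun k => .nor h0 rfl fun _ => h1 k,
      fun T t a ha => by simp [BC.ev, Fml.Sat, fun k => h2 k T t a ha]⟩
  | @all n φ ih =>
    intro u ν hν hD
    choose c h1 h2 using fun k => ih (u ++ [0]) (ν ++ [nm k]) (by simp [hν])
      fun v => by simpa [Fml.lab] using hD (0 :: v)
    have h0 : D u (4, (0, []), [n]) := by simpa [Fml.lab, vr] using hD []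
    refine ⟨.nor fun k => .nor fun i => if i = 0 then cInv (nm k) else c k,
      .nor h0 rfl fun k => .nor h0 rfl fun i => ?_, fun T t a ha => ?_⟩
    · by_cases hi : i = 0
      · simp only [if_pos hi]
        exact .leaf h0 rfl
      · simp only [if_neg hi]
        exact h1 k
    have key : ∀ k (x : T.Md (orb t) fun _ => 1), x.1 = val t (nm k) →
        (φ.Sat (Fin.snoc a x : Fin (n + 1) → _) ↔ (c k).ev (XV T.In t)) := fun k x hx =>
      h2 k T t _ fun i => by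
        refine Fin.lastCases ?_ (fun i => ?_) i
        · simp [hx, ← hν]
        · rw [Fin.snoc_castSucc, ha, Fin.val_castSucc, List.getD_append _ _ _ _ (hν ▸ i.2)]
    have hinv : ∀ k, (cInv (nm k)).ev (XV T.In t) ↔ ¬ Vd (XV T.In t) (nm k) := fun k =>
      (exists_code (meas_Vd _).not).choose_spec _
    refine ⟨fun H k H' => ?_, fun H x => ?_⟩
    · have h3 : ¬ (cInv (nm k)).ev (XV T.In t) := H' 0
      rw [hinv, not_not] at h3
      exact H' 1 ((key k ⟨_, Tr.un_val h3⟩ rfl).1 (H _))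
    · obtain ⟨μ, h3, h4⟩ := Tr.exists_nm x
      obtain ⟨k, rfl⟩ := (exists_surjective_nat Nm).choose_spec μ
      by_contra h5
      refine H k fun i => ?_
      by_cases hi : i = 0
      · simp only [if_pos hi]
        exact fun h6 => (hinv k).1 h6 h3
      · simp only [if_neg hi]
        exact fun h6 => h5 ((key k x h4).2 h6)

theorem Cb.uniq {D : List ℕ → Jt → Prop} (hD : ∀ u j j', D u j → D u j' → j = j') {s : St}
    {c c' : BC Kt} (h : Cb D s c) (h' : Cb D s c') : c = c' := by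
  induction h generalizing c' with
  | leaf h1 h2 =>
    cases h' with
    | leaf h3 h4 => obtain rfl := hD _ _ _ h1 h3; exact Sum.inl.inj (h2.symm.trans h4)
    | nor h3 h4 => obtain rfl := hD _ _ _ h1 h3; cases h2.symm.trans h4
  | nor h1 h2 _ ih =>
    cases h' with
    | leaf h3 h4 => obtain rfl := hD _ _ _ h1 h3; cases h2.symm.trans h4
    | nor h3 h4 h5 =>
      obtain rfl := hD _ _ _ h1 h3
      obtain rfl := Sum.inr.inj (h2.symm.trans h4)
      exact congrArg _ (funext fun n => ih n (h5 n))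

end Pool.Agent.P.MP_b0885c_lc
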