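import Pool.Agent.P.MP_b0885c_lc.Ax

namespace Pool.Agent.P.MP_b0885c_lc

open Set FreeGroup FirstOrder FirstOrder.Language

theorem exists_perm {M : Type} (D : M → Prop) (S : M → M → Prop) (h1 : ∀ x, D x → ∃ y, S x y)
    (h2 : ∀ y, D y → ∃ x, S x y) (h3 : ∀ x y, S x y → D x ∧ D y)
    (h4 : ∀ x y y', S x y → S x y' → y = y') (h5 : ∀ x x' y, S x y → S x' y → x = x') :
    ∃ f : Equiv.Perm M, (∀ x y, S x y ↔ D x ∧ f x = y) ∧ ∀ x, ¬ D x → f x = x := by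
  classical
  choose! f hf using h1
  choose! g hg using h2
  refine ⟨⟨fun x => if D x then f x else x, fun y => if D y then g y else y, fun x => ?_,
    fun y => ?_⟩, fun x y => ⟨fun h => ⟨(h3 x y h).1, ?_⟩, fun h => ?_⟩, fun x h => if_neg h⟩
  · by_cases h : D x
    · have := (h3 _ _ (hf x h)).2
      simp only [if_pos h, if_pos this]
      exact h5 _ _ _ (hg _ this) (hf x h)
    · simp only [if_neg h]
  · by_cases h : D y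
    · have := (h3 _ _ (hg y h)).1
      simp only [if_pos h, if_pos this]
      exact h4 _ _ _ (hf _ this) (hg y h)
    · simp only [if_neg h]
  · simp only [Equiv.coe_fn_mk, if_pos (h3 x y h).1]
    exact h4 _ _ _ (hf x (h3 x y h).1) h
  · obtain ⟨h6, rfl⟩ := h
    simp only [Equiv.coe_fn_mk, if_pos h6]
    exact hf x h6

theorem IsM.classify {T : Tr} {M : Type} [LT.Structure M] (h : IsM T.In M) :
    ∃ (t : Re) (b : ℕ → G), (T.fo (orb t)).Co b ∧ (∀ t' ∈ orb t, t ∈ orb t') ∧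
      Nonempty (T.Md (orb t) b ≃[LT] M) := by
  obtain ⟨e0, he0⟩ := h.a1
  set t := tp e0 with ht
  have hinj : ∀ x y : M, r1 .A x → r1 .A y → tp x = tp y → x = y := fun x y hx hy e =>
    h.a2 x y hx hy (by rw [md_nil, e])
  have horb : ∀ r, r ∈ orb t ↔ ∃ e : M, r1 .A e ∧ tp e = r := fun r =>
    ⟨fun ⟨l, hl⟩ => hl ▸ h.a3 e0 l he0, fun ⟨e, h1, h2⟩ =>
      let ⟨l, hl⟩ := h.a4 e0 e he0 h1
      ⟨l, h2 ▸ hl.symm⟩⟩
  have hact : ∀ s : Lb, ∃ f : Equiv.Perm M, (∀ x y, (∃ e, tp e = s.1 ∧ r3 s.2 x e y) ↔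
      ((s.1 ∈ orb t ∧ T.In s.1 s.2) ∧ r1 (.X s.2.length) x) ∧ f x = y) ∧
      ∀ x, ¬ ((s.1 ∈ orb t ∧ T.In s.1 s.2) ∧ r1 (.X s.2.length) x) → f x = x := fun s => by
    refine exists_perm _ _ ?_ ?_ ?_ ?_ ?_
    · rintro x ⟨⟨h1, h2⟩, h3⟩
      obtain ⟨e, h4, h5⟩ := (horb _).1 h1
      exact (h.c2 _ x e h4 (h5 ▸ h2) h3).1.imp fun y hy => ⟨e, h5, hy⟩
    · rintro x ⟨⟨h1, h2⟩, h3⟩
      obtain ⟨e, h4, h5⟩ := (horb _).1 h1
      exact (h.c2 _ x e h4 (h5 ▸ h2) h3).2.imp fun y hy => ⟨e, h5, hy⟩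
    · rintro x y ⟨e, h1, h2⟩
      obtain ⟨h3, h4, h5, h6⟩ := h.c1 _ _ _ _ h2
      exact ⟨⟨⟨(horb _).2 ⟨e, h4, h1⟩, h1 ▸ h6⟩, h3⟩, ⟨(horb _).2 ⟨e, h4, h1⟩, h1 ▸ h6⟩, h5⟩
    · rintro x y y' ⟨e, h1, h2⟩ ⟨e', h3, h4⟩
      obtain rfl := hinj e e' (h.c1 _ _ _ _ h2).2.1 (h.c1 _ _ _ _ h4).2.1 (h1.trans h3.symm)
      exact h.c3 _ _ _ _ _ h2 h4
    · rintro x y y' ⟨e, h1, h2⟩ ⟨e', h3, h4⟩
      obtain rfl := hinj e e' (h.c1 _ _ _ _ h2).2.1 (h.c1 _ _ _ _ h4).2.1 (h1.trans h3.symm)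
      exact h.c4 _ _ _ _ _ h2 h4
  choose act hact hact' using hact
  let ρ : G →* Equiv.Perm M := FreeGroup.lift act
  have hρ1 : ∀ s, ρ (FreeGroup.mk [(s, true)]) = act s := fun s => lift_apply_of
  have hρ2 : ∀ s, ρ (FreeGroup.mk [(s, false)]) = (act s)⁻¹ := fun s => by
    rw [← hρ1, ← _root_.map_inv]; rfl
  have hXa : ∀ s n x, r1 (.X n) (act s x) ↔ r1 (.X n) x := fun s n x => by
    by_cases h1 : (s.1 ∈ orb t ∧ T.In s.1 s.2) ∧ r1 (.X s.2.length) x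
    · obtain ⟨e, -, h2⟩ := (hact s x _).2 ⟨h1, rfl⟩
      obtain ⟨h3, -, h4, -⟩ := h.c1 _ _ _ _ h2
      exact ⟨fun h5 => (h.s2 _ _ h4).2 _ h5 ▸ h3, fun h5 => (h.s2 _ _ h3).2 _ h5 ▸ h4⟩
    · rw [hact' s x h1]
  have hX : ∀ g n x, r1 (.X n) (ρ g x) ↔ r1 (.X n) x := fun g n => by
    induction g using FreeGroup.induction_on with
    | C1 => simp
    | of s => simpa [ρ] using hXa s n
    | inv_of s ih => intro x; simpa using (ih (ρ (of s)⁻¹ x)).symm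
    | mul g g' ih ih' => intro x; simp [ih, ih']
  have hstep : ∀ (s : Lb × Bool) n z y, r1 (.X n) z → ((∃ e, tp e = s.1.1 ∧
      ((s.2 = true ∧ r3 s.1.2 z e y) ∨ (s.2 = false ∧ r3 s.1.2 y e z))) ↔
      s.1 ∈ (T.fo (orb t)).Lab n ∧ ρ (FreeGroup.mk [s]) z = y) := by
    rintro ⟨s, _ | _⟩ n z y hz
    · simp only [Bool.false_eq_true, false_and, true_and, false_or]
      rw [hact, hρ2, Equiv.Perm.inv_eq_iff_eq]
      constructor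
      · rintro ⟨⟨⟨h1, h2⟩, h3⟩, rfl⟩
        exact ⟨⟨h1, (h.s2 _ _ ((hXa _ _ _).1 hz)).2 _ h3, h2⟩, rfl⟩
      · rintro ⟨⟨h1, rfl, h2⟩, rfl⟩
        exact ⟨⟨⟨h1, h2⟩, (hXa _ _ _).1 hz⟩, rfl⟩
    · simp only [Bool.true_eq_false, false_and, true_and, or_false]
      rw [hact, hρ1]
      constructor
      · rintro ⟨⟨⟨h1, h2⟩, h3⟩, rfl⟩
        exact ⟨⟨h1, (h.s2 _ _ hz).2 _ h3, h2⟩, rfl⟩
      · rintro ⟨⟨h1, rfl, h2⟩, rfl⟩
        exact ⟨⟨⟨h1, h2⟩, hz⟩, rfl⟩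
  have hpa : ∀ n x, r1 (.X n) x → ∀ w y, Pa e0 x w y ↔ T.Vw t n w ∧ ρ (wd t w) x = y := by
    intro n x hx w
    induction w with
    | nil => intro y; simp [Pa, Tr.Vw, wd, ← one_eq_mk]
    | cons s w ih =>
      intro y
      simp only [Pa, ih, wd_cons, _root_.map_mul, Equiv.Perm.mul_apply]
      have := hstep (gt t s) n _ y ((hX (wd t w) n x).2 hx)
      constructor
      · rintro ⟨z, e, ⟨h1, rfl⟩, -, h2, h3⟩
        obtain ⟨h4, h5⟩ := this.1 ⟨e, h2, h3⟩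
        exact ⟨List.forall_mem_cons.2 ⟨h4.2, h1⟩, h5⟩
      · rintro ⟨h1, h2⟩
        obtain ⟨h3, h4⟩ := List.forall_mem_cons.1 h1
        obtain ⟨e, h5, h6⟩ := this.2 ⟨⟨⟨_, rfl⟩, h3⟩, h2⟩
        refine ⟨_, e, ⟨h4, rfl⟩, ?_, h5, h6⟩
        rcases h6 with h6 | h6 <;> exact (h.c1 _ _ _ _ h6.2).2.1
  have htr : ∀ n x y, r1 (.X n) x → r1 (.X n) y → ∃ g ∈ H ((T.fo (orb t)).Lab n), ρ g x = y :=
    fun n x y hx hy => by
      obtain ⟨w, hw⟩ := h.tr n e0 x y he0 hx hy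
      obtain ⟨h1, h2⟩ := (hpa n x hx w y).1 hw
      exact ⟨_, h1.mem, h2⟩
  have hfr : ∀ n x, r1 (.X n) x → ∀ g ∈ H ((T.fo (orb t)).Lab n),
      ∀ g' ∈ H ((T.fo (orb t)).Lab n), ρ g x = ρ g' x → g = g' := fun n x hx g hg g' hg' e => by
    obtain ⟨w, h1, h2⟩ := Tr.exists_wd (mul_mem (inv_mem hg') hg)
    have := h.fr n w e0 x he0 hx ((hpa n x hx w x).2 ⟨h1, by simp [h2, e]⟩)
    rw [h2] at this
    exact (inv_mul_eq_one.1 this).symm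
  have heq : ∀ n (v : List (Lb × Bool)), (∀ s ∈ v, s.1 ∈ (T.fo (orb t)).Lab (n + 1)) →
      ∀ x x', r1 (.X (n + 1)) x → r2 x x' → r2 (ρ (FreeGroup.mk v) x) (ρ (map pd0 (FreeGroup.mk v)) x') := by
    intro n v hv x x' hx hx'
    induction v with
    | nil => simpa [← one_eq_mk] using hx'
    | cons s v ih =>
      obtain ⟨h1, h2⟩ := List.forall_mem_cons.1 hv
      have h3 := ih h2
      have h4 := (hX (FreeGroup.mk v) _ _).2 hx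
      rw [show FreeGroup.mk (s :: v) = FreeGroup.mk [s] * FreeGroup.mk v from rfl]
      simp only [_root_.map_mul, Equiv.Perm.mul_apply]
      generalize ρ (FreeGroup.mk v) x = z at h3 h4
      generalize ρ (map pd0 (FreeGroup.mk v)) x' = z' at h3
      obtain ⟨y', h5⟩ := h.p2 _ _ ((hX (FreeGroup.mk [s]) _ _).2 h4)
      obtain ⟨e, h6, h7⟩ := (hstep s _ z _ h4).2 ⟨h1, rfl⟩
      obtain ⟨m, h8, h9⟩ := h.p1 _ _ h3
      obtain rfl := Nat.succ.inj ((h.s2 _ _ h4).2 _ h8)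
      obtain ⟨⟨r, σ⟩, ε⟩ := s
      obtain ⟨-, h10, -⟩ := h1
      cases σ with
      | nil => simp at h10
      | cons c σ =>
        have := ((hstep ((r, σ), ε) m z' y' h9).1 ⟨e, h6, h7.imp
          (fun h7 => ⟨h7.1, h.c5 _ _ _ _ _ _ _ h7.2 h3 h5⟩)
          fun h7 => ⟨h7.1, h.c5 _ _ _ _ _ _ _ h7.2 h5 h3⟩⟩).2
        rw [map.mk]
        exact this ▸ h5
  choose u hu using h.x1
  have : ∀ n, ∃ g ∈ H ((T.fo (orb t)).Lab n), r2 (u (n + 1)) (ρ g (u n)) := fun n => by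
    obtain ⟨y, h1⟩ := h.p2 _ _ (hu (n + 1))
    obtain ⟨m, h2, h3⟩ := h.p1 _ _ h1
    obtain rfl := Nat.succ.inj ((h.s2 _ _ (hu _)).2 _ h2)
    obtain ⟨g, h4, rfl⟩ := htr _ _ _ (hu _) h3
    exact ⟨g, h4, h1⟩
  choose b hb hb' using this
  have hP : ∀ n, ∀ g ∈ H ((T.fo (orb t)).Lab (n + 1)),
      r2 (ρ g (u (n + 1))) (ρ (map pd0 g * b n) (u n)) := fun n g hg => by
    simpa [mk_toWord] using heq n _ hg _ _ (hu _) (hb' n)
  choose el hel hel' using fun r => (horb r).1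
  let Ψ : T.Md (orb t) b → M := fun a => match a with
    | ⟨.inl r, hr⟩ => el r hr
    | ⟨.inr p, _⟩ => ρ p.2 (u p.1)
  have hA : ∀ a, r1 .A (Ψ a) ↔ ∃ e, a.1 = .inl e := by
    rintro ⟨r | ⟨n, g⟩, ha⟩
    · simpa using hel r ha
    · simpa using (h.s2 _ _ ((hX g n _).2 (hu n))).1
  have hXΨ : ∀ n a, r1 (.X n) (Ψ a) ↔ ∃ g, a.1 = .inr (n, g) := by
    rintro m ⟨r | ⟨n, g⟩, ha⟩
    · simpa using fun h1 => (h.s2 _ _ h1).1 (hel r ha)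
    · have h1 := (hX g n _).2 (hu n)
      exact ⟨fun h2 => ⟨g, by rw [(h.s2 _ _ h1).2 _ h2]⟩, fun ⟨g', h2⟩ =>
        (Prod.mk.inj (Sum.inr.inj h2)).1 ▸ h1⟩
  have hbij : Function.Bijective Ψ := by
    constructor
    · rintro ⟨r | ⟨n, g⟩, ha⟩ a' e
      · obtain ⟨r', h1⟩ := (hA a').1 (by rw [← e]; exact (hA ⟨_, ha⟩).2 ⟨r, rfl⟩)
        obtain ⟨_, ha'⟩ := a'
        subst h1
        have : tp (el r ha) = tp (el r' ha') := congrArg tp e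
        rw [hel', hel'] at this
        subst this
        rfl
      · obtain ⟨g', h1⟩ := (hXΨ n a').1 (by rw [← e]; exact (hXΨ n ⟨_, ha⟩).2 ⟨g, rfl⟩)
        obtain ⟨_, ha'⟩ := a'
        subst h1
        obtain rfl := hfr n _ (hu n) g ha g' ha' e
        rfl
    · intro x
      rcases h.s1 x with h1 | ⟨n, h1⟩
      · have h2 := (horb _).2 ⟨x, h1, rfl⟩
        exact ⟨⟨.inl _, h2⟩, hinj _ _ (hel _ h2) h1 (hel' _ h2)⟩
      · obtain ⟨g, h2, h3⟩ := htr n _ _ (hu n) h1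
        exact ⟨⟨.inr (n, g), h2⟩, h3⟩
  refine ⟨t, b, hb, fun t' ht' => ?_, ⟨⟨Equiv.ofBijective Ψ hbij, fun f => f.elim, ?_⟩⟩⟩
  · obtain ⟨e, h1, rfl⟩ := (horb _).1 ht'
    obtain ⟨l, hl⟩ := h.a4 e e0 h1 he0
    exact ⟨l, hl.symm⟩
  intro k r v
  rw [Tr.relMap_iff]
  by_cases hr : ¬ ∃ s : Rl k, s.cd = r
  · exact iff_of_false (fun h' => hr (h.jk _ _ _ h')) fun h' => hr (T.rel_junk h')
  obtain ⟨r, rfl⟩ := not_not.1 hr
  cases r with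
  | A => exact (rel1 _ _).trans (hA _)
  | X n => exact (rel1 _ _).trans (hXΨ _ _)
  | R i j =>
    refine (rel1 _ _).trans ?_
    change r1 _ (Ψ (v 0)) ↔ ∃ e, (v 0).1 = _ ∧ _
    obtain ⟨r | ⟨n, g⟩, ha⟩ := v 0
    · have := congrFun (hel' r ha) (i, j)
      simp only [tp] at this
      simp [← this, Ψ]
    · simpa using fun h1 => (h.s2 _ _ ((hX g n _).2 (hu n))).1 (h.s3 _ _ _ h1)
  | Pj =>
    refine (rel2 _).trans ?_
    change r2 (Ψ (v 0)) (Ψ (v 1)) ↔ ∃ n g, (v 0).1 = _ ∧ (v 1).1 = _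
    generalize v 0 = x
    generalize v 1 = y
    constructor
    · intro h1
      obtain ⟨n, h2, h3⟩ := h.p1 _ _ h1
      obtain ⟨g, h4⟩ := (hXΨ _ _).1 h2
      obtain ⟨g', h5⟩ := (hXΨ _ _).1 h3
      obtain ⟨_, hx⟩ := x
      obtain ⟨_, hy⟩ := y
      subst h4 h5
      exact ⟨n, g, rfl, congrArg (fun g => Sum.inr (n, g))
        (hfr n _ (hu n) g' hy _ (Fo.pp_mem hb hx) (h.p3 _ _ _ h1 (hP n g hx)))⟩
    · rintro ⟨n, g, h1, h2⟩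
      obtain ⟨_, hx⟩ := x
      obtain ⟨_, hy⟩ := y
      subst h1 h2
      exact hP n g hx
  | Act σ =>
    refine (rel3 _ _).trans ?_
    change r3 σ (Ψ (v 0)) (Ψ (v 1)) (Ψ (v 2)) ↔
      ∃ e g, _ ∧ (v 0).1 = _ ∧ (v 1).1 = _ ∧ (v 2).1 = _
    generalize v 0 = x
    generalize v 1 = e
    generalize v 2 = y
    constructor
    · intro h1
      obtain ⟨h2, h3, h4, h5⟩ := h.c1 _ _ _ _ h1
      obtain ⟨g, h6⟩ := (hXΨ _ _).1 h2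
      obtain ⟨r, h7⟩ := (hA _).1 h3
      obtain ⟨g', h8⟩ := (hXΨ _ _).1 h4
      obtain ⟨_, hx⟩ := x
      obtain ⟨_, he⟩ := e
      obtain ⟨_, hy⟩ := y
      subst h6 h7 h8
      obtain ⟨⟨⟨h9, h10⟩, -⟩, h11⟩ := (hact (r, σ) _ _).1 ⟨_, hel' r he, h1⟩
      exact ⟨r, g, h10, rfl, rfl, congrArg (fun g => Sum.inr (σ.length, g))
        (hfr _ _ (hu _) g' hy (of (r, σ) * g) (mul_mem (of_mem_H.2 ⟨h9, rfl, h10⟩) hx)
        (by simpa [ρ] using h11.symm))⟩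
    · rintro ⟨r, g, h0, h1, h2, h3⟩
      obtain ⟨_, hx⟩ := x
      obtain ⟨_, he⟩ := e
      obtain ⟨_, hy⟩ := y
      subst h1 h2 h3
      obtain ⟨e', h4, h5⟩ := (hact (r, σ) (ρ g (u σ.length)) _).2
        ⟨⟨⟨he, h0⟩, (hX _ _ _).2 (hu _)⟩, rfl⟩
      obtain rfl := hinj _ _ (h.c1 _ _ _ _ h5).2.1 (hel r he) (h4.trans (hel' r he).symm)
      simpa [ρ, Ψ] using h5

end Pool.Agent.P.MP_b0885c_lc
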