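import Mathlib

namespace Pool.Agent.P.MP_b0885c_lc

universe u

/-- Formulas of `L_{ω₁,ω}` whose free variables are among `Fin n`:
atomic formulas, negation, countable conjunction, universal quantifier. -/
inductive Fml (L : FirstOrder.Language.{0, 0}) : ℕ → Type
  | eq {n : ℕ} (t u : L.Term (Fin n)) : Fml L n
  | rel {n k : ℕ} (r : L.Relations k) (ts : Fin k → L.Term (Fin n)) : Fml L n
  | neg {n : ℕ} (φ : Fml L n) : Fml L n
  | conj {n : ℕ} (f : ℕ → Fml L n) : Fml L n
  | all {n : ℕ} (φ : Fml L (n + 1)) : Fml L n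

/-- Satisfaction; the quantifier binds the last variable. -/
def Fml.Sat {L : FirstOrder.Language.{0, 0}} {M : Type} [L.Structure M] :
    {n : ℕ} → Fml L n → (Fin n → M) → Prop
  | _, .eq t u, v => t.realize v = u.realize v
  | _, .rel r ts, v => FirstOrder.Language.Structure.RelMap r fun i => (ts i).realize v
  | _, .neg φ, v => ¬ φ.Sat v
  | _, .conj f, v => ∀ i, (f i).Sat v
  | _, .all φ, v => ∀ x : M, φ.Sat (Fin.snoc v x : Fin _ → M)

/-- The conjunction of two formulas. -/
def Fml.and {L : FirstOrder.Language.{0, 0}} {n : ℕ} (φ ψ : Fml L n) : Fml L n :=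
  .conj fun i => if i = 0 then φ else ψ

/-- Two tuples satisfy the same atomic formulas. -/
def AtEq (L : FirstOrder.Language.{0, 0}) {M N : Type} [L.Structure M] [L.Structure N] {n : ℕ}
    (a : Fin n → M) (b : Fin n → N) : Prop :=
  (∀ t u : L.Term (Fin n), t.realize a = u.realize a ↔ t.realize b = u.realize b) ∧
    ∀ (k : ℕ) (r : L.Relations k) (ts : Fin k → L.Term (Fin n)),
      (FirstOrder.Language.Structure.RelMap r fun i => (ts i).realize a) ↔
        FirstOrder.Language.Structure.RelMap r fun i => (ts i).realize b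

/-- The back-and-forth relation `a ≡_α b`. -/
def BFE (L : FirstOrder.Language.{0, 0}) {M N : Type} [L.Structure M] [L.Structure N] (α : Ordinal.{0})
    {n : ℕ} (a : Fin n → M) (b : Fin n → N) : Prop :=
  AtEq L a b ∧ ∀ β : Ordinal.{0}, ∀ _ : β < α,
    (∀ x : M, ∃ y : N, BFE L β (Fin.snoc a x : Fin (n + 1) → M) (Fin.snoc b y : Fin (n + 1) → N)) ∧
    (∀ y : N, ∃ x : M, BFE L β (Fin.snoc a x : Fin (n + 1) → M) (Fin.snoc b y : Fin (n + 1) → N))
termination_by α

/-- The Scott rank: the least `α` such that `≡_α` implies `≡_{α+1}` on all tuples of `M`. -/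
noncomputable def SR (L : FirstOrder.Language.{0, 0}) (M : Type) [L.Structure M] : Ordinal.{0} :=
  sInf {α | ∀ (n : ℕ) (a b : Fin n → M), BFE L α a b → BFE L (α + 1) a b}

/-- The universal countable relational language: infinitely many symbols of each arity. -/
def LT : FirstOrder.Language.{0, 0} := ⟨fun _ => Empty, fun _ => ℕ × List ℕ⟩

/-- Code of a term (all terms are variables). -/
def vr {n : ℕ} : LT.Term (Fin n) → ℕ
  | .var i => i
  | .func f _ => f.elim

/-- The parse tree of a formula: the label of the node reached from the root along a path. -/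
def Fml.lab : {n : ℕ} → Fml LT n → List ℕ → ℕ × (ℕ × List ℕ) × List ℕ
  | _, .eq t u, [] => (0, (0, []), [vr t, vr u])
  | _, .rel r ts, [] => (1, r, List.ofFn fun i => vr (ts i))
  | _, .neg _, [] => (2, (0, []), [])
  | _, .conj _, [] => (3, (0, []), [])
  | n, .all _, [] => (4, (0, []), [n])
  | _, .eq _ _, _ :: _ => (5, (0, []), [])
  | _, .rel _ _, _ :: _ => (5, (0, []), [])
  | _, .neg φ, _ :: u => φ.lab u
  | _, .conj f, k :: u => (f k).lab u
  | _, .all φ, _ :: u => φ.lab u

/-- The real coding a sentence: the graph of its parse tree. -/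
def Fml.code (φ : Fml LT 0) (n : ℕ) : Bool :=
  decide (φ.lab (Denumerable.ofNat _ n.unpair.1) = Denumerable.ofNat _ n.unpair.2)

/-- The structure on `ℕ` with atomic diagram `D`. -/
def Str (_D : ℕ → Bool) : Type := ℕ

instance (D : ℕ → Bool) : LT.Structure (Str D) where
  funMap f := f.elim
  RelMap {k} (r : ℕ × List ℕ) (v : Fin k → ℕ) := D (Encodable.encode (r, List.ofFn v)) = true

/-- `D` is a model of `ψ`. -/
def Mod (ψ : Fml LT 0) (D : ℕ → Bool) : Prop := ψ.Sat (Fin.elim0 : Fin 0 → Str D)

section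
variable (R : (ℕ → Bool) → Prop)

/-- Relative to the family of reals `R`: `ψ` has models of arbitrarily high Scott rank. -/
def Unbdd (ψ : Fml LT 0) : Prop :=
  ∀ W, R W → ∀ _ : IsWellOrder ℕ fun a b => W (a.pair b) = true,
    ∃ D, R D ∧ Mod ψ D ∧ Ordinal.type (fun a b : ℕ => W (a.pair b) = true) ≤ SR LT (Str D)

/-- Relative to `R`: `T` is a minimal theory. -/
def MinTheory (T : Fml LT 0) : Prop :=
  R T.code ∧ ∀ φ : Fml LT 0, R φ.code → Xor (Unbdd R (T.and φ)) (Unbdd R (T.and φ.neg))

/-- Relative to `R`: the structures are isomorphic. -/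
def Iso (D D' : ℕ → Bool) : Prop :=
  ∃ e : LT.Equiv (Str D) (Str D'), R fun n => decide (@Eq ℕ (e n.unpair.1) n.unpair.2)

/-- Relative to `R`: countably many models up to isomorphism. -/
def Few (ψ : Fml LT 0) : Prop :=
  ∃ S, R S ∧ ∀ D, R D → Mod ψ D → ∃ n : ℕ, Iso R D fun m => S (n.pair m)

/-- `Q` codes a perfect binary tree. -/
def PerfectTree (Q : ℕ → Bool) : Prop :=
  Q (Encodable.encode ([] : List Bool)) = true ∧
  (∀ s t : List Bool, s <+: t → Q (Encodable.encode t) = true → Q (Encodable.encode s) = true) ∧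
  ∀ s : List Bool, Q (Encodable.encode s) = true → ∃ t : List Bool, s <+: t ∧
    Q (Encodable.encode (t ++ [true])) = true ∧ Q (Encodable.encode (t ++ [false])) = true

/-- `D` is a branch of the tree coded by `Q`. -/
def Branch (Q D : ℕ → Bool) : Prop :=
  ∀ n, Q (Encodable.encode ((List.range n).map D)) = true

/-- Relative to `R`: no perfect set of pairwise non-isomorphic models. -/
def Scattered (ψ : Fml LT 0) : Prop :=
  ¬ ∃ Q, R Q ∧ PerfectTree Q ∧ (∀ D, R D → Branch Q D → Mod ψ D) ∧
    ∀ D D', R D → R D' → Branch Q D → Branch Q D' → Iso R D D' → D = D'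

/-- Relative to `R`: there is a counterexample to Vaught's conjecture. -/
def Counter : Prop := ∃ ψ : Fml LT 0, R ψ.code ∧ Scattered R ψ ∧ ¬ Few R ψ

end

/-- Von Neumann numerals. -/
noncomputable def num : ℕ → ZFSet.{0}
  | 0 => ∅
  | n + 1 => insert (num n) (num n)

/-- The reals of a class `M` of sets. -/
def Reals (M : ZFSet.{0} → Prop) (X : ℕ → Bool) : Prop :=
  ∃ z, M z ∧ ∀ w, w ∈ z ↔ ∃ n, X n = true ∧ num n = w

end Pool.Agent.P.MP_b0885c_lc
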