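import Pool.Agent.P.MP_b0885c_lc.BC

namespace Pool.Agent.P.MP_b0885c_lc

open Set Ordinal

/-- nodes -/
abbrev Nd : Type := List (ℕ × ℕ)

/-- strict linear orders -/
structure Lin (L : ℕ → ℕ → Prop) : Prop where
  tr : ∀ a b c, L a b → L b c → L a c
  tot : ∀ a b, L a b ∨ a = b ∨ L b a

/-- decreasing lists -/
def Chn (L : ℕ → ℕ → Prop) : Nd → Prop
  | [] => True
  | a :: x => (∀ b y, x = b :: y → L a.1 b.1) ∧ Chn L x

/-- valid nodes -/
def Vn (L : ℕ → ℕ → Prop) (x : Nd) : Prop := x ≠ [] ∧ Chn L x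

/-- valid conditions -/
def Vl (L : ℕ → ℕ → Prop) (p : List Nd) : Prop := ∀ x ∈ p, Vn L x

/-- the real of an enumeration -/
def te (e : ℕ → Nd) : Re := fun q => decide (e q.1 ≠ [] ∧ (e q.1).tail = e q.2)

/-- the real of a condition -/
def tq (p : List Nd) : Re := te fun i => p.getD i []

/-- initial segments -/
def ini (e : ℕ → Nd) (m : ℕ) : List Nd := (List.range m).map e

/-- all small ranks occur -/
def Full (L : ℕ → ℕ → Prop) (θ : Ordinal.{0}) : Prop := ∀ μ < θ, ∃ z, Ex L μ z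

section
variable {K : Type} (L : ℕ → ℕ → Prop) (X : Re → K → Bool)

/-- forcing -/
def Frc : BC K → List Nd → Prop
  | .leaf k, p => ∀ q, Vl L q → X (tq (p ++ q)) k = true
  | .nor f, p => ∀ n q, Vl L q → ¬ Frc (f n) (p ++ q)

/-- genericity -/
def Gen : BC K → (ℕ → Nd) → Prop
  | .leaf _, _ => True
  | .nor f, e => (∃ m, Frc L X (.nor f) (ini e m) ∨ ∃ n, Frc L X (f n) (ini e m)) ∧
      ∀ n, Gen (f n) e

/-- recurrent enumerations -/
def Rec (e : ℕ → Nd) : Prop := ∀ x, Vn L x → ∀ N, ∃ j ≥ N, e j = x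

/-- comeager properties -/
def Cm (P : (ℕ → Nd) → Prop) : Prop :=
  ∃ D : ℕ → List Nd → Prop, (∀ n p, Vl L p → ∃ q, Vl L q ∧ D n (p ++ q)) ∧
    ∀ e, (∀ i, Vn L (e i)) → (∀ n, ∃ m, D n (ini e m)) → P e

variable {L X}

theorem Vl.append {p q : List Nd} (hp : Vl L p) (hq : Vl L q) : Vl L (p ++ q) :=
  fun x hx => (List.mem_append.1 hx).elim (hp x) (hq x)

theorem vl_nil : Vl L [] := fun _ h => by simp at h

theorem vl_rep (n : ℕ) : Vl L (List.replicate n [(0, 0)]) := fun x hx => by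
  rw [List.eq_of_mem_replicate hx]
  exact ⟨by simp, by simp, trivial⟩

@[simp] theorem length_ini (e : ℕ → Nd) (m : ℕ) : (ini e m).length = m := by simp [ini]

theorem vl_ini {e : ℕ → Nd} (he : ∀ i, Vn L (e i)) (m : ℕ) : Vl L (ini e m) := fun x hx => by
  obtain ⟨i, -, rfl⟩ := List.mem_map.1 hx
  exact he i

theorem ini_le {e : ℕ → Nd} (he : ∀ i, Vn L (e i)) {m m' : ℕ} (h : m ≤ m') :
    ∃ q, Vl L q ∧ ini e m' = ini e m ++ q := by
  obtain ⟨k, rfl⟩ := Nat.exists_eq_add_of_le h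
  refine ⟨((List.range k).map (m + ·)).map e, fun x hx => ?_, by simp [ini, List.range_add]⟩
  obtain ⟨i, -, rfl⟩ := List.mem_map.1 hx
  exact he i

theorem getD_ini {e : ℕ → Nd} {m i : ℕ} (h : i < m) (q : List Nd) (d : Nd) :
    (ini e m ++ q).getD i d = e i := by
  rw [List.getD_append _ _ _ _ (by simpa)]
  simp [ini, h]

theorem ini_eq {e : ℕ → Nd} {p : List Nd} (h : ∀ i < p.length, e i = p.getD i []) :
    ini e p.length = p := by
  refine List.ext_getElem (by simp) fun i h1 h2 => ?_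
  simp [ini, h i h2, h2]

theorem Frc.mono {c : BC K} {p q : List Nd} (h : Frc L X c p) (hq : Vl L q) :
    Frc L X c (p ++ q) := by
  cases c with
  | leaf k => exact fun r hr => by rw [List.append_assoc]; exact h _ (hq.append hr)
  | nor f => exact fun n r hr => by rw [List.append_assoc]; exact h n _ (hq.append hr)

theorem Frc.ini {c : BC K} {e : ℕ → Nd} (he : ∀ i, Vn L (e i)) {m m' : ℕ} (h : m ≤ m')
    (h' : Frc L X c (ini e m)) : Frc L X c (ini e m') := by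
  obtain ⟨q, h1, h2⟩ := ini_le he h
  exact h2 ▸ h'.mono h1

theorem truth (hX : ∀ k, LC fun t => X t k = true) {c : BC K} {e : ℕ → Nd} (he : ∀ i, Vn L (e i))
    (h : Gen L X c e) : c.ev (X (te e)) ↔ ∃ m, Frc L X c (ini e m) := by
  induction c with
  | leaf k =>
    obtain ⟨N, hN⟩ := (hX k).bound
    have key : ∀ m ≥ N, ∀ q, ∀ r : ℕ × ℕ, r.1 < N → r.2 < N → te e r = tq (ini e m ++ q) r :=
      fun m hm q r h1 h2 => by
        simp only [te, tq, getD_ini (h1.trans_le hm), getD_ini (h2.trans_le hm)]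
    refine ⟨fun H => ⟨N, fun q _ => hN _ _ (key N le_rfl q) H⟩, fun ⟨m, H⟩ => ?_⟩
    exact hN _ _ (fun r h1 h2 => (key _ (le_max_right m N) [] r h1 h2).symm)
      (H.ini he (le_max_left m N) [] vl_nil)
  | nor f ih =>
    obtain ⟨⟨m, hm⟩, h2⟩ := h
    refine ⟨fun H => ⟨m, hm.resolve_right fun ⟨n, hn⟩ => H n ((ih n (h2 n)).2 ⟨m, hn⟩)⟩,
      fun ⟨m, H⟩ n hn => ?_⟩
    obtain ⟨m', h3⟩ := (ih n (h2 n)).1 hn
    obtain ⟨q, h4, h5⟩ := ini_le he (le_max_left m m')
    exact H n q h4 (h5 ▸ h3.ini he (le_max_right m m'))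

theorem Cm.mono {P Q : (ℕ → Nd) → Prop} (h : Cm L P) (h' : ∀ e, (∀ i, Vn L (e i)) → P e → Q e) :
    Cm L Q :=
  let ⟨D, h1, h2⟩ := h
  ⟨D, h1, fun e he h => h' e he (h2 e he h)⟩

theorem Cm.all {ι : Type} [Countable ι] [Nonempty ι] {P : ι → (ℕ → Nd) → Prop}
    (h : ∀ i, Cm L (P i)) : Cm L fun e => ∀ i, P i e := by
  choose D h1 h2 using h
  obtain ⟨f, hf⟩ := exists_surjective_nat (ι × ℕ)
  refine ⟨fun n => D (f n).1 (f n).2, fun n => h1 _ _, fun e he h i => h2 i e he fun n => ?_⟩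
  obtain ⟨k, hk⟩ := hf (i, n)
  simpa [hk] using h k

theorem Cm.and {P Q : (ℕ → Nd) → Prop} (h : Cm L P) (h' : Cm L Q) : Cm L fun e => P e ∧ Q e :=
  (Cm.all (P := fun b : Bool => cond b P Q) fun b => by cases b <;> assumption).mono
    fun _ _ h => ⟨h true, h false⟩

theorem cm_of {D : List Nd → Prop} (h : ∀ p, Vl L p → ∃ q, Vl L q ∧ D (p ++ q)) :
    Cm L fun e => ∃ m, D (ini e m) := ⟨fun _ => D, fun _ => h, fun _ _ h => h 0⟩

theorem cm_true : Cm L fun _ => True :=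
  (cm_of (D := fun _ => True) fun _ _ => ⟨[], vl_nil, trivial⟩).mono fun _ _ _ => trivial

theorem cm_gen (c : BC K) : Cm L (Gen L X c) := by
  induction c with
  | leaf k => exact cm_true
  | nor f ih =>
    refine (cm_of (D := fun p => Frc L X (.nor f) p ∨ ∃ n, Frc L X (f n) p) fun p _ => ?_).and
      (Cm.all ih)
    by_cases h : Frc L X (.nor f) p
    · exact ⟨[], vl_nil, .inl (by simpa)⟩
    · simp only [Frc, not_forall, not_not] at h
      obtain ⟨n, q, h1, h2⟩ := h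
      exact ⟨q, h1, .inr ⟨n, h2⟩⟩

theorem cm_rec : Cm L (Rec L) := by
  refine Cm.all fun x => ?_
  by_cases hx : Vn L x
  · refine (Cm.all fun N => (cm_of (D := fun p => ∃ j ≥ N, j < p.length ∧ p.getD j [] = x)
      fun p _ => ?_).mono fun e _ ⟨m, j, h1, h2, h3⟩ => ?_).mono fun e _ h _ => h
    · refine ⟨List.replicate N [(0, 0)] ++ [x], (vl_rep N).append (by simpa [Vl]), p.length + N,
        by omega, by simp, ?_⟩
      rw [← List.append_assoc, List.getD_append_right _ _ _ _ (by simp)]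
      simp
    · exact ⟨j, h1, by simpa using (getD_ini (by simpa using h2) [] []).symm.trans (by simpa)⟩
  · exact cm_true.mono fun _ _ _ h => (hx h).elim

theorem Cm.exists {P : (ℕ → Nd) → Prop} (h : Cm L P) {p : List Nd} (hp : Vl L p) :
    ∃ e, (∀ i, Vn L (e i)) ∧ ini e p.length = p ∧ P e := by
  obtain ⟨D, h1, h2⟩ := h
  choose! F hF1 hF2 using h1
  let l : ℕ → List Nd := fun n => Nat.rec p (fun n r => (r ++ [[(0, 0)]]) ++ F n (r ++ [[(0, 0)]])) n
  have hv : ∀ n, Vl L (l n) := fun n => by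
    induction n with
    | zero => exact hp
    | succ n ih => exact (ih.append (vl_rep 1)).append (hF1 _ _ (ih.append (vl_rep 1)))
  have hl : ∀ n, n ≤ (l n).length := fun n => by
    induction n with
    | zero => simp
    | succ n ih => simp only [l, List.length_append, List.length_singleton] at ih ⊢; omega
  have hm : ∀ m n, m ≤ n → l m <+: l n := fun m n h => by
    induction h with
    | refl => exact List.prefix_rfl
    | step _ ih => exact ih.trans ((List.prefix_append _ _).trans (List.prefix_append _ _))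
  have key : ∀ m n k, m ≤ n → k < (l m).length → (l n).getD k [] = (l m).getD k [] :=
    fun m n k h hk => by
      obtain ⟨t, ht⟩ := hm m n h
      rw [← ht, List.getD_append _ _ _ _ hk]
  have he : ∀ n, ini (fun k => (l (k + 1)).getD k []) (l n).length = l n := fun n =>
    ini_eq fun k hk => by
      rcases le_total n (k + 1) with h | h
      · exact key _ _ _ h hk
      · exact (key _ _ _ h (hl _)).symm
  have hv' : ∀ k, Vn L ((l (k + 1)).getD k []) := fun k => hv (k + 1) _ (by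
    rw [List.getD_eq_getElem _ _ (hl (k + 1))]; exact List.getElem_mem _)
  exact ⟨_, hv', he 0, h2 _ hv' fun n => ⟨_, by
    rw [he (n + 1)]; exact hF2 n _ ((hv n).append (vl_rep 1))⟩⟩

theorem ini_ow {e : ℕ → Nd} {p q s : List Nd} {m : ℕ} (hl : p.length = q.length)
    (h : ini e m = p ++ s) : ini (fun i => q.getD i (e i)) m = q ++ s := by
  have hm : m = (q ++ s).length := by simpa [hl] using congrArg List.length h
  rw [hm]
  refine ini_eq fun i hi => ?_
  rcases lt_or_ge i q.length with h1 | h1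
  · rw [List.getD_append _ _ _ _ h1, List.getD_eq_getElem _ _ h1, List.getD_eq_getElem _ _ h1]
  · rw [List.getD_eq_default _ _ h1, List.getD_append_right _ _ _ _ h1, ← hl,
      ← List.getD_append_right _ _ _ _ (hl ▸ h1), ← h, ← List.append_nil (ini e m),
      getD_ini (hm ▸ hi)]

theorem vn_ow {e : ℕ → Nd} {q : List Nd} (he : ∀ i, Vn L (e i)) (hq : Vl L q) (i : ℕ) :
    Vn L (q.getD i (e i)) := by
  rcases lt_or_ge i q.length with h1 | h1
  · rw [List.getD_eq_getElem _ _ h1]; exact hq _ (List.getElem_mem _)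
  · rw [List.getD_eq_default _ _ h1]; exact he i

theorem Cm.ow {P : (ℕ → Nd) → Prop} (h : Cm L P) {p q : List Nd} (hq : Vl L q)
    (hl : p.length = q.length) :
    Cm L fun e => ini e p.length = p → P fun i => q.getD i (e i) := by
  obtain ⟨D, h1, h2⟩ := h
  refine ⟨fun n r => (∃ s, r = p ++ s ∧ D n (q ++ s)) ∨ (¬ p <+: r ∧ p.length ≤ r.length),
    fun n r hr => ?_, fun e he h hp => h2 _ (vn_ow he hq) fun n => ?_⟩
  · by_cases h3 : p <+: r ++ List.replicate p.length [(0, 0)]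
    · obtain ⟨s, hs⟩ := h3
      obtain ⟨s', h4, h5⟩ := h1 n (q ++ s) (hq.append fun x hx =>
        (hr.append (vl_rep p.length)) x (hs ▸ List.mem_append_right _ hx))
      exact ⟨_, (vl_rep p.length).append h4, .inl ⟨s ++ s', by
        rw [← List.append_assoc, ← hs, List.append_assoc], by rwa [← List.append_assoc]⟩⟩
    · exact ⟨_, vl_rep p.length, .inr ⟨h3, by simp⟩⟩
  · obtain ⟨m, ⟨s, h3, h4⟩ | ⟨h3, h4⟩⟩ := h n
    · exact ⟨m, by rwa [ini_ow hl h3]⟩
    · obtain ⟨r, -, h5⟩ := ini_le he (show p.length ≤ m by simpa using h4)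
      exact (h3 (by rw [h5, hp]; exact List.prefix_append _ _)).elim

theorem te_mem_orb {e e' : ℕ → Nd} (N : ℕ) (h : ∀ i ≥ N, e' i = e i) (h' : ∀ i, ∃ j, e j = e' i) :
    te e' ∈ orb (te e) := by
  choose π hπ using h'
  obtain ⟨l, hl⟩ := exists_list (fun i => if i < N then π i else i) N
    fun i hi => if_neg (not_lt.2 hi)
  have : ∀ i, e (l.getD i i) = e' i := fun i => by
    rw [hl]
    split_ifs with h1
    exacts [hπ i, (h i (not_lt.1 h1)).symm]
  exact ⟨l, funext fun q => by simp only [md, te, this]⟩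

theorem Rec.orb {e : ℕ → Nd} (he : ∀ i, Vn L (e i)) (h : Rec L e) :
    ∀ t' ∈ orb (te e), te e ∈ orb t' := by
  rintro _ ⟨l, rfl⟩
  refine te_mem_orb (e := fun i => e (l.getD i i)) l.length
    (fun i hi => by rw [List.getD_eq_default _ _ hi]) fun i => ?_
  obtain ⟨j, h1, h2⟩ := h _ (he i) l.length
  exact ⟨j, by rw [List.getD_eq_default _ _ h1, h2]⟩

theorem homog (hX : ∀ k, LC fun t => X t k = true) {c : BC K}
    (hc : ∀ t t', t ∈ orb t' → t' ∈ orb t → c.ev (X t) → c.ev (X t')) {p q : List Nd}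
    (hp : Vl L p) (hq : Vl L q) (h : Frc L X c p) : ∃ r, Vl L r ∧ Frc L X c (q ++ r) := by
  have hq1 := hq.append (vl_rep p.length)
  obtain ⟨e, he, h1, ⟨h2, h3⟩, h4⟩ := (((cm_gen (X := X) c).and cm_rec).and
    ((cm_gen (X := X) c).ow (p := p ++ List.replicate q.length [(0, 0)]) hq1
    (by simp [add_comm]))).exists (hp.append (vl_rep q.length))
  have h5 := h4 h1
  have he' := vn_ow he hq1
  have h6 := (truth hX he h2).2 ⟨_, by rw [h1]; exact h.mono (vl_rep _)⟩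
  set q1 := q ++ List.replicate p.length [(0, 0)]
  obtain ⟨m, hm⟩ := (truth hX he' h5).1 (hc _ _ (te_mem_orb q1.length
    (fun i hi => (List.getD_eq_default _ _ hi).symm) fun i =>
      let ⟨j, h7, h8⟩ := h3 _ (he i) q1.length
      ⟨j, by rw [List.getD_eq_default _ _ h7, h8]⟩)
    (te_mem_orb q1.length (fun i hi => List.getD_eq_default _ _ hi) fun i =>
      let ⟨j, _, h8⟩ := h3 _ (he' i) 0
      ⟨j, h8⟩) h6)
  obtain ⟨s, h7, h8⟩ := ini_le he (le_max_left (p ++ List.replicate q.length [(0, 0)]).length m)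
  have h9 := hm.ini he' (le_max_right (p ++ List.replicate q.length [(0, 0)]).length m)
  rw [h1] at h8
  rw [ini_ow (by simp [q1, add_comm]) h8, List.append_assoc] at h9
  exact ⟨_, (vl_rep _).append h7, h9⟩

end

/-- agreement of ranks -/
def Agr (L L' : ℕ → ℕ → Prop) (θ : Ordinal.{0}) (a b : ℕ) : Prop :=
  ∀ μ ≤ θ, Rk L μ a ↔ Rk L' μ b

/-- finite partial isomorphisms respecting ranks -/
structure Good (L L' : ℕ → ℕ → Prop) (θ : Ordinal.{0}) (f : Set (Nd × Nd)) : Prop where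
  fin : f.Finite
  root : ([], []) ∈ f
  chn : ∀ p ∈ f, Chn L p.1 ∧ Chn L' p.2 ∧ (p.1.tail, p.2.tail) ∈ f
  bij : ∀ p ∈ f, ∀ q ∈ f, p.1 = q.1 ↔ p.2 = q.2
  agr : ∀ a x b y, (a :: x, b :: y) ∈ f → Agr L L' θ a.1 b.1

variable {L L' : ℕ → ℕ → Prop} {θ : Ordinal.{0}} {f : Set (Nd × Nd)}

theorem Lin.below (h : Lin L) {μ : Ordinal.{0}} {z y : ℕ} (hz : Ex L μ z) (hy : Rk L (μ + 1) y) :
    L z y := by
  rcases h.tot z y with h1 | rfl | h1
  · exact h1
  · exact (hz.2 hy).elim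
  · exact (hz.2 (rk_succ.2 ⟨y, h1, hy.mono (le_add_right le_rfl)⟩)).elim

theorem Good.mono {θ' : Ordinal.{0}} (h : Good L L' θ f) (h' : θ' ≤ θ) : Good L L' θ' f :=
  ⟨h.fin, h.root, h.chn, h.bij, fun a x b y hf μ hμ => h.agr a x b y hf μ (hμ.trans h')⟩

theorem Good.symm (h : Good L L' θ f) : Good L' L θ (Prod.swap ⁻¹' f) :=
  ⟨h.fin.preimage Prod.swap_injective.injOn, h.root,
    fun _ hp => let ⟨h1, h2, h3⟩ := h.chn _ hp; ⟨h2, h1, h3⟩,
    fun _ hp _ hq => (h.bij _ hp _ hq).symm, fun a x b y hf μ hμ => (h.agr b y a x hf μ hμ).symm⟩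

theorem Good.ext1 (hL : Lin L') (hF : Full L' (θ + 1)) (h : Good L L' (θ + 1) f) {a : ℕ × ℕ}
    {x y : Nd} (hxy : (x, y) ∈ f) (ha : Chn L (a :: x)) :
    ∃ f' ⊇ f, Good L L' θ f' ∧ ∃ y', (a :: x, y') ∈ f' := by
  by_cases h0 : ∃ y', (a :: x, y') ∈ f
  · exact ⟨f, Subset.rfl, h.mono (le_add_right le_rfl), h0⟩
  obtain ⟨b, hb1, hb2⟩ : ∃ b, Agr L L' θ a.1 b ∧ ∀ c z, y = c :: z → L' b c.1 := by
    have hp : ∀ c z, y = c :: z → ∀ μ ≤ θ, Rk L μ a.1 → Rk L' (μ + 1) c.1 := by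
      rintro c z rfl μ hμ h1
      cases x with
      | nil => simpa using (h.bij _ hxy _ h.root).1 rfl
      | cons d x =>
        exact (h.agr _ _ _ _ hxy (μ + 1) (by gcongr)).1 (rk_succ.2 ⟨_, ha.1 d x rfl, h1⟩)
    by_cases h1 : Rk L θ a.1
    · cases y with
      | nil =>
        obtain ⟨b, hb⟩ := hF θ (lt_add_one θ)
        exact ⟨b, fun μ hμ => iff_of_true (h1.mono hμ) (hb.1.mono hμ), by simp⟩
      | cons c z =>
        obtain ⟨b, h2, h3⟩ := rk_succ.1 (hp c z rfl θ le_rfl h1)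
        exact ⟨b, fun μ hμ => iff_of_true (h1.mono hμ) (h3.mono hμ), fun c' z' e =>
          (List.cons.inj e).1 ▸ h2⟩
    · obtain ⟨μ, h2, h3⟩ := exists_ex_lt h1
      obtain ⟨b, hb⟩ := hF μ (h2.trans (lt_add_one θ))
      exact ⟨b, fun ν _ => h3.rk_iff.trans hb.rk_iff.symm, fun c z e =>
        hL.below hb (hp c z e μ h2.le h3.1)⟩
  obtain ⟨k, hk⟩ := ((h.fin.image Prod.snd).preimage (f := fun k : ℕ => (b, k) :: y)
    (fun k _ k' _ e => by simpa using e)).exists_notMem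
  refine ⟨insert (a :: x, (b, k) :: y) f, subset_insert _ _, ⟨h.fin.insert _, .inr h.root, ?_, ?_,
    ?_⟩, _, .inl rfl⟩
  · rintro p (rfl | hp)
    · exact ⟨ha, ⟨hb2, (h.chn _ hxy).2.1⟩, .inr hxy⟩
    · exact ⟨(h.chn p hp).1, (h.chn p hp).2.1, .inr (h.chn p hp).2.2⟩
  · rintro p (rfl | hp) q (rfl | hq)
    · simp
    · exact iff_of_false (fun e => h0 ⟨q.2, by rw [show a :: x = q.1 from e]; exact hq⟩)
        fun e => hk ⟨q, hq, e.symm⟩
    · exact iff_of_false (fun e => h0 ⟨p.2, by rw [← show p.1 = a :: x from e]; exact hp⟩)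
        fun e => hk ⟨p, hp, e⟩
    · exact h.bij p hp q hq
  · rintro a' x' b' y' (e | hp)
    · obtain ⟨h1, h2⟩ := Prod.mk.inj e
      rw [(List.cons.inj h1).1, (List.cons.inj h2).1]
      exact hb1
    · exact fun μ hμ => h.agr _ _ _ _ hp μ (hμ.trans (le_add_right le_rfl))

theorem Full.mono {θ' : Ordinal.{0}} (h : Full L θ) (h' : θ' ≤ θ) : Full L θ' :=
  fun μ hμ => h μ (hμ.trans_le h')

theorem Good.extN (hL : Lin L') (x : Nd) (hx : Chn L x) : ∀ {θ : Ordinal.{0}} {f : Set (Nd × Nd)},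
    Full L' (θ + x.length) → Good L L' (θ + x.length) f →
    ∃ f' ⊇ f, Good L L' θ f' ∧ ∃ y, (x, y) ∈ f' := by
  induction x with
  | nil => exact fun _ h => ⟨_, Subset.rfl, by simpa using h, _, h.root⟩
  | cons a x ih =>
    intro θ f hF h
    rw [List.length_cons, add_comm x.length, Nat.cast_add, Nat.cast_one, ← add_assoc] at h hF
    obtain ⟨f1, h1, h2, y, h3⟩ := ih hx.2 hF h
    obtain ⟨f2, h4, h5⟩ := h2.ext1 hL (hF.mono (le_add_right le_rfl)) h3 hx
    exact ⟨f2, h1.trans h4, h5⟩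

theorem Good.extL (hL : Lin L') (q : List Nd) (hq : Vl L q) : ∃ k : ℕ,
    ∀ {θ : Ordinal.{0}} {f : Set (Nd × Nd)}, Full L' (θ + k) → Good L L' (θ + k) f →
    ∃ f' ⊇ f, Good L L' θ f' ∧ ∃ q', Vl L' q' ∧ List.Forall₂ (fun x y => (x, y) ∈ f') q q' := by
  induction q with
  | nil => exact ⟨0, fun _ h => ⟨_, Subset.rfl, by simpa using h, [], vl_nil, .nil⟩⟩
  | cons x q ih =>
    obtain ⟨h1, h2⟩ := List.forall_mem_cons.1 hq
    obtain ⟨k, hk⟩ := ih h2
    refine ⟨x.length + k, fun hF h => ?_⟩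
    rw [Nat.cast_add, ← add_assoc] at h hF
    obtain ⟨f1, h3, h4, q', h5, h6⟩ := hk hF h
    obtain ⟨f2, h7, h8, y, h9⟩ := h4.extN hL x h1.2 (hF.mono (le_add_right le_rfl))
    exact ⟨f2, h3.trans h7, h8, y :: q', List.forall_mem_cons.2 ⟨⟨fun e => h1.1
      ((h8.bij _ h9 _ h8.root).2 e), (h8.chn _ h9).2.1⟩, h5⟩, .cons h9 (h6.imp fun _ _ h => h7 h)⟩

theorem Good.tq_eq (h : Good L L' θ f) {p p' : List Nd}
    (hp : List.Forall₂ (fun x y => (x, y) ∈ f) p p') : tq p = tq p' := by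
  have key : ∀ i, (p.getD i [], p'.getD i []) ∈ f := by
    induction hp with
    | nil => exact fun _ => h.root
    | cons h1 _ ih =>
      rintro (_ | i)
      exacts [h1, ih i]
  funext q
  simp only [tq, te, decide_eq_decide]
  exact and_congr (not_congr (h.bij _ (key _) _ h.root))
    (h.bij _ (h.chn _ (key q.1)).2.2 _ (key q.2))

theorem retag {K : Type} (X : Re → K → Bool) (c : BC K) : ∃ θ < w1, ∀ (L L' : ℕ → ℕ → Prop),
    Lin L → Lin L' → Full L θ → Full L' θ → ∀ (f : Set (Nd × Nd)) (p p' : List Nd), Good L L' θ f →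
    List.Forall₂ (fun x y => (x, y) ∈ f) p p' → Frc L X c p → Frc L' X c p' := by
  have key : ∀ {θ : Ordinal.{0}} {L L' : ℕ → ℕ → Prop}, Lin L → Full L (θ + ω) →
      ∀ {f : Set (Nd × Nd)} {p p' : List Nd}, Good L L' (θ + ω) f →
      List.Forall₂ (fun x y => (x, y) ∈ f) p p' → ∀ q', Vl L' q' → ∃ f', Good L' L θ f' ∧ ∃ q,
      Vl L q ∧ List.Forall₂ (fun x y => (x, y) ∈ f') (p' ++ q') (p ++ q) := by
    intro θ L L' hL hF f p p' h hp q' hq'
    obtain ⟨k, hk⟩ := Good.extL hL q' hq'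
    have : θ + k ≤ θ + ω := by gcongr; exact (natCast_lt_omega0 k).le
    obtain ⟨f', h1, h2, q, h3, h4⟩ := hk (hF.mono this) (h.symm.mono this)
    exact ⟨f', h2, q, h3, List.rel_append (List.Forall₂.flip (hp.imp fun _ _ h => h1 h)) h4⟩
  induction c with
  | leaf k =>
    refine ⟨0 + ω, by simp, fun L L' hL _ hF _ f p p' h hp H q' hq' => ?_⟩
    obtain ⟨f', h1, q, h2, h3⟩ := key hL hF h hp q' hq'
    rw [h1.tq_eq h3]
    exact H q h2
  | nor g ih =>
    choose θ h1 h2 using ih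
    obtain ⟨b, h3, h4⟩ := exists_bound θ h1
    refine ⟨b + ω, add_lt_w1 h3 om_lt_w1, fun L L' hL hL' hF hF' f p p' h hp H n q' hq' H' => ?_⟩
    obtain ⟨f', h5, q, h6, h7⟩ := key hL hF h hp q' hq'
    have : θ n ≤ b + ω := (h4 n).le.trans (le_add_right le_rfl)
    exact H n q h6 (h2 n L' L hL' hL (hF'.mono this) (hF.mono this) f' _ _ (h5.mono (h4 n).le) h7 H')

theorem side {K : Type} {X : Re → K → Bool} (hX : ∀ k, LC fun t => X t k = true) {c : BC K}
    (hc : ∀ t t', t ∈ orb t' → t' ∈ orb t → c.ev (X t) → c.ev (X t')) :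
    ∃ θ < w1, ∃ s : Prop, ∀ (L : ℕ → ℕ → Prop) (e : ℕ → Nd), Lin L → Full L θ → (∀ i, Vn L (e i)) →
      Gen L X (.nor fun _ => c) e → (c.ev (X (te e)) ↔ s) := by
  obtain ⟨θ, h1, h2⟩ := retag X (.nor fun _ => c)
  have hg : ∀ L L', Good L L' θ {([], [])} := fun L L' =>
    ⟨finite_singleton _, rfl, by rintro _ rfl; exact ⟨trivial, trivial, rfl⟩,
      by rintro _ rfl _ rfl; simp, by simp⟩
  refine ⟨θ, h1, ∃ L, Lin L ∧ Full L θ ∧ ¬ Frc L X (.nor fun _ => c) [],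
    fun L e hL hF he ⟨⟨m, hm⟩, h3⟩ => ?_⟩
  rw [truth hX he (h3 0)]
  refine ⟨fun ⟨m, h4⟩ => ⟨L, hL, hF, fun h5 => h5 0 _ (vl_ini he m) h4⟩, fun ⟨L', h4, h5, h6⟩ => ?_⟩
  have h7 := mt (h2 L L' hL h4 hF h5 _ _ _ (hg L L') .nil) h6
  simp only [Frc, not_forall, not_not, List.nil_append] at h7
  obtain ⟨-, p, h8, h9⟩ := h7
  rcases hm with hm | ⟨_, hm⟩
  · obtain ⟨r, h10, h11⟩ := homog hX hc h8 (vl_ini he m) h9
    exact (hm 0 r h10 h11).elim
  · exact ⟨m, hm⟩

end Pool.Agent.P.MP_b0885c_lc
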