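import Pool.Agent.P.MP_b0885c_lc.Rank

namespace Pool.Agent.P.MP_b0885c_lc

open Ordinal Set FreeGroup

variable {Λ : Type} [DecidableEq Λ]

omit [DecidableEq Λ] in
theorem mem_invRev {w : List (Λ × Bool)} {a : Λ × Bool} (h : a ∈ invRev w) :
    ∃ b ∈ w, b.1 = a.1 := by
  simp only [invRev, List.mem_reverse, List.mem_map] at h
  obtain ⟨b, hb, rfl⟩ := h
  exact ⟨b, hb, rfl⟩

/-- the free factor generated by a set of letters -/
def H (C : Set Λ) : Subgroup (FreeGroup Λ) where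
  carrier := {g | ∀ a ∈ g.toWord, a.1 ∈ C}
  one_mem' := by simp
  mul_mem' {x y} hx hy a ha := by
    rcases List.mem_append.1 ((toWord_mul_sublist x y).subset ha) with h | h
    exacts [hx a h, hy a h]
  inv_mem' {x} hx a ha := by
    rw [toWord_inv] at ha
    obtain ⟨b, hb, h⟩ := mem_invRev ha
    exact h ▸ hx b hb

theorem mem_H {C : Set Λ} {g : FreeGroup Λ} : g ∈ H C ↔ ∀ a ∈ g.toWord, a.1 ∈ C := Iff.rfl

theorem H_mono {C D : Set Λ} (h : C ⊆ D) : H C ≤ H D := fun _ hg a ha => h (hg a ha)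

theorem of_mem_H {C : Set Λ} {a : Λ} : of a ∈ H C ↔ a ∈ C := by simp [mem_H, toWord_of]

theorem mk_mem_H {C : Set Λ} {w : List (Λ × Bool)} (h : ∀ a ∈ w, a.1 ∈ C) : mk w ∈ H C :=
  fun a ha => h a ((Red.sublist reduce.red).subset (by rwa [toWord_mk] at ha))

theorem map_mem_H {C : Set Λ} {f : Λ → Λ} {g : FreeGroup Λ} (h : g ∈ H C) :
    map f g ∈ H (f '' C) := by
  rw [← mk_toWord (x := g), map.mk]
  refine mk_mem_H fun a ha => ?_
  obtain ⟨b, hb, rfl⟩ := List.mem_map.1 ha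
  exact ⟨_, h b hb, rfl⟩

theorem exists_map_eq {C : Set Λ} {f : Λ → Λ} {g : FreeGroup Λ} (h : g ∈ H (f '' C)) :
    ∃ g' ∈ H C, map f g' = g := by
  have : ∀ w : List (Λ × Bool), (∀ a ∈ w, a.1 ∈ f '' C) → ∃ g' ∈ H C, map f g' = mk w := by
    intro w
    induction w with
    | nil => exact fun _ => ⟨1, one_mem _, by simp [one_eq_mk]⟩
    | cons a w ih =>
      intro h
      obtain ⟨g', h1, h2⟩ := ih fun b hb => h b (List.mem_cons_of_mem _ hb)
      obtain ⟨c, h3, h4⟩ := h a List.mem_cons_self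
      refine ⟨mk [(c, a.2)] * g', mul_mem (mk_mem_H (by simpa)) h1, ?_⟩
      rw [_root_.map_mul, h2, map.mk, mul_mk]
      simp [h4]
  simpa [mk_toWord] using this _ h

theorem exists_min {α : Type} (s : Set α) (f : α → ℕ) (h : s.Nonempty) :
    ∃ a ∈ s, ∀ b ∈ s, f a ≤ f b :=
  ⟨_, Function.argminOn_mem f s h, fun _ hb => Function.argminOn_le f s hb⟩

theorem conj_mem {C : Set Λ} {K : Subgroup (FreeGroup Λ)} (hK : H C ≤ K) {k d : FreeGroup Λ}
    (hk : k ≠ 1) (hmin : ∀ w ∈ K, norm k ≤ norm (w * k * w⁻¹)) (hd : d ∈ K)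
    (h : d * k * d⁻¹ ∈ H C) : d ∈ H C := by
  obtain ⟨h0, hh0, hm⟩ := exists_min (H C : Set (FreeGroup Λ))
    (fun h0 => norm (h0 * d)) ⟨1, one_mem _⟩
  have hmem : h0 * d * k * (h0 * d)⁻¹ ∈ H C := by
    have := mul_mem (mul_mem hh0 h) (inv_mem hh0)
    simpa [mul_assoc] using this
  have hne : h0 * d * k * (h0 * d)⁻¹ ≠ 1 := by
    intro e
    apply hk
    have : k = (h0 * d)⁻¹ * (h0 * d * k * (h0 * d)⁻¹) * (h0 * d) := by group
    rw [this, e]; group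
  have hle := hmin (h0 * d) (mul_mem (hK hh0) hd)
  have hke : k = (h0 * d)⁻¹ * (h0 * d * k * (h0 * d)⁻¹) * (h0 * d) := by group
  generalize h0 * d * k * (h0 * d)⁻¹ = m at hmem hne hle hke
  cases hw : (h0 * d).toWord with
  | nil =>
    rw [toWord_eq_nil_iff, mul_eq_one_iff_inv_eq] at hw
    exact hw ▸ inv_mem hh0
  | cons a rest =>
    exfalso
    have he : h0 * d = mk (a :: rest) := by rw [← hw, mk_toWord]
    have ha : a.1 ∉ C := fun ha => by
      have h1 := hm ((mk [a])⁻¹ * h0) (mul_mem (inv_mem (mk_mem_H (by simpa))) hh0)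
      have h2 : (mk [a])⁻¹ * h0 * d = mk rest := by
        rw [mul_assoc, he, inv_mul_eq_iff_eq_mul, mul_mk]; rfl
      have h3 := norm_mk_le (L₁ := rest)
      simp only [h2] at h1
      have h4 : norm (h0 * d) = rest.length + 1 := by rw [FreeGroup.norm, hw]; rfl
      omega
    have hr1 : IsReduced (invRev (a :: rest)) := by
      rw [← hw, ← toWord_inv]; exact isReduced_toWord
    have hr2 : IsReduced (a :: rest) := by rw [← hw]; exact isReduced_toWord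
    have hr : IsReduced (invRev (a :: rest) ++ m.toWord ++ (a :: rest)) := by
      have hn : m.toWord ≠ [] := by rwa [Ne, toWord_eq_nil_iff]
      refine IsReduced.append_overlap (List.isChain_append.2 ⟨hr1, isReduced_toWord, ?_⟩)
        (List.isChain_append.2 ⟨isReduced_toWord, hr2, ?_⟩) hn
      · intro x hx y hy e
        have : x.1 = a.1 := by
          simp only [invRev, List.map_cons, List.reverse_cons, List.getLast?_append,
            List.getLast?_singleton, Option.some_or, Option.mem_def, Option.some.injEq] at hx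
          rw [← hx]
        exact (ha (this ▸ e ▸ hmem y (List.mem_of_mem_head? hy))).elim
      · intro x hx y hy e
        simp only [List.head?_cons, Option.mem_def, Option.some.injEq] at hy
        exact (ha (hy ▸ e ▸ hmem x (List.mem_of_mem_getLast? hx))).elim
    have : norm k = (invRev (a :: rest) ++ m.toWord ++ (a :: rest)).length := by
      rw [hke, he, inv_mk]
      conv_lhs => rw [← mk_toWord (x := m), mul_mk, mul_mk, FreeGroup.norm, toWord_mk, hr.reduce_eq]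
    simp only [List.length_append, List.length_cons] at this
    unfold FreeGroup.norm at hle this
    omega

/-- an inverse system of sets of letters -/
structure Fo (Λ : Type) where
  /-- predecessor -/
  pd : Λ → Λ
  /-- letters of a level -/
  Lab : ℕ → Set Λ
  hpd : ∀ n a, a ∈ Lab (n + 1) → pd a ∈ Lab n

namespace Fo

variable (F : Fo Λ)

/-- twisted projection -/
def pp (b : ℕ → FreeGroup Λ) (n : ℕ) (g : FreeGroup Λ) : FreeGroup Λ := map F.pd g * b n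

theorem map_mem {n : ℕ} {g : FreeGroup Λ} (h : g ∈ H (F.Lab (n + 1))) :
    map F.pd g ∈ H (F.Lab n) :=
  H_mono (by rintro _ ⟨a, ha, rfl⟩; exact F.hpd n a ha) (map_mem_H h)

omit [DecidableEq Λ] in
theorem pp_mul (b : ℕ → FreeGroup Λ) (n : ℕ) (g x : FreeGroup Λ) :
    F.pp b n (g * x) = map F.pd g * F.pp b n x := by simp [pp, mul_assoc]

/-- cocycles -/
def Co (b : ℕ → FreeGroup Λ) : Prop := ∀ n, b n ∈ H (F.Lab n)

variable {F}

theorem pp_mem {b : ℕ → FreeGroup Λ} (hb : F.Co b) {n : ℕ} {g : FreeGroup Λ}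
    (h : g ∈ H (F.Lab (n + 1))) : F.pp b n g ∈ H (F.Lab n) := mul_mem (F.map_mem h) (hb n)

variable (F)

/-- child relation on letters -/
def rC (p q : ℕ × Λ) : Prop := p.1 = q.1 + 1 ∧ p.2 ∈ F.Lab p.1 ∧ F.pd p.2 = q.2

/-- letters of rank at least `θ` -/
def Cs (θ : Ordinal.{0}) (n : ℕ) : Set Λ := {a | a ∈ F.Lab n ∧ Rk F.rC θ (n, a)}

/-- child relation on points -/
def rY (b : ℕ → FreeGroup Λ) (p q : ℕ × FreeGroup Λ) : Prop :=
  p.1 = q.1 + 1 ∧ p.2 ∈ H (F.Lab p.1) ∧ F.pp b q.1 p.2 = q.2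

/-- points of rank at least `θ` -/
def Ys (b : ℕ → FreeGroup Λ) (θ : Ordinal.{0}) (n : ℕ) : Set (FreeGroup Λ) :=
  {x | x ∈ H (F.Lab n) ∧ Rk (F.rY b) θ (n, x)}

/-- child relation on pairs of points -/
def rT (b : ℕ → FreeGroup Λ) (p q : ℕ × FreeGroup Λ × FreeGroup Λ) : Prop :=
  p.1 = q.1 + 1 ∧ p.2.1 ∈ H (F.Lab p.1) ∧ p.2.2 ∈ H (F.Lab p.1) ∧
    ∃ w ∈ H (F.Lab q.1), F.pp b q.1 p.2.1 = w * q.2.1 ∧ F.pp b q.1 p.2.2 = w * q.2.2

variable {F}

omit [DecidableEq Λ] in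
theorem mem_Cs {θ : Ordinal.{0}} {n : ℕ} {a : Λ} :
    a ∈ F.Cs θ n ↔ a ∈ F.Lab n ∧ ∀ μ < θ, a ∈ F.pd '' F.Cs μ (n + 1) := by
  rw [Cs, mem_ofPred_eq, rk_iff]
  refine and_congr_right fun _ => forall₂_congr fun μ _ => ⟨?_, ?_⟩
  · rintro ⟨⟨_, a'⟩, ⟨rfl, h1, h2⟩, h3⟩
    exact ⟨a', ⟨h1, h3⟩, h2⟩
  · rintro ⟨a', ⟨h1, h3⟩, h2⟩
    exact ⟨(n + 1, a'), ⟨rfl, h1, h2⟩, h3⟩

theorem mem_Ys {b : ℕ → FreeGroup Λ} {θ : Ordinal.{0}} {n : ℕ} {a : FreeGroup Λ} :
    a ∈ F.Ys b θ n ↔ a ∈ H (F.Lab n) ∧ ∀ μ < θ, a ∈ F.pp b n '' F.Ys b μ (n + 1) := by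
  rw [Ys, mem_ofPred_eq, rk_iff]
  refine and_congr_right fun _ => forall₂_congr fun μ _ => ⟨?_, ?_⟩
  · rintro ⟨⟨_, a'⟩, ⟨rfl, h1, h2⟩, h3⟩
    exact ⟨a', ⟨h1, h3⟩, h2⟩
  · rintro ⟨a', ⟨h1, h3⟩, h2⟩
    exact ⟨(n + 1, a'), ⟨rfl, h1, h2⟩, h3⟩

theorem Ys_mono {b : ℕ → FreeGroup Λ} {θ θ' : Ordinal.{0}} (h : θ' ≤ θ) {n : ℕ} :
    F.Ys b θ n ⊆ F.Ys b θ' n := fun _ hx => ⟨hx.1, hx.2.mono h⟩

theorem coset_step {b : ℕ → FreeGroup Λ} {μ : Ordinal.{0}} {n : ℕ}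
    (ih : ∀ y ∈ F.Ys b μ (n + 1), ∀ g ∈ H (F.Lab (n + 1)),
      (g * y ∈ F.Ys b μ (n + 1) ↔ g ∈ H (F.Cs μ (n + 1))))
    {u g : FreeGroup Λ} (hu : u ∈ F.pp b n '' F.Ys b μ (n + 1)) :
    g * u ∈ F.pp b n '' F.Ys b μ (n + 1) ↔ g ∈ H (F.pd '' F.Cs μ (n + 1)) := by
  obtain ⟨y, hy, rfl⟩ := hu
  constructor
  · rintro ⟨z, hz, h⟩
    have h1 := (ih y hy (z * y⁻¹) (mul_mem hz.1 (inv_mem hy.1))).1 (by simpa using hz)
    have h2 : z = z * y⁻¹ * y := by simp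
    rw [h2, pp_mul, mul_left_inj] at h
    exact h ▸ map_mem_H h1
  · intro h
    obtain ⟨g', h1, rfl⟩ := exists_map_eq h
    exact ⟨g' * y, (ih y hy g' (H_mono (fun a ha => ha.1) h1)).2 h1, F.pp_mul _ _ _ _⟩

theorem coset {b : ℕ → FreeGroup Λ} {θ : Ordinal.{0}} {n : ℕ} :
    ∀ y ∈ F.Ys b θ n, ∀ g ∈ H (F.Lab n), (g * y ∈ F.Ys b θ n ↔ g ∈ H (F.Cs θ n)) := by
  induction θ using WellFoundedLT.induction generalizing n with
  | ind θ ih =>
    intro y hy g hg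
    have hy' := mem_Ys.1 hy
    rw [mem_Ys]
    constructor
    · intro h a ha
      exact mem_Cs.2 ⟨hg a ha, fun μ hμ =>
        (coset_step (ih μ hμ) (hy'.2 μ hμ)).1 (h.2 μ hμ) a ha⟩
    · intro h
      exact ⟨mul_mem hg hy'.1, fun μ hμ => (coset_step (ih μ hμ) (hy'.2 μ hμ)).2
        fun a ha => (mem_Cs.1 (h a ha)).2 μ hμ⟩

theorem lemA {b : ℕ → FreeGroup Λ} {θ : Ordinal.{0}} {n : ℕ} {x y w0 : FreeGroup Λ}
    (h : Rk (F.rT b) θ (n, x, y)) (hx : x ∈ H (F.Lab n)) (hy : y ∈ H (F.Lab n)) (hne : x ≠ y)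
    (hw0 : w0 ∈ H (F.Lab n))
    (hmin : ∀ w ∈ H (F.Lab n), norm (w0 * (y * x⁻¹) * w0⁻¹) ≤ norm (w * (y * x⁻¹) * w⁻¹)) :
    w0 * x ∈ F.Ys b θ n ∧ w0 * y ∈ F.Ys b θ n := by
  induction θ using WellFoundedLT.induction generalizing n x y w0 with
  | ind θ ih =>
    have key : ∀ μ < θ, w0 * x ∈ F.pp b n '' F.Ys b μ (n + 1) ∧
        w0 * y ∈ F.pp b n '' F.Ys b μ (n + 1) := by
      intro μ hμ
      obtain ⟨⟨_, x', y'⟩, ⟨rfl, hx', hy', w, hw, h1, h2⟩, h3⟩ := rk_iff.1 h μ hμ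
      dsimp only at hx' hy' hw h1 h2
      have hne' : x' ≠ y' := fun e => hne (by rw [e, h2] at h1; exact (mul_left_cancel h1).symm)
      obtain ⟨w', hw', hm⟩ := exists_min (H (F.Lab (n + 1)) : Set (FreeGroup Λ))
        (fun w => norm (w * (y' * x'⁻¹) * w⁻¹)) ⟨1, one_mem _⟩
      obtain ⟨h4, h5⟩ := ih μ hμ h3 hx' hy' hne' hw' hm
      have h6 : map F.pd w' * w * x ∈ F.pp b n '' F.Ys b μ (n + 1) :=
        ⟨_, h4, by rw [pp_mul, h1, mul_assoc]⟩
      have h7 : map F.pd w' * w * y ∈ F.pp b n '' F.Ys b μ (n + 1) :=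
        ⟨_, h5, by rw [pp_mul, h2, mul_assoc]⟩
      have hW : map F.pd w' * w ∈ H (F.Lab n) := mul_mem (F.map_mem hw') hw
      generalize map F.pd w' * w = W at h6 h7 hW
      have h8 : W * w0⁻¹ * (w0 * (y * x⁻¹) * w0⁻¹) * (W * w0⁻¹)⁻¹ ∈
          H (F.pd '' F.Cs μ (n + 1)) := by
        refine (coset_step coset h6).1 ?_
        convert h7 using 1
        group
      have h9 : W * w0⁻¹ ∈ H (F.pd '' F.Cs μ (n + 1)) := by
        refine conj_mem (K := H (F.Lab n))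
          (H_mono (by rintro _ ⟨a, ha, rfl⟩; exact F.hpd n a ha.1)) ?_ ?_
          (mul_mem hW (inv_mem hw0)) h8
        · intro e
          apply hne
          have : y * x⁻¹ = w0⁻¹ * (w0 * (y * x⁻¹) * w0⁻¹) * w0 := by group
          rw [e] at this
          simp only [mul_one, inv_mul_cancel, mul_inv_eq_one] at this
          exact this.symm
        · intro v hv
          convert hmin (v * w0) (mul_mem hv hw0) using 2
          group
      constructor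
      · convert (coset_step coset h6).2 (inv_mem h9) using 1
        group
      · convert (coset_step coset h7).2 (inv_mem h9) using 1
        group
    exact ⟨mem_Ys.2 ⟨mul_mem hw0 hx, fun μ hμ => (key μ hμ).1⟩,
      mem_Ys.2 ⟨mul_mem hw0 hy, fun μ hμ => (key μ hμ).2⟩⟩

theorem one_mem_Ys {θ : Ordinal.{0}} {n : ℕ} : (1 : FreeGroup Λ) ∈ F.Ys (fun _ => 1) θ n := by
  induction θ using WellFoundedLT.induction generalizing n with
  | ind θ ih => exact mem_Ys.2 ⟨one_mem _, fun μ hμ => ⟨1, ih μ hμ, by simp [pp]⟩⟩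

theorem Ys_dead {b : ℕ → FreeGroup Λ} (hb : F.Co b) {θ : Ordinal.{0}} {n : ℕ}
    (h : F.Ys b θ n = ∅) (N : ℕ) : F.Ys b (θ + n) N = ∅ := by
  have up : ∀ θ n, F.Ys b θ n = ∅ → F.Ys b θ (n + 1) = ∅ := fun θ n h =>
    eq_empty_of_forall_notMem fun x hx => by
      have : F.pp b n x ∈ F.Ys b θ n :=
        mem_Ys.2 ⟨pp_mem hb hx.1, fun μ hμ => ⟨x, Ys_mono hμ.le hx, rfl⟩⟩
      simp [h] at this
  have h0 : ∀ n θ, F.Ys b θ n = ∅ → F.Ys b (θ + n) 0 = ∅ := fun n => by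
    induction n with
    | zero => simp
    | succ n ih =>
      intro θ h
      have := ih (θ + 1) (eq_empty_of_forall_notMem fun x hx => by
        have := (mem_Ys.1 hx).2 θ (lt_add_one _)
        simp [h] at this)
      rwa [add_assoc, ← Nat.cast_one, ← Nat.cast_add, add_comm 1 n] at this
  induction N with
  | zero => exact h0 n θ h
  | succ N ih => exact up _ _ ih

end Fo

end Pool.Agent.P.MP_b0885c_lc
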