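import Pool.Agent.P.MP_b0885c_lc.Frc

namespace Pool.Agent.P.MP_b0885c_lc

open Set Ordinal

universe u v

/-- first-order formulas over a family of ternary predicates -/
inductive SF : Type
  | atm (k i j l : ℕ) : SF
  | neg (φ : SF) : SF
  | and (φ ψ : SF) : SF
  | ex (φ : SF) : SF

/-- satisfaction -/
def SF.Sat {U : Type u} (D : U → Prop) (R : ℕ → U → U → U → Prop) : SF → (ℕ → U) → Prop
  | .atm k i j l, v => R k (v i) (v j) (v l)
  | .neg φ, v => ¬ φ.Sat D R v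
  | .and φ ψ, v => φ.Sat D R v ∧ ψ.Sat D R v
  | .ex φ, v => ∃ x, D x ∧ φ.Sat D R fun i => Nat.casesOn i x v

/-- code of a formula -/
def SF.enc : SF → ℕ
  | .atm k i j l => Nat.pair 0 (Nat.pair (Nat.pair k i) (Nat.pair j l))
  | .neg φ => Nat.pair 3 φ.enc
  | .and φ ψ => Nat.pair 4 (Nat.pair φ.enc ψ.enc)
  | .ex φ => Nat.pair 5 φ.enc

theorem SF.enc_inj : Function.Injective SF.enc := by
  intro φ
  induction φ <;> intro ψ h <;> cases ψ <;> simp_all [SF.enc]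
  all_goals tauto

instance : Countable SF := SF.enc_inj.countable

instance : Nonempty SF := ⟨.atm 0 0 0 0⟩

theorem SF.transfer {U : Type u} {V : Type v} {D : U → Prop} {E : ℕ → U → U → U → Prop}
    {D' : V → Prop} {E' : ℕ → V → V → V → Prop} (R : U → V → Prop)
    (h1 : ∀ a, D a → ∃ b, D' b ∧ R a b) (h2 : ∀ b, D' b → ∃ a, D a ∧ R a b)
    (hE : ∀ k a b c a' b' c', R a a' → R b b' → R c c' → (E k a b c ↔ E' k a' b' c'))
    (φ : SF) : ∀ (v : ℕ → U) (v' : ℕ → V), (∀ i, R (v i) (v' i)) →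
      (φ.Sat D E v ↔ φ.Sat D' E' v') := by
  induction φ with
  | atm k i j l => exact fun v v' h => hE _ _ _ _ _ _ _ (h i) (h j) (h l)
  | neg φ ih => exact fun v v' h => not_congr (ih v v' h)
  | and φ ψ ih ih' => exact fun v v' h => and_congr (ih v v' h) (ih' v v' h)
  | ex φ ih =>
    refine fun v v' h => ⟨fun ⟨a, ha, H⟩ => ?_, fun ⟨b, hb, H⟩ => ?_⟩
    · obtain ⟨b, hb, h3⟩ := h1 a ha
      exact ⟨b, hb, (ih _ _ (by rintro (_ | i); exacts [h3, h i])).1 H⟩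
    · obtain ⟨a, ha, h3⟩ := h2 b hb
      exact ⟨a, ha, (ih _ _ (by rintro (_ | i); exacts [h3, h i])).2 H⟩

/-- families of ternary relations on the naturals -/
abbrev Zt : Type := ℕ → ℕ → ℕ → ℕ → Prop

section
variable {U : Type u} {V : Type v} {I : Type v}

/-- the basic predicates -/
def RR (E : U → U → Prop) (N : ℕ → U → Prop) (Z : Zt) (O : U → U → Prop) :
    ℕ → U → U → U → Prop
  | 0, a, b, _ => E a b
  | 1, a, b, _ => a = b
  | 2, a, b, _ => O a b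
  | k + 3, a, b, c => ∃ i j l, N i a ∧ N j b ∧ N l c ∧ Z k i j l

/-- `z` is defined by `φ` with parameters `ps` -/
def Dn (E : U → U → Prop) (N : ℕ → U → Prop) (Z : Zt) (D : U → Prop) (O : U → U → Prop) (z : U)
    (φ : SF) (ps : List U) : Prop :=
  (∀ p ∈ ps, D p) ∧ ∀ w, E w z ↔ D w ∧ φ.Sat D (RR E N Z O) fun i => (w :: ps).getD i w

/-- lexicographic order -/
def Lx (O : U → U → Prop) : List U → List U → Prop
  | a :: l, b :: m => O a b ∨ (a = b ∧ Lx O l m)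
  | _, _ => False

/-- comparison of definitions -/
def Cp (O : U → U → Prop) (φ : SF) (ps : List U) (φ' : SF) (ps' : List U) : Prop :=
  φ.enc.pair ps.length < φ'.enc.pair ps'.length ∨
    (φ.enc.pair ps.length = φ'.enc.pair ps'.length ∧ Lx O ps ps')

/-- the order induced by definitions -/
def Od (lt : I → I → Prop) (F : I → U → SF → List U → Prop) (O : I → U → U → Prop) (i : I)
    (a b : U) : Prop :=
  ∃ j, lt j i ∧ ∃ φ ps, F j a φ ps ∧ ∀ j', lt j' i → ∀ φ' ps', F j' b φ' ps' →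
    lt j j' ∨ (j = j' ∧ Cp (O j) φ ps φ' ps')

theorem cp_rel {R : U → V → Prop} {O : U → U → Prop} {O' : V → V → Prop}
    (hO : ∀ a a' b b', R a a' → R b b' → (O a b ↔ O' a' b'))
    (hq : ∀ a a' b b', R a a' → R b b' → (a = b ↔ a' = b')) {φ ψ : SF} {l m : List U}
    {l' m' : List V} (h1 : List.Forall₂ R l l') (h2 : List.Forall₂ R m m') :
    Cp O φ l ψ m ↔ Cp O' φ l' ψ m' := by
  rw [Cp, Cp, h1.length_eq, h2.length_eq]
  refine or_congr_right (and_congr_right fun h => ?_)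
  clear h
  induction h1 generalizing m m' with
  | nil => cases h2 <;> simp [Lx]
  | cons h3 _ ih =>
    cases h2 with
    | nil => simp [Lx]
    | cons h4 h5 => exact or_congr (hO _ _ _ _ h3 h4) (and_congr (hq _ _ _ _ h3 h4) (ih h5))

end

/-- the hierarchy with its orders -/
noncomputable def HH (Z : Zt) (α : Ordinal.{0}) :
    (ZFSet.{0} → Prop) × (ZFSet.{0} → ZFSet.{0} → Prop) :=
  (fun z => ∃ β, ∃ _ : β < α, ∃ φ ps, Dn (· ∈ ·) (num · = ·) Z (HH Z β).1 (HH Z β).2 z φ ps,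
    fun a b => ∃ β, ∃ _ : β < α, ∃ φ ps, Dn (· ∈ ·) (num · = ·) Z (HH Z β).1 (HH Z β).2 a φ ps ∧
      ∀ β', ∀ _ : β' < α, ∀ φ' ps', Dn (· ∈ ·) (num · = ·) Z (HH Z β').1 (HH Z β').2 b φ' ps' →
        β < β' ∨ (β = β' ∧ Cp (HH Z β).2 φ ps φ' ps'))
termination_by α

/-- the levels -/
def Lh (Z : Zt) (α : Ordinal.{0}) : ZFSet.{0} → Prop := (HH Z α).1

/-- the orders -/
def Oh (Z : Zt) (α : Ordinal.{0}) : ZFSet.{0} → ZFSet.{0} → Prop := (HH Z α).2

/-- definitions at a level -/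
def DL (Z : Zt) (β : Ordinal.{0}) : ZFSet.{0} → SF → List ZFSet.{0} → Prop :=
  Dn (· ∈ ·) (num · = ·) Z (Lh Z β) (Oh Z β)

theorem lh_iff {Z : Zt} {z : ZFSet.{0}} {α : Ordinal.{0}} :
    Lh Z α z ↔ ∃ β < α, ∃ φ ps, DL Z β z φ ps := by
  rw [Lh, HH]
  simp only [exists_prop]
  rfl

theorem oh_iff {Z : Zt} {a b : ZFSet.{0}} {α : Ordinal.{0}} :
    Oh Z α a b ↔ Od (· < ·) (DL Z) (Oh Z) α a b := by
  rw [Oh, HH]
  simp only [exists_prop]
  rfl

theorem Lh.rank_lt {Z : Zt} {z : ZFSet.{0}} {α : Ordinal.{0}} (h : Lh Z α z) : z.rank < α := by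
  induction α using WellFoundedLT.induction generalizing z with
  | ind α ih =>
    obtain ⟨β, h1, φ, ps, -, h2⟩ := lh_iff.1 h
    exact (ZFSet.rank_le_iff.2 fun w hw => ih β h1 ((h2 w).1 hw).1).trans_lt h1

theorem exists_def (Z : Zt) (β : Ordinal.{0}) (P : ZFSet.{0} → Prop) :
    ∃ z : ZFSet.{0}, ∀ w, w ∈ z ↔ Lh Z β w ∧ P w :=
  ⟨(ZFSet.vonNeumann β).sep fun w => Lh Z β w ∧ P w, fun w => by
    rw [ZFSet.mem_sep, ZFSet.mem_vonNeumann]
    exact ⟨fun h => h.2, fun h => ⟨h.1.rank_lt, h⟩⟩⟩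

theorem exists_DL {Z : Zt} {β : Ordinal.{0}} (φ : SF) {ps : List ZFSet.{0}}
    (h : ∀ p ∈ ps, Lh Z β p) : ∃ z, DL Z β z φ ps :=
  (exists_def Z β _).imp fun _ hz => ⟨h, hz⟩

theorem rank_num (n : ℕ) : (num n).rank = n := by
  induction n with
  | zero => simp [num]
  | succ n ih => simp [num, ih]

theorem num_inj : Function.Injective num := fun m n h => by
  have := congrArg ZFSet.rank h
  rwa [rank_num, rank_num, Nat.cast_inj] at this

theorem mem_num {n : ℕ} {w : ZFSet.{0}} : w ∈ num n ↔ ∃ m < n, w = num m := by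
  induction n with
  | zero => simp [num]
  | succ n ih =>
    simp only [num, ZFSet.mem_insert_iff, ih, Nat.lt_succ_iff_lt_or_eq]
    constructor
    · rintro (h | ⟨m, h1, h2⟩)
      exacts [⟨n, .inr rfl, h⟩, ⟨m, .inl h1, h2⟩]
    · rintro ⟨m, h1 | rfl, h2⟩
      exacts [.inr ⟨m, h1, h2⟩, .inl h2]

/-- the point `a` represents the set `z` -/
def Rep (E : ℕ → ℕ → Prop) (z : ZFSet.{0}) (a : ℕ) : Prop :=
  (∀ w, ∀ _ : w ∈ z, ∃ b, E b a ∧ Rep E w b) ∧ ∀ b, E b a → ∃ w, ∃ _ : w ∈ z, Rep E w b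
termination_by z.rank
decreasing_by all_goals exact ZFSet.rank_lt_of_mem ‹_›

theorem rep_iff {E : ℕ → ℕ → Prop} {z : ZFSet.{0}} {a : ℕ} : Rep E z a ↔
    (∀ w ∈ z, ∃ b, E b a ∧ Rep E w b) ∧ ∀ b, E b a → ∃ w ∈ z, Rep E w b := by
  rw [Rep]
  simp only [exists_prop]

theorem Rep.fn {E : ℕ → ℕ → Prop} {z z' : ZFSet.{0}} {a : ℕ} (h : Rep E z a) (h' : Rep E z' a) :
    z = z' := by
  induction z using ZFSet.inductionOn generalizing z' a with
  | h z ih =>
    rw [rep_iff] at h h'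
    refine ZFSet.ext fun w => ⟨fun hw => ?_, fun hw => ?_⟩
    · obtain ⟨b, h1, h2⟩ := h.1 w hw
      obtain ⟨w', h3, h4⟩ := h'.2 b h1
      exact ih w hw h2 h4 ▸ h3
    · obtain ⟨b, h1, h2⟩ := h'.1 w hw
      obtain ⟨w', h3, h4⟩ := h.2 b h1
      exact ih w' h3 h4 h2 ▸ h3

theorem Rep.inj {E : ℕ → ℕ → Prop} (hE : ∀ a a', (∀ w, E w a ↔ E w a') → a = a') {z : ZFSet.{0}}
    {a a' : ℕ} (h : Rep E z a) (h' : Rep E z a') : a = a' := by
  induction z using ZFSet.inductionOn generalizing a a' with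
  | h z ih =>
    rw [rep_iff] at h h'
    refine hE _ _ fun b => ⟨fun hb => ?_, fun hb => ?_⟩
    · obtain ⟨w, h1, h2⟩ := h.2 b hb
      obtain ⟨b', h3, h4⟩ := h'.1 w h1
      exact ih w h1 h2 h4 ▸ h3
    · obtain ⟨w, h1, h2⟩ := h'.2 b hb
      obtain ⟨b', h3, h4⟩ := h.1 w h1
      exact ih w h1 h2 h4 ▸ h3

theorem Rep.mem {E : ℕ → ℕ → Prop} (hE : ∀ a a', (∀ w, E w a ↔ E w a') → a = a')
    {z w : ZFSet.{0}} {a b : ℕ} (h : Rep E z a) (h' : Rep E w b) : E b a ↔ w ∈ z := by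
  refine ⟨fun hb => ?_, fun hw => ?_⟩
  · obtain ⟨w', h1, h2⟩ := (rep_iff.1 h).2 b hb
    exact h2.fn h' ▸ h1
  · obtain ⟨b', h1, h2⟩ := (rep_iff.1 h).1 w hw
    exact h2.inj hE h' ▸ h1

theorem rep_of_trans {g : ℕ → ZFSet.{0}} {T : Set ZFSet.{0}} (h1 : ∀ z ∈ T, ∀ w ∈ z, w ∈ T)
    (h2 : T ⊆ range g) {z : ZFSet.{0}} (hz : z ∈ T) :
    ∀ a, g a = z → Rep (fun b a => g b ∈ g a) z a := by
  induction z using ZFSet.inductionOn with
  | h z ih =>
    rintro a rfl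
    refine rep_iff.2 ⟨fun w hw => ?_, fun b hb => ⟨_, hb, ih _ hb (h1 _ hz _ hb) b rfl⟩⟩
    obtain ⟨b, rfl⟩ := h2 (h1 _ hz w hw)
    exact ⟨b, hw, ih _ hw (h1 _ hz _ hw) b rfl⟩

/-- definitions in a pseudo-hierarchy -/
def DP (E Lv : ℕ → ℕ → Prop) (O : ℕ → ℕ → ℕ → Prop) (Z : Zt) (j : ℕ) : ℕ → SF → List ℕ → Prop :=
  Dn E (fun n a => Rep E (num n) a) Z (Lv j) (O j)

/-- pseudo-hierarchies -/
structure Hier (L E Lv : ℕ → ℕ → Prop) (O : ℕ → ℕ → ℕ → Prop) (Z : Zt) : Prop where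
  ext : ∀ a a', (∀ w, E w a ↔ E w a') → a = a'
  d1 : ∀ i a, Lv i a ↔ ∃ j, L j i ∧ ∃ φ ps, DP E Lv O Z j a φ ps
  d2 : ∀ j (φ : SF) (ps : List ℕ), (∀ p ∈ ps, Lv j p) → ∃ a, DP E Lv O Z j a φ ps
  d3 : ∀ i a b, O i a b ↔ Od L (DP E Lv O Z) O i a b

theorem forall₂_getD {α β : Type*} {R : α → β → Prop} {l : List α} {l' : List β}
    (h : List.Forall₂ R l l') {a : α} {b : β} (hab : R a b) (k : ℕ) :
    R (l.getD k a) (l'.getD k b) := by
  induction h generalizing k with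
  | nil => exact hab
  | cons h1 _ ih => cases k; exacts [h1, ih _]

theorem exists_forall₂ {α β : Type*} {R : α → β → Prop} {P : β → Prop} {l : List α}
    (h : ∀ a ∈ l, ∃ b, P b ∧ R a b) : ∃ l', (∀ b ∈ l', P b) ∧ List.Forall₂ R l l' := by
  induction l with
  | nil => exact ⟨[], by simp, .nil⟩
  | cons a l ih =>
    obtain ⟨⟨b, h1, h2⟩, h3⟩ := List.forall_mem_cons.1 h
    obtain ⟨l', h4, h5⟩ := ih h3
    exact ⟨b :: l', List.forall_mem_cons.2 ⟨h1, h4⟩, .cons h2 h5⟩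

theorem Ex.uniq {α : Type u} {r : α → α → Prop} {μ ν : Ordinal.{0}} {x : α} (h : Ex r μ x)
    (h' : Ex r ν x) : μ = ν := le_antisymm (h'.rk_iff.1 h.1) (h.rk_iff.1 h'.1)

theorem Hier.correct {L E Lv : ℕ → ℕ → Prop} {O : ℕ → ℕ → ℕ → Prop} {Z : Zt}
    (h : Hier L E Lv O Z) (hL : Lin L) (r : Ordinal.{0}) :
    ∀ i, Ex L r i → (∀ a, Lv i a → ∃ z, Lh Z r z ∧ Rep E z a) ∧
      (∀ z, Lh Z r z → ∃ a, Lv i a ∧ Rep E z a) ∧
      ∀ a z b z', Rep E z a → Rep E z' b → (O i a b ↔ Oh Z r z z') := by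
  induction r using WellFoundedLT.induction with
  | ind r ih =>
    intro i hi
    have hq : ∀ a z b z', Rep E z a → Rep E z' b → (a = b ↔ z = z') := fun _ _ _ _ h3 h4 =>
      ⟨fun e => h3.fn (e ▸ h4), fun e => h3.inj h.ext (e ▸ h4)⟩
    have tr : ∀ β < r, ∀ j, Ex L β j → ∀ (φ : SF) (ps : List ℕ) (ps' : List ZFSet.{0}),
        List.Forall₂ (fun a z => Rep E z a) ps ps' → ∀ b w, Rep E w b →
        (φ.Sat (Lv j) (RR E (fun n a => Rep E (num n) a) Z (O j)) (fun k => (b :: ps).getD k b) ↔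
        φ.Sat (Lh Z β) (RR (· ∈ ·) (num · = ·) Z (Oh Z β)) fun k => (w :: ps').getD k w) := by
      intro β hβ j hj φ ps ps' hps b w hb
      obtain ⟨h1, h2, h3⟩ := ih β hβ j hj
      refine SF.transfer (fun a z => Rep E z a) h1 h2 ?_ φ _ _
        (forall₂_getD (R := fun a z => Rep E z a) (.cons hb hps) hb)
      have : ∀ a z n, Rep E z a → (Rep E (num n) a ↔ num n = z) := fun a z n h4 =>
        ⟨fun h5 => h5.fn h4, fun h5 => h5 ▸ h4⟩
      rintro (_ | _ | _ | k) a b c a' b' c' h4 h5 h6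
      · exact h5.mem h.ext h4
      · exact hq _ _ _ _ h4 h5
      · exact h3 _ _ _ _ h4 h5
      · simp only [RR, this _ _ _ h4, this _ _ _ h5, this _ _ _ h6]
    have lv : ∀ β < r, ∀ j, Ex L β j → ∀ a z, Rep E z a → (Lv j a ↔ Lh Z β z) :=
      fun β hβ j hj a z h1 =>
        ⟨fun h2 => let ⟨_, h3, h4⟩ := (ih β hβ j hj).1 a h2; h4.fn h1 ▸ h3,
          fun h2 => let ⟨_, h3, h4⟩ := (ih β hβ j hj).2.1 z h2; h4.inj h.ext h1 ▸ h3⟩
    have key : ∀ β < r, ∀ j, Ex L β j → ∀ (φ : SF) (ps : List ℕ) (ps' : List ZFSet.{0}),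
        List.Forall₂ (fun a z => Rep E z a) ps ps' → ∀ (a : ℕ) (z : ZFSet.{0}),
        DP E Lv O Z j a φ ps → DL Z β z φ ps' → Rep E z a := by
      intro β hβ j hj φ ps ps' hps a z ha hz
      obtain ⟨h1, h2, -⟩ := ih β hβ j hj
      refine rep_iff.2 ⟨fun w hw => ?_, fun b hb => ?_⟩
      · obtain ⟨h3, h4⟩ := (hz.2 w).1 hw
        obtain ⟨b, h5, h6⟩ := h2 w h3
        exact ⟨b, (ha.2 b).2 ⟨h5, (tr β hβ j hj φ _ _ hps b w h6).2 h4⟩, h6⟩
      · obtain ⟨h3, h4⟩ := (ha.2 b).1 hb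
        obtain ⟨w, h5, h6⟩ := h1 b h3
        exact ⟨w, (hz.2 w).2 ⟨h5, (tr β hβ j hj φ _ _ hps b w h6).1 h4⟩, h6⟩
    have up : ∀ j, L j i → ∀ a φ ps, DP E Lv O Z j a φ ps → ∃ β < r, Ex L β j ∧ ∃ ps' z,
        List.Forall₂ (fun a z => Rep E z a) ps ps' ∧ DL Z β z φ ps' ∧ Rep E z a := by
      intro j h1 a φ ps h2
      obtain ⟨β, h4, h5⟩ := exists_ex_lt (θ := r) fun h6 => hi.2 (rk_succ.2 ⟨j, h1, h6⟩)
      obtain ⟨ps', h6, h7⟩ := exists_forall₂ fun p hp => (ih β h4 j h5).1 p (h2.1 p hp)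
      obtain ⟨z, hz⟩ := exists_DL φ h6
      exact ⟨β, h4, h5, ps', z, h7, hz, key β h4 j h5 φ ps ps' h7 a z h2 hz⟩
    have dn : ∀ β < r, ∀ z φ ps', DL Z β z φ ps' → ∃ j, L j i ∧ Ex L β j ∧ ∃ ps a,
        List.Forall₂ (fun a z => Rep E z a) ps ps' ∧ DP E Lv O Z j a φ ps ∧ Rep E z a := by
      intro β h1 z φ ps' h2
      obtain ⟨y, h4, h5⟩ := rk_iff.1 hi.1 β h1
      obtain ⟨j, -, h7⟩ := exists_ex_desc h5 (κ := r) fun h6 => hi.2 (rk_succ.2 ⟨y, h4, h6⟩)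
      obtain ⟨ps, h9, h10⟩ := exists_forall₂ fun p hp => (ih β h1 j h7).2.1 p (h2.1 p hp)
      obtain ⟨a, h11⟩ := h.d2 j φ ps h9
      exact ⟨j, hL.below h7 (hi.1.mono (Order.add_one_le_of_lt h1)), h7, ps, a, h10.flip, h11,
        key β h1 j h7 φ ps ps' h10.flip a z h11 h2⟩
    refine ⟨fun a ha => ?_, fun z hz => ?_, fun a z b z' ha hb => ?_⟩
    · obtain ⟨j, h1, φ, ps, h2⟩ := (h.d1 i a).1 ha
      obtain ⟨β, h3, -, ps', z, -, h4, h5⟩ := up j h1 a φ ps h2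
      exact ⟨z, lh_iff.2 ⟨β, h3, φ, ps', h4⟩, h5⟩
    · obtain ⟨β, h1, φ, ps', h2⟩ := lh_iff.1 hz
      obtain ⟨j, h3, -, ps, a, -, h4, h5⟩ := dn β h1 z φ ps' h2
      exact ⟨a, (h.d1 i a).2 ⟨j, h3, φ, ps, h4⟩, h5⟩
    rw [h.d3, oh_iff]
    refine ⟨fun ⟨j, h1, φ, ps, h2, H⟩ => ?_, fun ⟨β, h1, φ, ps', h2, H⟩ => ?_⟩
    · obtain ⟨β, h3, h4, ps', z0, h5, h6, h7⟩ := up j h1 a φ ps h2
      refine ⟨β, h3, φ, ps', h7.fn ha ▸ h6, fun β' h8 φ' qs' h9 => ?_⟩
      obtain ⟨j', a1, a2, qs, b0, a3, a4, a5⟩ := dn β' h8 z' φ' qs' h9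
      rcases H j' a1 φ' qs (a5.inj h.ext hb ▸ a4) with a6 | ⟨rfl, a6⟩
      · exact .inl (Order.add_one_le_iff.1 (a2.rk_iff.1 (rk_succ.2 ⟨j, a6, h4.1⟩)))
      · exact .inr ⟨h4.uniq a2, (cp_rel (ih β h3 j h4).2.2 hq h5 a3).1 a6⟩
    · obtain ⟨j, h3, h4, ps, a0, h5, h6, h7⟩ := dn β h1 z φ ps' h2
      refine ⟨j, h3, φ, ps, h7.inj h.ext ha ▸ h6, fun j' h8 φ' qs h9 => ?_⟩
      obtain ⟨β', a1, a2, qs', z0, a3, a4, a5⟩ := up j' h8 b φ' qs h9
      rcases H β' a1 φ' qs' (a5.fn hb ▸ a4) with a6 | ⟨rfl, a6⟩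
      · exact .inl (hL.below h4 (a2.1.mono (Order.add_one_le_of_lt a6)))
      · refine .inr ⟨?_, (cp_rel (ih β h1 j h4).2.2 hq h5 a3).2 a6⟩
        rcases hL.tot j j' with a7 | a7 | a7
        · exact (a2.2 (rk_succ.2 ⟨j, a7, h4.1⟩)).elim
        · exact a7
        · exact (h4.2 (rk_succ.2 ⟨j', a7, a2.1⟩)).elim

theorem exists_closure {X : Type u} (F : List X → Set X) (hF : ∀ l, (F l).Countable) {S0 : Set X}
    (h0 : S0.Countable) : ∃ S ⊇ S0, S.Countable ∧ ∀ l, (∀ a ∈ l, a ∈ S) → F l ⊆ S := by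
  let S : ℕ → Set X := fun n => Nat.rec S0 (fun _ S => S ∪ ⋃ l ∈ {l : List X | ∀ a ∈ l, a ∈ S}, F l) n
  have hc : ∀ n, (S n).Countable := fun n => by
    induction n with
    | zero => exact h0
    | succ n ih =>
      refine ih.union (Countable.biUnion ?_ fun l _ => hF l)
      have := ih.to_subtype
      refine (countable_range (List.map (Subtype.val : S n → X))).mono fun l hl => ?_
      exact ⟨l.attachWith _ hl, by simp⟩
  have hm : Monotone S := monotone_nat_of_le_succ fun n => subset_union_left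
  refine ⟨⋃ n, S n, subset_iUnion S 0, countable_iUnion hc, fun l hl => ?_⟩
  obtain ⟨n, hn⟩ : ∃ n, ∀ a ∈ l, a ∈ S n := by
    induction l with
    | nil => exact ⟨0, by simp⟩
    | cons a l ih =>
      obtain ⟨h1, h2⟩ := List.forall_mem_cons.1 hl
      obtain ⟨n, hn⟩ := ih h2
      obtain ⟨m, hm'⟩ := mem_iUnion.1 h1
      exact ⟨max m n, List.forall_mem_cons.2 ⟨hm (le_max_left _ _) hm', fun b hb =>
        hm (le_max_right _ _) (hn b hb)⟩⟩
  exact fun y hy => mem_iUnion.2 ⟨n + 1, .inr (mem_biUnion hn hy)⟩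

theorem exists_enum {X : Type u} {S : Set X} (h : S.Countable) (h' : S.Infinite) :
    ∃ g : ℕ → X, Function.Injective g ∧ range g = S := by
  obtain ⟨d⟩ := Set.countable_infinite_iff_nonempty_denumerable.1 ⟨h, h'⟩
  exact ⟨Subtype.val ∘ (Denumerable.eqv S).symm, Subtype.val_injective.comp (Equiv.injective _),
    by rw [range_comp, EquivLike.range_eq_univ, image_univ, Subtype.range_coe]⟩

theorem cons_getD {α : Type u} (b d : α) (l : List α) :
    (fun i => @Nat.rec (fun _ => α) b (fun k _ => l.getD k d) i) = fun i => (b :: l).getD i d :=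
  funext fun i => by cases i <;> rfl

theorem hull (Z : Zt) {I0 : Set Ordinal.{0}}
    {K0 : Set ZFSet.{0}} (hI : I0.Countable) (hK : K0.Countable) :
    ∃ (o : ℕ → Ordinal.{0}) (g : ℕ → ZFSet.{0}), Function.Injective o ∧ I0 ⊆ range o ∧
      K0 ∪ range num ⊆ range g ∧ Hier (fun i j => o i < o j) (fun b a => g b ∈ g a)
        (fun i a => Lh Z (o i) (g a)) (fun i a b => Oh Z (o i) (g a) (g b)) Z := by
  let R1 : List ZFSet.{0} → ZFSet.{0} → Prop := fun l w => ¬ (w ∈ l.headI ↔ w ∈ l.tail.headI)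
  let R2 : List ZFSet.{0} → ℕ × SF → Ordinal.{0} × SF × List ZFSet.{0} → Prop := fun l m q =>
    q.1 < l.headI.rank ∧ DL Z q.1 l.tail.headI q.2.1 q.2.2 ∧
    (m.1 = 1 → ∀ β' < l.headI.rank, ∀ φ' ps', DL Z β' l.tail.tail.headI φ' ps' →
      q.1 < β' ∨ (q.1 = β' ∧ Cp (Oh Z q.1) q.2.1 q.2.2 φ' ps')) ∧
    (m.1 = 2 → ¬ (l.tail.tail.headI.rank < q.1 ∨ (l.tail.tail.headI.rank = q.1 ∧
      Cp (Oh Z l.tail.tail.headI.rank) m.2 l.tail.tail.tail q.2.1 q.2.2)))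
  let R3 : List ZFSet.{0} → SF → ZFSet.{0} → Prop := fun l φ z => DL Z l.headI.rank z φ l.tail
  let R4 : List ZFSet.{0} → SF → ZFSet.{0} → Prop := fun l φ w => Lh Z l.headI.rank w ∧
    φ.Sat (Lh Z l.headI.rank) (RR (· ∈ ·) (num · = ·) Z (Oh Z l.headI.rank))
      fun i => (w :: l.tail.tail).getD i l.tail.headI
  obtain ⟨K, h0, hc, hF⟩ := exists_closure (fun l => {Classical.epsilon (R1 l)} ∪
      ((⋃ m, insert (Classical.epsilon (R2 l m)).1.toZFSet
        {p | p ∈ (Classical.epsilon (R2 l m)).2.2}) ∪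
      ((range fun φ => Classical.epsilon (R3 l φ)) ∪ range fun φ => Classical.epsilon (R4 l φ))))
    (fun l => (countable_singleton _).union ((countable_iUnion fun _ =>
      (List.finite_toSet _).countable.insert _).union
      ((countable_range _).union (countable_range _))))
    (((hK.union (countable_range num)).union
      ((hI.union (countable_range ((↑) : ℕ → Ordinal.{0}))).image Ordinal.toZFSet)))
  have hI0 : I0 ∪ range ((↑) : ℕ → Ordinal.{0}) ⊆ ZFSet.rank '' K := fun α hα =>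
    ⟨_, h0 (.inr ⟨α, hα, rfl⟩), rank_toZFSet α⟩
  have hinf : (ZFSet.rank '' K).Infinite :=
    (infinite_range_of_injective Nat.cast_injective).mono (subset_union_right.trans hI0)
  obtain ⟨o, ho, ho'⟩ := exists_enum (hc.image _) hinf
  obtain ⟨g, hg, rfl⟩ := exists_enum hc (hinf.of_image _)
  have hext : ∀ a a', (∀ w, g w ∈ g a ↔ g w ∈ g a') → a = a' := fun a a' h => by
    by_contra hne
    have h1 : ∃ w, R1 [g a, g a'] w := by
      by_contra h1
      exact hne (hg (ZFSet.ext fun w => not_not.1 fun h2 => h1 ⟨w, h2⟩))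
    obtain ⟨w, hw⟩ := hF [g a, g a'] (by simp) (.inl rfl)
    exact Classical.epsilon_spec h1 (hw ▸ h w)
  have hnum : ∀ n a, Rep (fun b a => g b ∈ g a) (num n) a ↔ num n = g a := fun n a => by
    have := rep_of_trans (T := range num) (by
      rintro _ ⟨n, rfl⟩ w hw
      obtain ⟨m, -, rfl⟩ := mem_num.1 hw
      exact ⟨m, rfl⟩) (fun z hz => h0 (.inl (.inr hz))) ⟨n, rfl⟩
    obtain ⟨b, hb⟩ := h0 (.inl (.inr ⟨n, rfl⟩))
    exact ⟨fun h => by rw [← (this b hb).inj hext h, hb], fun h => this a h.symm⟩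
  have ho2 : ∀ i, ∃ a, (g a).rank = o i := fun i => by
    obtain ⟨_, ⟨a, rfl⟩, h⟩ : o i ∈ ZFSet.rank '' range g := ho' ▸ mem_range_self i
    exact ⟨a, h⟩
  have tv : ∀ j (φ : SF) (l : List ℕ) (d : ℕ), φ.Sat (fun a => Lh Z (o j) (g a))
      (RR (fun b a => g b ∈ g a) (fun n a => Rep (fun b a => g b ∈ g a) (num n) a) Z
        fun a b => Oh Z (o j) (g a) (g b)) (fun k => l.getD k d) ↔
      φ.Sat (Lh Z (o j)) (RR (· ∈ ·) (num · = ·) Z (Oh Z (o j)))
        fun k => (l.map g).getD k (g d) := by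
    intro j φ
    induction φ with
    | atm k a b c =>
      intro l d
      rcases k with _ | _ | _ | k <;> simp only [SF.Sat, RR, List.getD_map, hg.eq_iff, hnum]
    | neg φ ih => exact fun l d => not_congr (ih l d)
    | and φ ψ ih ih' => exact fun l d => and_congr (ih l d) (ih' l d)
    | ex φ ih =>
      intro l d
      simp only [SF.Sat, cons_getD]
      refine ⟨fun ⟨b, h1, h2⟩ => ⟨g b, h1, (ih (b :: l) d).1 h2⟩, fun h => ?_⟩
      obtain ⟨a0, h1⟩ := ho2 j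
      rw [← h1] at h
      have h2 := Classical.epsilon_spec (p := R4 (g a0 :: g d :: l.map g) φ) h
      obtain ⟨b, hb⟩ := hF (g a0 :: g d :: l.map g) (by simp) (.inr (.inr (.inr ⟨φ, rfl⟩)))
      rw [show Classical.epsilon _ = _ from hb.symm] at h2
      simp only [R4, List.headI_cons, h1, List.tail_cons] at h2
      exact ⟨b, h2.1, (ih (b :: l) d).2 h2.2⟩
  set F := DP (fun b a => g b ∈ g a) (fun i a => Lh Z (o i) (g a))
    (fun i a b => Oh Z (o i) (g a) (g b)) Z with hFd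
  have d0 : ∀ j a φ ps, DL Z (o j) (g a) φ (ps.map g) → F j a φ ps := fun j a φ ps h =>
    ⟨by simpa using h.1, fun w => by
      refine (h.2 (g w)).trans (and_congr_right fun _ => ?_)
      exact (tv j φ (w :: ps) w).symm⟩
  have d2 : ∀ j φ (ps : List ℕ), (∀ p ∈ ps, Lh Z (o j) (g p)) →
      ∃ a, DL Z (o j) (g a) φ (ps.map g) := fun j φ ps hps => by
    obtain ⟨a0, h1⟩ := ho2 j
    have h2 := Classical.epsilon_spec (p := R3 (g a0 :: ps.map g) φ)
      (exists_DL φ (by simpa [h1] using hps))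
    obtain ⟨a, ha⟩ := hF (g a0 :: ps.map g) (by simp) (.inr (.inr (.inl ⟨φ, rfl⟩)))
    rw [show Classical.epsilon _ = _ from ha.symm] at h2
    simp only [R3, List.headI_cons, h1, List.tail_cons] at h2
    exact ⟨a, h2⟩
  have d1 : ∀ j a φ ps, F j a φ ps → DL Z (o j) (g a) φ (ps.map g) := fun j a φ ps h => by
    obtain ⟨a', h1⟩ := d2 j φ ps h.1
    rwa [hext a a' fun w => (h.2 w).trans ((d0 j a' φ ps h1).2 w).symm]
  have wit : ∀ l m, (∀ a ∈ l, a ∈ range g) → (∃ q, R2 l m q) →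
      ∃ j φ, ∃ ps : List ℕ, R2 l m (o j, φ, ps.map g) := fun l m hl h => by
    have h4 := Classical.epsilon_spec h
    have h5 := (subset_iUnion _ m).trans (subset_union_left.trans
      (subset_union_right.trans (hF l hl)))
    generalize Classical.epsilon (R2 l m) = q at h4 h5
    obtain ⟨j, hj⟩ : q.1 ∈ range o := ho' ▸ ⟨_, h5 (.inl rfl), rank_toZFSet _⟩
    obtain ⟨ps', -, h7⟩ := exists_forall₂ (R := fun z b => g b = z) (P := fun _ => True)
      (l := q.2.2) fun p hp => let ⟨b, hb⟩ := h5 (.inr hp); ⟨b, trivial, hb⟩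
    have h8 : ps'.map g = q.2.2 := by
      rw [← List.forall₂_eq_eq_eq, List.forall₂_map_left_iff]
      exact h7.flip
    exact ⟨j, q.2.1, ps', by rwa [hj, h8]⟩
  have hcp : ∀ j φ ps φ' ps', Cp (fun a b => Oh Z (o j) (g a) (g b)) φ ps φ' ps' ↔
      Cp (Oh Z (o j)) φ (ps.map g) φ' (ps'.map g) := fun j φ ps φ' ps' =>
    cp_rel (R := fun a z => g a = z) (by rintro _ _ _ _ rfl rfl; rfl)
      (by rintro _ _ _ _ rfl rfl; exact hg.eq_iff.symm) (by simp) (by simp)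
  refine ⟨o, g, ho, ho' ▸ subset_union_left.trans hI0, subset_union_left.trans h0, hext,
    fun i a => ⟨fun ha => ?_, fun ⟨j, h1, φ, ps, h2⟩ => lh_iff.2 ⟨_, h1, φ, _, d1 _ _ _ _ h2⟩⟩,
    fun j φ ps hps => (d2 j φ ps hps).imp fun a => d0 j a φ ps, fun i a b => oh_iff.trans
    ⟨fun ⟨β, h2, φ, ps, h3, H⟩ => ?_, fun ⟨j, h2, φ, ps, h3, H⟩ => ?_⟩⟩
  · obtain ⟨a0, h1⟩ := ho2 i
    obtain ⟨β, h2, φ, ps, h3⟩ := lh_iff.1 ha
    obtain ⟨j, φ', ps', h4, h5, -⟩ := wit [g a0, g a] (0, φ) (by simp)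
      ⟨(β, φ, ps), h1 ▸ h2, h3, by simp, by simp⟩
    exact ⟨j, h4.trans_eq h1, φ', ps', d0 _ _ _ _ h5⟩
  · obtain ⟨a0, h1⟩ := ho2 i
    rw [← h1] at h2 H
    obtain ⟨j, φ', ps', h4, h5, h6, -⟩ := wit [g a0, g a, g b] (1, φ) (by simp)
      ⟨(β, φ, ps), h2, h3, fun _ => H, by simp⟩
    exact ⟨j, h4.trans_eq h1, φ', ps', d0 _ _ _ _ h5, fun j' a1 ψ qs a2 => (h6 rfl _
      (a1.trans_eq h1.symm) ψ _
      (d1 _ _ _ _ a2)).imp_right fun a3 => ⟨ho a3.1, (hcp _ _ _ _ _).2 a3.2⟩⟩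
  · refine ⟨_, h2, φ, _, d1 _ _ _ _ h3, fun β' a1 ψ qs a2 => ?_⟩
    by_contra a3
    obtain ⟨a0, h1⟩ := ho2 i
    obtain ⟨a4, h4⟩ := ho2 j
    rw [← h1] at a1
    rw [← h4] at a3
    obtain ⟨j', ψ', qs', h5, h6, -, h7⟩ := wit (g a0 :: g b :: g a4 :: ps.map g) (2, φ) (by simp)
      ⟨(β', ψ, qs), a1, a2, by simp, fun _ => a3⟩
    refine h7 rfl ?_
    simp only [List.tail_cons, List.headI_cons, h4]
    exact (H j' (h5.trans_eq h1) ψ' qs' (d0 _ _ _ _ h6)).imp_right fun a5 =>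
      ⟨congrArg o a5.1, (hcp _ _ _ _ _).1 a5.2⟩

theorem lin_of_inj {o : ℕ → Ordinal.{0}} (ho : Function.Injective o) : Lin fun i j => o i < o j :=
  ⟨fun _ _ _ => lt_trans, fun a b => (lt_trichotomy (o a) (o b)).imp_right
    (.imp_left fun h => ho h)⟩

theorem ex_of_wf {α : Type u} [Countable α] {r : α → α → Prop} (h : WellFounded r) (x : α) :
    ∃ μ < w1, Ex r μ x := by
  obtain ⟨b, h1, h2⟩ := wf_bound h
  obtain ⟨μ, h3, h4⟩ := exists_ex_lt (h2 x)
  exact ⟨μ, h3.trans h1, h4⟩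

theorem condense {Z : Zt} {y : ZFSet.{0}} (hy : ∀ w ∈ y, ∃ n, num n = w)
    {α : Ordinal.{0}} (h : Lh Z α y) : ∃ γ < w1, Lh Z γ y := by
  obtain ⟨o, g, h0, h1, h2, h3⟩ := hull Z (countable_singleton α) (countable_singleton y)
  obtain ⟨i, rfl⟩ := h1 rfl
  obtain ⟨a, rfl⟩ := h2 (.inl rfl)
  obtain ⟨γ, h4, h5⟩ := ex_of_wf (InvImage.wf o wellFounded_lt) i
  obtain ⟨z, h6, h7⟩ := (h3.correct (lin_of_inj h0) γ i h5).1 a h
  refine ⟨γ, h4, h7.fn (rep_of_trans (T := {g a} ∪ range num) ?_ h2 (.inl rfl) a rfl) ▸ h6⟩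
  rintro _ (rfl | ⟨n, rfl⟩) w hw
  · exact .inr (hy w hw)
  · obtain ⟨m, -, rfl⟩ := mem_num.1 hw
    exact .inr ⟨m, rfl⟩

section
variable {X : Type} [MeasurableSpace X] {D : X → ℕ → Prop} {L E Lv : X → ℕ → ℕ → Prop}
  {O : X → ℕ → ℕ → ℕ → Prop} {Z : X → Zt}

theorem meas_Sat {R : X → Zt} (hD : ∀ a, Measurable (D · a))
    (hR : ∀ k a b c, Measurable (R · k a b c)) (φ : SF) :
    ∀ v, Measurable fun s => φ.Sat (D s) (R s) v := by
  induction φ with
  | atm k i j l => exact fun v => hR _ _ _ _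
  | neg φ ih => exact fun v => (ih v).not
  | and φ ψ ih ih' => exact fun v => (ih v).and (ih' v)
  | ex φ ih => exact fun v => .exists fun a => (hD a).and (ih _)

theorem meas_Rep (hE : ∀ a b, Measurable (E · a b)) (n : ℕ) :
    ∀ a, Measurable fun s => Rep (E s) (num n) a := by
  induction n using Nat.strong_induction_on with
  | _ n ih =>
    intro a
    have : (fun s => Rep (E s) (num n) a) = fun s =>
        (∀ m : Fin n, ∃ b, E s b a ∧ Rep (E s) (num m) b) ∧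
          ∀ b, E s b a → ∃ m : Fin n, Rep (E s) (num m) b := by
      funext s
      rw [rep_iff]
      refine propext (and_congr ⟨fun h m => h _ (mem_num.2 ⟨m, m.2, rfl⟩), fun h w hw => ?_⟩
        (forall₂_congr fun b _ => ⟨fun ⟨w, hw, h⟩ => ?_, fun ⟨m, h⟩ =>
          ⟨_, mem_num.2 ⟨m, m.2, rfl⟩, h⟩⟩))
      · obtain ⟨m, h1, rfl⟩ := mem_num.1 hw
        exact h ⟨m, h1⟩
      · obtain ⟨m, h1, rfl⟩ := mem_num.1 hw
        exact ⟨⟨m, h1⟩, h⟩
    rw [this]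
    exact (Measurable.forall fun m : Fin n => .exists fun b => (hE _ _).and (ih m m.2 b)).and
      (.forall fun b => (hE _ _).imp (.exists fun m : Fin n => ih m m.2 b))

theorem meas_Hier (hL : ∀ a b, Measurable (L · a b)) (hE : ∀ a b, Measurable (E · a b))
    (hLv : ∀ a b, Measurable (Lv · a b)) (hO : ∀ a b c, Measurable (O · a b c))
    (hZ : ∀ k a b c, Measurable (Z · k a b c)) :
    Measurable fun s => Hier (L s) (E s) (Lv s) (O s) (Z s) := by
  have hp : ∀ j (ps : List ℕ), Measurable fun s => ∀ p ∈ ps, Lv s j p := fun j ps =>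
    .forall fun p => measurable_const.imp (hLv _ _)
  have key : ∀ j a (φ : SF) (ps : List ℕ),
      Measurable fun s => DP (E s) (Lv s) (O s) (Z s) j a φ ps := fun j a φ ps =>
    (hp j ps).and (.forall fun w => (hE _ _).iff ((hLv _ _).and (meas_Sat (hLv j) (by
      rintro (_ | _ | _ | k) a b c
      · exact hE _ _
      · exact measurable_const (a := a = b)
      · exact hO _ _ _
      · exact .exists fun i => .exists fun j => .exists fun l => (meas_Rep hE i a).and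
          ((meas_Rep hE j b).and ((meas_Rep hE l c).and (hZ _ _ _ _)))) φ _)))
  have hx : ∀ j (l m : List ℕ), Measurable fun s => Lx (O s j) l m := fun j l => by
    induction l with
    | nil => intro m; simp only [Lx]; exact measurable_const
    | cons a l ih =>
      rintro (_ | ⟨b, m⟩)
      · simp only [Lx]; exact measurable_const
      · exact (hO _ _ _).or (measurable_const.and (ih m))
  have hd : ∀ i a b, Measurable fun s => Od (L s) (DP (E s) (Lv s) (O s) (Z s)) (O s) i a b :=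
    fun i a b => .exists fun j => (hL _ _).and (.exists fun φ => .exists fun ps =>
      (key _ _ _ _).and (.forall fun j' => (hL _ _).imp (.forall fun φ' => .forall fun ps' =>
      (key _ _ _ _).imp ((hL _ _).or (measurable_const.and (measurable_const.or
      (measurable_const.and (hx _ _ _))))))))
  have := (Measurable.forall fun a => Measurable.forall fun a' =>
    (Measurable.forall fun w => (hE w a).iff (hE w a')).imp (measurable_const (a := a = a'))).and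
    ((Measurable.forall fun i => Measurable.forall fun a => (hLv i a).iff (.exists fun j =>
      (hL j i).and (.exists fun φ => .exists fun ps => key j a φ ps))).and
    ((Measurable.forall fun j => Measurable.forall fun φ =>
      Measurable.forall fun ps => (hp j ps).imp (.exists fun a => key j a φ ps)).and
    (Measurable.forall fun i => Measurable.forall fun a => Measurable.forall fun b =>
      (hO i a b).iff (hd i a b))))
  convert this using 2 with s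
  exact ⟨fun h => ⟨h.1, h.2, h.3, h.4⟩, fun h => ⟨h.1, h.2.1, h.2.2.1, h.2.2.2⟩⟩

end

end Pool.Agent.P.MP_b0885c_lc
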