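import Pool.Agent.Lib.PosetForcing.ZFC

/-! Countable model theory read inside a structure `(M, mem)` whose `ω` is `w`.
Every quantifier ranges over `M`. -/

namespace Pool.Agent.P.MP_b0885c_lc.In

open Pool.Agent.Lib.PosetForcing

universe v

variable {M : Type v} (mem : M → M → Prop) (w : M)

/-- `x` is the von Neumann numeral `k` -/
def Num : ℕ → M → Prop
  | 0, x => ∀ y, ¬ mem y x
  | k + 1, x => ∃ y, Num k y ∧ IsSucc mem x y

/-- `x = (k, d)` -/
def Tag (k : ℕ) (x d : M) : Prop := ∃ t, Num mem k t ∧ IsPair mem x t d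

/-- `x = (k, (a, b))` -/
def Tag2 (k : ℕ) (x a b : M) : Prop := ∃ d, Tag mem k x d ∧ IsPair mem d a b

/-- `t' = t ∪ {(n, a)}` -/
def Snoc (t' t n a : M) : Prop := ∀ p, mem p t' ↔ mem p t ∨ IsPair mem p n a

/-- `t = v ∘ u` -/
def Comp (t v u : M) : Prop :=
  ∀ p, mem p t ↔ ∃ i j a, IsPair mem p i a ∧ App mem u i j ∧ App mem v j a

/-- `D` is a structure with universe `ω` for the symbols `R_{s,n}` (`s, n ∈ ω`, arity `n`):
a set of pairs `(s, t)` with `t : n → ω`, read as `R_{s,n}(t)` -/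
def IsStr (D : M) : Prop :=
  ∀ p, mem p D → ∃ s n t, IsPair mem p s t ∧ mem s w ∧ mem n w ∧ IsFun mem t n w

/-- `x` is `v_i = v_j`, `R_{s,k}(v_u)`, `¬ y`, `⋀_k f(k)` or `∀ v_n y`, has its free variables among
`v_i`, `i ∈ n`, and its immediate subformulas are listed in `S` -/
def Node (S n x : M) : Prop :=
  mem n w ∧ ((∃ i j, Tag2 mem 0 x i j ∧ mem i n ∧ mem j n) ∨
    (∃ s u k, Tag2 mem 1 x s u ∧ mem s w ∧ mem k w ∧ IsFun mem u k n) ∨
    (∃ y, Tag mem 2 x y ∧ App mem S n y) ∨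
    (∃ f, Tag mem 3 x f ∧ IsFunOn mem f w (App mem S n)) ∨
    ∃ y m, Tag mem 4 x y ∧ IsSucc mem m n ∧ App mem S m y)

/-- `S` lists `L_{ω₁ω}`-formulas `x` in `n` variables as pairs `(n, x)`, closed under subformulas -/
def Syn (S : M) : Prop := ∀ n x, App mem S n x → Node mem w S n x

/-- `x` is a sentence of `L_{ω₁ω}` -/
def Sent (x : M) : Prop := ∃ S z, Syn mem w S ∧ Num mem 0 z ∧ App mem S z x

/-- `τ` satisfies the clauses of Tarski for the structure `D` on the formulas listed in `S` -/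
def Truth (S D τ : M) : Prop :=
  ∀ n x v, App mem S n x → IsFun mem v n w →
    (∀ i j, Tag2 mem 0 x i j → (App mem τ x v ↔ ∃ a, App mem v i a ∧ App mem v j a)) ∧
    (∀ s u, Tag2 mem 1 x s u → (App mem τ x v ↔ ∃ t, Comp mem t v u ∧ App mem D s t)) ∧
    (∀ y, Tag mem 2 x y → (App mem τ x v ↔ ¬ App mem τ y v)) ∧
    (∀ f, Tag mem 3 x f → (App mem τ x v ↔ ∀ k y, App mem f k y → App mem τ y v)) ∧
    ∀ y, Tag mem 4 x y →
      (App mem τ x v ↔ ∀ a v', mem a w → Snoc mem v' v n a → App mem τ y v')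

/-- `D ⊨ x` -/
def Models (x D : M) : Prop :=
  ∃ S z τ, Syn mem w S ∧ Num mem 0 z ∧ App mem S z x ∧ Truth mem w S D τ ∧ App mem τ x z

/-- the `n`-tuples `a`, `b` satisfy the same atomic formulas in `D` -/
def Same (D n a b : M) : Prop :=
  (∀ i j, mem i n → mem j n →
    ((∃ c, App mem a i c ∧ App mem a j c) ↔ ∃ c, App mem b i c ∧ App mem b j c)) ∧
  ∀ s k u t t', mem k w → IsFun mem u k n → Comp mem t a u → Comp mem t' b u →
    (App mem D s t ↔ App mem D s t')

/-- `(γ, (a, b)) ∈ B` -/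
def At (B γ a b : M) : Prop := ∃ p, IsPair mem p a b ∧ App mem B γ p

/-- one back-and-forth step from the `n`-tuples `a`, `b` into level `γ` of `B` -/
def Step (B γ n a b : M) : Prop :=
  (∀ x, mem x w → ∃ y, mem y w ∧
    ∀ a' b', Snoc mem a' a n x → Snoc mem b' b n y → At mem B γ a' b') ∧
  ∀ y, mem y w → ∃ x, mem x w ∧
    ∀ a' b', Snoc mem a' a n x → Snoc mem b' b n y → At mem B γ a' b'

/-- `SR(D) ≥ α`: with `B` the table of the relations `≡_γ`, `γ < α`, no `≡_γ` implies `≡_{γ+1}` -/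
def RankGe (D α : M) : Prop :=
  ∃ B, (∀ γ n a b, mem γ α → mem n w → IsFun mem a n w → IsFun mem b n w →
      (At mem B γ a b ↔ Same mem w D n a b ∧ ∀ β, mem β γ → Step mem w B β n a b)) ∧
    ∀ γ, mem γ α → ∃ n a b, mem n w ∧ IsFun mem a n w ∧ IsFun mem b n w ∧
      At mem B γ a b ∧ ¬ Step mem w B γ n a b

/-- `α` is a countable ordinal -/
def CtOrd (α : M) : Prop :=
  (∀ x y, mem x α → mem y x → mem y α) ∧
  (∀ x y, mem x α → mem y α → mem x y ∨ x = y ∨ mem y x) ∧
  ∃ f, IsFun mem f α w ∧ ∀ x y c, App mem f x c → App mem f y c → x = y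

/-- the class `P` has structures of arbitrarily high Scott rank -/
def Unb (P : M → Prop) : Prop :=
  ∀ α, CtOrd mem w α → ∃ D, IsStr mem w D ∧ P D ∧ RankGe mem w D α

/-- `T` is a minimal theory -/
def Minimal (T : M) : Prop :=
  Sent mem w T ∧ ∀ φ, Sent mem w φ →
    Xor (Unb mem w fun D => Models mem w T D ∧ Models mem w φ D)
      (Unb mem w fun D => Models mem w T D ∧ ¬ Models mem w φ D)

/-- `D ≅ E` -/
def Isom (D E : M) : Prop :=
  ∃ e, IsFun mem e w w ∧ (∀ y, mem y w → ∃ x, App mem e x y) ∧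
    (∀ x x' y, App mem e x y → App mem e x' y → x = x') ∧
    ∀ s n t t', mem n w → IsFun mem t n w → Comp mem t' e t → (App mem D s t ↔ App mem E s t')

/-- the class `P` has countably many structures up to isomorphism -/
def Few (P : M → Prop) : Prop :=
  ∃ F, IsFunOn mem F w (IsStr mem w) ∧
    ∀ D, IsStr mem w D → P D → ∃ n E, App mem F n E ∧ Isom mem w D E

/-- `D` is a limit point of `X`: for every finite sequence `g` some other member of `X` agrees with
`D` on the terms of `g` -/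
def Lim (X D : M) : Prop :=
  ∀ n g, mem n w → IsFunOn mem g n (fun _ => True) →
    ∃ E, mem E X ∧ E ≠ D ∧ ∀ i p, App mem g i p → (mem p D ↔ mem p E)

/-- the class `P` contains no perfect set of pairwise non-isomorphic structures -/
def Scat (P : M → Prop) : Prop :=
  ¬ ∃ X, (∃ D, mem D X) ∧ (∀ D, mem D X ↔ IsStr mem w D ∧ Lim mem w X D) ∧
    (∀ D, mem D X → P D) ∧ ∀ D E, mem D X → mem E X → Isom mem w D E → D = E

/-- there is a counterexample to Vaught's conjecture -/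
def Cex : Prop :=
  ∃ ψ, Sent mem w ψ ∧ Scat mem w (Models mem w ψ) ∧ ¬ Few mem w (Models mem w ψ)

end Pool.Agent.P.MP_b0885c_lc.In
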