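import Pool.Agent.P.MP_b0885c_lc.Perf
import Pool.Agent.P.MP_b0885c_lc.IDefs

namespace Pool.Agent.P.MP_b0885c_lc.In

open Set Encodable
open Pool.Agent.Lib.PosetForcing hiding Fml Sat
open ZFSet (pair pair_inj)

theorem mem_omega {x : ZFSet.{0}} : x ∈ ZFSet.omega ↔ ∃ n, num n = x := by
  have h : ∀ n, ZFSet.mk (PSet.ofNat n) = num n := fun n => by
    induction n with
    | zero => rfl
    | succ n ih => exact congrArg (fun z => insert z z) ih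
  refine ⟨fun hx => ?_, ?_⟩
  · induction x using Quotient.inductionOn with
    | h x =>
      obtain ⟨n, hn⟩ := hx
      exact ⟨n.down, (h _).symm.trans (ZFSet.sound hn).symm⟩
  · rintro ⟨n, rfl⟩
    induction n with
    | zero => exact ZFSet.omega_zero
    | succ n ih => exact ZFSet.omega_succ ih

/-- transitive classes closed under adjunction and containing `ω` -/
class Un (U : Type 1) where
  ι : U → ZFSet.{0}
  inj : Function.Injective ι
  tr : ∀ a w, w ∈ ι a → ∃ b, ι b = w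
  e0 : U
  aj : U → U → U
  oo : U
  ι_emp : ι e0 = ∅
  ι_ins : ∀ a b, ι (aj a b) = insert (ι a) (ι b)
  ι_om : ι oo = ZFSet.omega

open Un

attribute [simp] ι_emp ι_ins

variable {U : Type 1} [Un U]

/-- membership -/
def mm (a b : U) : Prop := ι a ∈ ι b

theorem ext' {a b : U} (h : ∀ x, mm x a ↔ mm x b) : a = b :=
  inj (ZFSet.ext fun w => ⟨fun hw => by obtain ⟨c, rfl⟩ := tr a w hw; exact (h c).1 hw,
    fun hw => by obtain ⟨c, rfl⟩ := tr b w hw; exact (h c).2 hw⟩)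

@[simp] theorem ι_eq {a b : U} : ι a = ι b ↔ a = b := inj.eq_iff

/-- pairs -/
def pr (a b : U) : U := aj (aj a e0) (aj (aj a (aj b e0)) e0)

@[simp] theorem ι_pr (a b : U) : ι (pr a b) = pair (ι a) (ι b) := by
  simp [pr, ZFSet.pair]

@[simp] theorem pr_inj {a b c d : U} : pr a b = pr c d ↔ a = c ∧ b = d := by
  rw [← ι_eq, ι_pr, ι_pr, pair_inj, ι_eq, ι_eq]

/-- numerals -/
def nu : ℕ → U
  | 0 => e0
  | n + 1 => aj (nu n) (nu n)

@[simp] theorem ι_nu (n : ℕ) : ι (nu n : U) = num n := by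
  induction n with
  | zero => exact ι_emp
  | succ n ih => rw [nu, ι_ins, ih, num]

@[simp] theorem num_eq {m n : ℕ} : num m = num n ↔ m = n := num_inj.eq_iff

@[simp] theorem nu_inj {m n : ℕ} : (nu m : U) = nu n ↔ m = n := by
  rw [← ι_eq, ι_nu, ι_nu, num_eq]

theorem mm_om {x : U} : mm x oo ↔ ∃ n, nu n = x := by
  simp only [mm, ι_om, mem_omega, ← ι_eq (b := x), ι_nu]

theorem mm_nu {x : U} {n : ℕ} : mm x (nu n) ↔ ∃ m < n, nu m = x := by
  simp only [mm, ι_nu, mem_num, ← ι_eq (b := x), eq_comm]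

theorem mm_ins {x a b : U} : mm x (aj a b) ↔ x = a ∨ mm x b := by simp [mm]

theorem not_mm_emp {x : U} : ¬ mm x e0 := by simp [mm]

theorem eq_iff {p q : U} : (∀ x, mm x p ↔ mm x q) ↔ p = q := ⟨ext', fun h _ => h ▸ .rfl⟩

theorem upair_iff {p a b : U} : IsUPair mm p a b ↔ p = aj a (aj b e0) := by
  simp only [IsUPair, ← eq_iff (p := p), mm_ins, not_mm_emp, or_false]

theorem pair_iff {p a b : U} : IsPair mm p a b ↔ p = pr a b := by
  have : aj a (aj a e0) = aj a e0 := ext' (by simp only [mm_ins]; tauto)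
  simp only [IsPair, upair_iff, this, ← eq_iff (p := p), pr, mm_ins, not_mm_emp, or_false]

theorem app_iff {f x y : U} : App mm f x y ↔ mm (pr x y) f := by
  simp only [App, pair_iff, exists_eq_right]

theorem succ_iff {y x : U} : IsSucc mm y x ↔ y = aj x x := by
  simp only [IsSucc, ← eq_iff (p := y), mm_ins, or_comm]

theorem num_iff {k : ℕ} {x : U} : Num mm k x ↔ x = nu k := by
  induction k generalizing x with
  | zero => simp only [Num, ← eq_iff (p := x), nu, not_mm_emp, iff_false]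
  | succ k ih => simp only [Num, ih, succ_iff, exists_eq_left, nu]

theorem tag_iff {k : ℕ} {x d : U} : Tag mm k x d ↔ x = pr (nu k) d := by
  simp only [Tag, num_iff, pair_iff, exists_eq_left]

theorem tag2_iff {k : ℕ} {x a b : U} : Tag2 mm k x a b ↔ x = pr (nu k) (pr a b) := by
  simp only [Tag2, tag_iff, pair_iff, exists_eq_right]

theorem snoc_iff {t' t n a : U} : Snoc mm t' t n a ↔ t' = aj (pr n a) t := by
  simp only [Snoc, pair_iff, ← eq_iff (p := t'), mm_ins, or_comm]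

theorem at_iff {B γ a b : U} : At mm B γ a b ↔ mm (pr γ (pr a b)) B := by
  simp only [At, pair_iff, app_iff, exists_eq_left]

theorem ex_pr {x : U} {a b : ZFSet.{0}} (h : ι x = pair a b) :
    ∃ a' b' : U, ι a' = a ∧ ι b' = b ∧ x = pr a' b' := by
  obtain ⟨c, h1⟩ := tr x {a, b} (by simp [h, ZFSet.pair])
  obtain ⟨a', rfl⟩ := tr c a (by simp [h1])
  obtain ⟨b', rfl⟩ := tr c b (by simp [h1])
  exact ⟨a', b', rfl, rfl, inj (h.trans (ι_pr _ _).symm)⟩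

theorem ex_mem {f : U} {a b : ZFSet.{0}} (h : pair a b ∈ ι f) :
    ∃ a' b' : U, ι a' = a ∧ ι b' = b :=
  let ⟨_, h1⟩ := tr f _ h
  let ⟨a', b', h2, h3, _⟩ := ex_pr h1
  ⟨a', b', h2, h3⟩

theorem funOn_iff {A : Type} {i : A → U} (hi : Function.Injective i) {f a : U} {V : U → Prop}
    (ha : ∀ x, mm x a ↔ ∃ k, i k = x) : IsFunOn mm f a V ↔
      ∃ g : A → U, (∀ k, V (g k)) ∧ ∀ p, mm p f ↔ ∃ k, pr (i k) (g k) = p := by
  simp only [IsFunOn, pair_iff, app_iff, ha]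
  refine ⟨fun ⟨h1, h2, h3⟩ => ?_, ?_⟩
  · choose g hg using fun k => h2 (i k) ⟨k, rfl⟩
    refine ⟨g, fun k => ?_, fun p => ⟨fun h => ?_, ?_⟩⟩
    · obtain ⟨x, y, h4, -, h5⟩ := h1 _ (hg k)
      exact (pr_inj.1 h4).2 ▸ h5
    · obtain ⟨x, y, rfl, ⟨k, rfl⟩, -⟩ := h1 p h
      exact ⟨k, h3 _ _ _ h (hg k) ▸ rfl⟩
    · rintro ⟨k, rfl⟩
      exact hg k
  · rintro ⟨g, h1, h2⟩
    refine ⟨fun p h => ?_, ?_, fun x y y' h3 h4 => ?_⟩
    · obtain ⟨k, rfl⟩ := (h2 p).1 h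
      exact ⟨_, _, rfl, ⟨k, rfl⟩, h1 k⟩
    · rintro _ ⟨k, rfl⟩
      exact ⟨_, (h2 _).2 ⟨k, rfl⟩⟩
    · obtain ⟨k, h3⟩ := (h2 _).1 h3
      obtain ⟨l, h4⟩ := (h2 _).1 h4
      rw [pr_inj] at h3 h4
      rw [← h3.2, ← h4.2, hi (h3.1.trans h4.1.symm)]

theorem ex_fin {n : ℕ} (g : Fin n → U) : ∃ t : U, ∀ p, mm p t ↔ ∃ k, g k = p := by
  induction n with
  | zero => exact ⟨e0, by simp [mm]⟩
  | succ n ih =>
    obtain ⟨t, h⟩ := ih fun k => g k.succ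
    exact ⟨aj (g 0) t, fun p => by rw [mm_ins, h, Fin.exists_fin_succ, eq_comm]⟩

/-- tuples of numbers -/
noncomputable def tu {n : ℕ} (v : Fin n → ℕ) : U := (ex_fin fun k => pr (nu k) (nu (v k))).choose

theorem mm_tu {n : ℕ} {v : Fin n → ℕ} {p : U} :
    mm p (tu v) ↔ ∃ k : Fin n, pr (nu k) (nu (v k)) = p := (ex_fin _).choose_spec p

theorem pr_tu {n : ℕ} {v : Fin n → ℕ} {x y : U} :
    mm (pr x y) (tu v) ↔ ∃ k : Fin n, nu k = x ∧ nu (v k) = y := by simp only [mm_tu, pr_inj]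

theorem nu_tu {n : ℕ} {v : Fin n → ℕ} {i : Fin n} {y : U} :
    mm (pr (nu i) y) (tu v) ↔ y = nu (v i) := by
  simp [pr_tu, Fin.val_inj, eq_comm]

theorem tu_zero (v : Fin 0 → ℕ) : (tu v : U) = nu 0 := ext' (by simp [mm_tu, mm_nu])

theorem tu_snoc {n : ℕ} (v : Fin n → ℕ) (a : ℕ) :
    (tu (Fin.snoc v a : Fin (n + 1) → ℕ) : U) = aj (pr (nu n) (nu a)) (tu v) := ext' fun p => by
  rw [mm_ins, mm_tu, mm_tu, Fin.exists_fin_succ', or_comm]
  simp [eq_comm]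

theorem tu_len {n m : ℕ} {v : Fin n → ℕ} {v' : Fin m → ℕ} (h : (tu v : U) = tu v') : n = m := by
  have : ∀ {n m : ℕ} {v : Fin n → ℕ} {v' : Fin m → ℕ}, (tu v : U) = tu v' → n ≤ m :=
    fun {n m v v'} h => not_lt.1 fun h1 => by
      obtain ⟨k, h2, -⟩ := pr_tu.1 (h ▸ nu_tu.2 rfl : mm (pr (nu (⟨m, h1⟩ : Fin n)) _ : U) (tu v'))
      exact k.2.ne (nu_inj.1 h2)
  exact (this h).antisymm (this h.symm)

theorem tu_inj {n : ℕ} {v v' : Fin n → ℕ} (h : (tu v : U) = tu v') : v = v' :=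
  funext fun i => nu_inj.1 (nu_tu.1 (h ▸ nu_tu.2 rfl : mm (pr (nu i) (nu (v i)) : U) (tu v')))

theorem mm_nu' {n : ℕ} (x : U) : mm x (nu n) ↔ ∃ k : Fin n, nu k = x := by
  simp only [mm_nu, Fin.exists_iff, exists_prop]

theorem nu_fin {n : ℕ} : Function.Injective fun k : Fin n => (nu k : U) := fun _ _ h =>
  Fin.ext (nu_inj.1 h)

theorem fun_om {n : ℕ} {t : U} : IsFun mm t (nu n) oo ↔ ∃ v : Fin n → ℕ, t = tu v := by
  simp only [IsFun, funOn_iff nu_fin mm_nu', mm_om, ← eq_iff (p := t), mm_tu]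
  refine ⟨fun ⟨g, h1, h2⟩ => ?_, fun ⟨v, h⟩ => ⟨_, fun k => ⟨_, rfl⟩, h⟩⟩
  choose v h1 using h1
  exact ⟨v, by simpa only [h1] using h2⟩

theorem fun_nu {k n : ℕ} {t : U} :
    IsFun mm t (nu k) (nu n) ↔ ∃ v : Fin k → Fin n, t = tu fun i => v i := by
  simp only [IsFun, funOn_iff nu_fin mm_nu', mm_nu', ← eq_iff (p := t), mm_tu]
  refine ⟨fun ⟨g, h1, h2⟩ => ?_, fun ⟨v, h⟩ => ⟨_, fun k => ⟨_, rfl⟩, h⟩⟩
  choose v h1 using h1
  exact ⟨v, by simpa only [h1] using h2⟩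

theorem comp_iff {k : ℕ} {t e : U} {u v : Fin k → ℕ}
    (h : ∀ i a, mm (pr (nu (u i)) a) e ↔ a = nu (v i)) : Comp mm t e (tu u) ↔ t = tu v := by
  simp only [Comp, pair_iff, app_iff, pr_tu, ← eq_iff (p := t)]
  simp only [mm_tu]
  refine forall_congr' fun p => iff_congr .rfl ⟨?_, ?_⟩
  · rintro ⟨_, _, a, rfl, ⟨i, rfl, rfl⟩, h1⟩
    exact ⟨i, (h i a).1 h1 ▸ rfl⟩
  · rintro ⟨i, rfl⟩
    exact ⟨_, _, _, rfl, ⟨i, rfl, rfl⟩, (h i _).2 rfl⟩

theorem comp_tu {k n : ℕ} {t : U} {u : Fin k → Fin n} {v : Fin n → ℕ} :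
    Comp mm t (tu v) (tu fun i => u i) ↔ t = tu fun i => v (u i) := comp_iff fun _ _ => nu_tu

/-- atomic facts -/
noncomputable def atm (m : ℕ) : U :=
  pr (nu (encode (Denumerable.ofNat ((ℕ × List ℕ) × List ℕ) m).1))
    (tu (Denumerable.ofNat ((ℕ × List ℕ) × List ℕ) m).2.get)

theorem tu_ofFn {n : ℕ} (v : Fin n → ℕ) : (tu (List.ofFn v).get : U) = tu v := ext' fun p => by
  simp only [mm_tu, Fin.exists_iff, List.length_ofFn, List.get_ofFn, Fin.cast_mk]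

theorem atm_enc {n : ℕ} (r : ℕ × List ℕ) (v : Fin n → ℕ) :
    (atm (encode (r, List.ofFn v)) : U) = pr (nu (encode r)) (tu v) := by
  rw [atm, Denumerable.ofNat_encode, tu_ofFn]

theorem ex_enc (m : ℕ) : ∃ (r : ℕ × List ℕ) (n : ℕ) (v : Fin n → ℕ), m = encode (r, List.ofFn v) :=
  ⟨(Denumerable.ofNat ((ℕ × List ℕ) × List ℕ) m).1, _,
    (Denumerable.ofNat ((ℕ × List ℕ) × List ℕ) m).2.get, by
    rw [List.ofFn_get, Prod.mk.eta, Denumerable.encode_ofNat]⟩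

theorem ex_sym (s : ℕ) : ∃ r : ℕ × List ℕ, s = encode r := ⟨_, (Denumerable.encode_ofNat s).symm⟩

theorem atm_inj : Function.Injective (atm : ℕ → U) := fun m m' h => by
  obtain ⟨r, n, v, rfl⟩ := ex_enc m
  obtain ⟨r', n', v', rfl⟩ := ex_enc m'
  rw [atm_enc, atm_enc, pr_inj, nu_inj, encode_inj] at h
  obtain rfl := tu_len h.2
  rw [h.1, tu_inj h.2]

/-- the set `D` is the structure coded by the real `X` -/
def St (D : U) (X : Rr) : Prop := ∀ p, mm p D ↔ ∃ m, X m = true ∧ atm m = p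

theorem St.at {D : U} {X : Rr} (h : St D X) {m : ℕ} : mm (atm m) D ↔ X m = true := by
  simp [h _, atm_inj.eq_iff]

theorem St.rel {D : U} {X : Rr} (h : St D X) {n : ℕ} {r : ℕ × List ℕ} {v : Fin n → ℕ} :
    mm (pr (nu (encode r)) (tu v)) D ↔ X (encode (r, List.ofFn v)) = true := by
  rw [← atm_enc, h.at]

theorem St.uq {D : U} {X Y : Rr} (h : St D X) (h' : St D Y) : X = Y :=
  funext fun _ => Bool.eq_iff_iff.2 (h.at.symm.trans h'.at)

theorem St.uq' {D E : U} {X : Rr} (h : St D X) (h' : St E X) : D = E :=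
  ext' fun p => (h p).trans (h' p).symm

theorem St.sym {D s t : U} {X : Rr} (h : St D X) (h1 : mm (pr s t) D) :
    ∃ r : ℕ × List ℕ, s = nu (encode r) :=
  let ⟨_, _, h2⟩ := (h _).1 h1
  ⟨_, (pr_inj.1 h2).1.symm⟩

theorem str_iff {D : U} : IsStr mm oo D ↔ ∃ X, St D X := by
  classical
  simp only [IsStr, pair_iff, mm_om]
  refine ⟨fun h => ⟨fun m => decide (mm (atm m) D), fun p => ⟨fun hp => ?_, ?_⟩⟩, ?_⟩
  · obtain ⟨_, _, t, rfl, ⟨s, rfl⟩, ⟨n, rfl⟩, h1⟩ := h p hp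
    obtain ⟨v, rfl⟩ := fun_om.1 h1
    obtain ⟨r, rfl⟩ := ex_sym s
    rw [← atm_enc] at hp ⊢
    exact ⟨_, decide_eq_true hp, rfl⟩
  · rintro ⟨m, h1, rfl⟩
    exact of_decide_eq_true h1
  · rintro ⟨X, h⟩ p hp
    obtain ⟨m, -, rfl⟩ := (h p).1 hp
    exact ⟨_, _, _, rfl, ⟨_, rfl⟩, ⟨_, rfl⟩, fun_om.2 ⟨_, rfl⟩⟩

end Pool.Agent.P.MP_b0885c_lc.In
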