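import Pool.Agent.P.MP_b0885c_lc.IG1

namespace Pool.Agent.P.MP_b0885c_lc.In

open Set Encodable Un
open Pool.Agent.Lib.PosetForcing hiding Fml Sat

variable {U : Type 1} [Un U]

/-- ranks -/
noncomputable def rk (a : U) : Ordinal.{0} := (ι a).rank

theorem rk_mm {a b : U} (h : mm a b) : rk a < rk b := ZFSet.rank_lt_of_mem h

theorem rk_pr (a b : U) : rk b < rk (pr a b) :=
  (rk_mm (b := aj a (aj b e0)) (by simp [mm_ins])).trans (rk_mm (by simp [pr, mm_ins]))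

theorem rk_ind {P : U → Prop} (h : ∀ x, (∀ y, rk y < rk x → P y) → P x) (x : U) : P x :=
  (InvImage.wf rk wellFounded_lt).induction x h

/-- `F` is the graph of the sequence `g` -/
def Sq (F : U) (g : ℕ → U) : Prop := ∀ p, mm p F ↔ ∃ k, pr (nu k) (g k) = p

theorem Sq.pr {F a y : U} {g : ℕ → U} (h : Sq F g) :
    mm (pr a y) F ↔ ∃ k, nu k = a ∧ g k = y := by simp only [h _, pr_inj]

theorem Sq.nu {F y : U} {g : ℕ → U} (h : Sq F g) {k : ℕ} : mm (In.pr (nu k) y) F ↔ g k = y := by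
  simp [h.pr]

theorem Sq.rk {F : U} {g : ℕ → U} (h : Sq F g) (a : U) (k : ℕ) : rk (g k) < rk (In.pr a F) :=
  ((rk_pr _ _).trans (rk_mm (h.nu.2 rfl))).trans (rk_pr _ _)

theorem sq_iff {f : U} {V : U → Prop} : IsFunOn mm f oo V ↔ ∃ g, (∀ k, V (g k)) ∧ Sq f g :=
  funOn_iff (fun _ _ => nu_inj.1) fun _ => mm_om

/-- `x` is the set coding the formula; all subformulas are listed in `L` -/
def Ht (L : U → U → Prop) : {n : ℕ} → Fml LT n → U → Prop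
  | n, .eq t u, x => L (nu n) x ∧ x = pr (nu 0) (pr (nu (vr t)) (nu (vr u)))
  | n, .rel r ts, x => L (nu n) x ∧
      x = pr (nu 1) (pr (nu (encode (show ℕ × List ℕ from r))) (tu fun i => vr (ts i)))
  | n, .neg φ, x => L (nu n) x ∧ ∃ y, x = pr (nu 2) y ∧ Ht L φ y
  | n, .conj f, x => L (nu n) x ∧ ∃ F g, x = pr (nu 3) F ∧ Sq F g ∧ ∀ k, Ht L (f k) (g k)
  | n, .all φ, x => L (nu n) x ∧ ∃ y, x = pr (nu 4) y ∧ Ht L φ y

/-- no restriction -/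
abbrev Hd {n : ℕ} (φ : Fml LT n) (x : U) : Prop := Ht (fun _ _ => True) φ x

variable {L L' : U → U → Prop} {n : ℕ} {φ : Fml LT n} {x S D τ : U} {X : Rr}

theorem Ht.lst (h : Ht L φ x) : L (nu n) x := by cases φ <;> exact h.1

theorem Ht.hd (h : Ht L φ x) : Hd φ x := by
  induction φ generalizing x with
  | eq => exact ⟨trivial, h.2⟩
  | rel => exact ⟨trivial, h.2⟩
  | neg φ ih => exact ⟨trivial, h.2.imp fun _ h => ⟨h.1, ih h.2⟩⟩
  | conj f ih => exact let ⟨F, g, h1, h2, h3⟩ := h.2; ⟨trivial, F, g, h1, h2, fun k => ih k (h3 k)⟩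
  | all φ ih => exact ⟨trivial, h.2.imp fun _ h => ⟨h.1, ih h.2⟩⟩

theorem vr_inj {t u : LT.Term (Fin n)} (h : vr t = vr u) : t = u := by
  obtain ⟨i, rfl⟩ := term_var t
  obtain ⟨j, rfl⟩ := term_var u
  exact congrArg _ (Fin.ext h)

theorem Ht.uq {y : U} (h : Ht L φ x) (h' : Ht L' φ y) : x = y := by
  induction φ generalizing x y with
  | eq => exact h.2.trans h'.2.symm
  | rel => exact h.2.trans h'.2.symm
  | neg φ ih =>
    obtain ⟨-, a, rfl, h⟩ := h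
    obtain ⟨-, b, rfl, h'⟩ := h'
    rw [ih h h']
  | conj f ih =>
    obtain ⟨-, F, g, rfl, h1, h2⟩ := h
    obtain ⟨-, F', g', rfl, h3, h4⟩ := h'
    obtain rfl : g = g' := funext fun k => ih k (h2 k) (h4 k)
    rw [ext' fun p => (h1 p).trans (h3 p).symm]
  | all φ ih =>
    obtain ⟨-, a, rfl, h⟩ := h
    obtain ⟨-, b, rfl, h'⟩ := h'
    rw [ih h h']

theorem Ht.inj {ψ : Fml LT n} (h : Ht L φ x) (h' : Ht L' ψ x) : φ = ψ := by
  induction φ generalizing x with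
  | eq =>
    obtain ⟨-, rfl⟩ := h
    cases ψ <;> simp [Ht] at h'
    rw [vr_inj h'.2.1, vr_inj h'.2.2]
  | rel =>
    obtain ⟨-, rfl⟩ := h
    cases ψ <;> simp [Ht, -encode_prod_val] at h'
    obtain rfl := tu_len h'.2.2
    obtain rfl := h'.2.1
    rw [funext fun i => vr_inj (congrFun (tu_inj h'.2.2) i)]
  | neg φ ih =>
    obtain ⟨-, a, rfl, h⟩ := h
    cases ψ <;> simp [Ht] at h'
    rw [ih h h'.2]
  | conj f ih =>
    obtain ⟨-, F, g, rfl, h1, h2⟩ := h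
    cases ψ <;> simp [Ht] at h'
    obtain ⟨-, g', h3, h4⟩ := h'
    obtain rfl : g = g' := funext fun k => h1.nu.1 (h3.nu.2 rfl) ▸ rfl
    rw [funext fun k => ih k (h2 k) (h4 k)]
  | all φ ih =>
    obtain ⟨-, a, rfl, h⟩ := h
    cases ψ <;> simp [Ht] at h'
    rw [ih h h'.2]

theorem node_iff {n : U} : Node mm oo S n x ↔ mm n oo ∧
    ((∃ i j, x = pr (nu 0) (pr i j) ∧ mm i n ∧ mm j n) ∨
    (∃ s u k, x = pr (nu 1) (pr s u) ∧ mm s oo ∧ mm k oo ∧ IsFun mm u k n) ∨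
    (∃ y, x = pr (nu 2) y ∧ mm (pr n y) S) ∨
    (∃ f, x = pr (nu 3) f ∧ IsFunOn mm f oo fun y => mm (pr n y) S) ∨
    ∃ y, x = pr (nu 4) y ∧ mm (pr (aj n n) y) S) := by
  simp only [Node, tag_iff, tag2_iff, succ_iff, exists_and_left, exists_eq_left,
    funext fun y => propext (app_iff (f := S) (x := n) (y := y)), app_iff]

theorem syn_ht (h : Syn mm oo S) (x : U) : ∀ n, mm (pr n x) S →
    ∃ k, ∃ φ : Fml LT k, n = nu k ∧ Ht (fun a b => mm (pr a b) S) φ x := by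
  induction x using rk_ind with
  | h x ih =>
    intro n hx
    obtain ⟨h1, h2⟩ := node_iff.1 (h n x (app_iff.2 hx))
    obtain ⟨k, rfl⟩ := mm_om.1 h1
    refine ⟨k, ?_⟩
    simp only [true_and]
    have key : ∀ {m y}, rk y < rk x → mm (pr (nu m) y) S →
        ∃ φ : Fml LT m, Ht (fun a b => mm (pr a b) S) φ y := fun h3 h4 => by
      obtain ⟨_, φ, h5, h6⟩ := ih _ h3 _ h4
      obtain rfl := nu_inj.1 h5
      exact ⟨φ, h6⟩
    rcases h2 with ⟨_, _, rfl, h2, h3⟩ | ⟨_, _, _, rfl, h2, h3, h4⟩ | ⟨y, rfl, h2⟩ | ⟨f, rfl, h2⟩ |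
      ⟨y, rfl, h2⟩
    · obtain ⟨i, rfl⟩ := (mm_nu' _).1 h2
      obtain ⟨j, rfl⟩ := (mm_nu' _).1 h3
      exact ⟨.eq (.var i) (.var j), hx, rfl⟩
    · obtain ⟨s, rfl⟩ := mm_om.1 h2
      obtain ⟨m, rfl⟩ := mm_om.1 h3
      obtain ⟨r, rfl⟩ := ex_sym s
      obtain ⟨v, rfl⟩ := fun_nu.1 h4
      exact ⟨.rel r fun i => .var (v i), hx, rfl⟩
    · obtain ⟨φ, h3⟩ := key (rk_pr _ _) h2
      exact ⟨.neg φ, hx, _, rfl, h3⟩
    · obtain ⟨g, h3, h4⟩ := sq_iff.1 h2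
      choose φ h5 using fun i => key (h4.rk _ i) (h3 i)
      exact ⟨.conj φ, hx, _, _, rfl, h4, h5⟩
    · obtain ⟨φ, h3⟩ := key (m := k + 1) (rk_pr _ _) h2
      exact ⟨.all φ, hx, _, rfl, h3⟩

theorem Ht.node (h : Ht L φ x) (hS : ∀ m (ψ : Fml LT m) y, Ht L ψ y → rk y < rk x →
    mm (pr (nu m) y) S) : Node mm oo S (nu n) x := by
  refine node_iff.2 ⟨mm_om.2 ⟨_, rfl⟩, ?_⟩
  cases φ with
  | eq t u =>
    obtain ⟨i, rfl⟩ := term_var t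
    obtain ⟨j, rfl⟩ := term_var u
    exact .inl ⟨_, _, h.2, (mm_nu' _).2 ⟨i, rfl⟩, (mm_nu' _).2 ⟨j, rfl⟩⟩
  | rel r ts =>
    choose s hs using fun i => term_var (ts i)
    obtain rfl := funext hs
    exact .inr (.inl ⟨_, _, _, h.2, mm_om.2 ⟨_, rfl⟩, mm_om.2 ⟨_, rfl⟩, fun_nu.2 ⟨s, rfl⟩⟩)
  | neg φ =>
    obtain ⟨-, y, rfl, h⟩ := h
    exact .inr (.inr (.inl ⟨y, rfl, hS _ _ _ h (rk_pr _ _)⟩))
  | conj f =>
    obtain ⟨-, F, g, rfl, h1, h2⟩ := h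
    exact .inr (.inr (.inr (.inl ⟨F, rfl, sq_iff.2 ⟨g, fun k => hS _ _ _ (h2 k) (h1.rk _ k), h1⟩⟩)))
  | all φ =>
    obtain ⟨-, y, rfl, h⟩ := h
    exact .inr (.inr (.inr (.inr ⟨y, rfl, hS _ _ _ h (rk_pr _ _)⟩)))

/-- one step of the truth definition -/
def Gt (D : U) (P N : U → U → Prop) (n x v : U) : Prop :=
  (∀ i j, x = pr (nu 0) (pr i j) → ∃ a, mm (pr i a) v ∧ mm (pr j a) v) ∧
  (∀ s u, x = pr (nu 1) (pr s u) → ∃ t, Comp mm t v u ∧ mm (pr s t) D) ∧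
  (∀ y, x = pr (nu 2) y → N y v) ∧
  (∀ f, x = pr (nu 3) f → ∀ k y, mm (pr k y) f → P y v) ∧
  ∀ y, x = pr (nu 4) y → ∀ a, mm a oo → P y (aj (pr n a) v)

theorem Gt.mono {P N P' N' : U → U → Prop} (h1 : ∀ a b, P a b → P' a b)
    (h2 : ∀ a b, N a b → N' a b) {n v : U} (h : Gt D P N n x v) : Gt D P' N' n x v :=
  ⟨h.1, h.2.1, fun y e => h2 _ _ (h.2.2.1 y e), fun f e k y h3 => h1 _ _ (h.2.2.2.1 f e k y h3),
    fun y e a h3 => h1 _ _ (h.2.2.2.2 y e a h3)⟩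

theorem Ht.step (hD : St D X) (h : Ht L φ x) {P N : U → U → Prop}
    (ih : ∀ m (ψ : Fml LT m) y, Ht L ψ y → rk y < rk x → ∀ v : Fin m → ℕ,
      (P y (tu v) ↔ ψ.Sat (M := Str X) v) ∧ (N y (tu v) ↔ ¬ ψ.Sat (M := Str X) v))
    (v : Fin n → ℕ) : Gt D P N (nu n) x (tu v) ↔ φ.Sat (M := Str X) v := by
  cases φ with
  | eq t u =>
    obtain ⟨i, rfl⟩ := term_var t
    obtain ⟨j, rfl⟩ := term_var u
    obtain ⟨-, rfl⟩ := h
    simp [Gt, vr, nu_tu]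
    exact eq_comm
  | rel r ts =>
    choose s hs using fun i => term_var (ts i)
    obtain rfl := funext hs
    obtain ⟨-, rfl⟩ := h
    simp [Gt, vr, comp_tu, -encode_prod_val]
    exact hD.rel
  | neg φ =>
    obtain ⟨-, y, rfl, h⟩ := h
    simp [Gt, (ih _ _ _ h (rk_pr _ _) v).2]
    rfl
  | conj f =>
    obtain ⟨-, F, g, rfl, h1, h2⟩ := h
    simp [Gt]
    simp [h1.pr, fun k => (ih _ _ _ (h2 k) (h1.rk _ k) v).1]
    exact ⟨fun h k => h _ k rfl, fun h _ k _ => h k⟩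
  | all φ =>
    obtain ⟨-, y, rfl, h⟩ := h
    simp [Gt, mm_om, ← tu_snoc, fun v => (ih _ _ _ h (rk_pr _ _) v).1]
    rfl

theorem truth_iff (h : Syn mm oo S) : Truth mm oo S D τ ↔ ∀ n x v, mm (pr n x) S →
    IsFun mm v n oo → (mm (pr x v) τ ↔
      Gt D (fun a b => mm (pr a b) τ) (fun a b => ¬ mm (pr a b) τ) n x v) := by
  simp only [Truth, tag_iff, tag2_iff, app_iff, snoc_iff]
  refine forall₄_congr fun n x v hx => imp_congr_right fun _ => ?_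
  rcases (node_iff.1 (h n x (app_iff.2 hx))).2 with ⟨_, _, rfl, -⟩ | ⟨_, _, _, rfl, -⟩ |
    ⟨y, rfl, -⟩ | ⟨f, rfl, -⟩ | ⟨y, rfl, -⟩ <;> simp [Gt]

theorem truth_sound (h : Syn mm oo S) (hD : St D X) (hτ : Truth mm oo S D τ) (x : U) :
    ∀ n (φ : Fml LT n), Ht (fun a b => mm (pr a b) S) φ x → ∀ v : Fin n → ℕ,
      mm (pr x (tu v)) τ ↔ φ.Sat (M := Str X) v := by
  induction x using rk_ind with
  | h x ih =>
    exact fun n φ h1 v => ((truth_iff h).1 hτ _ _ _ h1.lst (fun_om.2 ⟨v, rfl⟩)).trans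
      (h1.step hD (fun m ψ y h2 h3 v => ⟨ih y h3 m ψ h2 v, not_congr (ih y h3 m ψ h2 v)⟩) v)

theorem truth_compl (h : Syn mm oo S) (hD : St D X) (hτ : ∀ n (φ : Fml LT n) x (v : Fin n → ℕ),
    Hd φ x → (mm (pr x (tu v)) τ ↔ φ.Sat (M := Str X) v)) : Truth mm oo S D τ :=
  (truth_iff h).2 fun n x v h1 h2 => by
    obtain ⟨k, φ, rfl, h3⟩ := syn_ht h x n h1
    obtain ⟨v, rfl⟩ := fun_om.1 h2
    exact (hτ _ _ _ _ h3.hd).trans (h3.hd.step hD (fun m ψ y h4 _ v =>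
      ⟨hτ _ _ _ _ h4, not_congr (hτ _ _ _ _ h4)⟩) v).symm

variable (U) in
/-- the universe has a set of all formulas and has truth tables -/
structure Ri : Prop where
  syn : ∃ S : U, Syn mm oo S ∧ ∀ n (φ : Fml LT n) x, Hd φ x → mm (pr (nu n) x) S
  tt : ∀ (D : U) X, St D X → ∃ τ : U, ∀ n (φ : Fml LT n) x (v : Fin n → ℕ), Hd φ x →
    (mm (pr x (tu v)) τ ↔ φ.Sat (M := Str X) v)

theorem sent_iff (hU : Ri U) : Sent mm oo x ↔ ∃ φ : Fml LT 0, Hd φ x := by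
  simp only [Sent, num_iff, app_iff]
  refine ⟨?_, fun ⟨φ, h⟩ => let ⟨S, h1, h2⟩ := hU.syn; ⟨S, _, h1, rfl, h2 _ _ _ h⟩⟩
  rintro ⟨S, _, h1, rfl, h2⟩
  obtain ⟨k, φ, h3, h4⟩ := syn_ht h1 x _ h2
  obtain rfl := nu_inj.1 h3
  exact ⟨φ, h4.hd⟩

theorem models_iff (hU : Ri U) {φ : Fml LT 0} (hD : St D X) (h : Hd φ x) :
    Models mm oo x D ↔ Mod φ X := by
  simp only [Models, num_iff, app_iff, ← tu_zero (U := U) Fin.elim0]
  refine ⟨?_, fun h1 => ?_⟩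
  · rintro ⟨S, _, τ, h1, rfl, h2, h3, h4⟩
    rw [tu_zero] at h2
    obtain ⟨k, ψ, h5, h6⟩ := syn_ht h1 x _ h2
    obtain rfl := nu_inj.1 h5
    obtain rfl := h.inj h6
    exact (truth_sound h1 hD h3 x _ _ h6 _).1 h4
  · obtain ⟨S, h2, h3⟩ := hU.syn
    obtain ⟨τ, h4⟩ := hU.tt D X hD
    exact ⟨S, _, τ, h2, rfl, tu_zero (U := U) Fin.elim0 ▸ h3 _ _ _ h, truth_compl h2 hD h4,
      (h4 _ _ _ _ h).2 h1⟩

end Pool.Agent.P.MP_b0885c_lc.In
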