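import Pool.Agent.P.MP_b0885c_lc.IG2

namespace Pool.Agent.P.MP_b0885c_lc.In

open Set Encodable Un Ordinal
open Pool.Agent.Lib.PosetForcing hiding Fml Sat

variable {U : Type 1} [Un U] {D E B α γ A : U} {X Y W : Rr}

theorem same_iff (hD : St D X) {n : ℕ} {a b : Fin n → ℕ} :
    Same mm oo D (nu n) (tu a) (tu b) ↔ AE X X a b := by
  simp only [Same, AE, app_iff, mm_nu', mm_om]
  refine and_congr ⟨fun h i j => ?_, ?_⟩ ⟨fun h k r s => ?_, ?_⟩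
  · simpa [nu_tu, eq_comm] using h _ _ ⟨i, rfl⟩ ⟨j, rfl⟩
  · rintro h _ _ ⟨i, rfl⟩ ⟨j, rfl⟩
    simpa [nu_tu, eq_comm] using h i j
  · rw [← hD.rel, ← hD.rel]
    exact h _ _ _ _ _ ⟨k, rfl⟩ (fun_nu.2 ⟨s, rfl⟩) (comp_tu.2 rfl) (comp_tu.2 rfl)
  · rintro h s _ _ _ _ ⟨k, rfl⟩ h1 h2 h3
    obtain ⟨u, rfl⟩ := fun_nu.1 h1
    rw [comp_tu.1 h2, comp_tu.1 h3]
    by_cases h4 : ∃ r : ℕ × List ℕ, s = nu (encode r)
    · obtain ⟨r, rfl⟩ := h4
      rw [hD.rel, hD.rel, h]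
    · exact iff_of_false (fun h5 => h4 (hD.sym h5)) fun h5 => h4 (hD.sym h5)

theorem step_iff {n : ℕ} {a b : Fin n → ℕ} : Step mm oo B γ (nu n) (tu a) (tu b) ↔
    BF (fun _ a b => At mm B γ (tu a) (tu b)) a b := by
  simp [Step, BF, snoc_iff, mm_om, tu_snoc]

/-- ordinals -/
def Od (α : U) : Prop := (ι α).IsOrdinal

theorem Od.mem (h : Od α) (h1 : mm γ α) : Od γ := ZFSet.IsOrdinal.mem h h1

theorem Od.ex (h : Od α) {μ : Ordinal.{0}} (h1 : μ < rk α) : ∃ γ, mm γ α ∧ rk γ = μ := by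
  have h2 : μ.toZFSet ∈ ι α := h.toZFSet_rank_eq ▸ toZFSet_mem_toZFSet_iff.2 h1
  obtain ⟨γ, h3⟩ := tr _ _ h2
  exact ⟨γ, show ι γ ∈ _ from h3 ▸ h2, by rw [rk, h3, rank_toZFSet]⟩

theorem od_iff : Od α ↔ (∀ x y, mm x α → mm y x → mm y α) ∧
    ∀ x y, mm x α → mm y α → mm x y ∨ x = y ∨ mm y x := by
  refine ⟨fun h => ⟨fun _ _ h1 h2 => h.mem_trans h2 h1, fun _ _ h1 h2 => by
    simpa [mm] using (h.mem h1).mem_trichotomous (h.mem h2)⟩, fun ⟨h1, h2⟩ =>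
    ZFSet.isOrdinal_iff_trichotomous.2 ⟨fun x hx y hy => ?_,
      Std.trichotomous_of_rel_or_eq_or_rel_swap ?_⟩⟩
  · obtain ⟨x, rfl⟩ := tr _ _ hx
    obtain ⟨y, rfl⟩ := tr _ _ hy
    exact h1 x y hx hy
  · intro ⟨x, hx⟩ ⟨y, hy⟩
    obtain ⟨x, rfl⟩ := tr _ _ hx
    obtain ⟨y, rfl⟩ := tr _ _ hy
    simpa [mm] using h2 x y hx hy

/-- `B` is the table of the back and forth relations -/
def Tab (D α B : U) : Prop :=
  ∀ γ n a b, mm γ α → mm n oo → IsFun mm a n oo → IsFun mm b n oo →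
    (At mm B γ a b ↔ Same mm oo D n a b ∧ ∀ β, mm β γ → Step mm oo B β n a b)

theorem Tab.use (h : Tab D α B) (hα : Od α) (hD : St D X) (γ : U) : mm γ α →
    (fun _ a b => At mm B γ (tu a) (tu b)) = bf X X (rk γ) := by
  induction γ using rk_ind with
  | h γ ih =>
    intro h1
    funext n a b
    rw [h γ _ _ _ h1 (mm_om.2 ⟨n, rfl⟩) (fun_om.2 ⟨a, rfl⟩) (fun_om.2 ⟨b, rfl⟩), same_iff hD, bf,
      bfe_iff, ae_iff]
    refine propext (and_congr_right fun _ => ⟨fun h2 μ hμ => ?_, fun h2 β hβ => ?_⟩)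
    · obtain ⟨β, h3, rfl⟩ := (hα.mem h1).ex hμ
      have := step_iff.1 (h2 β h3)
      rwa [ih β hμ (hα.mem_trans h3 h1)] at this
    · rw [step_iff, ih β (rk_mm hβ) (hα.mem_trans hβ h1)]
      exact h2 _ (rk_mm hβ)

theorem rank_iff' (hα : Od α) (hD : St D X) (hB : ∃ B, Tab D α B) :
    RankGe mm oo D α ↔ rk α ≤ SR LT (Str X) := by
  have key : ∀ B, Tab D α B → ∀ γ, mm γ α → ((∃ n a b, mm n oo ∧ IsFun mm a n oo ∧
      IsFun mm b n oo ∧ At mm B γ a b ∧ ¬ Step mm oo B γ n a b) ↔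
      ¬ Stab LT (Str X) (rk γ)) := fun B h γ h1 => by
    rw [show Stab LT (Str X) (rk γ) ↔ _ from sy_iff.symm, ← h.use hα hD γ h1]
    simp [mm_om, fun_om, step_iff, Sy]
  refine ⟨fun ⟨B, h1, h2⟩ => ?_, fun h => hB.imp fun B h1 => ⟨h1, fun γ h2 =>
    (key B h1 γ h2).2 fun h3 => ((rk_mm h2).trans_le h).not_ge h3.sr_le⟩⟩
  obtain ⟨_, -, h3⟩ := exists_Stab X
  refine le_sr h3 fun μ hμ => ?_
  obtain ⟨γ, h4, rfl⟩ := hα.ex hμ
  exact (key B h1 γ h4).1 (h2 γ h4)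

/-- the set `e` is the relation coded by the real `W` -/
def Gr (e : U) (W : Rr) : Prop := ∀ p, mm p e ↔ ∃ a b, wr W a b ∧ pr (nu a) (nu b) = p

theorem Gr.nu {e : U} (h : Gr e W) {a b : ℕ} : mm (pr (nu a) (nu b)) e ↔ wr W a b := by
  simp [h _]

theorem isom_iff (hD : St D X) (hE : St E Y) :
    Isom mm oo D E ↔ ∃ W, (∃ e : U, Gr e W) ∧ IG W X Y := by
  rw [Isom]
  simp only [IsFun.eq_1 mm _ oo, sq_iff, app_iff, mm_om]
  constructor
  · rintro ⟨e, ⟨g, h1, h2⟩, h3, h4, h5⟩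
    choose f h1 using h1
    obtain rfl := funext h1
    have h6 : ∀ a b, wr (fun n => decide (f n.unpair.1 = n.unpair.2)) a b ↔ f a = b := by simp
    refine ⟨fun n => decide (f n.unpair.1 = n.unpair.2), ⟨e, fun p => by simp [h2 p]⟩,
      fun x => ⟨f x, by simp [eq_comm]⟩, fun y => ?_, fun k r v w h => ?_⟩
    · obtain ⟨_, h7⟩ := h3 _ ⟨y, rfl⟩
      obtain ⟨x, rfl, h8⟩ := h2.pr.1 h7
      exact ⟨x, fun x' => (h6 _ _).trans ⟨fun h => nu_inj.1 (h4 _ _ _ (h2.nu.2 (congrArg _ h)) h7),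
        fun h => h ▸ nu_inj.1 h8⟩⟩
    · rw [← hD.rel, ← hE.rel]
      exact h5 _ _ _ _ ⟨k, rfl⟩ (fun_om.2 ⟨v, rfl⟩) ((comp_iff fun i a => by
        rw [h2.nu, (h6 _ _).1 (h i), eq_comm]).2 rfl)
  · rintro ⟨W, ⟨e, h⟩, h1, h2, h3⟩
    choose f h1 using h1
    have h4 : Sq e fun k => nu (f k) := fun p => by simp [h p, h1]
    refine ⟨e, ⟨_, fun k => ⟨_, rfl⟩, h4⟩, ?_, fun x x' y a1 a2 => ?_, ?_⟩
    · rintro _ ⟨y, rfl⟩
      obtain ⟨x, h5⟩ := h2 y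
      exact ⟨_, h.nu.2 ((h5 x).2 rfl)⟩
    · obtain ⟨x, rfl, rfl⟩ := h4.pr.1 a1
      obtain ⟨x', rfl, -⟩ := h4.pr.1 a2
      obtain ⟨z, h5⟩ := h2 (f x)
      rw [(h5 _).1 (h.nu.1 a1), (h5 _).1 (h.nu.1 a2)]
    · rintro s _ t t' ⟨n, rfl⟩ a1 a2
      obtain ⟨v, rfl⟩ := fun_om.1 a1
      rw [(comp_iff (v := fun i => f (v i)) fun i a => h4.nu.trans eq_comm).1 a2]
      by_cases h5 : ∃ r : ℕ × List ℕ, s = nu (encode r)
      · obtain ⟨r, rfl⟩ := h5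
        rw [hD.rel, hE.rel]
        exact h3 _ _ _ _ fun i => (h1 _ _).2 rfl
      · exact iff_of_false (fun h6 => h5 (hD.sym h6)) fun h6 => h5 (hE.sym h6)

theorem lim_iff (hA : ∀ E, mm E A → IsStr mm oo E) (hD : St D X) : Lim mm oo A D ↔
    ∀ N, ∃ E Y, mm E A ∧ St E Y ∧ Y ≠ X ∧ ∀ m < N, X m = Y m := by
  simp only [Lim, mm_om, app_iff]
  refine ⟨fun h N => ?_, ?_⟩
  · obtain ⟨g, hg⟩ := ex_fin fun k : Fin N => (pr (nu k) (atm k) : U)
    obtain ⟨E, h1, h2, h3⟩ := h _ g ⟨N, rfl⟩ ((funOn_iff nu_fin mm_nu').2 ⟨_, fun _ => trivial, hg⟩)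
    obtain ⟨Y, h4⟩ := str_iff.1 (hA E h1)
    exact ⟨E, Y, h1, h4, fun h5 => h2 (h4.uq' (h5 ▸ hD)), fun m hm => Bool.eq_iff_iff.2
      (hD.at.symm.trans ((h3 _ _ ((hg _).2 ⟨⟨m, hm⟩, rfl⟩)).trans h4.at))⟩
  · rintro h _ g ⟨n, rfl⟩ h1
    obtain ⟨g', -, h2⟩ := (funOn_iff nu_fin mm_nu').1 h1
    have : ∀ i, ∃ m, ∀ m', atm m' = g' i → m' = m := fun i => by
      by_cases h3 : ∃ m, atm m = g' i
      · exact h3.imp fun m h3 _ h4 => atm_inj (h4.trans h3.symm)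
      · exact ⟨0, fun m h4 => (h3 ⟨m, h4⟩).elim⟩
    choose c hc using this
    obtain ⟨N, hN⟩ := (finite_range c).bddAbove
    obtain ⟨E, Y, h3, h4, h5, h6⟩ := h (N + 1)
    refine ⟨E, h3, fun h7 => h5 (h4.uq (h7 ▸ hD)), fun i p hp => ?_⟩
    obtain ⟨k, h7⟩ := (h2 _).1 hp
    rw [hD p, h4 p]
    refine exists_congr fun m => and_congr_left fun h8 => ?_
    rw [h6 m (Nat.lt_succ_of_le (hc k m (h8.trans (pr_inj.1 h7).2.symm) ▸ hN ⟨k, rfl⟩))]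

theorem ptree_of {A : Set Rr} (h0 : A.Nonempty)
    (h1 : ∀ D ∈ A, ∀ N, ∃ E ∈ A, E ≠ D ∧ ∀ m < N, D m = E m) :
    ∃ Q, PerfectTree Q ∧ ∀ D, Branch Q D → ∀ N, ∃ E ∈ A, ∀ m < N, D m = E m := by
  classical
  have key : ∀ s : List Bool, decide (∃ σ ∈ A, ∃ k, encode ((List.range k).map σ) = encode s) =
      true ↔ ∃ σ ∈ A, ∃ k, (List.range k).map σ = s := fun s => by
    simp only [decide_eq_true_iff, encode_inj]
  refine ⟨fun n => decide (∃ σ ∈ A, ∃ k, encode ((List.range k).map σ) = n),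
    ⟨(key _).2 ⟨_, h0.some_mem, 0, rfl⟩, fun s t h1 h2 => ?_, fun s h2 => ?_⟩, fun D h n => ?_⟩
  · obtain ⟨σ, h3, k, rfl⟩ := (key _).1 h2
    refine (key _).2 ⟨σ, h3, min s.length k, ?_⟩
    rw [List.prefix_iff_eq_take.1 h1, ← List.map_take, List.take_range]
    simp
  · obtain ⟨σ, h3, k, rfl⟩ := (key _).1 h2
    obtain ⟨τ, a1, a2, hn⟩ := h1 σ h3 k
    have a3 : ∃ j, τ j ≠ σ j := Function.ne_iff.1 a2
    have a4 : (List.range (Nat.find a3)).map τ = (List.range (Nat.find a3)).map σ :=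
      List.map_congr_left fun i h => not_not.1 (Nat.find_min a3 (List.mem_range.1 h))
    have a5 : k ≤ Nat.find a3 := not_lt.1 fun h => Nat.find_spec a3 (hn _ h).symm
    have a6 := (key _).2 ⟨σ, h3, Nat.find a3 + 1, rfl⟩
    have a7 := (key _).2 ⟨τ, a1, Nat.find a3 + 1, rfl⟩
    rw [List.range_succ, List.map_append, List.map_singleton] at a6 a7
    rw [a4] at a7
    have a8 := Nat.find_spec a3
    refine ⟨(List.range (Nat.find a3)).map σ, List.prefix_iff_eq_take.2 (by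
      rw [← List.map_take, List.take_range]
      simp [a5]), ?_⟩
    generalize σ (Nat.find a3) = b at a6 a8
    generalize τ (Nat.find a3) = b' at a7 a8
    cases b <;> cases b'
    exacts [(a8 rfl).elim, ⟨a7, a6⟩, ⟨a6, a7⟩, (a8 rfl).elim]
  · obtain ⟨σ, h2, k, h1⟩ := (key _).1 (h n)
    obtain rfl : k = n := by simpa using congrArg List.length h1
    exact ⟨σ, h2, fun i h3 => (List.map_inj_left.1 h1 i (List.mem_range.2 h3)).symm⟩

theorem ex_branch {Q : Rr} (h : PerfectTree Q) {s : List Bool} (hs : Q (encode s) = true) :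
    ∃ Y, Branch Q Y ∧ ∀ i (hi : i < s.length), Y i = s[i] := by
  choose! f h1 h2 _ using h.2.2
  let L : ℕ → List Bool := fun n => (fun t => f t ++ [true])^[n] s
  have h3 : ∀ n, L (n + 1) = f (L n) ++ [true] := fun n => Function.iterate_succ_apply' _ _ _
  have h4 : ∀ n, Q (encode (L n)) = true ∧ n ≤ (L n).length := fun n => by
    induction n with
    | zero => exact ⟨hs, Nat.zero_le _⟩
    | succ n ih =>
      have := (h1 _ ih.1).length_le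
      exact h3 n ▸ ⟨h2 _ ih.1, by simp; omega⟩
  have h5 : ∀ a b, a ≤ b → L a <+: L b := fun a b h => by
    induction h with
    | refl => exact List.prefix_rfl
    | step _ ih => exact h3 _ ▸ ih.trans ((h1 _ (h4 _).1).trans (List.prefix_append _ _))
  have h6 : ∀ n i (hi : i < (L n).length), (L (i + 1))[i]'(h4 _).2 = (L n)[i] := fun n i hi =>
    ((h5 _ _ (le_max_left _ n)).getElem _).trans ((h5 _ _ (le_max_right _ n)).getElem _).symm
  refine ⟨fun i => (L (i + 1))[i]'(h4 _).2, fun n => h.2.1 _ _ ?_ (h4 n).1, h6 0⟩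
  have := (h4 n).2
  refine List.prefix_iff_eq_take.2 (List.ext_getElem (by simp [this]) fun i h7 _ => ?_)
  simp only [List.getElem_map, List.getElem_range, List.getElem_take]
  exact h6 _ _ _

theorem near_branch {Q X : Rr} (h : PerfectTree Q) (hX : Branch Q X) (N : ℕ) :
    ∃ Y, Branch Q Y ∧ Y ≠ X ∧ ∀ m < N, X m = Y m := by
  obtain ⟨t, h1, h2⟩ := h.2.2 _ (hX N)
  have h3 : N ≤ t.length := by simpa using h1.length_le
  obtain ⟨Y, h4, h5⟩ := ex_branch h (s := t ++ [!X t.length]) (by cases X t.length <;> simp [h2])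
  refine ⟨Y, h4, fun e => by simpa [e] using h5 t.length (by simp), fun m hm => ?_⟩
  rw [h5 m (by simp; omega), List.getElem_append_left (hm.trans_le h3),
    ← h1.getElem (by simpa using hm)]
  simp

end Pool.Agent.P.MP_b0885c_lc.In
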