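import Pool.Agent.P.MP_b0885c_lc.IV

namespace Pool.Agent.P.MP_b0885c_lc.In

open Set Encodable Un Ordinal
open Pool.Agent.Lib.PosetForcing hiding Fml Sat

set_option synthInstance.maxSize 4096

variable {Z : Zt}

theorem mm_omega : MM Z ZFSet.omega := by
  have h : ∀ n : ℕ, (n : Ordinal.{0}).toZFSet = num n := fun n => by
    induction n with
    | zero => exact toZFSet_zero
    | succ n ih => rw [Nat.cast_succ, toZFSet_add_one, ih, num]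
  refine (ZFSet.ext fun x => ?_ : (ω : Ordinal.{0}).toZFSet = ZFSet.omega) ▸ mm_ord Z ω
  simp [mem_toZFSet_iff, mem_omega, lt_omega0, h]

noncomputable instance : Un (MT Z) where
  ι := Subtype.val
  inj := Subtype.val_injective
  tr a w h := ⟨⟨w, a.2.trans h⟩, rfl⟩
  e0 := emp
  aj := ins
  oo := ⟨ZFSet.omega, mm_omega⟩
  ι_emp := rfl
  ι_ins _ _ := rfl
  ι_om := rfl

section
variable {t u w z : (ℕ → MT Z) → MT Z} [TM t] [TM u] [TM w] [TM z]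

instance : DM fun v => mm (t v) (u v) := DM.mem

instance : TM fun v => aj (t v) (u v) := TM.ins

instance : TM fun v => pr (t v) (u v) := TM.pr

instance : DM fun v => IsPair mm (t v) (u v) (w v) :=
  DM.congr (P := fun v => t v = pr (u v) (w v)) fun _ => pair_iff.symm

instance : DM fun v => App mm (t v) (u v) (w v) :=
  DM.congr (P := fun v => mm (pr (u v) (w v)) (t v)) fun _ => app_iff.symm

instance : DM fun v => Snoc mm (t v) (u v) (w v) (z v) :=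
  DM.congr (P := fun v => t v = aj (pr (w v) (z v)) (u v)) fun _ => snoc_iff.symm

instance : DM fun v => At mm (t v) (u v) (w v) (z v) :=
  DM.congr (P := fun v => mm (pr (u v) (pr (w v) (z v))) (t v)) fun _ => at_iff.symm

end

section
variable {t u w : (ℕ → MT Z) → MT Z} [TM t] [TM u] [TM w]

instance : DM fun v => IsFun mm (t v) (u v) (w v) :=
  DM.app3 (by unfold IsFun IsFunOn; infer_instance)

instance : DM fun v => Comp mm (t v) (u v) (w v) := DM.app3 (by unfold Comp; infer_instance)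

instance (D : MT Z) : DM fun v => Same mm oo D (t v) (u v) (w v) :=
  DM.app3 (by unfold Same; infer_instance)

instance : DM fun v => IsStr mm oo (t v) := DM.app1 (by unfold IsStr; infer_instance)

instance : DM fun v => Node mm oo (t v) (u v) (w v) :=
  DM.app3 (by simp only [node_iff, IsFunOn]; infer_instance)

end

theorem kt' (a : MT Z) (Γ : MT Z → MT Z → Prop) (hd : DM fun v => Γ (v 0) (v 1))
    (mono : ∀ S S', (∀ x, mm x S → mm x S') → ∀ x, Γ S x → Γ S' x) :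
    ∃ S : MT Z, ∀ x, mm x S ↔ mm x a ∧ Γ S x := kt a Γ hd mono

theorem sep' (a : MT Z) (P : MT Z → Prop) [DM fun v => P (v 0)] :
    ∃ z : MT Z, ∀ x, mm x z ↔ mm x a ∧ P x := sep a P

theorem sup' {A : Type} (f : A → MT Z) : ∃ a : MT Z, ∀ i, mm (f i) a :=
  let ⟨a, h, _⟩ := exists_sup fun i : ULift.{1} A => f i.down
  ⟨a, fun i => h ⟨i⟩⟩

theorem sup_hd {A : Type} (f : A → MT Z → MT Z) :
    ∃ a : MT Z, ∀ i n (φ : Fml LT n) x, Hd φ x → mm (f i x) a :=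
  let ⟨a, h⟩ := sup' fun q : A × {q : Σ n, Fml LT n // ∃ x : MT Z, Hd q.2 x} => f q.1 q.2.2.choose
  ⟨a, fun i n φ x hx => hx.uq (Exists.choose_spec ⟨x, hx⟩) ▸ h (i, ⟨⟨n, φ⟩, x, hx⟩)⟩

theorem fun_tu {U : Type 1} [Un U] {k : ℕ} {v : Fin k → ℕ} {n : U} (h1 : mm n oo)
    (h2 : IsFun mm (tu v) n oo) : n = nu k := by
  obtain ⟨m, rfl⟩ := mm_om.1 h1
  obtain ⟨w, h3⟩ := fun_om.1 h2
  rw [tu_len h3]

theorem m_ri : Ri (MT Z) := by
  refine ⟨?_, fun D X hD => ?_⟩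
  · obtain ⟨a, ha⟩ := sup_hd fun n (x : MT Z) => pr (nu n) x
    obtain ⟨S, hS⟩ := kt' a (fun S p => ∃ n x, p = pr n x ∧ Node mm oo S n x) inferInstance
      fun S S' h p ⟨n, x, h1, h2⟩ => ⟨n, x, h1, node_iff.2 ((node_iff.1 h2).imp_right (.imp_right
        (.imp_right (.imp (.imp fun _ => .imp_right (h _)) (.imp (.imp fun _ => .imp_right
        fun h3 => let ⟨g, h4, h5⟩ := sq_iff.1 h3; sq_iff.2 ⟨g, fun _ => h _ (h4 _), h5⟩)
        (.imp fun _ => .imp_right (h _)))))))⟩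
    refine ⟨S, fun n x h => ?_, fun n φ x => ?_⟩
    · obtain ⟨-, _, _, h1, h2⟩ := (hS _).1 (app_iff.1 h)
      obtain ⟨rfl, rfl⟩ := pr_inj.1 h1
      exact h2
    · induction x using rk_ind generalizing n with
      | h x ih => exact fun h => (hS _).2 ⟨ha _ _ _ _ h, _, _, rfl,
          h.node fun m ψ y h1 h2 => ih y h2 m ψ h1⟩
  · obtain ⟨a, ha⟩ := sup_hd fun (q : ℕ × Σ n, Fin n → ℕ) (x : MT Z) =>
      pr (nu q.1) (pr x (tu q.2.2))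
    obtain ⟨B, hB⟩ := kt' a (fun B p => ∃ n x v, mm n oo ∧ IsFun mm v n oo ∧
      (p = pr (nu 1) (pr x v) ∧ Gt D (fun a b => mm (pr (nu 1) (pr a b)) B)
        (fun a b => mm (pr (nu 0) (pr a b)) B) n x v ∨ p = pr (nu 0) (pr x v) ∧
        ¬ Gt D (fun a b => ¬ mm (pr (nu 0) (pr a b)) B)
        (fun a b => ¬ mm (pr (nu 1) (pr a b)) B) n x v)) (by unfold Gt; beta_reduce; infer_instance)
      fun S S' h p ⟨n, x, v, h1, h2, h3⟩ => ⟨n, x, v, h1, h2, h3.imp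
        (.imp_right (.mono (fun _ _ => h _) fun _ _ => h _))
        (.imp_right (mt (.mono (fun _ _ => mt (h _)) fun _ _ => mt (h _))))⟩
    have key : ∀ x n (φ : Fml LT n), Hd φ x → ∀ v : Fin n → ℕ,
        (mm (pr (nu 1) (pr x (tu v))) B ↔ φ.Sat (M := Str X) v) ∧
        (mm (pr (nu 0) (pr x (tu v))) B ↔ ¬ φ.Sat (M := Str X) v) := fun x => by
      induction x using rk_ind with
      | h x ih =>
        intro n φ h v
        have h0 := h.step hD (P := fun a b => mm (pr (nu 1) (pr a b)) B)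
          (N := fun a b => mm (pr (nu 0) (pr a b)) B) (fun m ψ y h1 h2 => ih y h2 m ψ h1) v
        rw [← h0, hB, hB,
          and_iff_right (ha (1, ⟨n, v⟩) _ _ _ h), and_iff_right (ha (0, ⟨n, v⟩) _ _ _ h)]
        refine ⟨⟨?_, fun h1 => ⟨_, _, _, mm_om.2 ⟨n, rfl⟩, fun_om.2 ⟨v, rfl⟩, .inl ⟨rfl, h1⟩⟩⟩, ?_⟩
        · rintro ⟨_, _, _, h1, h2, ⟨h3, h4⟩ | ⟨h3, -⟩⟩ <;> simp at h3
          obtain ⟨rfl, rfl⟩ := h3
          exact fun_tu h1 h2 ▸ h4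
        rw [h0, ← h.step hD (P := fun a b => ¬ mm (pr (nu 0) (pr a b)) B)
          (N := fun a b => ¬ mm (pr (nu 1) (pr a b)) B) (fun m ψ y h1 h2 v =>
          ⟨(not_congr (ih y h2 m ψ h1 v).2).trans not_not, not_congr (ih y h2 m ψ h1 v).1⟩) v]
        refine ⟨?_, fun h1 => ⟨_, _, _, mm_om.2 ⟨n, rfl⟩, fun_om.2 ⟨v, rfl⟩, .inr ⟨rfl, h1⟩⟩⟩
        rintro ⟨_, _, _, h1, h2, ⟨h3, -⟩ | ⟨h3, h4⟩⟩ <;> simp at h3
        obtain ⟨rfl, rfl⟩ := h3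
        exact fun_tu h1 h2 ▸ h4
    obtain ⟨b, hb⟩ := sup_hd fun (q : Σ n, Fin n → ℕ) (x : MT Z) => pr x (tu q.2)
    obtain ⟨τ, h⟩ := sep' b fun p => mm (pr (nu 1 : MT Z) p) B
    exact ⟨τ, fun n φ x v h1 => (h _).trans
      ((and_iff_right (hb ⟨n, v⟩ _ _ _ h1)).trans (key x n φ h1 v).1)⟩

theorem m_tab (D α : MT Z) : ∃ B, Tab D α B := by
  obtain ⟨c, hc, -⟩ := exists_sup fun q : {x // x ∈ α} × Σ n, (Fin n → ℕ) × (Fin n → ℕ) =>
    pr q.1.1 (pr (tu q.2.2.1) (tu q.2.2.2))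
  obtain ⟨B, hB⟩ := kt' c (fun B p => ∃ γ n a b, p = pr γ (pr a b) ∧ mm n oo ∧ IsFun mm a n oo ∧
    Same mm oo D n a b ∧ ∀ β, mm β γ → Step mm oo B β n a b) (by unfold Step; infer_instance)
    fun S S' h p ⟨γ, n, a, b, h1, h2, h3, h4, h5⟩ => ⟨γ, n, a, b, h1, h2, h3, h4, fun β hβ =>
      (h5 β hβ).imp (fun h6 x hx => (h6 x hx).imp fun _ => .imp_right fun h7 _ _ h8 h9 =>
        at_iff.2 (h _ (at_iff.1 (h7 _ _ h8 h9)))) fun h6 x hx => (h6 x hx).imp fun _ =>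
        .imp_right fun h7 _ _ h8 h9 => at_iff.2 (h _ (at_iff.1 (h7 _ _ h8 h9)))⟩
  refine ⟨B, fun γ n a b h1 h2 h3 h4 => ?_⟩
  obtain ⟨n, rfl⟩ := mm_om.1 h2
  obtain ⟨a, rfl⟩ := fun_om.1 h3
  obtain ⟨b, rfl⟩ := fun_om.1 h4
  rw [at_iff, hB]
  refine ⟨?_, fun h => ⟨hc (⟨γ, h1⟩, ⟨n, a, b⟩), _, _, _, _, rfl, h2, h3, h⟩⟩
  rintro ⟨-, _, _, _, _, h5, h6, h7, h8⟩
  simp only [pr_inj] at h5
  obtain ⟨rfl, rfl, rfl⟩ := h5
  exact fun_tu h6 h7 ▸ h8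

theorem m_ord {W : Rr} {e : MT Z} (he : Gr e W) [IsWellOrder ℕ (wr W)] :
    ∃ α : MT Z, CtOrd mm oo α ∧ rk α = type (wr W) := by
  let o : Ordinal.{0} → MT Z := fun β => ⟨β.toZFSet, mm_ord Z β⟩
  have h1 : ∀ x β, mm x (o β) ↔ ∃ μ < β, o μ = x := fun x β =>
    mem_toZFSet_iff.trans (by simp only [Subtype.ext_iff, o]; rfl)
  have h2 : ∀ μ β, o μ = o β → μ = β := fun _ _ h => toZFSet_injective (congrArg Subtype.val h)
  have h3 : ∀ x k, mm x (o (typein (wr W) k)) ↔ ∃ j, wr W j k ∧ o (typein (wr W) j) = x :=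
    fun x k => (h1 _ _).trans ⟨fun ⟨μ, h3, h4⟩ => by
      obtain ⟨j, rfl⟩ := typein_surj _ (h3.trans (typein_lt_type _ k))
      exact ⟨j, (typein_lt_typein (wr W)).1 h3, h4⟩,
      fun ⟨j, h3, h4⟩ => ⟨_, (typein_lt_typein _).2 h3, h4⟩⟩
  obtain ⟨a, ha⟩ := sup' fun k => pr (o (typein (wr W) k)) (nu k)
  obtain ⟨f, hf⟩ := kt' a (fun f p => ∃ γ k, p = pr γ k ∧ mm k oo ∧ (∀ β, mm β γ →
    ∃ j, mm (pr β j) f ∧ mm (pr j k) e) ∧ ∀ j, mm (pr j k) e → ∃ β, mm β γ ∧ mm (pr β j) f)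
    inferInstance fun S S' h p ⟨γ, k, h1, h2, h3, h4⟩ => ⟨γ, k, h1, h2,
      fun β h5 => (h3 β h5).imp fun _ => .imp_left (h _),
      fun j h5 => (h4 j h5).imp fun _ => .imp_right (h _)⟩
  have h4 : ∀ j k, mm (pr j (nu k)) e ↔ ∃ i, wr W i k ∧ nu i = j := fun j k => by
    simp [he _]
  have h5 : ∀ k γ, mm (pr γ (nu k)) f ↔ γ = o (typein (wr W) k) := fun k => by
    induction k using (IsWellFounded.wf (r := wr W)).induction with
    | _ k ih =>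
      intro γ
      rw [hf]
      refine ⟨?_, ?_⟩
      · rintro ⟨-, _, _, a1, -, a2, a3⟩
        obtain ⟨rfl, rfl⟩ := pr_inj.1 a1
        refine ext' fun β => (Iff.trans ⟨fun h => ?_, ?_⟩ (h3 _ _).symm)
        · obtain ⟨_, a4, a5⟩ := a2 β h
          obtain ⟨j, a6, rfl⟩ := (h4 _ _).1 a5
          exact ⟨j, a6, ((ih j a6 _).1 a4).symm⟩
        · rintro ⟨j, a4, rfl⟩
          obtain ⟨β, a5, a6⟩ := a3 _ (he.nu.2 a4)
          exact (ih j a4 _).1 a6 ▸ a5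
      · rintro rfl
        refine ⟨ha k, _, _, rfl, mm_om.2 ⟨k, rfl⟩, fun β h => ?_, fun j h => ?_⟩
        · obtain ⟨j, a1, rfl⟩ := (h3 _ _).1 h
          exact ⟨_, (ih j a1 _).2 rfl, he.nu.2 a1⟩
        · obtain ⟨j, a1, rfl⟩ := (h4 _ _).1 h
          exact ⟨_, (h3 _ _).2 ⟨j, a1, rfl⟩, (ih j a1 _).2 rfl⟩
  have h6 : ∀ p, mm p f ↔ ∃ k, pr (o (typein (wr W) k)) (nu k) = p := fun p => ⟨fun h => by
    obtain ⟨-, γ, _, rfl, a1, -⟩ := (hf p).1 h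
    obtain ⟨k, rfl⟩ := mm_om.1 a1
    exact ⟨k, (h5 k γ).1 h ▸ rfl⟩, fun ⟨k, h⟩ => h ▸ (h5 k _).2 rfl⟩
  have h7 := od_iff.1 (show Od (o (type (wr W))) from ZFSet.isOrdinal_toZFSet _)
  refine ⟨o _, ⟨h7.1, h7.2, f, (funOn_iff (i := fun k => o (typein (wr W) k))
    (fun _ _ h => typein_injective _ (h2 _ _ h)) fun x => (h1 _ _).trans ⟨?_, ?_⟩).2
    ⟨nu, fun k => mm_om.2 ⟨k, rfl⟩, h6⟩, fun x y c a1 a2 => ?_⟩, rank_toZFSet _⟩
  · rintro ⟨μ, a1, rfl⟩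
    obtain ⟨j, rfl⟩ := typein_surj _ a1
    exact ⟨j, rfl⟩
  · rintro ⟨j, rfl⟩
    exact ⟨_, typein_lt_type _ j, rfl⟩
  · obtain ⟨k, a3⟩ := (h6 _).1 (app_iff.1 a1)
    obtain ⟨rfl, rfl⟩ := pr_inj.1 a3
    exact ((h5 _ _).1 (app_iff.1 a2)).symm

end Pool.Agent.P.MP_b0885c_lc.In
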