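import Pool.Agent.P.MP_b0885c_lc.IM1

namespace Pool.Agent.P.MP_b0885c_lc.In

open Set Encodable Un Ordinal Filter
open Pool.Agent.Lib.PosetForcing hiding Fml Sat
open Denumerable (ofNat)

set_option synthInstance.maxSize 4096

attribute [-simp] Subtype.exists Subtype.forall encode_prod_val

/-- labels of atomic formulas -/
def l0 (j : Jt) (c : ℕ) : Prop :=
  (List.casesOn (ofNat (List ℕ) c.unpair.1) j fun _ _ => (5, (0, []), []) : Jt) =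
    ofNat _ c.unpair.2

/-- the relations on numbers in use -/
def rr : ℕ → ℕ → ℕ → ℕ → Prop
  | 0, m, s, _ => s = encode (ofNat ((ℕ × List ℕ) × List ℕ) m).1
  | 1, m, i, b => (ofNat ((ℕ × List ℕ) × List ℕ) m).2[i]? = some b
  | 2, a, b, c => c = a.pair b
  | 3, c, i, b => ∃ l : List Bool, encode l = c ∧ i < l.length ∧ (l.getD i true = true ↔ b = 0)
  | 4, c, _, _ => ∃ l : List Bool, encode l = c
  | 5, c, a, b => l0 (0, (0, []), [a, b]) c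
  | 6, c, m, _ => l0 (1, ofNat _ m) c
  | 7, c, t, n => ofNat (List ℕ) c.unpair.1 = [] ∧
      ((t, (0, []), if t = 4 then [n] else []) : Jt) = ofNat _ c.unpair.2
  | 8, c, k, c' => ∃ u, ofNat (List ℕ) c.unpair.1 = k :: u ∧ c' = (encode u).pair c.unpair.2
  | _, _, _, _ => True

/-- the label relation -/
def lb {n : ℕ} (φ : Fml LT n) (c : ℕ) : Prop := φ.lab (ofNat _ c.unpair.1) = ofNat _ c.unpair.2

theorem lb_sub {n m k c c' : ℕ} {φ : Fml LT n} {ψ : Fml LT m}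
    (h : ∀ u, φ.lab (k :: u) = ψ.lab u) (h1 : rr 8 c k c') : lb φ c ↔ lb ψ c' := by
  obtain ⟨u, h1, rfl⟩ := h1
  simp [lb, h1, h]

theorem ex_r8 (k c' : ℕ) : ∃ c, rr 8 c k c' :=
  ⟨(encode (k :: ofNat (List ℕ) c'.unpair.1)).pair c'.unpair.2, _,
    by rw [Nat.unpair_pair, Denumerable.ofNat_encode], by simp⟩

theorem lb_step {n m t c : ℕ} {φ : Fml LT n} {ψ : ℕ → Fml LT m}
    (h0 : φ.lab [] = (t, (0, []), if t = 4 then [n] else []))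
    (h : ∀ k u, φ.lab (k :: u) = (ψ k).lab u) :
    lb φ c ↔ rr 7 c t n ∨ ∃ k c', rr 8 c k c' ∧ lb (ψ k) c' := by
  rcases hu : ofNat (List ℕ) c.unpair.1 with _ | ⟨k, u⟩
  · simp [rr, lb, hu, h0]
  · simp [rr, lb, hu, h]

theorem lab_inj {n : ℕ} {φ ψ : Fml LT n} (h : φ.lab = ψ.lab) : φ = ψ := by
  have h0 := congrFun h []
  induction φ with
  | eq =>
    cases ψ <;> simp [Fml.lab] at h0
    rw [vr_inj h0.1, vr_inj h0.2]
  | rel =>
    cases ψ <;> simp [Fml.lab] at h0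
    obtain ⟨rfl, h1⟩ := h0
    obtain rfl : _ = _ := by simpa using congrArg List.length h1
    rw [funext fun i => vr_inj (congrFun (List.ofFn_injective h1) i)]
  | neg φ ih =>
    cases ψ <;> simp [Fml.lab] at h0
    have := funext fun u => congrFun h (0 :: u)
    rw [ih this (congrFun this [])]
  | conj f ih =>
    cases ψ <;> simp [Fml.lab] at h0
    have := fun k => funext fun u => congrFun h (k :: u)
    rw [funext fun k => ih k (this k) (congrFun (this k) [])]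
  | all φ ih =>
    cases ψ <;> simp [Fml.lab] at h0
    have := funext fun u => congrFun h (0 :: u)
    rw [ih this (congrFun this [])]

theorem lb_inj {n : ℕ} {φ ψ : Fml LT n} (h : ∀ c, lb φ c ↔ lb ψ c) : φ = ψ :=
  lab_inj (funext fun u => by
    have := h ((encode u).pair (encode (φ.lab u)))
    simp only [lb, Nat.unpair_pair, Denumerable.ofNat_encode, true_iff] at this
    exact this.symm)

/-- rich families -/
class Rich (Z : Zt) : Prop where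
  out : ∀ i, rr i ∈ range Z

theorem cf_rich : ∀ᶠ Z in Cf, Rich Z :=
  (eventually_countable_forall.2 fun i => cf_mem (rr i)).mono fun _ h => ⟨fun i => (h i).out⟩

variable {Z : Zt}

theorem nu_eq (n : ℕ) : (nu n : MT Z) = MP_b0885c_lc.nu n := Subtype.ext (ι_nu (U := MT Z) n)

theorem nr_iff' {r : ℕ → ℕ → ℕ → Prop} {a b c : MT Z} :
    NR r a b c ↔ ∃ i j l, nu i = a ∧ nu j = b ∧ nu l = c ∧ r i j l := by
  simp only [nu_eq, nr_iff]

variable [Rich Z]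

instance (i : ℕ) : Fact (rr i ∈ range Z) := ⟨Rich.out i⟩

instance : Fact ((fun _ _ _ => True) ∈ range Z) := ⟨Rich.out 9⟩

theorem reals_iff {X : Rr} : Reals (MM Z) X ↔ ∃ z : MT Z, ∀ n, mm (nu n) z ↔ X n = true := by
  simp only [nu_eq]
  exact ⟨Reals.elt, fun ⟨z, h⟩ => reals_of (· ∈ z) h⟩

omit [Rich Z] in
theorem ex_real (P : MT Z → Prop) [DM fun v => P (v 0)] :
    ∃ z : MT Z, ∀ n, mm (nu n) z ↔ P (nu n) :=
  (sep' oo P).imp fun _ h n => (h _).trans (and_iff_right (mm_om.2 ⟨n, rfl⟩))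

variable (Z) in
theorem m_at : ∃ A : MT Z, ∀ a p, mm (pr a p) A ↔ ∃ m, nu m = a ∧ atm m = p := by
  obtain ⟨a, ha⟩ := sup' fun m => (pr (nu m) (atm m) : MT Z)
  obtain ⟨A, hA⟩ := sep' a fun x => ∃ m s t, x = pr m (pr s t) ∧ NR (rr 0) m s s ∧
    ∀ q, mm q t ↔ ∃ i b, q = pr i b ∧ NR (rr 1) m i b
  have key : ∀ m (t : MT Z), (∀ q, mm q t ↔ ∃ i b, q = pr i b ∧ NR (rr 1) (nu m) i b) ↔
      t = tu (ofNat ((ℕ × List ℕ) × List ℕ) m).2.get := fun m t => by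
    rw [← eq_iff]
    refine forall_congr' fun q => iff_congr .rfl ?_
    simp only [mm_tu, nr_iff', nu_inj, rr, List.getElem?_eq_some_iff]
    exact ⟨by rintro ⟨_, _, rfl, _, i, _, rfl, rfl, rfl, h, rfl⟩; exact ⟨⟨i, h⟩, rfl⟩,
      fun ⟨i, h⟩ => ⟨_, _, h.symm, _, _, _, rfl, rfl, rfl, i.2, rfl⟩⟩
  refine ⟨A, fun x p => (hA _).trans ⟨?_, ?_⟩⟩
  · rintro ⟨-, _, _, t, h1, h2, h3⟩
    obtain ⟨rfl, rfl⟩ := pr_inj.1 h1
    obtain ⟨m, _, _, rfl, rfl, -, rfl⟩ := nr_iff'.1 h2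
    exact ⟨m, rfl, by rw [(key _ _).1 h3, atm]⟩
  · rintro ⟨m, rfl, rfl⟩
    exact ⟨ha m, _, _, _, rfl, nr_iff'.2 ⟨_, _, _, rfl, rfl, rfl, rfl⟩, (key _ _).2 rfl⟩

theorem m_st (X : Rr) : Reals (MM Z) X ↔ ∃ D : MT Z, St D X := by
  obtain ⟨A, hA⟩ := m_at Z
  refine reals_iff.trans ⟨fun ⟨z, h⟩ => ?_, fun ⟨D, h⟩ => ?_⟩
  · obtain ⟨a, ha⟩ := sup' fun m => (atm m : MT Z)
    refine (sep' a fun p => ∃ m, mm m z ∧ mm (pr m p) A).imp fun D h1 p => (h1 p).trans ⟨?_, ?_⟩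
    · rintro ⟨-, _, h2, h3⟩
      obtain ⟨m, rfl, rfl⟩ := (hA _ _).1 h3
      exact ⟨m, (h m).1 h2, rfl⟩
    · rintro ⟨m, h2, rfl⟩
      exact ⟨ha m, _, (h m).2 h2, (hA _ _).2 ⟨m, rfl, rfl⟩⟩
  · exact (ex_real fun m => ∃ p, mm p D ∧ mm (pr m p) A).imp fun z h1 n => by
      simp [h1, hA, h.at]

theorem m_gr (W : Rr) : Reals (MM Z) W ↔ ∃ e : MT Z, Gr e W := by
  refine reals_iff.trans ⟨fun ⟨z, h⟩ => ?_, fun ⟨e, h⟩ => ?_⟩
  · obtain ⟨a, ha⟩ := sup' fun q : ℕ × ℕ => (pr (nu q.1) (nu q.2) : MT Z)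
    refine (sep' a fun p => ∃ x y c, p = pr x y ∧ NR (rr 2) x y c ∧ mm c z).imp fun D h1 p =>
      (h1 p).trans ⟨?_, ?_⟩
    · rintro ⟨-, _, _, _, rfl, h2, h3⟩
      obtain ⟨x, y, _, rfl, rfl, rfl, rfl⟩ := nr_iff'.1 h2
      exact ⟨x, y, (h _).1 h3, rfl⟩
    · rintro ⟨x, y, h2, rfl⟩
      exact ⟨ha (x, y), _, _, _, rfl, nr_iff'.2 ⟨_, _, _, rfl, rfl, rfl, rfl⟩, (h _).2 h2⟩
  · refine (ex_real fun c => ∃ x y, NR (rr 2) x y c ∧ mm (pr x y) e).imp fun z h1 n =>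
      (h1 n).trans ⟨?_, fun h2 => ⟨nu n.unpair.1, nu n.unpair.2, nr_iff'.2
        ⟨_, _, _, rfl, rfl, rfl, (Nat.pair_unpair n).symm⟩, h.nu.2 (by simpa [wr] using h2)⟩⟩
    rintro ⟨_, _, h2, h3⟩
    obtain ⟨x, y, _, rfl, rfl, h4, rfl⟩ := nr_iff'.1 h2
    exact nu_inj.1 h4 ▸ h.nu.1 h3

variable (Z) in
theorem m_lab : ∃ B : MT Z, ∀ n (φ : Fml LT n) x c, Hd φ x →
    (mm (pr x (pr (nu n) (nu c))) B ↔ lb φ c) := by
  obtain ⟨A, hA⟩ := m_at Z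
  obtain ⟨a, ha⟩ := sup_hd fun (q : ℕ × ℕ) (x : MT Z) => pr x (pr (nu q.1) (nu q.2))
  obtain ⟨B, hB⟩ := kt' a (fun B p => ∃ x n c, p = pr x (pr n c) ∧
    ((∃ a b, x = pr (nu 0) (pr a b) ∧ NR (rr 5) c a b) ∨
    (∃ y, x = pr (nu 1) y ∧ ∃ m, mm (pr m y) A ∧ NR (rr 6) c m m) ∨
    (∃ y, x = pr (nu 2) y ∧ (NR (rr 7) c (nu 2) n ∨
      ∃ k c', NR (rr 8) c k c' ∧ mm (pr y (pr n c')) B)) ∨
    (∃ f, x = pr (nu 3) f ∧ (NR (rr 7) c (nu 3) n ∨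
      ∃ k c', NR (rr 8) c k c' ∧ ∃ y, mm (pr k y) f ∧ mm (pr y (pr n c')) B)) ∨
    ∃ y, x = pr (nu 4) y ∧ (NR (rr 7) c (nu 4) n ∨
      ∃ k c', NR (rr 8) c k c' ∧ mm (pr y (pr (aj n n) c')) B))) inferInstance
    fun S S' h p => .imp fun _ => .imp fun _ => .imp fun _ => .imp_right (.imp_right (.imp_right
      (.imp (.imp fun _ => .imp_right (.imp_right (.imp fun _ => .imp fun _ => .imp_right (h _))))
      (.imp (.imp fun _ => .imp_right (.imp_right (.imp fun _ => .imp fun _ => .imp_right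
        (.imp fun _ => .imp_right (h _)))))
      (.imp fun _ => .imp_right (.imp_right (.imp fun _ => .imp fun _ => .imp_right (h _))))))))
  have h8 : ∀ c (P : MT Z → MT Z → Prop), (∃ k c', NR (rr 8) (nu c) k c' ∧ P k c') ↔
      ∃ k c', rr 8 c k c' ∧ P (nu k) (nu c') := fun c P => by
    simp only [nr_iff', nu_inj]
    exact ⟨by rintro ⟨_, _, ⟨_, k, c', rfl, rfl, rfl, h⟩, h'⟩; exact ⟨k, c', h, h'⟩,
      fun ⟨k, c', h, h'⟩ => ⟨_, _, ⟨_, k, c', rfl, rfl, rfl, h⟩, h'⟩⟩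
  have h7 : ∀ r i j l, NR r (nu i : MT Z) (nu j) (nu l) ↔ r i j l := by simp [nr_iff']
  refine ⟨B, fun n φ => ?_⟩
  induction φ with
  | eq t u =>
    intro x c h
    rw [hB, and_iff_right (ha (_, c) _ _ _ h), h.2]
    simp only [pr_inj]
    simp [and_assoc, h7, rr, l0, lb]
    cases ofNat (List ℕ) c.unpair.1 <;> rfl
  | rel r ts =>
    intro x c h
    rw [hB, and_iff_right (ha (_, c) _ _ _ h), h.2, ← atm_enc]
    simp only [pr_inj]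
    simp [hA, atm_inj.eq_iff, h7]
    simp only [rr, l0, lb, Denumerable.ofNat_encode]
    cases ofNat (List ℕ) c.unpair.1 <;> rfl
  | neg φ ih =>
    intro x c h
    rw [hB, and_iff_right (ha (_, c) _ _ _ h), lb_step (t := 2) (ψ := fun _ => φ) rfl fun _ _ => rfl]
    obtain ⟨-, y, rfl, h⟩ := h
    simp only [pr_inj]
    simp [h7, h8, ih y _ h]
  | conj f ih =>
    intro x c h
    rw [hB, and_iff_right (ha (_, c) _ _ _ h), lb_step (t := 3) (ψ := f) rfl fun _ _ => rfl]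
    obtain ⟨-, F, g, rfl, h1, h⟩ := h
    simp only [pr_inj]
    simp [h7, h8, h1.nu, fun k c => ih k _ c (h k)]
  | all φ ih =>
    intro x c h
    rw [hB, and_iff_right (ha (_, c) _ _ _ h), lb_step (t := 4) (ψ := fun _ => φ) rfl fun _ _ => rfl]
    obtain ⟨-, y, rfl, h⟩ := h
    simp only [nu] at ih
    simp only [pr_inj]
    simp [h7, h8, ih y _ h]

theorem m_hd {n : ℕ} (φ : Fml LT n) :
    (∃ z : MT Z, ∀ c, mm (nu c) z ↔ lb φ c) ↔ ∃ x : MT Z, Hd φ x := by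
  obtain ⟨B, hB⟩ := m_lab Z
  refine ⟨?_, fun ⟨x, h⟩ => (ex_real fun c => mm (pr x (pr (nu n : MT Z) c)) B).imp
    fun z h1 c => (h1 c).trans (hB _ _ _ _ h)⟩
  obtain ⟨S, hS, hS'⟩ := (m_ri (Z := Z)).syn
  obtain ⟨a, ha⟩ := sup_hd fun k (x : MT Z) => pr (nu k) x
  have key : ∀ {n m k : ℕ} {φ : Fml LT n} {ψ : Fml LT m}, (∀ u, φ.lab (k :: u) = ψ.lab u) →
      (∃ z : MT Z, ∀ c, mm (nu c) z ↔ lb φ c) → ∃ z : MT Z, ∀ c, mm (nu c) z ↔ lb ψ c := by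
    rintro n m k φ ψ h ⟨z, h1⟩
    refine (ex_real fun c' => ∃ c, NR (rr 8) c (nu k) c' ∧ mm c z).imp fun z h2 c' =>
      (h2 c').trans ⟨?_, fun h3 => ?_⟩
    · rintro ⟨_, h3, h4⟩
      obtain ⟨c, _, _, rfl, h5, h6, h7⟩ := nr_iff'.1 h3
      rw [nu_inj] at h5 h6
      exact (lb_sub h (h5 ▸ h6 ▸ h7)).1 ((h1 c).1 h4)
    · obtain ⟨c, h4⟩ := ex_r8 k c'
      exact ⟨_, nr_iff'.2 ⟨c, _, _, rfl, rfl, rfl, h4⟩, (h1 c).2 ((lb_sub h h4).2 h3)⟩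
  induction φ with
  | eq => exact fun _ => ⟨_, trivial, rfl⟩
  | rel => exact fun _ => ⟨_, trivial, rfl⟩
  | neg φ ih => exact fun h => let ⟨y, h⟩ := ih (key (k := 0) (fun _ => rfl) h); ⟨_, trivial, y, rfl, h⟩
  | all φ ih => exact fun h => let ⟨y, h⟩ := ih (key (k := 0) (fun _ => rfl) h); ⟨_, trivial, y, rfl, h⟩
  | @conj n f ih =>
    intro h
    choose g hg using fun k => ih k (key (k := k) (fun _ => rfl) h)
    obtain ⟨z, hz⟩ := h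
    obtain ⟨F, hF⟩ := sep' a fun p => ∃ k y, p = pr k y ∧ mm k oo ∧
      mm (pr (nu n : MT Z) y) S ∧
      ∀ c c', NR (rr 8) c k c' → (mm c z ↔ mm (pr y (pr (nu n : MT Z) c')) B)
    refine ⟨_, trivial, F, g, rfl, fun p => (hF p).trans ⟨?_, ?_⟩, hg⟩
    · rintro ⟨-, _, y, rfl, h1, h2, h3⟩
      obtain ⟨k, rfl⟩ := mm_om.1 h1
      obtain ⟨_, ψ, h4, h5⟩ := syn_ht hS _ _ h2
      obtain rfl := nu_inj.1 h4
      obtain rfl : ψ = f k := lb_inj fun c' => by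
        obtain ⟨c, h6⟩ := ex_r8 k c'
        rw [← hB _ _ _ _ h5.hd, ← h3 _ _ (nr_iff'.2 ⟨c, _, _, rfl, rfl, rfl, h6⟩), hz]
        exact lb_sub (fun _ => rfl) h6
      exact ⟨k, by rw [h5.uq (hg k)]⟩
    · rintro ⟨k, rfl⟩
      refine ⟨ha _ _ _ _ (hg k), _, _, rfl, mm_om.2 ⟨k, rfl⟩, hS' _ _ _ (hg k), fun c c' h => ?_⟩
      obtain ⟨c, _, c', rfl, h1, rfl, h2⟩ := nr_iff'.1 h
      obtain rfl := nu_inj.1 h1
      rw [hz, hB _ _ _ _ (hg _)]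
      exact lb_sub (fun _ => rfl) h2

theorem m_code {φ : Fml LT 0} : Reals (MM Z) φ.code ↔ ∃ x : MT Z, Hd φ x := by
  rw [← m_hd, reals_iff]
  simp only [Fml.code, decide_eq_true_iff, lb]

end Pool.Agent.P.MP_b0885c_lc.In
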