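import Pool.Agent.P.MP_b0885c_lc.IM2

namespace Pool.Agent.P.MP_b0885c_lc.In

open Set Encodable Un Ordinal Filter
open Pool.Agent.Lib.PosetForcing hiding Fml Sat

set_option synthInstance.maxSize 4096

attribute [-simp] Subtype.exists Subtype.forall

theorem branch_iff (Q D : Rr) : Branch Q D ↔ ∀ l : List Bool,
    (∀ i < l.length, D i = l.getD i true) → Q (encode l) = true :=
  ⟨fun h l h1 => (List.ext_getElem (by simp) fun i h2 _ => by simp [h1 i h2, h2] :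
    l = (List.range l.length).map D) ▸ h l.length, fun h n => h _ (by simp +contextual)⟩

theorem m_few {Z : Zt} [Rich Z] {P : MT Z → Prop} {ψ : Fml LT 0}
    (h : ∀ D X, St D X → (P D ↔ Mod ψ X)) (h1 : MP_b0885c_lc.Few (Reals (MM Z)) ψ) :
    Few mm oo P := by
  obtain ⟨S, h1, h2⟩ := h1
  obtain ⟨A, hA⟩ := m_at Z
  obtain ⟨z, hz⟩ := reals_iff.1 h1
  have h3 : ∀ k m, (∃ c, NR (rr 2) (nu k) (nu m) c ∧ mm c z) ↔ S (k.pair m) = true := by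
    simp [nr_iff', rr, hz]
  choose g hg using fun k : ℕ => (m_st fun m => S (k.pair m)).1 (reals_iff.2
    ((ex_real fun m => ∃ c, NR (rr 2) (nu k) m c ∧ mm c z).imp fun _ h m => (h m).trans (h3 k m)))
  have h4 : ∀ k d, (∀ q, mm q d ↔ ∃ m, mm (pr m q) A ∧ ∃ c, NR (rr 2) (nu k) m c ∧ mm c z) ↔
      d = g k := fun k d => by
    rw [← eq_iff]
    refine forall_congr' fun q => iff_congr .rfl ?_
    simp [hA, h3, hg k q]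
    simp only [and_comm]
  obtain ⟨a, ha⟩ := sup' fun k => pr (nu k) (g k)
  obtain ⟨F, hF⟩ := sep' a fun p => ∃ k d, p = pr k d ∧ mm k oo ∧
    ∀ q, mm q d ↔ ∃ m, mm (pr m q) A ∧ ∃ c, NR (rr 2) k m c ∧ mm c z
  have h5 : Sq F g := fun p => (hF p).trans ⟨by
    rintro ⟨-, _, d, rfl, h5, h6⟩
    obtain ⟨k, rfl⟩ := mm_om.1 h5
    exact ⟨k, (h4 k d).1 h6 ▸ rfl⟩, by
    rintro ⟨k, rfl⟩
    exact ⟨ha k, _, _, rfl, mm_om.2 ⟨k, rfl⟩, (h4 k _).2 rfl⟩⟩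
  refine ⟨F, sq_iff.2 ⟨g, fun k => str_iff.2 ⟨_, hg k⟩, h5⟩, fun D h6 h7 => ?_⟩
  obtain ⟨X, h8⟩ := str_iff.1 h6
  obtain ⟨n, h9⟩ := h2 X ((m_st X).2 ⟨D, h8⟩) ((h D X h8).1 h7)
  exact ⟨_, _, app_iff.2 (h5.nu.2 rfl), (isom_rel m_gr h8 (hg n)).2 h9⟩

theorem m_scat : ∀ᶠ Z in Cf, ∀ (P : MT Z → Prop) (ψ : Fml LT 0),
    (∀ D X, St D X → (P D ↔ Mod ψ X)) → Scat mm oo P → Scattered (Reals (MM Z)) ψ := by
  filter_upwards [cf_rich, eventually_countable_forall.2 fun N : ℕ =>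
    shoen (fun Y Q X _ (_ : Unit) => Branch Q Y ∧ (Branch Q X → Y ≠ X ∧ ∀ m < N, X m = Y m)) (by
      simp only [branch_iff, Ne, funext_iff]
      fun_prop)] with Z _ h0 P ψ h h1 ⟨Q, h2, h3, h4, h5⟩
  replace h0 : ∀ N X, Reals (MM Z) X → ∃ E : MT Z, ∃ Y, St E Y ∧ Branch Q Y ∧
      (Branch Q X → Y ≠ X ∧ ∀ m < N, X m = Y m) := fun N X hX => by
    obtain ⟨Y, a1, a2⟩ := h0 N Q X X h2 hX hX (by
      by_cases a1 : Branch Q X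
      · exact (near_branch h3 a1 N).imp fun _ a2 _ => ⟨a2.1, fun _ => a2.2⟩
      · exact (ex_branch h3 h3.1).imp fun _ a2 _ => ⟨a2.1, fun a3 => (a1 a3).elim⟩)
    exact ((m_st Y).1 a1).imp fun E a3 => ⟨Y, a3, a2 ()⟩
  obtain ⟨A, hA⟩ := m_at Z
  obtain ⟨z, hz⟩ := reals_iff.1 h2
  have : Small.{0} {D : MT Z // ∃ X, St D X} := small_of_injective
    (f := fun D => D.2.choose) fun D E e => Subtype.ext (D.2.choose_spec.uq'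
      ((show D.2.choose = E.2.choose from e) ▸ E.2.choose_spec))
  obtain ⟨a, ha, -⟩ := exists_sup fun D : {D : MT Z // ∃ X, St D X} => D.1
  obtain ⟨B, hB⟩ := sep' a fun D => IsStr mm oo D ∧ ∀ c, NR (rr 4) c c c → (∀ i b, NR (rr 3) c i b →
    ((∃ q, mm (pr i q) A ∧ mm q D) ↔ b = nu 0)) → mm c z
  have h6 : ∀ D, mm D B ↔ ∃ X, St D X ∧ Branch Q X := fun D => by
    have : ∀ X, St D X → ((∀ c, NR (rr 4) c c c → (∀ i b, NR (rr 3) c i b →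
        ((∃ q, mm (pr i q) A ∧ mm q D) ↔ b = nu 0)) → mm c z) ↔ Branch Q X) := fun X hX => by
      have a0 : ∀ i, (∃ q, mm (pr (nu i) q) A ∧ mm q D) ↔ X i = true := by simp [hA, hX.at]
      refine .trans ⟨fun a1 l a2 => (hz _).1 (a1 _ (nr_iff'.2 ⟨_, _, _, rfl, rfl, rfl, l, rfl⟩)
        fun i b a3 => ?_), fun a1 c a2 a3 => ?_⟩ (branch_iff Q X).symm
      · obtain ⟨_, i, b, a4, rfl, rfl, l', rfl, a5, a6⟩ := nr_iff'.1 a3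
        obtain rfl := encode_injective (nu_inj.1 a4)
        rw [a0, a2 i a5, a6, nu_inj]
      · obtain ⟨_, _, _, rfl, -, -, l, rfl⟩ := nr_iff'.1 a2
        refine (hz _).2 (a1 l fun i a4 => Bool.eq_iff_iff.2 ?_)
        rw [← a0, a3 _ (nu (if l.getD i true then 0 else 1))
          (nr_iff'.2 ⟨_, _, _, rfl, rfl, rfl, l, rfl, a4, by simp⟩)]
        simp
    rw [hB, str_iff]
    exact ⟨fun ⟨_, ⟨X, a1⟩, a2⟩ => ⟨X, a1, (this X a1).1 a2⟩, fun ⟨X, a1, a2⟩ =>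
      ⟨ha ⟨D, X, a1⟩, ⟨X, a1⟩, (this X a1).2 a2⟩⟩
  have h7 : ∀ E, mm E B → IsStr mm oo E := fun E a1 => ((hB E).1 a1).2.1
  refine h1 ⟨B, ?_, fun D => ⟨fun a1 => ⟨h7 D a1, ?_⟩, fun ⟨a1, a2⟩ => ?_⟩, fun D a1 => ?_,
    fun D E a1 a2 a3 => ?_⟩
  · obtain ⟨E, Y, a1, a2, -⟩ := h0 0 Q h2
    exact ⟨E, (h6 E).2 ⟨Y, a1, a2⟩⟩
  · obtain ⟨X, a2, a3⟩ := (h6 D).1 a1
    refine (lim_iff h7 a2).2 fun N => ?_
    obtain ⟨E, Y, a4, a5, a6⟩ := h0 N X ((m_st X).2 ⟨D, a2⟩)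
    exact ⟨E, Y, (h6 E).2 ⟨Y, a4, a5⟩, a4, a6 a3⟩
  · obtain ⟨X, a3⟩ := str_iff.1 a1
    refine (h6 D).2 ⟨X, a3, fun N => ?_⟩
    obtain ⟨E, Y, a4, a5, -, a6⟩ := (lim_iff h7 a3).1 a2 N
    obtain ⟨Y', a7, a8⟩ := (h6 E).1 a4
    rw [List.map_congr_left fun m hm => a6 m (List.mem_range.1 hm), a5.uq a7]
    exact a8 N
  · obtain ⟨X, a2, a3⟩ := (h6 D).1 a1
    exact (h D X a2).2 (h4 X ((m_st X).2 ⟨D, a2⟩) a3)
  · obtain ⟨X, a4, a5⟩ := (h6 D).1 a1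
    obtain ⟨Y, a6, a7⟩ := (h6 E).1 a2
    exact a4.uq' (h5 X Y ((m_st X).2 ⟨D, a4⟩) ((m_st Y).2 ⟨E, a6⟩) a5 a7
      ((isom_rel m_gr a4 a6).1 a3) ▸ a6)

theorem m_unb : ∀ᶠ Z in Cf, ∀ (P : MT Z → Prop) (ψ : Fml LT 0),
    (∀ D X, St D X → (P D ↔ Mod ψ X)) → (Unb mm oo P ↔ Unbdd (Reals (MM Z)) ψ) := by
  classical
  filter_upwards [cf_rich, shoen (fun W V _ _ (s : ℕ → ℕ) => WO W s ∧
    ∀ n, V n = true → W n = true) (by unfold WO wr; fun_prop)] with Z _ h0 P ψ h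
  refine ⟨fun h1 W h2 _ => ?_, fun h1 α ⟨h2, h3, f, h4, h5⟩ => ?_⟩
  · obtain ⟨e, h3⟩ := (m_gr W).1 h2
    obtain ⟨α, h4, h5⟩ := m_ord h3
    obtain ⟨D, h6, h7, h8⟩ := h1 α h4
    obtain ⟨X, h9⟩ := str_iff.1 h6
    exact ⟨X, (m_st X).2 ⟨D, h9⟩, (h D X h9).1 h7, h5 ▸
      (rank_iff' (od_iff.2 ⟨h4.1, h4.2.1⟩) h9 (m_tab D α)).1 h8⟩
  have hα := od_iff.2 ⟨h2, h3⟩
  simp only [IsFun, IsFunOn, app_iff, mm_om] at h4 h5
  obtain ⟨z, hz⟩ := ex_real fun c => ∃ a b, NR (rr 2) a b c ∧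
    ∃ x y, mm x y ∧ mm (pr x a) f ∧ mm (pr y b) f
  have h6 : ∀ a b, wr (fun n => decide (mm (nu n) z)) a b ↔
      ∃ x y, mm x y ∧ mm (pr x (nu a)) f ∧ mm (pr y (nu b)) f := by
    simp [wr, hz, nr_iff', rr]
  have h7 : ∀ a, ∃ ρ, ∀ x, mm (pr x (nu a)) f → rk x = ρ := fun a => by
    by_cases a1 : ∃ x, mm (pr x (nu a)) f
    · obtain ⟨x, a1⟩ := a1
      exact ⟨rk x, fun y a2 => by rw [h5 _ _ _ a1 a2]⟩
    · exact ⟨0, fun x a2 => (a1 ⟨x, a2⟩).elim⟩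
  choose ρ h7 using h7
  have : IsWellFounded ℕ (wr fun n => decide (mm (nu n) z)) := ⟨Subrelation.wf (fun {a b} a1 => by
    obtain ⟨x, y, a2, a3, a4⟩ := (h6 a b).1 a1
    exact show ρ a < ρ b from h7 a x a3 ▸ h7 b y a4 ▸ rk_mm a2) (InvImage.wf ρ wellFounded_lt)⟩
  obtain ⟨s, h8, h9⟩ := IsWellFounded.exists_well_order_ge (wr fun n => decide (mm (nu n) z))
  have hz' : Reals (MM Z) fun n => decide (mm (nu n) z) := reals_iff.2 ⟨z, by simp⟩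
  obtain ⟨W, a1, a2⟩ := h0 _ _ _ hz' hz' hz' ⟨fun n => decide (s n.unpair.1 n.unpair.2), fun u =>
    ⟨wo_iff.1 ((by funext a b; simp : s = wr fun n => decide (s n.unpair.1 n.unpair.2)) ▸ h9) u,
      fun n a1 => decide_eq_true (h8 _ _ (by simpa [wr] using a1))⟩⟩
  have := wo_iff.2 fun u => (a2 u).1
  obtain ⟨X, a3, a4, a5⟩ := h1 W a1 this
  obtain ⟨D, a6⟩ := (m_st X).1 a3
  have a7 : ∀ x, mm x α → ∃ a, mm (pr x (nu a)) f := fun x a7 => by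
    obtain ⟨y, a8⟩ := h4.2.1 x a7
    obtain ⟨_, _, a9, -, a, rfl⟩ := h4.1 _ a8
    exact ⟨a, (pr_inj.1 (pair_iff.1 a9)).2 ▸ a8⟩
  have a8 : ∀ x, mm x α → ∀ a, mm (pr x (nu a)) f → rk x ≤ typein (wr W) a := fun x => by
    induction x using rk_ind with
    | h x ih =>
      refine fun b1 a b2 => le_of_forall_lt fun μ b3 => ?_
      obtain ⟨y, b4, rfl⟩ := (hα.mem b1).ex b3
      obtain ⟨b, b5⟩ := a7 y (h2 _ _ b1 b4)
      exact (ih y b3 (h2 _ _ b1 b4) b b5).trans_lt ((typein_lt_typein _).2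
        ((a2 id).2 _ ((h6 b a).2 ⟨y, x, b4, b5, b2⟩)))
  refine ⟨D, str_iff.2 ⟨X, a6⟩, (h D X a6).2 a4, (rank_iff' hα a6 (m_tab D α)).2
    ((le_of_forall_lt fun μ b1 => ?_).trans a5)⟩
  obtain ⟨x, b2, rfl⟩ := hα.ex b1
  obtain ⟨a, b3⟩ := a7 x b2
  exact (a8 x b2 a b3).trans_lt (typein_lt_type _ a)

theorem final3 {p : Zt → Prop} (hp : ∀ᶠ Z in Cf, p Z) : ∃ Z, p Z ∧
    (∃ T, MinTheory (Reals (MM Z)) T ∧ ∀ φ : Fml LT 0, Reals (MM Z) φ.code →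
      Scattered (Reals (MM Z)) (T.and φ) → MP_b0885c_lc.Few (Reals (MM Z)) (T.and φ)) ∧
    (Counter (Reals (MM Z)) → Counter fun _ => True) := by
  obtain ⟨q, hq⟩ := cf_seq ((hp.and (cf_mem fun _ _ _ => True)).and (((ub_abs True).and
    (ub_abs False)).and (sc_abs.and (few_abs.and and_mem))))
  obtain ⟨T, Z, h1, h2, h3, h4, h0⟩ := main2 q
  obtain ⟨⟨h11, h5⟩, ⟨h6, h7⟩, h8, h9, h10⟩ := hq Z h1
  have : Fact ((fun i _ _ => T.code i = true) ∈ range Z) := ⟨h2⟩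
  have hT : Reals (MM Z) T.code :=
    reals_of (fun x => NR (fun i _ _ => T.code i = true) x x x) (by simp)
  refine ⟨Z, h11, ⟨T, ⟨hT, fun φ hφ => ?_⟩, fun φ a1 a2 =>
    h9 _ (h10 T φ hT a1) (h0 φ (h8 _ (h10 T φ hT a1) a2))⟩, fun ⟨ψ, a1, a2, a3⟩ =>
    ⟨ψ, trivial, h8 ψ a1 a2, fun a4 => a3 (h9 ψ a1 a4)⟩⟩
  have e1 : Unbdd (Reals (MM Z)) (T.and φ) ↔ UB (fun _ => True) T φ True := by
    rw [← h6 T φ hT hφ]
    simp only [Unbdd, UB, Mod, sat_and, iff_true]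
  have e2 : Unbdd (Reals (MM Z)) (T.and φ.neg) ↔ UB (fun _ => True) T φ False := by
    rw [← h7 T φ hT hφ]
    simp only [Unbdd, UB, Mod, sat_and, iff_false, Fml.Sat]
  obtain ⟨α, a1, p, a2⟩ := h4 φ hφ
  have key : ∀ p', UB (fun _ => True) T φ p' ↔ (p ↔ p') := fun p' => by
    refine ⟨fun h => ?_, fun h W _ hW => ?_⟩
    · obtain ⟨W, hW, a3⟩ := exists_wo a1
      obtain ⟨D, -, ⟨a4, a5⟩, a6⟩ := h W trivial hW
      exact (a2 _ a4 (a3.trans a6)).symm.trans a5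
    · obtain ⟨M, _, _, _, a3, a4⟩ := h3 _ (max_lt a1 (lt_w1_iff.2 (show (type (wr W)).card ≤ _ by
        simp)))
      obtain ⟨D, ⟨e⟩⟩ := exists_str M
      rw [← sr_iso e, max_le_iff] at a4
      rw [← sat_iso e] at a3
      exact ⟨D, trivial, ⟨a3, (a2 _ a3 a4.1).trans h⟩, a4.2⟩
  rw [e1, e2, key, key]
  by_cases p <;> simp [*]

theorem final4 : ∃ Z : Zt, IsZFC (mm (U := MT Z)) ∧
    (∃ T : MT Z, In.Minimal mm oo T ∧ ∀ φ, Sent mm oo φ →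
      Scat mm oo (fun D => Models mm oo T D ∧ Models mm oo φ D) →
      Few mm oo fun D => Models mm oo T D ∧ Models mm oo φ D) ∧
    (Cex (mm (U := MT Z)) oo → Cex (mm (U := ZFSet.{0})) oo) := by
  obtain ⟨Z, ⟨_, h1, h2⟩, ⟨T, ⟨h3, h4⟩, h5⟩, h6⟩ := final3 (cf_rich.and (m_scat.and m_unb))
  obtain ⟨x, hx⟩ := m_code.1 h3
  have key : ∀ {φ : Fml LT 0} {y : MT Z}, Hd φ y → ∀ D X, St D X →
      (Models mm oo x D ∧ Models mm oo y D ↔ Mod (T.and φ) X) := fun h D X h' =>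
    (and_congr (models_iff m_ri h' hx) (models_iff m_ri h' h)).trans sat_and.symm
  refine ⟨Z, isZFC, ⟨x, ⟨(sent_iff m_ri).2 ⟨T, hx⟩, fun y hy => ?_⟩, fun y hy a1 => ?_⟩,
    fun ⟨y, hy, a1, a2⟩ => v_cex (h6 ?_)⟩ <;> obtain ⟨φ, hφ⟩ := (sent_iff m_ri).1 hy
  · rw [h2 _ _ (key hφ), h2 _ (T.and φ.neg) fun D X h => (and_congr (models_iff m_ri h hx)
      (not_congr (models_iff m_ri h hφ))).trans (sat_and (ψ := φ.neg)).symm]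
    exact h4 φ (m_code.2 ⟨y, hφ⟩)
  · exact m_few (key hφ) (h5 φ (m_code.2 ⟨y, hφ⟩) (h1 _ _ (key hφ) a1))
  · have := fun D X h => models_iff (D := D) (X := X) m_ri h hφ
    exact ⟨φ, m_code.2 ⟨y, hφ⟩, h1 _ _ this a1, fun a3 => a2 (m_few this a3)⟩

end Pool.Agent.P.MP_b0885c_lc.In
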