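import Pool.Agent.P.MP_b0885c_lc.IM3

namespace Pool.Agent.P.MP_b0885c_lc.In

open Set Encodable Un Ordinal
open Pool.Agent.Lib.PosetForcing hiding Fml Sat

theorem v_tab {D α : ZFSet.{0}} {X : Rr} (hα : Od α) (hD : St D X) : ∃ B, Tab D α B := by
  let B := ZFSet.range fun q : {q : α × Σ n, (Fin n → ℕ) × (Fin n → ℕ) //
    bf X X (rk q.1.1) _ q.2.2.1 q.2.2.2} => pr q.1.1.1 (pr (tu q.1.2.2.1) (tu q.1.2.2.2))
  have h : ∀ γ, mm γ α → (fun _ a b => At mm B γ (tu a) (tu b)) = bf X X (rk γ) := fun γ h1 => by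
    funext n a b
    refine propext (at_iff.trans (ZFSet.mem_range.trans
      ⟨?_, fun h2 => ⟨⟨⟨⟨γ, h1⟩, n, a, b⟩, h2⟩, rfl⟩⟩))
    rintro ⟨⟨⟨⟨γ', h2⟩, m, a', b'⟩, h3⟩, h4⟩
    replace h4 : pr γ' (pr (tu a') (tu b')) = pr γ (pr (tu a) (tu b)) := h4
    simp only [pr_inj] at h4
    obtain ⟨rfl, h4, h5⟩ := h4
    obtain rfl : m = n := tu_len h4
    obtain rfl : a' = a := tu_inj h4
    obtain rfl : b' = b := tu_inj h5
    exact h3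
  refine ⟨B, fun γ n a b h1 h2 h3 h4 => ?_⟩
  obtain ⟨n, rfl⟩ := mm_om.1 h2
  obtain ⟨a, rfl⟩ := fun_om.1 h3
  obtain ⟨b, rfl⟩ := fun_om.1 h4
  refine (iff_of_eq (congrFun (congrFun (congrFun (h γ h1) n) a) b)).trans ?_
  rw [same_iff hD, bf, bfe_iff, ae_iff]
  refine and_congr_right fun _ => ⟨fun h2 β hβ => ?_, fun h2 μ hμ => ?_⟩
  · rw [step_iff, h β (hα.mem_trans hβ h1)]
    exact h2 _ (rk_mm hβ)
  · obtain ⟨β, h3, rfl⟩ := (hα.mem h1).ex hμ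
    have := step_iff.1 (h2 β h3)
    rwa [h β (hα.mem_trans h3 h1)] at this

theorem v_ord {α : ZFSet.{0}} : CtOrd mm oo α ↔ Od α ∧ rk α < w1 := by
  refine ⟨fun ⟨h1, h2, f, h3, h4⟩ => ?_, fun ⟨h1, h2⟩ => ?_⟩
  · have hα := od_iff.2 ⟨h1, h2⟩
    refine ⟨hα, lt_w1_iff.2 ?_⟩
    have : ∀ μ : Iio (rk α), ∃ n γ, rk γ = μ ∧ App mm f γ (nu n) := fun μ => by
      obtain ⟨γ, a1, a2⟩ := hα.ex μ.2
      obtain ⟨y, a3⟩ := h3.2.1 γ a1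
      obtain ⟨_, _, a4, -, a5⟩ := h3.1 _ (app_iff.1 a3)
      obtain ⟨n, rfl⟩ := mm_om.1 a5
      exact ⟨n, γ, a2, (pr_inj.1 (pair_iff.1 a4)).2 ▸ a3⟩
    choose n γ a1 a2 using this
    have : Countable (Iio (rk α)) := Function.Injective.countable (f := n) fun μ ν e =>
      Subtype.ext (by rw [← a1, ← a1, h4 _ _ _ (a2 μ) (e ▸ a2 ν)])
    have := Cardinal.mk_le_aleph0 (α := Iio (rk α))
    rwa [Cardinal.mk_Iio_ordinal, Cardinal.lift_le_aleph0] at this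
  · have := (ctble_Iio h2).to_subtype
    have : Countable α := Function.Injective.countable
      (f := fun γ : α => (⟨rk γ.1, rk_mm γ.2⟩ : Iio (rk α))) fun γ δ e => Subtype.ext
        ((h1.mem γ.2).toZFSet_rank_eq.symm.trans ((congrArg toZFSet (congrArg Subtype.val e)).trans
          (h1.mem δ.2).toZFSet_rank_eq))
    obtain ⟨n, hn⟩ := Countable.exists_injective_nat α
    have h3 : ∀ p, mm p (ZFSet.range fun μ : α => pr μ.1 (nu (n μ))) ↔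
        ∃ μ : α, pr μ.1 (nu (n μ)) = p := fun _ => ZFSet.mem_range
    have h4 := od_iff.1 h1
    refine ⟨h4.1, h4.2, ZFSet.range fun μ : α => pr μ.1 (nu (n μ)), ?_, ?_⟩
    · simp only [IsFun, IsFunOn, app_iff, pair_iff, h3, pr_inj, mm_om]
      refine ⟨?_, fun x hx => ⟨_, ⟨x, hx⟩, rfl, rfl⟩, ?_⟩
      · rintro _ ⟨μ, rfl⟩
        exact ⟨_, _, rfl, μ.2, _, rfl⟩
      · rintro _ _ _ ⟨μ, rfl, rfl⟩ ⟨ν, e, rfl⟩
        rw [Subtype.ext e]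
    · simp only [app_iff, h3, pr_inj]
      rintro _ _ _ ⟨μ, rfl, rfl⟩ ⟨ν, rfl, e⟩
      rw [hn (nu_inj.1 e)]

variable {P : ZFSet.{0} → Prop} {ψ : Fml LT 0}

theorem v_unb (h : ∀ D X, St D X → (P D ↔ Mod ψ X)) :
    Unb mm oo P ↔ ∀ β < w1, ∃ X, Mod ψ X ∧ β ≤ SR LT (Str X) := by
  refine ⟨fun h1 β hβ => ?_, fun h1 α hα => ?_⟩
  · have a1 : Od β.toZFSet := ZFSet.isOrdinal_toZFSet β
    have a2 : rk β.toZFSet = β := β.rank_toZFSet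
    obtain ⟨D, a3, a4, a5⟩ := h1 _ (v_ord.2 ⟨a1, a2.symm ▸ hβ⟩)
    obtain ⟨X, a6⟩ := str_iff.1 a3
    exact ⟨X, (h D X a6).1 a4, a2 ▸ (rank_iff' a1 a6 (v_tab a1 a6)).1 a5⟩
  · obtain ⟨a1, a2⟩ := v_ord.1 hα
    obtain ⟨X, a3, a4⟩ := h1 _ a2
    obtain ⟨D, a5⟩ := v_st X
    exact ⟨D, str_iff.2 ⟨X, a5⟩, (h D X a5).2 a3, (rank_iff' a1 a5 (v_tab a1 a5)).2 a4⟩

theorem v_few : Few mm oo P ↔ ∃ S : ℕ → Rr, ∀ D X, St D X → P D →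
    ∃ n, Nonempty (LT.Equiv (Str X) (Str (S n))) := by
  have key : ∀ {D E : ZFSet.{0}} {X Y}, St D X → St E Y →
      (Isom mm oo D E ↔ Nonempty (LT.Equiv (Str X) (Str Y))) := fun a1 a2 =>
    (isom_rel v_gr a1 a2).trans ⟨fun ⟨e, _⟩ => ⟨e⟩, fun ⟨e⟩ => ⟨e, trivial⟩⟩
  refine ⟨fun ⟨F, a1, a2⟩ => ?_, fun ⟨S, a1⟩ => ?_⟩
  · obtain ⟨g, a3, a4⟩ := sq_iff.1 a1
    choose X a5 using fun k => str_iff.1 (a3 k)
    refine ⟨X, fun E Y a6 h => ?_⟩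
    obtain ⟨_, _, a7, a8⟩ := a2 E (str_iff.2 ⟨_, a6⟩) h
    obtain ⟨n, rfl, rfl⟩ := a4.pr.1 (app_iff.1 a7)
    exact ⟨n, (key a6 (a5 n)).1 a8⟩
  · choose g hg using fun k => v_st (S k)
    obtain ⟨F, hF⟩ := v_ran (fun k => pr (nu k) (g k)) fun _ => True
    have a2 : Sq F g := by simpa [Sq] using hF
    refine ⟨F, sq_iff.2 ⟨g, fun k => str_iff.2 ⟨_, hg k⟩, a2⟩, fun D a3 a4 => ?_⟩
    obtain ⟨X, a5⟩ := str_iff.1 a3
    obtain ⟨n, a6⟩ := a1 D X a5 a4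
    exact ⟨_, _, app_iff.2 (a2.nu.2 rfl), (key a5 (hg n)).2 a6⟩

theorem v_scat : Scat mm oo P ↔ ¬ ∃ Q, PerfectTree Q ∧ (∀ D X, St D X → Branch Q X → P D) ∧
    ∀ X Y, Branch Q X → Branch Q Y → Nonempty (LT.Equiv (Str X) (Str Y)) → X = Y := by
  have key : ∀ {D E : ZFSet.{0}} {X Y}, St D X → St E Y →
      (Isom mm oo D E ↔ Nonempty (LT.Equiv (Str X) (Str Y))) := fun a1 a2 =>
    (isom_rel v_gr a1 a2).trans ⟨fun ⟨e, _⟩ => ⟨e⟩, fun ⟨e⟩ => ⟨e, trivial⟩⟩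
  refine not_congr ⟨fun ⟨A, ⟨D, a1⟩, a2, a3, a4⟩ => ?_, fun ⟨Q, h1, h2, h3⟩ => ?_⟩
  · have a5 : ∀ E, mm E A → IsStr mm oo E := fun E h => ((a2 E).1 h).1
    have a6 : ∀ E Y, St E Y → (mm E A ↔ ∀ N, ∃ Y' ∈ {Y | ∃ E, mm E A ∧ St E Y}, Y' ≠ Y ∧
        ∀ m < N, Y m = Y' m) := fun E Y h => by
      rw [a2, lim_iff a5 h, and_iff_right (str_iff.2 ⟨_, h⟩)]
      exact forall_congr' fun N => ⟨fun ⟨E, Y, b1, b2, b3⟩ => ⟨Y, ⟨E, b1, b2⟩, b3⟩,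
        fun ⟨Y, ⟨E, b1, b2⟩, b3⟩ => ⟨E, Y, b1, b2, b3⟩⟩
    obtain ⟨X, a7⟩ := str_iff.1 (a5 D a1)
    obtain ⟨Q, b1, b2⟩ := ptree_of (A := {Y | ∃ E, mm E A ∧ St E Y}) ⟨X, D, a1, a7⟩
      fun Y ⟨E, b1, b2⟩ => (a6 E Y b2).1 b1
    have b3 : ∀ Y, Branch Q Y → ∃ E, mm E A ∧ St E Y := fun Y h => by
      by_contra h3
      obtain ⟨E, h4⟩ := v_st Y
      exact h3 ⟨E, (a6 E Y h4).2 fun N => (b2 Y h N).imp fun Y' h5 =>
        ⟨h5.1, fun e => h3 (e ▸ h5.1), h5.2⟩, h4⟩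
    refine ⟨Q, b1, fun E Y b4 h => ?_, fun Y Y' h h' b4 => ?_⟩
    · obtain ⟨E', b5, b6⟩ := b3 Y h
      exact b6.uq' b4 ▸ a3 E' b5
    · obtain ⟨E, b5, b6⟩ := b3 Y h
      obtain ⟨E', b7, b8⟩ := b3 Y' h'
      exact b6.uq (a4 E E' b5 b7 ((key b6 b8).2 b4) ▸ b8)
  · choose g hg using v_st
    obtain ⟨B, hB⟩ := v_ran g (Branch Q)
    have h6 : ∀ D, mm D B ↔ ∃ X, St D X ∧ Branch Q X := fun D => (hB D).trans
      (exists_congr fun X => ⟨fun a => ⟨a.2 ▸ hg X, a.1⟩, fun a => ⟨a.2, (hg X).uq' a.1⟩⟩)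
    have h7 : ∀ E, mm E B → IsStr mm oo E := fun E a1 =>
      str_iff.2 (((h6 E).1 a1).imp fun _ a => a.1)
    refine ⟨B, ?_, fun D => ⟨fun a1 => ⟨h7 D a1, ?_⟩, fun ⟨a1, a2⟩ => ?_⟩, fun D a1 => ?_,
      fun D E a1 a2 a3 => ?_⟩
    · obtain ⟨Y, a1, -⟩ := ex_branch h1 h1.1
      exact ⟨_, (h6 _).2 ⟨Y, hg Y, a1⟩⟩
    · obtain ⟨X, a2, a3⟩ := (h6 D).1 a1
      refine (lim_iff h7 a2).2 fun N => ?_
      obtain ⟨Y, a4, a5⟩ := near_branch h1 a3 N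
      exact ⟨_, Y, (h6 _).2 ⟨Y, hg Y, a4⟩, hg Y, a5⟩
    · obtain ⟨X, a3⟩ := str_iff.1 a1
      refine (h6 D).2 ⟨X, a3, fun N => ?_⟩
      obtain ⟨E, Y, a4, a5, -, a6⟩ := (lim_iff h7 a3).1 a2 N
      obtain ⟨Y', a7, a8⟩ := (h6 E).1 a4
      rw [List.map_congr_left fun m hm => a6 m (List.mem_range.1 hm), a5.uq a7]
      exact a8 N
    · obtain ⟨X, a2, a3⟩ := (h6 D).1 a1
      exact h2 D X a2 a3
    · obtain ⟨X, a4, a5⟩ := (h6 D).1 a1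
      obtain ⟨Y, a6, a7⟩ := (h6 E).1 a2
      exact a4.uq' (h3 X Y a5 a7 ((key a4 a6).1 a3) ▸ a6)

theorem branch_unc {Q : Rr} (h : PerfectTree Q) (Y : ℕ → Rr) : ∃ X, Branch Q X ∧ ∀ n, X ≠ Y n := by
  have step : ∀ n (c : {X // Branch Q X} × ℕ), ∃ c' : {X // Branch Q X} × ℕ, c.2 < c'.2 ∧
      (∀ m < c.2, c.1.1 m = c'.1.1 m) ∧ ∃ m < c'.2, c'.1.1 m ≠ Y n m := fun n c => by
    have : ∃ X, Branch Q X ∧ X ≠ Y n ∧ ∀ m < c.2, c.1.1 m = X m := by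
      by_cases a : c.1.1 = Y n
      · exact (near_branch h c.1.2 c.2).imp fun _ b => ⟨b.1, a ▸ b.2.1, b.2.2⟩
      · exact ⟨_, c.1.2, a, fun _ _ => rfl⟩
    obtain ⟨X, a1, a2, a3⟩ := this
    obtain ⟨m, a4⟩ := Function.ne_iff.1 a2
    exact ⟨(⟨X, a1⟩, max c.2 m + 1), Nat.lt_succ_of_le (le_max_left _ _), a3, m,
      Nat.lt_succ_of_le (le_max_right _ _), a4⟩
  choose F h1 h2 h3 using step
  obtain ⟨X, h4, -⟩ := ex_branch h h.1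
  let C : ℕ → {X // Branch Q X} × ℕ := fun n => Nat.rec (⟨X, h4⟩, 0) F n
  have h5 : StrictMono fun n => (C n).2 := strictMono_nat_of_lt_succ fun n => h1 n _
  have h6 : ∀ a b, a ≤ b → ∀ m < (C a).2, (C a).1.1 m = (C b).1.1 m := fun a b hab m hm => by
    induction hab with
    | refl => rfl
    | step a1 ih => exact ih.trans (h2 _ _ m (hm.trans_le (h5.monotone a1)))
  have h7 : ∀ a, ∀ m < (C a).2, (C (m + 1)).1.1 m = (C a).1.1 m := fun a m hm =>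
    (h6 (m + 1) _ (le_max_left _ a) m (h5.id_le (m + 1))).trans
      (h6 _ _ (le_max_right _ _) m hm).symm
  refine ⟨fun m => (C (m + 1)).1.1 m, fun n => ?_, fun n e => ?_⟩
  · rw [List.map_congr_left fun m hm => h7 n m ((List.mem_range.1 hm).trans_le h5.le_apply)]
    exact (C n).1.2 n
  · obtain ⟨m, a1, a2⟩ := h3 n (C n)
    exact a2 ((h7 (n + 1) m a1).symm.trans (congrFun e m))

theorem t_scat (h : Few (mm (U := ZFSet.{0})) oo P) : Scat mm oo P := by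
  obtain ⟨S, h⟩ := v_few.1 h
  refine v_scat.2 fun ⟨Q, h1, h2, h3⟩ => ?_
  have : ∀ n, ∃ Y, ∀ X, Branch Q X → Nonempty (LT.Equiv (Str X) (Str (S n))) → X = Y := fun n => by
    by_cases a : ∃ X, Branch Q X ∧ Nonempty (LT.Equiv (Str X) (Str (S n)))
    · obtain ⟨Y, a1, ⟨e⟩⟩ := a
      exact ⟨Y, fun X a2 ⟨e'⟩ => h3 X Y a2 a1 ⟨e.symm.comp e'⟩⟩
    · exact ⟨S n, fun X a1 a2 => (a ⟨X, a1, a2⟩).elim⟩
  choose Y hY using this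
  obtain ⟨X, a1, a2⟩ := branch_unc h1 Y
  obtain ⟨D, a3⟩ := v_st X
  obtain ⟨n, a4⟩ := h D X a3 (h2 D X a3 a1)
  exact a2 n (hY n X a1 a4)

theorem t_bdd (h : ∀ D X, St D X → (P D ↔ Mod ψ X)) (h1 : Few mm oo P) : ¬ Unb mm oo P := by
  obtain ⟨S, h1⟩ := v_few.1 h1
  choose γ a1 a2 using fun n => exists_Stab (S n)
  obtain ⟨b, a3, a4⟩ := exists_bound γ a1
  intro h2
  obtain ⟨X, a5, a6⟩ := (v_unb h).1 h2 b a3
  obtain ⟨D, a7⟩ := v_st X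
  obtain ⟨n, ⟨e⟩⟩ := h1 D X a7 ((h D X a7).2 a5)
  exact ((sr_iso e ▸ a6).trans (a2 n).sr_le).not_gt (a4 n)

theorem t_morley {x : ZFSet.{0}} (hx : Sent mm oo x) (h : Scat mm oo (Models mm oo x)) :
    Few mm oo (Models mm oo x) ↔ ¬ Unb mm oo (Models mm oo x) := by
  obtain ⟨φ, hφ⟩ := (sent_iff v_ri).1 hx
  have key := fun D X h => models_iff (D := D) (X := X) v_ri h hφ
  refine ⟨t_bdd key, fun h1 => ?_⟩
  rw [v_unb key] at h1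
  push Not at h1
  obtain ⟨β, a1, a2⟩ := h1
  obtain ⟨S, -, a3⟩ := few_of_stab (ψ := φ) (fun ⟨Q, _, b1, b2, b3⟩ => v_scat.1 h ⟨Q, b1,
    fun D X b4 b5 => (key D X b4).2 (b2 X trivial b5), fun X Y b4 b5 ⟨e⟩ =>
      b3 X Y trivial trivial b4 b5 ⟨e, trivial⟩⟩) a1 fun X b1 n a b b2 => by
    obtain ⟨γ, -, b3⟩ := exists_Stab X
    exact Stab.all (α := SR LT (Str X)) (csInf_mem (s := {α | Stab LT (Str X) α}) ⟨γ, b3⟩) _
      (b2.mono (a2 X b1).le)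
  exact v_few.2 ⟨fun n m => S (n.pair m), fun D X b1 b2 =>
    (a3 X trivial ((key D X b1).1 b2)).imp fun _ ⟨e, _⟩ => ⟨e⟩⟩

theorem t_many : ∃ x : ZFSet.{0}, Sent mm oo x ∧ ¬ Scat mm oo (Models mm oo x) ∧
    Unb mm oo (Models mm oo x) ∧ ¬ Few mm oo (Models mm oo x) := by
  obtain ⟨x, hx⟩ := v_hd (.all (.eq (.var 0) (.var 0)) : Fml LT 0)
  have key := fun D X h => models_iff (D := D) (X := X) v_ri h hx
  have h1 : Unb mm oo (Models mm oo x) := (v_unb key).2 fun β hβ => by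
    obtain ⟨T, Z, -, -, a1, -⟩ := main fun _ _ _ _ => True
    obtain ⟨M, _, _, _, -, a2⟩ := a1 β hβ
    obtain ⟨X, ⟨e⟩⟩ := exists_str M
    exact ⟨X, fun _ => rfl, sr_iso e ▸ a2⟩
  refine ⟨x, (sent_iff v_ri).2 ⟨_, hx⟩, fun h => ?_, h1, fun h => t_bdd key h h1⟩
  have h2 : ∀ σ τ : ℕ → Bool, Nonempty (LT.Equiv
      (Str fun m => σ (encode (Denumerable.ofNat ((ℕ × List ℕ) × List ℕ) m).1))
      (Str fun m => τ (encode (Denumerable.ofNat ((ℕ × List ℕ) × List ℕ) m).1))) → σ = τ :=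
    fun σ τ ⟨e⟩ => funext fun s => by
      obtain ⟨r, rfl⟩ := ex_sym s
      have := e.map_rel (n := 0) r Fin.elim0
      change _ = true ↔ _ = true at this
      simp only [Denumerable.ofNat_encode] at this
      exact Bool.eq_iff_iff.2 this.symm
  obtain ⟨Q, a1, a2⟩ := exists_ptree
    (H := fun σ m => σ (encode (Denumerable.ofNat ((ℕ × List ℕ) × List ℕ) m).1)) (by fun_prop)
    fun σ τ e => h2 σ τ (by beta_reduce at e; rw [e]; exact ⟨.refl _ _⟩)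
  refine v_scat.1 h ⟨Q, a1, fun D X b1 _ => (key D X b1).2 fun _ => rfl, fun X Y b1 b2 b3 => ?_⟩
  obtain ⟨σ, rfl⟩ := a2 X b1
  obtain ⟨τ, rfl⟩ := a2 Y b2
  rw [h2 σ τ b3]

theorem ex_cl {n : ℕ} (φ : Fml LT n) : ∃ χ : Fml LT 0, ∀ X, Mod χ X ↔
    ∀ v : Fin n → ℕ, φ.Sat (M := Str X) v := by
  induction n with
  | zero => exact ⟨φ, fun X => ⟨fun h v => Subsingleton.elim Fin.elim0 v ▸ h, fun h => h _⟩⟩
  | succ n ih =>
    exact (ih φ.all).imp fun χ h X => (h X).trans ⟨fun h v => Fin.snoc_init_self v ▸ h _ _,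
      fun h _ _ => h _⟩

theorem t_one : ∃ x : ZFSet.{0}, Sent mm oo x ∧ (∃ D, IsStr mm oo D ∧ Models mm oo x D) ∧
    Few mm oo (Models mm oo x) := by
  choose r n v h using ex_enc
  choose χ hχ using fun m => ex_cl (.neg (.rel (k := n m) (r m) fun i => .var i) : Fml LT (n m))
  obtain ⟨x, hx⟩ := v_hd (.conj χ)
  obtain ⟨D, hD⟩ := v_st fun _ => false
  refine ⟨x, (sent_iff v_ri).2 ⟨_, hx⟩, ⟨D, str_iff.2 ⟨_, hD⟩, (models_iff v_ri hD hx).2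
    fun m => (hχ m _).2 fun _ => Bool.false_ne_true⟩, v_few.2 ⟨fun _ _ => false,
      fun E X a1 a2 => ⟨0, ?_⟩⟩⟩
  obtain rfl : X = fun _ => false := funext fun m => Bool.eq_false_iff.2 fun a3 =>
    (hχ m X).1 ((models_iff v_ri a1 hx).1 a2 m) (v m) (h m ▸ a3 :)
  exact ⟨.refl _ _⟩

end Pool.Agent.P.MP_b0885c_lc.In
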