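import Pool.Agent.P.MP_b0885c_lc.IG3

namespace Pool.Agent.P.MP_b0885c_lc.In

open Set Encodable Un Ordinal
open Pool.Agent.Lib.PosetForcing hiding Fml Sat

theorem isom_rel {U : Type 1} [Un U] {D E : U} {X Y : Rr} {R : Rr → Prop}
    (h : ∀ W, R W ↔ ∃ e : U, Gr e W) (hD : St D X) (hE : St E Y) :
    Isom mm oo D E ↔ Iso R X Y := by simp only [isom_iff hD hE, iso_iff, h]

noncomputable instance : Un ZFSet.{0} where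
  ι := id
  inj := Function.injective_id
  tr _ w _ := ⟨w, rfl⟩
  e0 := ∅
  aj := insert
  oo := ZFSet.omega
  ι_emp := rfl
  ι_ins _ _ := rfl
  ι_om := rfl

theorem v_ran {A : Type} (f : A → ZFSet.{0}) (P : A → Prop) :
    ∃ z : ZFSet.{0}, ∀ p, mm p z ↔ ∃ a, P a ∧ f a = p :=
  ⟨ZFSet.range fun a : {a // P a} => f a, fun _ => ZFSet.mem_range.trans
    ⟨fun ⟨a, h⟩ => ⟨a.1, a.2, h⟩, fun ⟨a, h, h'⟩ => ⟨⟨a, h⟩, h'⟩⟩⟩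

theorem v_st (X : Rr) : ∃ D : ZFSet.{0}, St D X := v_ran _ _

theorem v_gr (W : Rr) : True ↔ ∃ e : ZFSet.{0}, Gr e W :=
  iff_of_true trivial ((v_ran (fun q : ℕ × ℕ => pr (nu q.1) (nu q.2)) fun q => wr W q.1 q.2).imp
    fun _ h p => (h p).trans Prod.exists)

theorem v_hd {n : ℕ} (φ : Fml LT n) : ∃ x : ZFSet.{0}, Hd φ x := by
  induction φ with
  | eq => exact ⟨_, trivial, rfl⟩
  | rel => exact ⟨_, trivial, rfl⟩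
  | neg φ ih => exact let ⟨y, h⟩ := ih; ⟨_, trivial, y, rfl, h⟩
  | conj f ih =>
    choose g h using ih
    obtain ⟨F, hF⟩ := v_ran (fun k => pr (nu k) (g k)) fun _ => True
    exact ⟨_, trivial, F, g, rfl, by simpa [Sq] using hF, h⟩
  | all φ ih => exact let ⟨y, h⟩ := ih; ⟨_, trivial, y, rfl, h⟩

theorem v_ri : Ri ZFSet.{0} := by
  choose c hc using @v_hd
  refine ⟨?_, fun D X _ => ?_⟩
  · obtain ⟨S, hS⟩ := v_ran (fun q : Σ n, Fml LT n => pr (nu q.1) (c q.2)) fun _ => True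
    have h : ∀ n (φ : Fml LT n) x, Hd φ x → mm (pr (nu n) x) S := fun n φ x h =>
      (hS _).2 ⟨⟨n, φ⟩, trivial, by rw [(hc φ).uq h]⟩
    refine ⟨S, fun n x h1 => ?_, h⟩
    obtain ⟨q, -, h2⟩ := (hS _).1 (app_iff.1 h1)
    obtain ⟨rfl, rfl⟩ := pr_inj.1 h2
    exact (hc _).node fun m ψ y h3 _ => h m ψ y h3
  · obtain ⟨τ, h⟩ := v_ran (fun q : Σ n, Fml LT n × (Fin n → ℕ) => pr (c q.2.1) (tu q.2.2))
      fun q => q.2.1.Sat (M := Str X) q.2.2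
    refine ⟨τ, fun n φ x v h1 => (h _).trans ⟨?_, fun h2 => ⟨⟨n, φ, v⟩, h2, by rw [(hc φ).uq h1]⟩⟩⟩
    rintro ⟨⟨m, ψ, w⟩, h2, h3⟩
    obtain ⟨rfl, h4⟩ := pr_inj.1 h3
    obtain rfl : m = n := tu_len h4
    obtain rfl : w = v := tu_inj h4
    exact h1.inj (hc ψ) ▸ h2

theorem v_cex (h : Counter fun _ => True) : Cex (mm (U := ZFSet.{0})) oo := by
  obtain ⟨φ, -, h1, h2⟩ := h
  obtain ⟨x, hx⟩ := v_hd φ
  refine ⟨x, (sent_iff v_ri).2 ⟨φ, hx⟩, fun ⟨A, ⟨D, a1⟩, a2, a3, a4⟩ => h1 ?_,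
    fun ⟨F, a1, a2⟩ => h2 ?_⟩
  · have a5 : ∀ E, mm E A → IsStr mm oo E := fun E h => ((a2 E).1 h).1
    have a6 : ∀ E Y, St E Y → (mm E A ↔ ∀ N, ∃ Y' ∈ {Y | ∃ E, mm E A ∧ St E Y}, Y' ≠ Y ∧
        ∀ m < N, Y m = Y' m) := fun E Y h => by
      rw [a2, lim_iff a5 h, and_iff_right (str_iff.2 ⟨_, h⟩)]
      exact forall_congr' fun N => ⟨fun ⟨E, Y, b1, b2, b3⟩ => ⟨Y, ⟨E, b1, b2⟩, b3⟩,
        fun ⟨Y, ⟨E, b1, b2⟩, b3⟩ => ⟨E, Y, b1, b2, b3⟩⟩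
    obtain ⟨X, a7⟩ := str_iff.1 (a5 D a1)
    obtain ⟨Q, b1, b2⟩ := ptree_of (A := {Y | ∃ E, mm E A ∧ St E Y}) ⟨X, D, a1, a7⟩
      fun Y ⟨E, b1, b2⟩ => (a6 E Y b2).1 b1
    have b3 : ∀ Y, Branch Q Y → ∃ E, mm E A ∧ St E Y := fun Y h => by
      by_contra h3
      obtain ⟨E, h4⟩ := v_st Y
      exact h3 ⟨E, (a6 E Y h4).2 fun N => (b2 Y h N).imp fun Y' h5 =>
        ⟨h5.1, fun e => h3 (e ▸ h5.1), h5.2⟩, h4⟩
    refine ⟨Q, trivial, b1, fun Y _ h => ?_, fun Y Y' _ _ h h' b4 => ?_⟩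
    · obtain ⟨E, b4, b5⟩ := b3 Y h
      exact (models_iff v_ri b5 hx).1 (a3 E b4)
    · obtain ⟨E, b5, b6⟩ := b3 Y h
      obtain ⟨E', b7, b8⟩ := b3 Y' h'
      exact b6.uq (a4 E E' b5 b7 ((isom_rel v_gr b6 b8).2 b4) ▸ b8)
  · obtain ⟨g, a3, a4⟩ := sq_iff.1 a1
    choose X a5 using fun k => str_iff.1 (a3 k)
    refine ⟨fun m => X m.unpair.1 m.unpair.2, trivial, fun Y _ h => ?_⟩
    obtain ⟨E, a6⟩ := v_st Y
    obtain ⟨_, _, a7, a8⟩ := a2 E (str_iff.2 ⟨_, a6⟩) ((models_iff v_ri a6 hx).2 h)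
    obtain ⟨n, rfl, rfl⟩ := a4.pr.1 (app_iff.1 a7)
    exact ⟨n, by simpa only [Nat.unpair_pair] using (isom_rel v_gr a6 (a5 n)).1 a8⟩

end Pool.Agent.P.MP_b0885c_lc.In
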