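import Pool.Agent.P.MP_b0885c_lc.IT

namespace Pool.Agent.P.MP_b0885c_lc.In

open Pool.Agent.Lib.PosetForcing hiding Fml Sat

theorem isOmega_sub {M : ZFSet.{0} → Prop} (h1 : ∀ x y, M x → y ∈ x → M y) (w : {z // M z})
    (h4 : w.1 = ZFSet.omega) : IsOmega (fun a b : {z // M z} => a.1 ∈ b.1) w := by
  have hm : ∀ y, y ∈ ZFSet.omega → M y := fun y hy => h1 _ _ w.2 (h4 ▸ hy)
  have hw : ∀ y, y ∈ ZFSet.omega → y ∈ w.1 := fun y hy => h4 ▸ hy
  refine ⟨⟨⟨⟨∅, hm _ ZFSet.omega_zero⟩, hw _ ZFSet.omega_zero, fun x => ZFSet.notMem_empty _⟩,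
    fun x hx => ?_⟩, fun w' hv x hx => ?_⟩
  · have h2 : insert x.1 x.1 ∈ ZFSet.omega := ZFSet.omega_succ (h4 ▸ hx)
    refine ⟨⟨_, hm _ h2⟩, hw _ h2, fun z => ?_⟩
    exact ZFSet.mem_insert_iff.trans (or_comm.trans (or_congr Iff.rfl Subtype.ext_iff.symm))
  · obtain ⟨⟨e, he, he'⟩, hs⟩ := hv
    have key : ∀ n : ℕ, num n ∈ w'.1 := by
      intro n
      induction n with
      | zero =>
        have : e.1 = ∅ := (ZFSet.eq_empty _).2 fun y hy => he' ⟨y, h1 _ _ e.2 hy⟩ hy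
        exact (show num 0 = e.1 from this.symm) ▸ he
      | succ n ih =>
        obtain ⟨y, hy, hy'⟩ := hs ⟨_, h1 _ _ w'.2 ih⟩ ih
        have : y.1 = insert (num n) (num n) := ZFSet.ext fun z => ⟨fun hz =>
          ZFSet.mem_insert_iff.2 (((hy' ⟨z, h1 _ _ y.2 hz⟩).1 hz).elim Or.inr
            fun h => Or.inl (congrArg Subtype.val h)), fun hz => by
          rcases ZFSet.mem_insert_iff.1 hz with rfl | hz
          · exact (hy' ⟨_, h1 _ _ w'.2 ih⟩).2 (Or.inr rfl)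
          · exact (hy' ⟨z, h1 _ _ (h1 _ _ w'.2 ih) hz⟩).2 (Or.inl hz)⟩
        exact (show num (n + 1) = y.1 from this.symm) ▸ hy
    obtain ⟨n, hn⟩ := mem_omega.1 (h4 ▸ hx : x.1 ∈ ZFSet.omega)
    exact hn ▸ key n

end Pool.Agent.P.MP_b0885c_lc.In
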