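import Pool.Agent.P.MP_b0885c_lc.Hier

namespace Pool.Agent.P.MP_b0885c_lc

open Set Ordinal

variable {Z : Zt} {α β : Ordinal.{0}} {a b z w : ZFSet.{0}}

theorem Lh.mono (h : Lh Z α z) (h' : α ≤ β) : Lh Z β z :=
  let ⟨γ, h1, h2⟩ := lh_iff.1 h
  lh_iff.2 ⟨γ, h1.trans_le h', h2⟩

theorem Lh.trans (h : Lh Z α z) (hw : w ∈ z) : Lh Z α w :=
  let ⟨_, h1, _, _, h2⟩ := lh_iff.1 h
  ((h2.2 w).1 hw).1.mono h1.le

theorem DL.lh {φ : SF} {ps : List ZFSet.{0}} (h : DL Z β z φ ps) : Lh Z (β + 1) z :=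
  lh_iff.2 ⟨β, lt_add_one β, φ, ps, h⟩

theorem DL.uniq {φ : SF} {ps : List ZFSet.{0}} (h : DL Z β a φ ps) (h' : DL Z β b φ ps) : a = b :=
  ZFSet.ext fun w => (h.2 w).trans (h'.2 w).symm

theorem exists_lv (Z : Zt) (α : Ordinal.{0}) :
    ∃ z, Lh Z (α + 1) z ∧ ∀ w, w ∈ z ↔ Lh Z α w := by
  obtain ⟨z, hz⟩ := exists_DL (Z := Z) (β := α) (.atm 1 0 0 0) (ps := []) (by simp)
  exact ⟨z, hz.lh, fun w => (hz.2 w).trans (and_iff_left rfl)⟩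

theorem oh_coh (hb : Lh Z β b) (h : β ≤ α) : Oh Z β a b ↔ Oh Z α a b := by
  obtain ⟨j0, h0, φ0, ps0, h1⟩ := lh_iff.1 hb
  rw [oh_iff, oh_iff]
  refine ⟨fun ⟨j, h2, φ, ps, h3, H⟩ => ⟨j, h2.trans_le h, φ, ps, h3, fun j' _ φ' ps' h5 => ?_⟩,
    fun ⟨j, _, φ, ps, h3, H⟩ => ⟨j, ?_, φ, ps, h3, fun j' h4 => H j' (h4.trans_le h)⟩⟩
  · rcases lt_or_ge j' β with h6 | h6
    exacts [H j' h6 φ' ps' h5, .inl (h2.trans_le h6)]
  · rcases H j0 (h0.trans_le h) φ0 ps0 h1 with h4 | ⟨rfl, -⟩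
    exacts [h4.trans h0, h0]

theorem lx_asymm {O : ZFSet.{0} → ZFSet.{0} → Prop} (h : ∀ a b, O a b → ¬ O b a) :
    ∀ l m, Lx O l m → ¬ Lx O m l
  | [], _, h1, _ => by simp [Lx] at h1
  | _ :: _, [], h1, _ => by simp [Lx] at h1
  | a :: l, b :: m, h1, h2 => by
    rcases h1 with h1 | ⟨rfl, h1⟩ <;> rcases h2 with h2 | ⟨h3, h2⟩
    · exact h _ _ h1 h2
    · exact h _ _ h1 (h3 ▸ h1)
    · exact h _ _ h2 h2
    · exact lx_asymm h l m h1 h2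

theorem lx_min {D : ZFSet.{0} → Prop} {O : ZFSet.{0} → ZFSet.{0} → Prop}
    (h : ∀ S : ZFSet.{0} → Prop, (∀ a, S a → D a) → (∃ a, S a) →
      ∃ a, S a ∧ ∀ b, S b → b = a ∨ O a b) (n : ℕ) :
    ∀ S : List ZFSet.{0} → Prop, (∀ l, S l → l.length = n ∧ ∀ a ∈ l, D a) → (∃ l, S l) →
      ∃ l, S l ∧ ∀ m, S m → m = l ∨ Lx O l m := by
  induction n with
  | zero =>
    exact fun S h1 ⟨l, hl⟩ => ⟨l, hl, fun m hm => .inl ((List.length_eq_zero_iff.1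
      (h1 m hm).1).trans (List.length_eq_zero_iff.1 (h1 l hl).1).symm)⟩
  | succ n ih =>
    rintro S h1 ⟨l, hl⟩
    obtain ⟨a, l, rfl⟩ := List.exists_cons_of_length_eq_add_one (h1 l hl).1
    obtain ⟨a, h2, h3⟩ := h (fun a => ∃ l, S (a :: l))
      (fun a ⟨l, hl⟩ => (h1 _ hl).2 a List.mem_cons_self) ⟨a, l, hl⟩
    obtain ⟨l, h4, h5⟩ := ih (fun l => S (a :: l)) (fun l hl => ⟨by simpa using (h1 _ hl).1,
      fun b hb => (h1 _ hl).2 b (List.mem_cons_of_mem _ hb)⟩) h2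
    refine ⟨_, h4, fun m hm => ?_⟩
    obtain ⟨b, m, rfl⟩ := List.exists_cons_of_length_eq_add_one (h1 m hm).1
    rcases h3 b ⟨m, hm⟩ with rfl | h6
    · exact (h5 m hm).imp (congrArg _) fun h7 => .inr ⟨rfl, h7⟩
    · exact .inr (.inl h6)

theorem oh_asymm (α : Ordinal.{0}) : ∀ a b, Oh Z α a b → ¬ Oh Z α b a := by
  induction α using WellFoundedLT.induction with
  | ind α ih =>
    intro a b h1 h2
    obtain ⟨j, h3, φ, ps, h4, H⟩ := oh_iff.1 h1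
    obtain ⟨j', h5, φ', ps', h6, H'⟩ := oh_iff.1 h2
    rcases H j' h5 _ _ h6 with h7 | ⟨rfl, h7⟩ <;> rcases H' j h3 _ _ h4 with h8 | ⟨h9, h8⟩
    · exact h7.asymm h8
    · exact h7.ne' h9
    · exact h8.false
    · rcases h7 with h7 | h7 <;> rcases h8 with h8 | h8
      · omega
      · omega
      · omega
      · exact lx_asymm (ih j h3) _ _ h7.2 h8.2

theorem oh_min (α : Ordinal.{0}) : ∀ S : ZFSet.{0} → Prop, (∀ a, S a → Lh Z α a) → (∃ a, S a) →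
    ∃ a, S a ∧ ∀ b, S b → b = a ∨ Oh Z α a b := by
  induction α using WellFoundedLT.induction with
  | ind α ih =>
    rintro S h1 ⟨a, ha⟩
    obtain ⟨j, h2, φ, ps, h3⟩ := lh_iff.1 (h1 a ha)
    obtain ⟨j, ⟨h4, a, φ, ps, h5, h6⟩, h7⟩ := wellFounded_lt.has_min
      {j | j < α ∧ ∃ a φ ps, S a ∧ DL Z j a φ ps} ⟨j, h2, a, φ, ps, ha, h3⟩
    obtain ⟨_, ⟨a, φ, ps, h8, h9, rfl⟩, h10⟩ := wellFounded_lt.has_min
      {k | ∃ a φ ps, S a ∧ DL Z j a φ ps ∧ φ.enc.pair ps.length = k} ⟨_, a, φ, ps, h5, h6, rfl⟩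
    obtain ⟨qs, ⟨e1, a, e2, e3⟩, e4⟩ := lx_min (ih j h4) ps.length
      (fun qs => qs.length = ps.length ∧ ∃ a, S a ∧ DL Z j a φ qs)
      (fun qs ⟨e1, _, _, e2⟩ => ⟨e1, e2.1⟩) ⟨ps, rfl, a, h8, h9⟩
    refine ⟨a, e2, fun b hb => or_iff_not_imp_left.2 fun hne => oh_iff.2
      ⟨j, h4, φ, qs, e3, fun j' e5 φ' ps' e6 => ?_⟩⟩
    refine (not_lt.1 (h7 j' ⟨e5, b, φ', ps', hb, e6⟩)).lt_or_eq.imp_right ?_
    rintro rfl
    refine ⟨rfl, ?_⟩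
    rw [Cp, e1]
    refine (not_lt.1 (h10 _ ⟨b, φ', ps', hb, e6, rfl⟩)).lt_or_eq.imp_right fun e7 => ⟨e7, ?_⟩
    obtain ⟨e8, e9⟩ := Nat.pair_eq_pair.1 e7
    obtain rfl := SF.enc_inj e8
    refine (e4 ps' ⟨e9.symm, b, hb, e6⟩).resolve_left ?_
    rintro rfl
    exact hne (e6.uniq e3)

variable (Z) in
/-- the inner model -/
def MM (z : ZFSet.{0}) : Prop := ∃ α, Lh Z α z

variable (Z) in
/-- the global order -/
def OM (a b : ZFSet.{0}) : Prop := ∃ α, Lh Z α b ∧ Oh Z α a b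

theorem om_iff (h : Lh Z α b) : Oh Z α a b ↔ OM Z a b :=
  ⟨fun h1 => ⟨α, h, h1⟩, fun ⟨β, h1, h2⟩ =>
    (oh_coh h (le_max_left α β)).2 ((oh_coh h1 (le_max_right α β)).1 h2)⟩

theorem om_asymm (h : OM Z a b) (h' : OM Z b a) : False :=
  let ⟨α, h1, _⟩ := id h
  let ⟨β, h2, _⟩ := id h'
  oh_asymm (max α β) a b ((om_iff (h1.mono (le_max_left α β))).2 h)
    ((om_iff (h2.mono (le_max_right α β))).2 h')

theorem bound {ι : Type 1} [Small.{0} ι] (f : ι → ZFSet.{0}) (h : ∀ i, MM Z (f i)) :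
    ∃ γ, ∀ i, Lh Z γ (f i) := by
  choose α h using h
  exact ⟨⨆ i, α i, fun i => (h i).mono (Ordinal.le_iSup α i)⟩

instance (α : Ordinal.{0}) : Small.{0} {z // Lh Z α z} := by
  obtain ⟨z, -, h⟩ := exists_lv Z α
  exact small_of_injective (f := fun x => (⟨x.1, (h _).2 x.2⟩ : z)) fun _ _ h =>
    Subtype.ext (Subtype.mk.inj h)

theorem getD_prop {U : Type*} {P : U → Prop} {l : List U} {d : U} (h : ∀ a ∈ l, P a) (hd : P d)
    (i : ℕ) : P (l.getD i d) := by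
  induction l generalizing i with
  | nil => exact hd
  | cons a l ih =>
    cases i
    exacts [h a List.mem_cons_self, ih (fun b hb => h b (List.mem_cons_of_mem _ hb)) _]

theorem reflect (Z : Zt) (γ : Ordinal.{0}) : ∃ α ≥ γ, ∀ (φ : SF) (l : List ZFSet.{0}) d,
    (∀ a ∈ l, Lh Z α a) → Lh Z α d →
    (φ.Sat (Lh Z α) (RR (· ∈ ·) (num · = ·) Z (Oh Z α)) (fun i => l.getD i d) ↔
      φ.Sat (MM Z) (RR (· ∈ ·) (num · = ·) Z (OM Z)) fun i => l.getD i d) := by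
  let S := fun (φ : SF) (l : List ZFSet.{0}) d x =>
    φ.Sat (MM Z) (RR (· ∈ ·) (num · = ·) Z (OM Z)) fun i => (x :: l).getD i d
  have h1 : ∀ γ, ∃ δ > γ, ∀ φ l d, (∀ a ∈ l, Lh Z γ a) → Lh Z γ d → (∃ x, MM Z x ∧ S φ l d x) →
      ∃ x, Lh Z δ x ∧ S φ l d x := fun γ => by
    have : ∀ q : SF × List {z // Lh Z γ z} × {z // Lh Z γ z}, ∃ x, MM Z x ∧
        ((∃ x, MM Z x ∧ S q.1 (q.2.1.map Subtype.val) q.2.2 x) →
          S q.1 (q.2.1.map Subtype.val) q.2.2 x) := fun q => by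
      by_cases h : ∃ x, MM Z x ∧ S q.1 (q.2.1.map Subtype.val) q.2.2 x
      · exact h.imp fun x hx => ⟨hx.1, fun _ => hx.2⟩
      · exact ⟨_, ⟨_, q.2.2.2⟩, fun h' => (h h').elim⟩
    choose f h2 h3 using this
    obtain ⟨δ, h4⟩ := bound f h2
    refine ⟨max δ (γ + 1), lt_max_of_lt_right (lt_add_one γ), fun φ l d hl hd h => ?_⟩
    have := h3 (φ, l.attachWith _ hl, ⟨d, hd⟩)
    simp only [List.attachWith_map_subtype_val] at this
    exact ⟨_, (h4 _).mono (le_max_left _ _), this h⟩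
  choose F h1 h2 using h1
  let o : ℕ → Ordinal.{0} := fun n => F^[n] γ
  have h3 : StrictMono o := strictMono_nat_of_lt_succ fun n => by
    simp only [o, Function.iterate_succ_apply']
    exact h1 _
  have h4 : ∀ l : List ZFSet.{0}, (∀ a ∈ l, Lh Z (⨆ n, o n) a) → ∃ n, ∀ a ∈ l, Lh Z (o n) a := by
    intro l hl
    induction l with
    | nil => exact ⟨0, by simp⟩
    | cons a l ih =>
      obtain ⟨h5, h6⟩ := List.forall_mem_cons.1 hl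
      obtain ⟨n, hn⟩ := ih h6
      obtain ⟨β, h7, h8⟩ := lh_iff.1 h5
      obtain ⟨m, hm⟩ := Ordinal.lt_iSup_iff.1 h7
      exact ⟨max m n, List.forall_mem_cons.2 ⟨lh_iff.2 ⟨β, hm.trans_le
        (h3.monotone (le_max_left _ _)), h8⟩, fun b hb =>
        (hn b hb).mono (h3.monotone (le_max_right _ _))⟩⟩
  refine ⟨⨆ n, o n, Ordinal.le_iSup o 0, fun φ => ?_⟩
  induction φ with
  | atm k i j m =>
    intro l d hl hd
    rcases k with _ | _ | _ | k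
    exacts [.rfl, .rfl, om_iff (getD_prop hl hd _), .rfl]
  | neg φ ih => exact fun l d hl hd => not_congr (ih l d hl hd)
  | and φ ψ ih ih' => exact fun l d hl hd => and_congr (ih l d hl hd) (ih' l d hl hd)
  | ex φ ih =>
    intro l d hl hd
    simp only [SF.Sat, cons_getD]
    refine ⟨fun ⟨x, h5, h6⟩ => ⟨x, ⟨_, h5⟩, (ih _ d (List.forall_mem_cons.2 ⟨h5, hl⟩) hd).1 h6⟩,
      fun h => ?_⟩
    obtain ⟨n, hn⟩ := h4 (d :: l) (List.forall_mem_cons.2 ⟨hd, hl⟩)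
    obtain ⟨h5, h6⟩ := List.forall_mem_cons.1 hn
    obtain ⟨x, h7, h8⟩ := h2 _ φ l d h6 h5 h
    have h9 : Lh Z (⨆ n, o n) x := h7.mono (by
      simpa only [o, Function.iterate_succ_apply'] using Ordinal.le_iSup o (n + 1))
    exact ⟨x, h9, (ih _ d (List.forall_mem_cons.2 ⟨h9, hl⟩) hd).2 h8⟩

end Pool.Agent.P.MP_b0885c_lc
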