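import Pool.Agent.P.MP_b0885c_lc.Grp
import Pool.Agent.P.MP_b0885c_lc.BF

namespace Pool.Agent.P.MP_b0885c_lc

open Ordinal Set FreeGroup FirstOrder FirstOrder.Language

/-- reals -/
abbrev Re : Type := ℕ × ℕ → Bool

/-- letters -/
abbrev Lb : Type := Re × List ℕ

noncomputable instance decLb : DecidableEq Lb := Classical.decEq _

/-- the free group on all letters -/
abbrev G : Type := FreeGroup Lb

/-- relation symbols in use -/
inductive Rl : ℕ → Type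
  | A : Rl 1
  | X (n : ℕ) : Rl 1
  | R (i j : ℕ) : Rl 1
  | Pj : Rl 2
  | Act (σ : List ℕ) : Rl 3

/-- the symbol of the universal language -/
def Rl.cd : {k : ℕ} → Rl k → LT.Relations k
  | _, .A => (0, [])
  | _, .X n => (1, [n])
  | _, .R i j => (2, [i, j])
  | _, .Pj => (3, [])
  | _, .Act σ => (4, σ)

theorem atEq_of {M N : Type} [LT.Structure M] [LT.Structure N] {n : ℕ} {a : Fin n → M}
    {b : Fin n → N} (h1 : ∀ i j, a i = a j ↔ b i = b j)
    (h2 : ∀ k (r : LT.Relations k) (s : Fin k → Fin n),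
      (Structure.RelMap (L := LT) r fun i => a (s i)) ↔ Structure.RelMap (L := LT) r fun i => b (s i)) :
    AtEq LT a b := by
  have hv : ∀ t : LT.Term (Fin n), ∃ i, t = .var i := fun t => by
    cases t with
    | var i => exact ⟨i, rfl⟩
    | func f _ => exact f.elim
  refine ⟨fun t u => ?_, fun k r ts => ?_⟩
  · obtain ⟨i, rfl⟩ := hv t
    obtain ⟨j, rfl⟩ := hv u
    exact h1 i j
  · choose s hs using fun i => hv (ts i)
    simp only [hs]
    exact h2 k r s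

/-- a measurable family of trees -/
structure Tr where
  /-- membership -/
  In : Re → List ℕ → Prop
  tl : ∀ t c σ, In t (c :: σ) → In t σ
  meas : ∀ σ, Measurable fun t => In t σ

/-- predecessor of a letter -/
def pd0 (a : Lb) : Lb := (a.1, a.2.tail)

/-- the big universe -/
abbrev U : Type := Re ⊕ (ℕ × G)

namespace Tr

variable (T : Tr)

/-- the system of letters over a set of reals -/
def fo (A : Set Re) : Fo Lb where
  pd := pd0
  Lab n := {a | a.1 ∈ A ∧ a.2.length = n ∧ T.In a.1 a.2}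
  hpd := by
    rintro n ⟨t, _ | ⟨c, σ⟩⟩ ⟨h1, h2, h3⟩
    · simp at h2
    · exact ⟨h1, by simpa [pd0] using h2, T.tl _ _ _ h3⟩

/-- the relations -/
def rel (b : ℕ → G) : {k : ℕ} → ℕ × List ℕ → (Fin k → U) → Prop
  | 1, (0, []), v => ∃ e, v 0 = .inl e
  | 1, (1, [n]), v => ∃ g, v 0 = .inr (n, g)
  | 1, (2, [i, j]), v => ∃ e, v 0 = .inl e ∧ e (i, j) = true
  | 2, (3, []), v => ∃ n g, v 0 = .inr (n + 1, g) ∧ v 1 = .inr (n, map pd0 g * b n)
  | 3, (4, σ), v => ∃ e g, T.In e σ ∧ v 0 = .inr (σ.length, g) ∧ v 1 = .inl e ∧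
      v 2 = .inr (σ.length, of (e, σ) * g)
  | _, _, _ => False

theorem rel_junk {b : ℕ → G} {k : ℕ} {r : ℕ × List ℕ} {v : Fin k → U} (h : T.rel b r v) :
    ∃ s : Rl k, s.cd = r := by
  unfold rel at h
  split at h
  · exact ⟨.A, rfl⟩
  · rename_i n _
    exact ⟨.X n, rfl⟩
  · rename_i i j _
    exact ⟨.R i j, rfl⟩
  · exact ⟨.Pj, rfl⟩
  · rename_i σ _
    exact ⟨.Act σ, rfl⟩
  · exact h.elim

/-- the universe over a set of reals -/
def Un (A : Set Re) : U → Prop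
  | .inl e => e ∈ A
  | .inr p => p.2 ∈ H ((T.fo A).Lab p.1)

/-- the structures -/
def Md (A : Set Re) (_b : ℕ → G) : Type := {u : U // T.Un A u}

instance (A : Set Re) (b : ℕ → G) : LT.Structure (T.Md A b) where
  funMap f := f.elim
  RelMap r v := T.rel b r fun i => (v i).1

theorem relMap_iff {A : Set Re} {b : ℕ → G} {k : ℕ} (r : LT.Relations k) (v : Fin k → T.Md A b) :
    Structure.RelMap (L := LT) r v ↔ T.rel b r fun i => (v i).1 := Iff.rfl

/-- level of an element -/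
def lev : U → ℕ
  | .inl _ => 0
  | .inr p => p.1

/-- change of coordinates -/
def Φ (u : ℕ → G) : U → U
  | .inl e => .inl e
  | .inr p => .inr (p.1, p.2 * u p.1)

theorem Φ_inj (u : ℕ → G) : Function.Injective (Φ u) := by
  rintro (e | ⟨n, g⟩) (e' | ⟨n', g'⟩) h <;> simp only [Φ, Sum.inl.injEq, Sum.inr.injEq,
    Prod.mk.injEq, reduceCtorEq] at h ⊢
  · exact h
  · obtain ⟨rfl, h⟩ := h
    exact ⟨rfl, mul_right_cancel h⟩

theorem Φ_eq_inl {u : ℕ → G} {c : U} {e : Re} : Φ u c = .inl e ↔ c = .inl e := by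
  rcases c with e' | ⟨n, g⟩ <;> simp [Φ]

theorem Φ_eq_inr {u : ℕ → G} {c : U} {n : ℕ} {g : G} :
    Φ u c = .inr (n, g) ↔ c = .inr (n, g * (u n)⁻¹) := by
  rcases c with e' | ⟨n', g'⟩
  · simp [Φ]
  · simp only [Φ, Sum.inr.injEq, Prod.mk.injEq]
    refine and_congr_right fun h => ?_
    rw [h, eq_mul_inv_iff_mul_eq]

/-- finite threads -/
def Thr (A : Set Re) (b : ℕ → G) (N : ℕ) (u : ℕ → G) : Prop :=
  (∀ n ≤ N, u n ∈ H ((T.fo A).Lab n)) ∧ ∀ n < N, map pd0 (u (n + 1)) * b n = u n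

variable {T}

theorem rel_Φ {A : Set Re} {b : ℕ → G} {N : ℕ} {u : ℕ → G} (hu : T.Thr A b N u) {k : ℕ}
    (r : ℕ × List ℕ) (c : Fin k → U) (hc : ∀ i, lev (c i) ≤ N) :
    (T.rel b r fun i => Φ u (c i)) ↔ T.rel (fun _ => 1) r c := by
  by_cases hr : ¬ ∃ s : Rl k, s.cd = r
  · exact iff_of_false (fun h => hr (T.rel_junk h)) fun h => hr (T.rel_junk h)
  obtain ⟨r, rfl⟩ := not_not.1 hr
  cases r with
  | A => simp only [Rl.cd, rel, Φ_eq_inl]
  | X n =>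
    simp only [Rl.cd, rel, Φ_eq_inr]
    exact ⟨fun ⟨g, h⟩ => ⟨_, h⟩, fun ⟨g, h⟩ => ⟨g * u n, by simpa using h⟩⟩
  | R i j => simp only [Rl.cd, rel, Φ_eq_inl]
  | Pj =>
    simp only [Rl.cd, rel, Φ_eq_inr]
    refine exists_congr fun n => ⟨fun ⟨g, h1, h2⟩ => ⟨_, h1, ?_⟩,
      fun ⟨g, h1, h2⟩ => ⟨g * u (n + 1), by simpa using h1, ?_⟩⟩
    · have := hc 0
      rw [h1] at this
      rw [h2, ← hu.2 n this]
      simp [mul_assoc]
    · have := hc 0
      rw [h1] at this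
      rw [h2, ← hu.2 n this]
      simp [mul_assoc]
  | Act σ =>
    simp only [Rl.cd, rel, Φ_eq_inr, Φ_eq_inl]
    refine exists_congr fun e => ⟨fun ⟨g, h0, h1, h2, h3⟩ => ⟨_, h0, h1, h2, by rw [h3, mul_assoc]⟩,
      fun ⟨g, h0, h1, h2, h3⟩ => ⟨g * u σ.length, h0, by simpa using h1, h2, ?_⟩⟩
    rw [h3]
    simp [mul_assoc]

theorem exists_thr {A : Set Re} {b : ℕ → G} (hb : (T.fo A).Co b) (N : ℕ) (g : G)
    (hg : g ∈ H ((T.fo A).Lab N)) : ∃ u, T.Thr A b N u ∧ u N = g := by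
  induction N generalizing g with
  | zero => exact ⟨fun _ => g, ⟨fun n hn => by rwa [Nat.le_zero.1 hn], by simp⟩, rfl⟩
  | succ N ih =>
    obtain ⟨u, h1, h2⟩ := ih _ (Fo.pp_mem hb hg)
    refine ⟨Function.update u (N + 1) g, ⟨fun n hn => ?_, fun n hn => ?_⟩, by simp⟩
    · rcases Nat.le_succ_iff.1 hn with h | rfl
      · rw [Function.update_of_ne (by omega)]; exact h1.1 n h
      · simpa using hg
    · rcases Nat.lt_succ_iff_lt_or_eq.1 hn with h | rfl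
      · rw [Function.update_of_ne (by omega), Function.update_of_ne (by omega)]; exact h1.2 n h
      · rw [Function.update_self, Function.update_of_ne (by omega), h2]; rfl

variable (T) in
/-- lifting property of a family of relations -/
structure Lift (A : Set Re) (b b' : ℕ → G) (R : Ordinal.{0} → ℕ → G → G → Prop) : Prop where
  mono : ∀ θ θ' N v v', θ' ≤ θ → R θ N v v' → R θ' N v v'
  step : ∀ θ N v v', R (θ + 1) N v v' → ∃ z ∈ H ((T.fo A).Lab (N + 1)),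
    ∃ z' ∈ H ((T.fo A).Lab (N + 1)), map pd0 z * b N = v ∧ map pd0 z' * b' N = v' ∧ R θ (N + 1) z z'

theorem Lift.symm {A : Set Re} {b b' : ℕ → G} {R : Ordinal.{0} → ℕ → G → G → Prop}
    (h : T.Lift A b b' R) : T.Lift A b' b fun θ N v v' => R θ N v' v :=
  ⟨fun θ θ' N v v' => h.mono θ θ' N v' v, fun θ N v v' hR =>
    let ⟨z, h1, z', h2, h3, h4, h5⟩ := h.step θ N v' v hR
    ⟨z', h2, z, h1, h4, h3, h5⟩⟩

theorem Thr.update {A : Set Re} {b : ℕ → G} {N : ℕ} {u : ℕ → G} (h1 : T.Thr A b N u) {z : G}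
    (hz : z ∈ H ((T.fo A).Lab (N + 1))) (h2 : map pd0 z * b N = u N) :
    T.Thr A b (N + 1) (Function.update u (N + 1) z) := by
  refine ⟨fun n hn => ?_, fun n hn => ?_⟩
  · rcases Nat.le_succ_iff.1 hn with h | rfl
    · rw [Function.update_of_ne (by omega)]; exact h1.1 n h
    · simpa using hz
  · rcases Nat.lt_succ_iff_lt_or_eq.1 hn with h | rfl
    · rw [Function.update_of_ne (by omega), Function.update_of_ne (by omega)]; exact h1.2 n h
    · rw [Function.update_self, Function.update_of_ne (by omega), h2]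

theorem Lift.steps {A : Set Re} {b b' : ℕ → G} {R : Ordinal.{0} → ℕ → G → G → Prop}
    (h : T.Lift A b b' R) (k : ℕ) : ∀ (θ : Ordinal.{0}) (N : ℕ) (u u' : ℕ → G), T.Thr A b N u →
      T.Thr A b' N u' → R (θ + k) N (u N) (u' N) → ∃ v v', T.Thr A b (N + k) v ∧
      T.Thr A b' (N + k) v' ∧ (∀ n ≤ N, v n = u n ∧ v' n = u' n) ∧
      R θ (N + k) (v (N + k)) (v' (N + k)) := by
  induction k with
  | zero => exact fun θ N u u' h1 h2 h3 => ⟨u, u', h1, h2, by simp, by simpa using h3⟩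
  | succ k ih =>
    intro θ N u u' h1 h2 h3
    have : θ + ((k + 1 : ℕ) : Ordinal.{0}) = θ + 1 + k := by
      rw [add_assoc, add_comm k 1, Nat.cast_add, Nat.cast_one]
    rw [this] at h3
    obtain ⟨v, v', h4, h5, h6, h7⟩ := ih _ N u u' h1 h2 h3
    obtain ⟨z, hz, z', hz', h8, h9, h10⟩ := h.step _ _ _ _ h7
    refine ⟨_, _, h4.update hz h8, h5.update hz' h9, fun n hn => ?_, by simpa [← add_assoc]⟩
    rw [Function.update_of_ne (by omega), Function.update_of_ne (by omega)]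
    exact h6 n hn

theorem Φ_congr {u v : ℕ → G} {c : U} (h : v (lev c) = u (lev c)) : Φ v c = Φ u c := by
  rcases c with e | ⟨n, g⟩
  · rfl
  · simp only [Φ]; rw [show v n = u n from h]

theorem Lift.ext {A : Set Re} {b b' : ℕ → G} {R : Ordinal.{0} → ℕ → G → G → Prop}
    (h : T.Lift A b b' R) {β γ : Ordinal.{0}} (hγ : γ < β) {N : ℕ} {u u' : ℕ → G}
    (hu : T.Thr A b N u) (hu' : T.Thr A b' N u') (hR : R (ω * β) N (u N) (u' N)) (x : T.Md A b) :
    ∃ (N' : ℕ) (v v' : ℕ → G) (c : U) (y : T.Md A b'), T.Thr A b N' v ∧ T.Thr A b' N' v' ∧ N ≤ N' ∧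
      (∀ n ≤ N, v n = u n ∧ v' n = u' n) ∧ R (ω * γ) N' (v N') (v' N') ∧ lev c ≤ N' ∧
      x.1 = Φ v c ∧ y.1 = Φ v' c := by
  obtain ⟨e | ⟨n, g⟩, hx⟩ := x
  · exact ⟨N, u, u', .inl e, ⟨.inl e, hx⟩, hu, hu', le_rfl, by simp,
      h.mono _ _ _ _ _ (by gcongr) hR, Nat.zero_le _, rfl, rfl⟩
  · obtain ⟨v, v', h1, h2, h3, h4⟩ := h.steps n (ω * γ) N u u' hu hu'
      (h.mono _ _ _ _ _ (om_mul_add_lt hγ n).le hR)
    exact ⟨N + n, v, v', .inr (n, g * (v n)⁻¹), ⟨.inr (n, g * (v n)⁻¹ * v' n),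
      mul_mem (mul_mem hx (inv_mem (h1.1 n (by omega)))) (h2.1 n (by omega))⟩, h1, h2, by omega, h3,
      h4, by simp [lev], by simp [Φ], rfl⟩

theorem Lift.bfe {A : Set Re} {b b' : ℕ → G} {R : Ordinal.{0} → ℕ → G → G → Prop}
    (h : T.Lift A b b' R) (β : Ordinal.{0}) : ∀ {n N : ℕ} {u u' : ℕ → G}, T.Thr A b N u →
    T.Thr A b' N u' → R (ω * β) N (u N) (u' N) → ∀ (c : Fin n → U) (a : Fin n → T.Md A b)
    (a' : Fin n → T.Md A b'), (∀ i, lev (c i) ≤ N ∧ (a i).1 = Φ u (c i) ∧ (a' i).1 = Φ u' (c i)) →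
    BFE LT β a a' := by
  induction β using WellFoundedLT.induction with
  | ind β ih =>
    intro n N u u' hu hu' hR c a a' hc
    have key : ∀ {N' : ℕ} {v v' : ℕ → G} {c' : U} {x : T.Md A b} {y : T.Md A b'}, N ≤ N' →
        (∀ n ≤ N, v n = u n ∧ v' n = u' n) → lev c' ≤ N' → x.1 = Φ v c' → y.1 = Φ v' c' →
        ∀ i, lev ((Fin.snoc c c' : Fin (n + 1) → U) i) ≤ N' ∧
        ((Fin.snoc a x : Fin (n + 1) → T.Md A b) i).1 = Φ v ((Fin.snoc c c' : Fin (n + 1) → U) i) ∧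
        ((Fin.snoc a' y : Fin (n + 1) → T.Md A b') i).1 =
          Φ v' ((Fin.snoc c c' : Fin (n + 1) → U) i) := by
      intro N' v v' c' x y h1 h2 h3 h4 h5 i
      refine Fin.lastCases ?_ (fun i => ?_) i
      · simp [*]
      · simp only [Fin.snoc_castSucc]
        obtain ⟨h6, h7, h8⟩ := hc i
        exact ⟨h6.trans h1, by rw [h7, Φ_congr (h2 _ h6).1], by rw [h8, Φ_congr (h2 _ h6).2]⟩
    refine bfe_iff.2 ⟨atEq_of (fun i j => ?_) fun k r s => ?_, fun γ hγ => ⟨fun x => ?_, fun y => ?_⟩⟩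
    · have e1 : a i = a j ↔ (a i).1 = (a j).1 := Subtype.ext_iff
      have e2 : a' i = a' j ↔ (a' i).1 = (a' j).1 := Subtype.ext_iff
      rw [e1, e2, (hc i).2.1, (hc j).2.1, (hc i).2.2, (hc j).2.2, (Φ_inj _).eq_iff, (Φ_inj _).eq_iff]
    · rw [relMap_iff, relMap_iff]
      simp only [fun i => (hc i).2.1, fun i => (hc i).2.2]
      rw [rel_Φ hu r (fun i => c (s i)) fun i => (hc _).1,
        rel_Φ hu' r (fun i => c (s i)) fun i => (hc _).1]
    · obtain ⟨N', v, v', c', y, h1, h2, h3, h4, h5, h6, h7, h8⟩ := h.ext hγ hu hu' hR x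
      exact ⟨y, ih γ hγ h1 h2 h5 _ _ _ (key h3 h4 h6 h7 h8)⟩
    · obtain ⟨N', v', v, c', x, h1, h2, h3, h4, h5, h6, h7, h8⟩ := h.symm.ext hγ hu' hu hR y
      exact ⟨x, ih γ hγ h2 h1 h5 _ _ _ (key h3 (fun n hn => (h4 n hn).symm) h6 h8 h7)⟩

theorem lift_Ys (A : Set Re) (b b' : ℕ → G) :
    T.Lift A b b' fun θ N v v' => v ∈ (T.fo A).Ys b θ N ∧ v' ∈ (T.fo A).Ys b' θ N :=
  ⟨fun _ _ _ _ _ h hR => ⟨Fo.Ys_mono h hR.1, Fo.Ys_mono h hR.2⟩, fun θ _ _ _ hR =>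
    let ⟨z, h1, h2⟩ := (Fo.mem_Ys.1 hR.1).2 θ (lt_add_one _)
    let ⟨z', h3, h4⟩ := (Fo.mem_Ys.1 hR.2).2 θ (lt_add_one _)
    ⟨z, h1.1, z', h3.1, h2, h4, h1, h3⟩⟩

theorem bfe_can {A : Set Re} {b : ℕ → G} {β : Ordinal.{0}}
    (h : ((T.fo A).Ys b (ω * β) 0).Nonempty) :
    BFE LT β (Fin.elim0 : Fin 0 → T.Md A b) (Fin.elim0 : Fin 0 → T.Md A fun _ => 1) := by
  obtain ⟨g, hg⟩ := h
  exact (lift_Ys A b fun _ => 1).bfe β (N := 0) (u := fun _ => g) (u' := fun _ => 1)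
    ⟨fun n hn => by rw [Nat.le_zero.1 hn]; exact hg.1, by simp⟩ ⟨fun _ _ => one_mem _, by simp⟩
    ⟨hg, Fo.one_mem_Ys⟩ Fin.elim0 _ _ fun i => i.elim0

end Tr

end Pool.Agent.P.MP_b0885c_lc
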