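import Pool.Agent.P.MP_b0885c_lc.Trf

namespace Pool.Agent.P.MP_b0885c_lc

open Set Ordinal Filter Encodable FirstOrder FirstOrder.Language PiNat

theorem cyl_sub {E : Type} [TopologicalSpace E] [DiscreteTopology E] {U : Set (ℕ → E)}
    (hU : IsOpen U) {x : ℕ → E} (hx : x ∈ U) : ∃ n, cylinder x n ⊆ U := by
  obtain ⟨_, ⟨z, n, rfl⟩, h1, h2⟩ :=
    (isTopologicalBasis_cylinders fun _ : ℕ => E).exists_subset_of_mem_open hx hU
  exact ⟨n, mem_cylinder_iff_eq.1 h1 ▸ h2⟩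

theorem cyl_ext {E : Type} {x y : ℕ → E} {n m : ℕ} (h : y ∈ cylinder x n) (h' : n ≤ m) :
    cylinder y m ⊆ cylinder x n :=
  mem_cylinder_iff_eq.1 h ▸ cylinder_anti y h'

theorem exists_ker {X : Type*} (g : (ℕ → ℕ) → X) {S : Set (ℕ → ℕ)} (hS : ¬ (g '' S).Countable)
    {C : Set X} (hC : C.Countable) :
    ∃ x ∈ S, g x ∉ C ∧ ∀ n, ¬ (g '' cylinder x n).Countable := by
  by_contra h
  refine hS ((hC.union (countable_iUnion fun q : {q : Σ n, Fin n → ℕ //
    (g '' {y | ∀ i : Fin q.1, y i = q.2 i}).Countable} => q.2)).mono ?_)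
  rintro _ ⟨x, hx, rfl⟩
  by_contra h1
  refine h ⟨x, hx, fun h2 => h1 (.inl h2), fun n h2 => h1 (.inr (mem_iUnion.2
    ⟨⟨⟨n, fun i => x i⟩, h2.mono (image_mono fun y hy i hi => hy ⟨i, hi⟩)⟩,
      x, fun _ => rfl, rfl⟩))⟩

theorem exists_cantor {X : Type*} [TopologicalSpace X] [T2Space X] {g0 : (ℕ → ℕ) → X}
    {g : ℕ → (ℕ → ℕ) → X} (h0 : Continuous g0) (hg : ∀ m, Continuous (g m))
    (hu : ¬ (range g0).Countable) :
    ∃ h : (ℕ → Bool) → ℕ → ℕ, Continuous h ∧ ∀ σ τ, σ ≠ τ → ∀ m, g0 (h σ) ≠ g m (h τ) := by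
  classical
  let cy : (ℕ → ℕ) × ℕ → Set (ℕ → ℕ) := fun c => cylinder c.1 c.2
  let P : (ℕ → ℕ) × ℕ → Prop := fun c => ¬ (g0 '' cy c).Countable
  let le : (ℕ → ℕ) × ℕ → (ℕ → ℕ) × ℕ → Prop := fun c d => d.2 ≤ c.2 ∧ cy c ⊆ cy d
  let Sp : ℕ → (ℕ → ℕ) × ℕ → (ℕ → ℕ) × ℕ → Prop := fun m c d =>
    ∀ x ∈ cy c, ∀ y ∈ cy d, g0 x ≠ g m y
  have sep : ∀ m c d, P c → P d → ∃ c' d', (P c' ∧ le c' c) ∧ (P d' ∧ le d' d) ∧ Sp m c' d' := by
    intro m c d hc hd
    obtain ⟨y, a1, -, a2⟩ := exists_ker g0 hd countable_empty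
    obtain ⟨x, a3, a4, a5⟩ := exists_ker g0 hc (countable_singleton (g m y))
    obtain ⟨U, V, b1, b2, b3, b4, b5⟩ := t2_separation (show g0 x ≠ g m y from a4)
    obtain ⟨n, b6⟩ := cyl_sub (b1.preimage h0) b3
    obtain ⟨k, b7⟩ := cyl_sub (b2.preimage (hg m)) b4
    exact ⟨(x, max n c.2), (y, max k d.2), ⟨a5 _, le_max_right _ _, cyl_ext a3 (le_max_right _ _)⟩,
      ⟨a2 _, le_max_right _ _, cyl_ext a1 (le_max_right _ _)⟩, fun x' hx y' hy e =>
      disjoint_left.1 b5 (b6 (cylinder_anti x (le_max_left _ _) hx))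
        (e ▸ b7 (cylinder_anti y (le_max_left _ _) hy))⟩
  have ref : ∀ (ι : Type) (L : List (ι × ι × ℕ)) (c : ι → (ℕ → ℕ) × ℕ), (∀ i, P (c i)) →
      ∃ c' : ι → (ℕ → ℕ) × ℕ, (∀ i, P (c' i) ∧ le (c' i) (c i)) ∧
        ∀ t ∈ L, t.1 ≠ t.2.1 → Sp t.2.2 (c' t.1) (c' t.2.1) := by
    intro ι L
    induction L with
    | nil => exact fun c hc => ⟨c, fun i => ⟨hc i, le_rfl, Subset.rfl⟩, by simp⟩
    | cons t L ih =>
      intro c hc
      obtain ⟨c1, d1, a1, a2, a3⟩ := sep t.2.2 _ _ (hc t.1) (hc t.2.1)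
      have a4 : ∀ i, P (if i = t.1 then c1 else if i = t.2.1 then d1 else c i) ∧
          le (if i = t.1 then c1 else if i = t.2.1 then d1 else c i) (c i) := fun i => by
        split_ifs with b1 b2
        exacts [b1 ▸ a1, b2 ▸ a2, ⟨hc i, le_rfl, Subset.rfl⟩]
      obtain ⟨c', a5, a6⟩ := ih _ fun i => (a4 i).1
      refine ⟨c', fun i => ⟨(a5 i).1, (a4 i).2.1.trans (a5 i).2.1, (a5 i).2.2.trans (a4 i).2.2⟩,
        List.forall_mem_cons.2 ⟨fun b1 x hx y hy => ?_, a6⟩⟩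
      have b2 := (a5 _).2.2 hx
      have b3 := (a5 _).2.2 hy
      rw [if_pos rfl] at b2
      rw [if_neg b1.symm, if_pos rfl] at b3
      exact a3 x b2 y b3
  have step : ∀ (n : ℕ) (c : {c : (Fin n → Bool) → (ℕ → ℕ) × ℕ // ∀ s, P (c s)}),
      ∃ c' : {c : (Fin (n + 1) → Bool) → (ℕ → ℕ) × ℕ // ∀ s, P (c s)},
        (∀ s, n + 1 ≤ (c'.1 s).2 ∧ cy (c'.1 s) ⊆ cy (c.1 (Fin.init s))) ∧
        ∀ s t, s ≠ t → ∀ m ≤ n, Sp m (c'.1 s) (c'.1 t) := by
    intro n c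
    choose x a1 _ a2 using fun s : Fin (n + 1) → Bool =>
      exists_ker g0 (c.2 (Fin.init s)) countable_empty
    obtain ⟨c', a3, a4⟩ := ref _ (Finset.univ ×ˢ Finset.univ ×ˢ Finset.range (n + 1)).toList
      (fun s => (x s, max (n + 1) (c.1 (Fin.init s)).2)) fun s => a2 s _
    exact ⟨⟨c', fun s => (a3 s).1⟩, fun s => ⟨(le_max_left _ _).trans (a3 s).2.1,
      (a3 s).2.2.trans (cyl_ext (a1 s) (le_max_right _ _))⟩, fun s t h m hm =>
      a4 (s, t, m) (by simpa using Nat.lt_succ_of_le hm) h⟩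
  choose F h1 h2 using step
  let C : ∀ n, {c : (Fin n → Bool) → (ℕ → ℕ) × ℕ // ∀ s, P (c s)} := fun n =>
    Nat.rec ⟨fun _ => (id, 0), fun _ => by simpa [P, cy] using hu⟩ F n
  let D : (ℕ → Bool) → ℕ → (ℕ → ℕ) × ℕ := fun σ n => (C n).1 fun i => σ i
  have h3 : ∀ σ, Antitone fun n => cy (D σ n) := fun σ =>
    antitone_nat_of_succ_le fun n => (h1 n (C n) fun i => σ i).2
  have h4 : ∀ σ n, (fun k => (D σ (k + 1)).1 k) ∈ cy (D σ n) := fun σ n i hi => by
    have b1 := self_mem_cylinder (D σ (max n (i + 1))).1 (D σ (max n (i + 1))).2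
    exact (h3 σ (le_max_right n (i + 1)) b1 i (h1 i (C i) fun j => σ j).1).symm.trans
      (h3 σ (le_max_left n (i + 1)) b1 i hi)
  refine ⟨fun σ k => (D σ (k + 1)).1 k, continuous_pi fun k =>
    (continuous_of_discreteTopology (f := fun s : Fin (k + 1) → Bool => ((C (k + 1)).1 s).1 k)).comp
      (continuous_pi fun i => continuous_apply _), fun σ τ h m => ?_⟩
  obtain ⟨j, hj⟩ := Function.ne_iff.1 h
  exact h2 (max j m) (C _) (fun i => σ i) (fun i => τ i) (fun e => hj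
    (congrFun e ⟨j, Nat.lt_succ_of_le (le_max_left _ _)⟩)) m (le_max_right _ _) _
    (h4 σ (max j m + 1)) _ (h4 τ (max j m + 1))

theorem exists_ptree {H : (ℕ → Bool) → Rr} (hc : Continuous H) (hi : Function.Injective H) :
    ∃ Q, PerfectTree Q ∧ ∀ D, Branch Q D → D ∈ range H := by
  classical
  have key : ∀ s : List Bool, decide (∃ σ k, encode ((List.range k).map (H σ)) = encode s) = true ↔
      ∃ σ k, (List.range k).map (H σ) = s := fun s => by
    simp only [decide_eq_true_iff, encode_inj]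
  refine ⟨fun n => decide (∃ σ k, encode ((List.range k).map (H σ)) = n),
    ⟨(key _).2 ⟨default, 0, rfl⟩, fun s t h1 h2 => ?_, fun s h1 => ?_⟩, fun D h => ?_⟩
  · obtain ⟨σ, k, rfl⟩ := (key _).1 h2
    refine (key _).2 ⟨σ, min s.length k, ?_⟩
    rw [List.prefix_iff_eq_take.1 h1, ← List.map_take, List.take_range]
    simp
  · obtain ⟨σ, k, rfl⟩ := (key _).1 h1
    obtain ⟨n, hn⟩ := cyl_sub ((isOpen_cylinder _ (H σ) k).preimage hc) (self_mem_cylinder _ _)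
    have a1 : Function.update σ n (!σ n) ∈ cylinder σ n := fun i h =>
      Function.update_of_ne h.ne _ _
    have a2 : Function.update σ n (!σ n) ≠ σ := fun e => by simpa using congrFun e n
    generalize Function.update σ n (!σ n) = τ at a1 a2
    have a3 : ∃ j, H τ j ≠ H σ j := Function.ne_iff.1 (hi.ne a2)
    have a4 : (List.range (Nat.find a3)).map (H τ) = (List.range (Nat.find a3)).map (H σ) :=
      List.map_congr_left fun i h => not_not.1 (Nat.find_min a3 (List.mem_range.1 h))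
    have a5 : k ≤ Nat.find a3 := not_lt.1 fun h => Nat.find_spec a3 (hn a1 _ h)
    have a6 := (key _).2 ⟨σ, Nat.find a3 + 1, rfl⟩
    have a7 := (key _).2 ⟨τ, Nat.find a3 + 1, rfl⟩
    rw [List.range_succ, List.map_append, List.map_singleton] at a6 a7
    rw [a4] at a7
    have a8 := Nat.find_spec a3
    refine ⟨(List.range (Nat.find a3)).map (H σ), List.prefix_iff_eq_take.2 (by
      rw [← List.map_take, List.take_range]
      simp [a5]), ?_⟩
    generalize H σ (Nat.find a3) = b at a6 a8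
    generalize H τ (Nat.find a3) = b' at a7 a8
    cases b <;> cases b'
    exacts [(a8 rfl).elim, ⟨a7, a6⟩, ⟨a6, a7⟩, (a8 rfl).elim]
  · refine (isCompact_range hc).isClosed.closure_subset (mem_closure_iff.2 fun U hU hD => ?_)
    obtain ⟨n, hn⟩ := cyl_sub hU hD
    obtain ⟨σ, k, h1⟩ := (key _).1 (h n)
    obtain rfl : k = n := by simpa using congrArg List.length h1
    exact ⟨H σ, hn fun i h2 => List.map_inj_left.1 h1 i (List.mem_range.2 h2), σ, rfl⟩

theorem term_var {n : ℕ} (t : LT.Term (Fin n)) : ∃ i, t = .var i := by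
  cases t with
  | var i => exact ⟨i, rfl⟩
  | func f _ => exact f.elim

theorem meas_sat {n : ℕ} (φ : Fml LT n) :
    ∀ v : Fin n → ℕ, Measurable fun D : Rr => φ.Sat (M := Str D) v := by
  induction φ with
  | eq t u =>
    obtain ⟨i, rfl⟩ := term_var t
    obtain ⟨j, rfl⟩ := term_var u
    exact fun v => measurable_const (a := v i = v j)
  | rel r ts =>
    intro v
    choose s hs using fun i => term_var (ts i)
    obtain rfl := funext hs
    change Measurable fun D : Rr =>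
      D (encode ((show ℕ × List ℕ from r), List.ofFn fun i => v (s i))) = true
    fun_prop
  | neg φ ih => exact fun v => (ih v).not
  | conj f ih => exact fun v => Measurable.forall fun i => ih i v
  | all φ ih =>
    intro v
    have := Measurable.forall fun x : ℕ => ih (Fin.snoc v x)
    exact this

theorem meas_bf (D' : Rr) {β : Ordinal.{0}} (hβ : β < w1) :
    ∀ n a a', Measurable fun D : Rr => bf D D' β n a a' := by
  induction β using WellFoundedLT.induction with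
  | ind β ih =>
    intro n a a'
    have := (ctble_Iio hβ).to_subtype
    have e : (fun D : Rr => bf D D' β n a a') = fun D => AE D D' a a' ∧
        ∀ γ : Iio β, BF (bf D D' γ) a a' := funext fun D =>
      propext (bfe_iff.trans (and_congr ae_iff ⟨fun h γ => h γ.1 γ.2, fun h γ hγ => h ⟨γ, hγ⟩⟩))
    rw [e]
    refine Measurable.and (by unfold AE; fun_prop) (Measurable.forall fun γ => ?_)
    have h := ih γ.1 γ.2 (lt_trans γ.2 hβ)
    exact (Measurable.forall fun x => Measurable.exists fun y => h _ _ _).and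
      (Measurable.forall fun y => Measurable.exists fun x => h _ _ _)

theorem exists_reps {ι : Type} {J : Type*} [Countable ι] [Countable J] {ψ : Fml LT 0}
    (hs : Scattered (fun _ => True) ψ) (p : ι → J → Rr → Prop) (hp : ∀ i j, Measurable (p i j))
    (hi : ∀ D D', (Str D ≃[LT] Str D') → ∀ i, ∃ i', ∀ j, p i j D ↔ p i' j D') :
    ∃ S : Set (Rr × ι), S.Countable ∧ ∀ D i, Mod ψ D →
      ∃ q ∈ S, Mod ψ q.1 ∧ ∀ j, p i j D ↔ p q.2 j q.1 := by
  classical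
  let ρ : Rr → ι → J → Bool := fun D i j => decide (p i j D)
  have hρ : Measurable ρ := measurable_pi_lambda _ fun i => measurable_pi_lambda _ fun j =>
    measurable_to_bool (by simpa [ρ, preimage] using measurableSet_setOfPred.2 (hp i j))
  have key : ∀ i, ((fun D => ρ D i) '' {D | Mod ψ D}).Countable := fun i0 => by
    by_contra h
    have h1 := (measurableSet_setOfPred.2 (meas_sat ψ Fin.elim0)).analyticSet_image
      (measurable_id.prodMk hρ)
    rw [MeasureTheory.AnalyticSet] at h1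
    obtain ⟨f, hf, h2⟩ := h1.resolve_left fun h1 => h (by
      rw [show {D | Mod ψ D} = ∅ from image_eq_empty.1 h1]
      simp)
    have h3 : ∀ x, Mod ψ (f x).1 ∧ (f x).2 = ρ (f x).1 := fun x => by
      obtain ⟨D, a1, a2⟩ := h2.subset ⟨x, rfl⟩
      rw [← a2]
      exact ⟨a1, rfl⟩
    have : Nonempty ι := ⟨i0⟩
    obtain ⟨e, he⟩ := exists_surjective_nat ι
    obtain ⟨g, h4, h5⟩ := exists_cantor (g0 := fun x => (f x).2 i0) (g := fun m x => (f x).2 (e m))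
      (by fun_prop) (fun m => by fun_prop) fun h4 => h (h4.mono (by
        rintro _ ⟨D, a1, rfl⟩
        obtain ⟨x, a2⟩ := h2.superset ⟨D, a1, rfl⟩
        exact ⟨x, by simp only [a2]⟩))
    have h6 : ∀ σ τ, (Str (f (g σ)).1 ≃[LT] Str (f (g τ)).1) → σ = τ := fun σ τ E => by
      by_contra a1
      obtain ⟨i, a2⟩ := hi _ _ E i0
      obtain ⟨m, rfl⟩ := he i
      refine h5 σ τ a1 m ?_
      rw [(h3 _).2, (h3 (g τ)).2]
      exact funext fun j => decide_eq_decide.2 (a2 j)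
    obtain ⟨Q, h7, h8⟩ := exists_ptree (H := fun σ => (f (g σ)).1) (by fun_prop) fun σ τ E =>
      h6 σ τ (by rw [show (f (g σ)).1 = (f (g τ)).1 from E])
    refine hs ⟨Q, trivial, h7, fun D _ a1 => ?_, fun D D' _ _ a1 a2 ⟨E, _⟩ => ?_⟩
    · obtain ⟨σ, rfl⟩ := h8 D a1
      exact (h3 _).1
    · obtain ⟨σ, rfl⟩ := h8 D a1
      obtain ⟨τ, rfl⟩ := h8 D' a2
      rw [h6 σ τ E]
  have := fun i => (key i).to_subtype
  choose r h1 h2 using fun (q : Σ i, (fun D => ρ D i) '' {D | Mod ψ D}) => q.2.2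
  refine ⟨range fun q => (r q, q.1), countable_range _, fun D i h =>
    ⟨_, ⟨⟨i, _, D, h, rfl⟩, rfl⟩, h1 _, fun j => ?_⟩⟩
  exact decide_eq_decide.1 (congrFun (h2 ⟨i, _, D, h, rfl⟩) j).symm

theorem exists_types {ψ : Fml LT 0} (hs : Scattered (fun _ => True) ψ) {β : Ordinal.{0}}
    (hβ : β < w1) : ∀ n, ∃ S : Set (Rr × (Fin n → ℕ)), S.Countable ∧ ∀ D a, Mod ψ D →
      ∃ q ∈ S, bf D q.1 β n a q.2 := by
  induction β using WellFoundedLT.induction with
  | ind β ih =>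
    intro n
    have := (ctble_Iio hβ).to_subtype
    choose S h1 h2 using fun γ : Iio β => ih γ.1 γ.2 (lt_trans γ.2 hβ) (n + 1)
    have := fun γ => (h1 γ).to_subtype
    obtain ⟨S', h3, h4⟩ := exists_reps (ι := Fin n → ℕ) (J := (Fin n × Fin n) ⊕
      (Σ k, (ℕ × List ℕ) × (Fin k → Fin n)) ⊕ Σ γ, S γ) hs (fun a j D => j.elim
        (fun j => a j.1 = a j.2) (Sum.elim
          (fun j => D (encode (j.2.1, List.ofFn fun i => a (j.2.2 i))) = true)
          fun j => ∃ x, bf D j.2.1.1 j.1 (n + 1) (Fin.snoc a x) j.2.1.2)) (by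
      rintro a (j | j | j)
      · exact measurable_const
      · change Measurable fun D : Rr => D _ = true
        fun_prop
      · exact Measurable.exists fun x => meas_bf _ (lt_trans j.1.2 hβ) _ _ _) (by
      intro D D' e a
      have b1 := ae_iff.1 (AtEq.iso e a)
      refine ⟨e ∘ a, ?_⟩
      rintro (j | j | j)
      · exact b1.1 _ _
      · exact b1.2 _ _ _
      · exact ⟨fun ⟨x, h⟩ => ((BFE.iso e _ a).forth (lt_add_one _) x).imp fun _ h' =>
          h'.symm.trans h, fun ⟨x, h⟩ => ((BFE.iso e _ a).back (lt_add_one _) x).imp fun _ h' =>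
          h'.trans h⟩)
    refine ⟨S', h3, fun D a hD => ?_⟩
    obtain ⟨q, b1, b2, b3⟩ := h4 D a hD
    refine ⟨q, b1, bfe_iff.2 ⟨ae_iff.2 ⟨fun i j => b3 (.inl (i, j)),
      fun k r s => b3 (.inr (.inl ⟨k, r, s⟩))⟩, fun γ hγ => ⟨fun x => ?_, fun y => ?_⟩⟩⟩
    · obtain ⟨r, b4, b5⟩ := h2 ⟨γ, hγ⟩ D (Fin.snoc a x) hD
      exact ((b3 (.inr (.inr ⟨⟨γ, hγ⟩, r, b4⟩))).1 ⟨x, b5⟩).imp fun _ h => b5.trans h.symm
    · obtain ⟨r, b4, b5⟩ := h2 ⟨γ, hγ⟩ q.1 (Fin.snoc q.2 y) b2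
      exact ((b3 (.inr (.inr ⟨⟨γ, hγ⟩, r, b4⟩))).2 ⟨y, b5⟩).imp fun _ h => h.trans b5.symm

theorem few_of_stab {ψ : Fml LT 0} (hs : Scattered (fun _ => True) ψ) {α : Ordinal.{0}}
    (hα : α < w1) (h : ∀ D, Mod ψ D → Stab LT (Str D) α) : Few (fun _ => True) ψ := by
  choose S h1 h2 using exists_types hs (succ_lt_w1 hα)
  have := fun n => (h1 n).to_subtype
  obtain ⟨S', h3, h4⟩ := exists_reps (ι := Unit) (J := Σ n, S n) hs
    (fun _ j D => ∃ a, bf D j.2.1.1 (α + 1) j.1 a j.2.1.2)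
    (fun _ j => Measurable.exists fun a => meas_bf _ (succ_lt_w1 hα) _ _ _)
    fun D D' e _ => ⟨(), fun j => ⟨fun ⟨a, h⟩ => ⟨e ∘ a, (BFE.iso e _ a).symm.trans h⟩,
      fun ⟨a, h⟩ => ⟨e.symm ∘ a, (BFE.iso e.symm _ a).symm.trans h⟩⟩⟩
  obtain ⟨f, hf⟩ := countable_iff_exists_subset_range.1 h3
  refine ⟨fun m => (f m.unpair.1).1 m.unpair.2, trivial, fun D _ hD => ?_⟩
  obtain ⟨q, a1, a2, a3⟩ := h4 D () hD
  obtain ⟨n, rfl⟩ := hf a1
  have a4 : ∀ k a, ∃ b, bf D (f n).1 (α + 1) k a b := fun k a => by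
    obtain ⟨r, b1, b2⟩ := h2 k D a hD
    exact ((a3 ⟨k, r, b1⟩).1 ⟨a, b2⟩).imp fun _ h => b2.trans h.symm
  obtain ⟨b, a5⟩ := a4 0 Fin.elim0
  obtain rfl : b = Fin.elim0 := Subsingleton.elim _ _
  obtain ⟨E, a6⟩ := bnf (B := bf D (f n).1 α) (a5.mono (lt_add_one _).le)
    (sy_iff.2 fun k a b h1 => by
      obtain ⟨b', b1⟩ := a4 k a
      exact b1.trans (h _ a2 k _ _ ((b1.mono (lt_add_one _).le).symm.trans h1)))
    fun _ _ _ h => ae_iff.1 (BFE.at h)
  exact ⟨n, iso_iff.2 ⟨E, trivial, by simpa only [Nat.unpair_pair] using a6⟩⟩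

theorem Tr.few (T : Tr) {ψ : Fml LT 0} (h : ∀ D, Mod ψ D → IsM T.In (Str D))
    (hs : Scattered (fun _ => True) ψ) : Few (fun _ => True) ψ := by
  obtain ⟨S, h1, h2⟩ := exists_reps (ι := ℕ) (J := ℕ × ℕ) hs
    (fun x j D => r1 (M := Str D) (.R j.1 j.2) x) (fun x j =>
      meas_bit (f := fun D : Rr => D (@encode ((ℕ × List ℕ) × List ℕ) _
        ((Rl.R j.1 j.2).cd, List.ofFn ![x])))
        (measurable_pi_apply (X := fun _ => Bool) _)) fun D D' e x => ⟨e x, fun j =>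
      (e.map_rel (Rl.R j.1 j.2).cd ![x]).symm.trans (rel1 _ _)⟩
  have := h1.to_subtype
  choose l h3 h4 using T.exists_Cs
  obtain ⟨α, h5, h6⟩ := exists_bound (fun q : S => ω * (l (tp (M := Str q.1.1) q.1.2) + ω + 1))
    fun q => bd_lt (h3 _)
  refine few_of_stab hs h5 fun D hD => ?_
  obtain ⟨t, b, a1, -, ⟨e⟩⟩ := (h D hD).classify
  obtain ⟨q, a2, -, a3⟩ := h2 D (e ⟨.inl t, self_mem_orb t⟩) hD
  have a4 : tp (M := Str q.1) q.2 = t := (funext fun j => decide_eq_decide.2 ((a3 j).symm.trans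
    ((rel1 _ _).symm.trans (e.map_rel (Rl.R j.1 j.2).cd ![⟨.inl t, self_mem_orb t⟩])))).trans
    (Tr.tp_inl (T := T) (b := b) (x := ⟨.inl t, self_mem_orb t⟩) rfl)
  obtain ⟨γ, a5, a6⟩ := Tr.stab_of_Cs a1 (h4 t)
  have a7 := h6 ⟨q, a2⟩
  rw [a4] at a7
  exact fun n a b hab => (a6.iso e.symm).all _ (hab.mono (a5.trans a7.le))

theorem and_mem : ∀ᶠ Z in Cf, ∀ T φ : Fml LT 0, Reals (MM Z) T.code → Reals (MM Z) φ.code →
    Reals (MM Z) (T.and φ).code := by
  filter_upwards [shoen (fun X a b _ (_ : Unit) => ∀ j : Jt,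
    (X ((encode ([] : List ℕ)).pair (encode j)) = true ↔ j = (3, (0, []), [])) ∧ ∀ k u,
      X ((encode (k :: u)).pair (encode j)) = true ↔
        (k = 0 ∧ a ((encode u).pair (encode j)) = true) ∨
        (k ≠ 0 ∧ b ((encode u).pair (encode j)) = true)) (by fun_prop)] with Z h T φ hT hφ
  have key : ∀ j : Jt, ((T.and φ).code ((encode ([] : List ℕ)).pair (encode j)) = true ↔
      j = (3, (0, []), [])) ∧ ∀ k u, (T.and φ).code ((encode (k :: u)).pair (encode j)) = true ↔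
        (k = 0 ∧ T.code ((encode u).pair (encode j)) = true) ∨
        (k ≠ 0 ∧ φ.code ((encode u).pair (encode j)) = true) := fun j =>
    ⟨code_pair, fun k u => by
      simp only [code_pair]
      by_cases hk : k = 0 <;> simp [Fml.and, Fml.lab, hk]⟩
  obtain ⟨X, h1, h2⟩ := h _ _ _ hT hφ hT ⟨_, fun _ => key⟩
  refine (show X = (T.and φ).code from funext fun n => ?_) ▸ h1
  obtain ⟨⟨a, b⟩, rfl⟩ := Nat.pairEquiv.surjective n
  obtain ⟨u, rfl⟩ := (Denumerable.eqv (List ℕ)).surjective a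
  obtain ⟨j, rfl⟩ := (Denumerable.eqv Jt).surjective b
  refine Bool.eq_iff_iff.2 ?_
  cases u with
  | nil => exact (h2 () j).1.trans (key j).1.symm
  | cons k u => exact ((h2 () j).2 k u).trans ((key j).2 k u).symm

theorem main2 (q : Zt) : ∃ (T : Fml LT 0) (Z : Zt), range q ⊆ range Z ∧
    (fun i _ _ => T.code i = true) ∈ range Z ∧
    (∀ β < w1, ∃ (M : Type) (_ : LT.Structure M), Countable M ∧ Infinite M ∧
      T.Sat (Fin.elim0 : Fin 0 → M) ∧ β ≤ SR LT M) ∧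
    (∀ φ : Fml LT 0, Reals (fun z => ∃ α, Lh Z α z) φ.code → ∃ α < w1, ∃ p : Prop,
      ∀ (M : Type) [LT.Structure M], T.Sat (Fin.elim0 : Fin 0 → M) → α ≤ SR LT M →
        (φ.Sat (Fin.elim0 : Fin 0 → M) ↔ p)) ∧
    ∀ φ : Fml LT 0, Scattered (fun _ => True) (T.and φ) → Few (fun _ => True) (T.and φ) := by
  have := (measurableSet_setOfPred.2 (meas_Wit q)).analyticSet
  rw [MeasureTheory.AnalyticSet] at this
  obtain ⟨f, hf, hw⟩ := this.resolve_left fun h => by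
    obtain ⟨w, hw, -⟩ := exists_wit q (fun _ => true) om_lt_w1
    exact (h ▸ (show w ∈ {w | Wit q w} from hw) : w ∈ (∅ : Set _))
  have hw' : ∀ w, Wit q w ↔ ∃ z, f z = w := fun w => (Set.ext_iff.1 hw w).symm
  have hs : ∀ (M : Type) [LT.Structure M] (v : Fin 0 → M),
      (TT (xf f)).Sat v ↔ IsM (trf f).In M := fun M _ v => by rw [sat_TT, inX_xf]; rfl
  refine ⟨TT (xf f), ZZ q (xf f), fun _ ⟨k, hk⟩ => ⟨k + 1, hk⟩, ⟨0, rfl⟩, fun β hβ => ?_,
    fun φ h => ?_, fun φ => (trf f).few fun D h => (hs _ _).1 (sat_and.1 h).1⟩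
  · obtain ⟨t, σ, δ, a1, a2, a3, a4⟩ := exists_high hw' (mul_lt_w1 om_lt_w1 hβ)
    exact ⟨(trf f).Md (orb t) fun _ => 1, _, inferInstance,
      .of_injective (fun n : ℕ => ⟨.inr (n, 1), one_mem _⟩)
      fun _ _ h => (Prod.mk.inj (Sum.inr.inj (congrArg Subtype.val h))).1,
      (hs _ _).2 (Tr.isM_can a1), (trf f).le_sr_can a2 a3 a4⟩
  · obtain ⟨γ, h1, p, h2⟩ := decide_side hf (fun z => (hw' _).2 ⟨z, rfl⟩) h
    obtain ⟨β, h3, h4⟩ := (trf f).decided h1 h2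
    exact ⟨β, h3, p, fun M _ hM => h4 M ((hs _ _).1 hM)⟩

theorem final2 : ∃ Z : Zt, Fact ((fun _ _ _ => True) ∈ range Z) ∧
    ∃ T, MinTheory (Reals (MM Z)) T ∧ ∀ φ : Fml LT 0, Reals (MM Z) φ.code →
      Scattered (Reals (MM Z)) (T.and φ) → Few (Reals (MM Z)) (T.and φ) := by
  obtain ⟨q, hq⟩ := cf_seq ((cf_mem fun _ _ _ => True).and (((ub_abs True).and
    (ub_abs False)).and (sc_abs.and (few_abs.and and_mem))))
  obtain ⟨T, Z, h1, h2, h3, h4, h0⟩ := main2 q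
  obtain ⟨h5, ⟨h6, h7⟩, h8, h9, h10⟩ := hq Z h1
  have : Fact ((fun i _ _ => T.code i = true) ∈ range Z) := ⟨h2⟩
  have hT : Reals (MM Z) T.code :=
    reals_of (fun x => NR (fun i _ _ => T.code i = true) x x x) (by simp)
  refine ⟨Z, h5, T, ⟨hT, fun φ hφ => ?_⟩, fun φ a1 a2 =>
    h9 _ (h10 T φ hT a1) (h0 φ (h8 _ (h10 T φ hT a1) a2))⟩
  have e1 : Unbdd (Reals (MM Z)) (T.and φ) ↔ UB (fun _ => True) T φ True := by
    rw [← h6 T φ hT hφ]
    simp only [Unbdd, UB, Mod, sat_and, iff_true]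
  have e2 : Unbdd (Reals (MM Z)) (T.and φ.neg) ↔ UB (fun _ => True) T φ False := by
    rw [← h7 T φ hT hφ]
    simp only [Unbdd, UB, Mod, sat_and, iff_false, Fml.Sat]
  obtain ⟨α, a1, p, a2⟩ := h4 φ hφ
  have key : ∀ p', UB (fun _ => True) T φ p' ↔ (p ↔ p') := fun p' => by
    refine ⟨fun h => ?_, fun h W _ hW => ?_⟩
    · obtain ⟨W, hW, a3⟩ := exists_wo a1
      obtain ⟨D, -, ⟨a4, a5⟩, a6⟩ := h W trivial hW
      exact (a2 _ a4 (a3.trans a6)).symm.trans a5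
    · obtain ⟨M, _, _, _, a3, a4⟩ := h3 _ (max_lt a1 (lt_w1_iff.2 (show (type (wr W)).card ≤ _ by
        simp)))
      obtain ⟨D, ⟨e⟩⟩ := exists_str M
      rw [← sr_iso e, max_le_iff] at a4
      rw [← sat_iso e] at a3
      exact ⟨D, trivial, ⟨a3, (a2 _ a3 a4.1).trans h⟩, a4.2⟩
  rw [e1, e2, key, key]
  by_cases p <;> simp [*]

end Pool.Agent.P.MP_b0885c_lc
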