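import Pool.Agent.P.MP_b0885c_lc.Defs

namespace Pool.Agent.P.MP_b0885c_lc

open Ordinal Set

universe u v

/-- the first uncountable ordinal -/
noncomputable abbrev w1 : Ordinal.{0} := Ordinal.omega.{0} 1

theorem lt_w1_iff {a : Ordinal.{0}} : a < w1 ↔ a.card ≤ Cardinal.aleph0 := by
  rw [w1, ← Cardinal.ord_aleph, Cardinal.lt_ord, ← Cardinal.succ_aleph0, Order.lt_succ_iff]

theorem add_lt_w1 {a b : Ordinal.{0}} (ha : a < w1) (hb : b < w1) : a + b < w1 := by
  rw [lt_w1_iff] at *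
  rw [card_add]
  exact (add_le_add ha hb).trans (by simp)

theorem mul_lt_w1 {a b : Ordinal.{0}} (ha : a < w1) (hb : b < w1) : a * b < w1 := by
  rw [lt_w1_iff] at *
  rw [card_mul]
  exact (mul_le_mul' ha hb).trans (by simp)

theorem om_lt_w1 : (ω : Ordinal.{0}) < w1 := omega0_lt_omega_one

theorem nat_lt_w1 (n : ℕ) : (n : Ordinal.{0}) < w1 := (natCast_lt_omega0 n).trans om_lt_w1

theorem succ_lt_w1 {a : Ordinal.{0}} (ha : a < w1) : a + 1 < w1 :=
  add_lt_w1 ha (by simpa using nat_lt_w1 1)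

theorem ctble_Iio {a : Ordinal.{0}} (ha : a < w1) : (Iio a).Countable := by
  rw [lt_w1_iff] at ha
  rw [← Cardinal.le_aleph0_iff_set_countable, Cardinal.mk_Iio_ordinal]
  exact Cardinal.lift_le_aleph0.2 ha

theorem exists_bound {ι : Type u} [Countable ι] (f : ι → Ordinal.{0}) (h : ∀ i, f i < w1) :
    ∃ b < w1, ∀ i, f i < b := by
  refine ⟨(⨆ i, f i) + 1, succ_lt_w1 (Ordinal.iSup_lt_omega_one h), fun i => ?_⟩
  have : BddAbove (range f) := ⟨w1, by rintro _ ⟨i, rfl⟩; exact (h i).le⟩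
  exact (le_ciSup this i).trans_lt (lt_add_one _)

theorem om_mul_add_lt {a b : Ordinal.{0}} (h : a < b) (k : ℕ) : ω * a + k < ω * b := by
  have h1 : ω * (a + 1) ≤ ω * b := by gcongr; exact Order.add_one_le_of_lt h
  refine lt_of_lt_of_le ?_ h1
  rw [mul_add, mul_one]
  exact (add_lt_add_iff_left _).2 (natCast_lt_omega0 k)

/-- `x` has rank at least `θ` for the relation `r` -/
def Rk {α : Type u} (r : α → α → Prop) (θ : Ordinal.{0}) (x : α) : Prop :=
  ∀ μ : Ordinal.{0}, ∀ _ : μ < θ, ∃ y, r y x ∧ Rk r μ y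
termination_by θ

section
variable {α : Type u} {r : α → α → Prop}

theorem rk_iff {θ : Ordinal.{0}} {x : α} : Rk r θ x ↔ ∀ μ < θ, ∃ y, r y x ∧ Rk r μ y := by
  rw [Rk]

theorem Rk.mono {θ θ' : Ordinal.{0}} {x : α} (h : Rk r θ x) (h' : θ' ≤ θ) : Rk r θ' x :=
  rk_iff.2 fun μ hμ => rk_iff.1 h μ (hμ.trans_le h')

theorem rk_zero (x : α) : Rk r 0 x := rk_iff.2 fun μ hμ => by simp at hμ

theorem rk_succ {θ : Ordinal.{0}} {x : α} : Rk r (θ + 1) x ↔ ∃ y, r y x ∧ Rk r θ y :=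
  ⟨fun h => rk_iff.1 h θ (lt_add_one _), fun ⟨y, h1, h2⟩ => rk_iff.2 fun _ hμ =>
    ⟨y, h1, h2.mono (Order.lt_add_one_iff.1 hμ)⟩⟩

/-- exact rank -/
def Ex (r : α → α → Prop) (θ : Ordinal.{0}) (x : α) : Prop := Rk r θ x ∧ ¬ Rk r (θ + 1) x

theorem exists_ex_lt {θ : Ordinal.{0}} {x : α} (h : ¬ Rk r θ x) : ∃ μ < θ, Ex r μ x := by
  induction θ using WellFoundedLT.induction with
  | ind θ ih =>
    rw [rk_iff] at h
    push Not at h
    obtain ⟨μ, hμ, h⟩ := h
    by_cases h2 : Rk r μ x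
    · exact ⟨μ, hμ, h2, fun h3 => let ⟨y, h4, h5⟩ := rk_succ.1 h3; h y h4 h5⟩
    · obtain ⟨ν, h3, h4⟩ := ih μ hμ h2
      exact ⟨ν, h3.trans hμ, h4⟩

theorem Ex.rk_iff {θ μ : Ordinal.{0}} {x : α} (h : Ex r θ x) : Rk r μ x ↔ μ ≤ θ :=
  ⟨fun h1 => by
    by_contra h2
    exact h.2 (h1.mono (Order.add_one_le_of_lt (not_le.1 h2))), fun h1 => h.1.mono h1⟩

theorem exists_ex_desc {γ κ : Ordinal.{0}} {x : α} (h : Rk r γ x) (h' : ¬ Rk r κ x) :
    ∃ y, Relation.ReflTransGen r y x ∧ Ex r γ y := by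
  induction κ using WellFoundedLT.induction generalizing x with
  | ind κ ih =>
    by_cases h2 : Rk r (γ + 1) x
    · obtain ⟨y, h3, h4⟩ := rk_succ.1 h2
      rw [rk_iff] at h'
      push Not at h'
      obtain ⟨μ, hμ, h'⟩ := h'
      obtain ⟨z, h5, h6⟩ := ih μ hμ h4 (h' y h3)
      exact ⟨z, h5.tail h3, h6⟩
    · exact ⟨x, .refl, h, h2⟩

theorem Rk.map {β : Type v} {s : β → β → Prop} (R : α → β → Prop)
    (hR : ∀ x x' y, R x x' → r y x → ∃ y', R y y' ∧ s y' x') {θ : Ordinal.{0}} {x : α} {x' : β}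
    (hx : R x x') (h : Rk r θ x) : Rk s θ x' := by
  induction θ using WellFoundedLT.induction generalizing x x' with
  | ind θ ih =>
    refine rk_iff.2 fun μ hμ => ?_
    obtain ⟨y, h1, h2⟩ := rk_iff.1 h μ hμ
    obtain ⟨y', h3, h4⟩ := hR x x' y hx h1
    exact ⟨y', h4, ih μ hμ h3 h2⟩

theorem acc_of_not_rk {θ : Ordinal.{0}} {x : α} (h : ¬ Rk r θ x) : Acc r x := by
  induction θ using WellFoundedLT.induction generalizing x with
  | ind θ ih =>
    rw [rk_iff] at h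
    push Not at h
    obtain ⟨μ, hμ, h⟩ := h
    exact ⟨_, fun y hy => ih μ hμ (h y hy)⟩

theorem acc_bound [Countable α] {x : α} (h : Acc r x) : ∃ θ < w1, ¬ Rk r θ x := by
  induction h with
  | intro x _ ih =>
    choose f hf1 hf2 using ih
    obtain ⟨b, hb, hb2⟩ := exists_bound (fun y : {y // r y x} => f y.1 y.2) fun y => hf1 y.1 y.2
    refine ⟨b + 1, succ_lt_w1 hb, fun h => ?_⟩
    obtain ⟨y, h1, h2⟩ := rk_succ.1 h
    exact hf2 y h1 (h2.mono (hb2 ⟨y, h1⟩).le)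

theorem exists_stab [Countable α] (r : α → α → Prop) :
    ∃ l < w1, ∀ x, Rk r l x → ∀ θ, Rk r θ x := by
  have : ∀ x, ∃ θ < w1, Rk r θ x → ∀ θ', Rk r θ' x := fun x => by
    by_cases h : ∀ θ', Rk r θ' x
    · exact ⟨0, nat_lt_w1 0, fun _ => h⟩
    · push Not at h
      obtain ⟨θ, h⟩ := h
      obtain ⟨θ', h1, h2⟩ := acc_bound (acc_of_not_rk h)
      exact ⟨θ', h1, fun h3 => (h2 h3).elim⟩
  choose f hf1 hf2 using this
  obtain ⟨b, hb, hb2⟩ := exists_bound f hf1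
  exact ⟨b, hb, fun x hx => hf2 x (hx.mono (hb2 x).le)⟩

theorem wf_bound [Countable α] (h : WellFounded r) : ∃ b < w1, ∀ x, ¬ Rk r b x := by
  choose f hf1 hf2 using fun x => acc_bound (h.apply x)
  obtain ⟨b, hb, hb2⟩ := exists_bound f hf1
  exact ⟨b, hb, fun x hx => hf2 x (hx.mono (hb2 x).le)⟩

end

/-- initial segment of a sequence, newest entry first -/
def pre (s : ℕ → ℕ) : ℕ → List ℕ
  | 0 => []
  | n + 1 => s n :: pre s n

@[simp] theorem length_pre (s : ℕ → ℕ) (n : ℕ) : (pre s n).length = n := by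
  induction n <;> simp [pre, *]

theorem pre_congr {s s' : ℕ → ℕ} {n : ℕ} (h : ∀ i < n, s i = s' i) : pre s n = pre s' n := by
  induction n with
  | zero => rfl
  | succ n ih => simp only [pre]; rw [h n (by omega), ih fun i hi => h i (by omega)]

theorem pre_inj {s s' : ℕ → ℕ} {n : ℕ} (h : pre s n = pre s' n) : ∀ i < n, s i = s' i := by
  induction n with
  | zero => simp
  | succ n ih =>
    simp only [pre, List.cons.injEq] at h
    intro i hi
    rcases Nat.lt_succ_iff_lt_or_eq.1 hi with h1 | rfl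
    · exact ih h.2 i h1
    · exact h.1

theorem pre_eq (l : List ℕ) {s : ℕ → ℕ} (h : ∀ k < l.length, s k = l.reverse.getD k 0) :
    pre s l.length = l := by
  induction l with
  | nil => rfl
  | cons c l ih =>
    simp only [List.length_cons, pre]
    rw [ih fun k hk => ?_, h _ (by simp)]
    · simp
    · rw [h k (by simp; omega), List.reverse_cons, List.getD_append _ _ _ _ (by simpa)]

theorem pre_suffix (s : ℕ → ℕ) {m n : ℕ} (h : m ≤ n) : pre s m <:+ pre s n := by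
  induction h with
  | refl => exact List.suffix_rfl
  | step _ ih => exact ih.trans (List.suffix_cons _ _)

theorem exists_seq (l : ℕ → List ℕ) (h1 : ∀ n, l n <:+ l (n + 1))
    (h2 : ∀ n, (l n).length < (l (n + 1)).length) :
    ∃ s : ℕ → ℕ, ∀ n, pre s (l n).length = l n ∧ n ≤ (l n).length := by
  have hm : ∀ m n, m ≤ n → l m <:+ l n := fun m n h => by
    induction h with
    | refl => exact List.suffix_rfl
    | step _ ih => exact ih.trans (h1 _)
  have hl : ∀ n, n ≤ (l n).length := fun n => by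
    induction n with
    | zero => simp
    | succ n ih => have := h2 n; omega
  have key : ∀ m n k, m ≤ n → k < (l m).length →
      (l n).reverse.getD k 0 = (l m).reverse.getD k 0 := fun m n k h hk => by
    obtain ⟨t, ht⟩ := hm m n h
    rw [← ht, List.reverse_append, List.getD_append _ _ _ _ (by simpa)]
  refine ⟨fun k => (l (k + 1)).reverse.getD k 0, fun n => ⟨pre_eq _ fun k hk => ?_, hl n⟩⟩
  rcases le_total n (k + 1) with h | h
  · exact key _ _ _ h hk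
  · exact (key _ _ _ h (hl _)).symm

/-- child relation of a tree -/
def ch (P : List ℕ → Prop) (a b : List ℕ) : Prop := P a ∧ ∃ c, a = c :: b

theorem bounded {S : Set (List ℕ → Bool)} (hS : MeasureTheory.AnalyticSet S)
    (h : ∀ τ ∈ S, ∀ s : ℕ → ℕ, ¬ ∀ N, ∃ n ≥ N, τ (pre s n) = true) :
    ∃ b < w1, ∀ τ ∈ S, ∀ σ, ¬ Rk (ch fun a => τ a = true) b σ := by
  rw [MeasureTheory.AnalyticSet] at hS
  rcases hS with rfl | ⟨g, hg, rfl⟩
  · exact ⟨0, nat_lt_w1 0, by simp⟩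
  let R : List ℕ × List ℕ → List ℕ × List ℕ → Prop := fun p q =>
    q.1 <:+ p.1 ∧ q.1.length < p.1.length ∧ (∃ c, p.2 = c :: q.2) ∧
      ∀ s, pre s p.1.length = p.1 → g s p.2 = true
  have hwf : WellFounded R := by
    rw [wellFounded_iff_isEmpty_descending_chain]
    refine ⟨fun ⟨f, hf⟩ => ?_⟩
    obtain ⟨s, hs⟩ := exists_seq (fun n => (f n).1) (fun n => (hf n).1) fun n => (hf n).2.1
    obtain ⟨s', hs'⟩ := exists_seq (fun n => (f n).2)
      (fun n => by obtain ⟨c, hc⟩ := (hf n).2.2.1; rw [hc]; exact List.suffix_cons _ _)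
      fun n => by obtain ⟨c, hc⟩ := (hf n).2.2.1; rw [hc]; simp
    refine h _ ⟨s, rfl⟩ s' fun N => ⟨_, (Nat.le_succ N).trans (hs' (N + 1)).2, ?_⟩
    rw [(hs' (N + 1)).1]
    exact (hf N).2.2.2 s (hs (N + 1)).1
  obtain ⟨b, hb, hb2⟩ := wf_bound hwf
  refine ⟨b, hb, ?_⟩
  rintro _ ⟨s, rfl⟩ σ hσ
  refine hb2 ([], σ) (Rk.map (fun σ p => p.2 = σ ∧ ∃ k, p.1 = pre s k) ?_ ⟨rfl, 0, rfl⟩ hσ)
  rintro _ ⟨_, a⟩ y ⟨rfl, k, rfl⟩ ⟨h1, c, rfl⟩
  have ho : IsOpen {s | g s (c :: a) = true} :=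
    (isOpen_discrete {true}).preimage ((continuous_apply _).comp hg)
  obtain ⟨I, u, hu, hsub⟩ := isOpen_pi_iff.1 ho s h1
  obtain ⟨K, hK⟩ := I.finite_toSet.bddAbove
  refine ⟨(pre s (max k K + 1), c :: a), ⟨rfl, _, rfl⟩, pre_suffix s (by omega), by simp,
    ⟨c, rfl⟩, fun s' hs' => hsub fun i hi => ?_⟩
  simp only [length_pre] at hs'
  rw [pre_inj hs' i (by have := hK hi; omega)]
  exact (hu i hi).2

end Pool.Agent.P.MP_b0885c_lc
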