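import Pool.Agent.P.MP_b0885c_lc.ZF

namespace Pool.Agent.P.MP_b0885c_lc

open Set Ordinal Filter Encodable

section
variable {Z : Zt}

theorem kt (a : MT Z) (Γ : MT Z → MT Z → Prop) (hd : DM fun v => Γ (v 0) (v 1))
    (mono : ∀ S S', (∀ x, x ∈ S → x ∈ S') → ∀ x, Γ S x → Γ S' x) :
    ∃ S : MT Z, ∀ x, x ∈ S ↔ x ∈ a ∧ Γ S x := by
  have : ∀ t u [TM t] [TM u], DM fun v => Γ (t v) (u v) := fun _ _ _ _ => hd.app2
  obtain ⟨G, hG⟩ := sep a fun x => ∃ S : MT Z, x ∈ S ∧ ∀ y, y ∈ S → y ∈ a ∧ Γ S y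
  have h1 : ∀ x, x ∈ G → x ∈ a ∧ Γ G x := fun x hx =>
    let ⟨h1, S, h2, h3⟩ := (hG x).1 hx
    ⟨h1, mono S G (fun y hy => (hG y).2 ⟨(h3 y hy).1, S, hy, h3⟩) x (h3 x h2).2⟩
  obtain ⟨G', hG'⟩ := sep a fun x => Γ G x
  exact ⟨G, fun x => ⟨h1 x, fun h => (hG x).2 ⟨h.1, G', (hG' x).2 h, fun y hy =>
    ⟨((hG' y).1 hy).1, mono G G' (fun z hz => (hG' z).2 (h1 z hz)) y ((hG' y).1 hy).2⟩⟩⟩⟩

/-- the levels as elements -/
noncomputable def lv (α : Ordinal.{0}) : MT Z :=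
  ⟨(exists_lv Z α).choose, _, (exists_lv Z α).choose_spec.1⟩

theorem mem_lv {α : Ordinal.{0}} {x : MT Z} : x ∈ lv α ↔ Lh Z α x.1 :=
  (exists_lv Z α).choose_spec.2 _

theorem lv_mem {α β : Ordinal.{0}} (h : α < β) : (lv α : MT Z) ∈ lv β :=
  mem_lv.2 ((exists_lv Z α).choose_spec.1.mono (Order.add_one_le_of_lt h))

theorem le_rank_lv (α : Ordinal.{0}) : α ≤ (lv α : MT Z).1.rank := by
  induction α using WellFoundedLT.induction with
  | ind α ih => exact not_lt.1 fun h => (ih _ h).not_gt (ZFSet.rank_lt_of_mem (lv_mem h))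

theorem exists_sup {ι : Type 1} [Small.{0} ι] (f : ι → MT Z) :
    ∃ a : MT Z, (∀ i, f i ∈ a) ∧ ∀ x y, x ∈ a → y ∈ x → y ∈ a :=
  let ⟨γ, h⟩ := bound (fun i => (f i).1) fun i => (f i).2
  ⟨lv γ, fun i => mem_lv.2 (h i), fun _ _ h1 h2 => mem_lv.2 ((mem_lv.1 h1).trans h2)⟩

instance (a : MT Z) : Small.{0} {x // x ∈ a} := small_of a.1 fun _ h => h

theorem dep_ch (r : MT Z → MT Z → Prop) (hd : DM fun v => r (v 0) (v 1)) (p : ℕ → MT Z)
    (hp : ∀ n, r (p (n + 1)) (p n)) : ∃ p' : ℕ → MT Z, p' 0 = p 0 ∧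
      (∀ n, r (p' (n + 1)) (p' n)) ∧ ∃ B : MT Z, ∀ x, x ∈ B ↔ ∃ n, x = pr (nu n) (p' n) := by
  have : ∀ t u [TM t] [TM u], DM fun v => r (t v) (u v) := fun _ _ _ _ => hd.app2
  obtain ⟨N, hN, -⟩ := exists_sup fun n : ULift.{1} ℕ => p n.down
  let r' := fun q x => q ∈ N ∧ r q x
  have h1 : ∀ x : {x // x ∈ N}, ∃ θ, Rk r' θ x.1 → ∀ θ', Rk r' θ' x.1 := fun x => by
    by_cases h : ∀ θ', Rk r' θ' x.1
    · exact ⟨0, fun _ => h⟩
    · exact (not_forall.1 h).imp fun _ h h' => (h h').elim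
  choose θ h1 using h1
  obtain ⟨K, h2, hK⟩ := exists_sup fun _ : PUnit => (lv (⨆ x, θ x) : MT Z)
  obtain ⟨A, hA, -⟩ := exists_sup fun q : {x // x ∈ N} × {x // x ∈ K} => pr q.1.1 q.2.1
  obtain ⟨S, hS⟩ := kt A (fun S y => ∃ x b, y = pr x b ∧ ∀ c, c ∈ b →
    ∃ q, (q ∈ N ∧ r q x) ∧ pr q c ∈ S) inferInstance fun S S' h y ⟨x, b, h1, h2⟩ =>
      ⟨x, b, h1, fun c hc => (h2 c hc).imp fun q hq => ⟨hq.1, h _ hq.2⟩⟩
  have h3 : ∀ b, b ∈ K → ∀ x, x ∈ N → (pr x b ∈ S ↔ Rk r' b.1.rank x) := fun b => by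
    induction b using MT.wf.induction with
    | _ b ih =>
      intro hb x hx
      rw [hS, rk_iff]
      refine ⟨fun ⟨_, x', b', h3, h4⟩ μ hμ => ?_, fun h => ⟨hA (⟨x, hx⟩, ⟨b, hb⟩), x, b, rfl,
        fun c hc => (h _ (ZFSet.rank_lt_of_mem hc)).imp fun q hq =>
          ⟨hq.1, (ih c hc (hK _ _ hb hc) q hq.1.1).2 hq.2⟩⟩⟩
      obtain ⟨rfl, rfl⟩ := pr_inj.1 h3
      obtain ⟨c, h5, h6⟩ := ZFSet.lt_rank_iff.1 hμ
      obtain ⟨q, h7, h8⟩ := h4 ⟨c, b.2.trans h5⟩ h5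
      exact ⟨q, h7, ((ih _ h5 (hK _ _ hb h5) q h7.1).1 h8).mono h6⟩
  generalize hl : (lv (⨆ x, θ x) : MT Z) = a0 at h2
  let nx := fun x q : MT Z => ((q ∈ N ∧ r q x) ∧ pr q a0 ∈ S) ∧
    ∀ b, ((b ∈ N ∧ r b x) ∧ pr b a0 ∈ S) → b = q ∨ om q b
  have h4 : ∀ x : {x // x ∈ N ∧ pr x a0 ∈ S}, ∃! q, nx x q := fun x => om_min _ (by
    obtain ⟨q, h4, h5⟩ := rk_succ.1 (h1 ⟨_, x.2.1⟩ (((h3 _ (h2 ⟨⟩) _ x.2.1).1 x.2.2).mono
      ((Ordinal.le_iSup θ _).trans (hl ▸ le_rank_lv _))) (a0.1.rank + 1))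
    exact ⟨q, h4, (h3 _ (h2 ⟨⟩) _ h4.1).2 h5⟩)
  choose g h4 using h4
  have h5 : ∀ θ n, Rk r' θ (p n) := fun θ => by
    induction θ using WellFoundedLT.induction with
    | ind θ ih => exact fun n => rk_iff.2 fun μ hμ => ⟨_, ⟨hN ⟨_⟩, hp n⟩, ih μ hμ _⟩
  let s : ℕ → {x // x ∈ N ∧ pr x a0 ∈ S} := fun n => Nat.rec
    ⟨p 0, hN ⟨0⟩, (h3 _ (h2 ⟨⟩) _ (hN ⟨0⟩)).2 (h5 _ 0)⟩
    (fun _ x => ⟨g x, (h4 x).1.1.1.1, (h4 x).1.1.2⟩) n
  obtain ⟨A', hA', -⟩ := exists_sup fun n : ULift.{1} ℕ => pr (nu n.down) (s n.down).1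
  obtain ⟨B, hB⟩ := kt A' (fun B y => y = pr emp (p 0) ∨ ∃ c x q, pr c x ∈ B ∧ nx x q ∧
    y = pr (ins c c) q) (by unfold nx; infer_instance) fun S S' h y hy => hy.imp_right
      fun ⟨c, x, q, h1, h2⟩ => ⟨c, x, q, h _ h1, h2⟩
  have h6 : ∀ c x, pr c x ∈ B → ∃ n, c = nu n ∧ x = (s n).1 := fun c => by
    induction c using MT.wf.induction with
    | _ c ih =>
      intro x hx
      rcases ((hB _).1 hx).2 with h | ⟨c', x', q, h6, h7, h⟩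
      · exact ⟨0, pr_inj.1 h⟩
      · obtain ⟨rfl, rfl⟩ := pr_inj.1 h
        obtain ⟨n, rfl, rfl⟩ := ih c' (by simp) x' h6
        exact ⟨n + 1, rfl, (h4 _).2 _ h7⟩
  refine ⟨fun n => (s n).1, rfl, fun n => (h4 _).1.1.1.2, B, fun y => ⟨fun hy => ?_, ?_⟩⟩
  · obtain ⟨c, x, rfl⟩ : ∃ c x, y = pr c x :=
      ((hB _).1 hy).2.elim (fun h => ⟨_, _, h⟩) fun ⟨_, _, _, _, _, h⟩ => ⟨_, _, h⟩
    obtain ⟨n, rfl, rfl⟩ := h6 c x hy
    exact ⟨n, rfl⟩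
  · rintro ⟨n, rfl⟩
    induction n with
    | zero => exact (hB _).2 ⟨hA' ⟨0⟩, .inl rfl⟩
    | succ n ih => exact (hB _).2 ⟨hA' ⟨n + 1⟩, .inr ⟨_, _, _, ih, (h4 _).1, rfl⟩⟩

theorem reals_of [Fact ((fun _ _ _ => True) ∈ range Z)] {X : ℕ → Bool} (P : MT Z → Prop)
    [DM fun v => P (v 0)] (h : ∀ n, P (nu n) ↔ X n = true) : Reals (MM Z) X := by
  obtain ⟨w, hw⟩ := exists_om (Z := Z)
  obtain ⟨z, hz⟩ := sep w P
  refine ⟨z.1, z.2, fun x => ⟨fun hx => ?_, ?_⟩⟩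
  · obtain ⟨h1, h2⟩ := (hz ⟨x, z.2.trans hx⟩).1 hx
    obtain ⟨n, h3⟩ := (hw _).1 h1
    exact ⟨n, (h n).1 (h3 ▸ h2), congrArg Subtype.val h3⟩
  · rintro ⟨n, h1, rfl⟩
    exact (hz (nu n)).2 ⟨(hw _).2 ⟨n, rfl⟩, (h n).2 h1⟩

theorem Reals.elt {X : ℕ → Bool} (h : Reals (MM Z) X) :
    ∃ z : MT Z, ∀ n, nu n ∈ z ↔ X n = true :=
  let ⟨z, h1, h2⟩ := h
  ⟨⟨z, h1⟩, fun _ => (h2 _).trans ⟨fun ⟨_, h3, h4⟩ => num_inj h4 ▸ h3, fun h => ⟨_, h, rfl⟩⟩⟩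

end

/-- the filter of sufficiently rich families -/
def Cf : Filter Zt where
  sets := {p | ∃ S : Set (ℕ → ℕ → ℕ → Prop), S.Countable ∧ ∀ Z, S ⊆ range Z → Z ∈ p}
  univ_sets := ⟨∅, countable_empty, fun _ _ => trivial⟩
  sets_of_superset := fun ⟨S, h1, h2⟩ h => ⟨S, h1, fun Z hZ => h (h2 Z hZ)⟩
  inter_sets := fun ⟨S, h1, h2⟩ ⟨S', h3, h4⟩ => ⟨S ∪ S', h1.union h3, fun Z hZ =>
    ⟨h2 Z (subset_union_left.trans hZ), h4 Z (subset_union_right.trans hZ)⟩⟩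

instance : CountableInterFilter Cf := ⟨fun T hT h => by
  choose S h1 h2 using h
  have := hT.to_subtype
  exact ⟨⋃ t : T, S t.1 t.2, countable_iUnion fun t => h1 _ _, fun Z hZ t ht =>
    h2 t ht Z ((subset_iUnion (fun t : T => S t.1 t.2) ⟨t, ht⟩).trans hZ)⟩⟩

theorem cf_mem (r : ℕ → ℕ → ℕ → Prop) : ∀ᶠ Z in Cf, Fact (r ∈ range Z) :=
  ⟨{r}, countable_singleton r, fun _ h => ⟨h rfl⟩⟩

theorem cf_seq {p : Zt → Prop} (h : ∀ᶠ Z in Cf, p Z) : ∃ q : Zt, ∀ Z, range q ⊆ range Z → p Z := by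
  obtain ⟨S, h1, h2⟩ := h
  obtain ⟨q, hq⟩ := (h1.insert fun _ _ _ => True).exists_eq_range (insert_nonempty _ _)
  exact ⟨q, fun Z hZ => h2 Z ((subset_insert _ _).trans (hq ▸ hZ))⟩

theorem clos (g : ℕ → ℕ ⊕ ℕ) : ∀ᶠ Z in Cf, ∀ y y', Reals (MM Z) y → Reals (MM Z) y' →
    Reals (MM Z) fun n => (g n).elim y y' := by
  filter_upwards [cf_mem fun _ _ _ => True, cf_mem fun n i _ => g n = .inl i,
    cf_mem fun n i _ => g n = .inr i] with Z _ _ _ y y' h h'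
  obtain ⟨z, hz⟩ := h.elt
  obtain ⟨z', hz'⟩ := h'.elt
  refine reals_of (fun a => ∃ b, (NR (fun n i _ => g n = .inl i) a b b ∧ b ∈ z) ∨
    (NR (fun n i _ => g n = .inr i) a b b ∧ b ∈ z')) fun n => ⟨?_, fun h => ?_⟩
  · simp only [nr_iff, nu_inj]
    rintro ⟨_, ⟨⟨_, i, _, rfl, rfl, -, h⟩, h1⟩ | ⟨⟨_, i, _, rfl, rfl, -, h⟩, h1⟩⟩ <;> simp_all
  · rcases hg : g n with i | i <;> exact ⟨nu i, by simp_all⟩

theorem exists_tree {A : Set (ℕ → Bool)} (hA : MeasureTheory.AnalyticSet A) :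
    ∃ t : List ℕ → List Bool → Prop, ∀ W, W ∉ A ↔
      WellFounded (ch fun σ => t σ ((List.range σ.length).map W)) := by
  rw [MeasureTheory.AnalyticSet] at hA
  rcases hA with rfl | ⟨f, hf, rfl⟩
  · exact ⟨fun _ _ => False, fun W => iff_of_true id ⟨fun _ => ⟨_, fun _ h => h.1.elim⟩⟩⟩
  refine ⟨fun σ w => ∃ s, pre s σ.length = σ ∧ (List.range σ.length).map (f s) = w, fun W => ?_⟩
  rw [wellFounded_iff_isEmpty_descending_chain]
  refine ⟨fun h => ⟨fun ⟨l, hl⟩ => h ?_⟩, ?_⟩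
  · obtain ⟨s, hs⟩ := exists_seq l
      (fun n => by obtain ⟨c, hc⟩ := (hl n).2; rw [hc]; exact List.suffix_cons _ _)
      fun n => by obtain ⟨c, hc⟩ := (hl n).2; rw [hc]; simp
    choose s' h1 h2 using fun n => (hl n).1
    have h3 : Tendsto s' atTop (nhds s) := tendsto_pi_nhds.2 fun i =>
      tendsto_atTop_of_eventually_const (i₀ := i) fun n hn =>
        pre_inj ((h1 n).trans (hs _).1.symm) i (by have := (hs (n + 1)).2; omega)
    exact ⟨s, funext fun i => tendsto_nhds_unique (tendsto_pi_nhds.1 ((hf.tendsto s).comp h3) i)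
      (tendsto_atTop_of_eventually_const (i₀ := i) fun n hn => List.map_inj_left.1 (h2 n) i
        (List.mem_range.2 (by have := (hs (n + 1)).2; omega)))⟩
  · rintro ⟨h⟩ ⟨s, rfl⟩
    exact h ⟨pre s, fun n => ⟨⟨s, by simp, rfl⟩, _, rfl⟩⟩

/-- decoding of finite binary words -/
def dl (m : ℕ) : List Bool := (decode m).getD []

theorem shoen0 {A : Set (ℕ → Bool)} (hA : MeasureTheory.AnalyticSet A) :
    ∀ᶠ Z in Cf, ∀ y W, Reals (MM Z) y → W ∉ A → (∀ i, W (2 * i + 1) = y i) →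
      ∃ W ∉ A, Reals (MM Z) W ∧ ∀ i, W (2 * i + 1) = y i := by
  obtain ⟨t, ht⟩ := exists_tree hA
  let r1 := fun m m' n => (∃ b, dl m' = dl m ++ [b]) ∧ n = (dl m).length
  let r2 := fun m i k : ℕ => (dl m)[2 * i + 1]? = some (decide (k = 0))
  let r3 := fun j l m : ℕ => ∀ W : ℕ → Bool, (List.range (dl m).length).map W = dl m →
    ch (fun σ => t σ ((List.range σ.length).map W)) (Denumerable.ofNat _ l) (Denumerable.ofNat _ j)
  let r4 := fun m i _ : ℕ => (dl m)[i]? = some true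
  filter_upwards [cf_mem fun _ _ _ => True, cf_mem r1, cf_mem r2, cf_mem r3, cf_mem r4]
    with Z _ _ _ _ _ y W hy hW h0
  obtain ⟨z, hz⟩ := hy.elt
  have hd : ∀ w, dl (encode w) = w := fun w => by simp [dl]
  have hr : ∀ (W : ℕ → Bool) (n i : ℕ) b, ((List.range n).map W)[i]? = some b ↔ i < n ∧ W i = b :=
    fun W n i b => by by_cases h : i < n <;> simp [h]
  have : IsWellFounded _ _ := ⟨(ht W).1 hW⟩
  let ρ := fun k => (lv (IsWellFounded.rank (ch fun σ => t σ ((List.range σ.length).map W))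
    (Denumerable.ofNat _ k)) : MT Z)
  let G : ℕ → MT Z := fun n => Nat.rec emp (fun k g => ins (pr (nu k) (ρ k)) g) n
  have hG : ∀ n x, x ∈ G n → ∃ k, x = pr (nu k) (ρ k) := fun n => by
    induction n with
    | zero => exact fun _ h => (mem_emp h).elim
    | succ n ih => exact fun x h => (mem_ins.1 h).elim (fun h => ⟨n, h⟩) (ih x)
  obtain ⟨p, h1, h2, B, hB⟩ := dep_ch (fun q x => ∃ m g m' g' n a, x = pr m g ∧ q = pr m' g' ∧
      NR r1 m m' n ∧ pr n a ∈ g' ∧ (∀ z, z ∈ g → z ∈ g') ∧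
      (∀ i k, NR r2 m' i k → (i ∈ z ↔ k = emp)) ∧
      ∀ j l a b, pr j a ∈ g' → pr l b ∈ g' → NR r3 j l m' → b ∈ a) inferInstance
    (fun n => pr (nu (encode ((List.range n).map W))) (G n)) fun n =>
      ⟨_, _, _, _, nu n, ρ n, rfl, rfl, by simp [r1, hd, List.range_succ], mem_ins.2 (.inl rfl),
        fun _ h => mem_ins.2 (.inr h), fun i k h => by
          obtain ⟨_, i, k, h1, rfl, rfl, h⟩ := nr_iff.1 h
          obtain rfl := nu_inj.1 h1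
          simp only [r2, hd, hr] at h
          rw [hz, ← h0, show emp = nu 0 from rfl, nu_inj, h.2, decide_eq_true_iff],
        fun j l a b h1 h2 h3 => by
          obtain ⟨j, h1⟩ := hG (n + 1) _ h1
          obtain ⟨l, h2⟩ := hG (n + 1) _ h2
          obtain ⟨rfl, rfl⟩ := pr_inj.1 h1
          obtain ⟨rfl, rfl⟩ := pr_inj.1 h2
          exact lv_mem (IsWellFounded.rank_lt_of_rel (nr_nu.1 h3 W (by simp [hd])))⟩
  choose m g m' g' n a e1 e2 e3 e4 e5 e6 e7 using h2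
  choose i j l e8 e9 e10 e11 e12 using fun k => nr_iff.1 (e3 k)
  choose b e11 using e11
  have e13 : ∀ k, m (k + 1) = m' k ∧ g (k + 1) = g' k := fun k =>
    pr_inj.1 ((e1 _).symm.trans (e2 k))
  have e14 : ∀ k, dl (i k) = (List.range k).map b := fun k => by
    induction k with
    | zero => rw [nu_inj.1 ((e8 0).trans (pr_inj.1 ((e1 0).symm.trans h1)).1), hd]; rfl
    | succ k ih => simp [nu_inj.1 ((e8 _).trans ((e13 k).1.trans (e9 k).symm)), e11, ih,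
        List.range_succ]
  have e15 : ∀ k, dl (j k) = (List.range (k + 1)).map b := fun k => by
    simp [e11, e14, List.range_succ]
  have e16 : ∀ k k', k ≤ k' → pr (nu k) (a k) ∈ g' k' := fun k k' h => by
    induction h with
    | refl => simpa [← e10, e12, e14] using e4 k
    | step _ ih => exact e5 _ _ ((e13 _).2 ▸ ih)
  refine ⟨b, (ht b).2 (Subrelation.wf (fun {σ' σ} h => ?_)
    (InvImage.wf (fun σ => a (encode σ)) MT.wf)), reals_of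
    (fun x => ∃ c m g, pr c (pr m g) ∈ B ∧ NR r4 m x x) fun k => ⟨?_, fun h => ?_⟩, fun k => ?_⟩
  · refine e7 (encode σ + encode σ' + σ'.length) _ _ _ _ (e16 _ _ (by omega)) (e16 _ _ (by omega))
      (e9 _ ▸ nr_nu.2 fun W h1 => ?_)
    simp only [e15, List.length_map, List.length_range, List.map_inj_left,
      List.mem_range] at h1
    simp only [Denumerable.ofNat_encode]
    refine ⟨?_, h.2⟩
    beta_reduce
    rw [List.map_congr_left fun k hk => h1 k (by simp at hk; omega)]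
    exact h.1
  · rintro ⟨c, m1, g1, h2, h3⟩
    obtain ⟨k', h2⟩ := (hB _).1 h2
    rw [e1, pr_inj, pr_inj, ← e8] at h2
    rw [h2.2.1, nr_nu] at h3
    simp only [r4, e14, hr] at h3
    exact h3.2
  · exact ⟨_, _, _, (hB _).2 ⟨k + 1, congrArg _ (e2 k).symm⟩, by simp [← e9, r4, e15, h]⟩
  · have := e6 (2 * k + 1) (nu k) (nu (if b (2 * k + 1) then 0 else 1))
      (by cases h : b (2 * k + 1) <;> simp [← e9, r2, e15, h])
    rw [hz, show emp = nu 0 from rfl, nu_inj] at this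
    rw [Bool.eq_iff_iff, this]
    simp

theorem shoen1 {Y : Type} [MeasurableSpace Y] [StandardBorelSpace Y]
    (P : (ℕ → Bool) → (ℕ → Bool) → Y → Prop)
    (hP : Measurable fun q : (ℕ → Bool) × (ℕ → Bool) × Y => P q.1 q.2.1 q.2.2) :
    ∀ᶠ Z in Cf, ∀ y, Reals (MM Z) y → (∃ X, ∀ u, P X y u) → ∃ X, Reals (MM Z) X ∧ ∀ u, P X y u := by
  have h1 : Measurable fun q : (ℕ → Bool) × Y =>
      ¬ P (fun i => q.1 (2 * i)) (fun i => q.1 (2 * i + 1)) q.2 :=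
    (hP.comp (f := fun q : (ℕ → Bool) × Y =>
      ((fun i => q.1 (2 * i)), (fun i => q.1 (2 * i + 1)), q.2)) (by fun_prop)).not
  filter_upwards [shoen0 ((measurableSet_setOfPred.2 h1).analyticSet_image measurable_fst),
    clos fun n => .inl (2 * n)] with Z h2 h3 y hy ⟨X, hX⟩
  have h4 : ∀ i, (2 * i + 1) / 2 = i := fun i => by omega
  obtain ⟨W, h5, h6, h7⟩ := h2 y (fun n => if n % 2 = 0 then X (n / 2) else y (n / 2)) hy
    (fun ⟨q, h5, h6⟩ => h5 (by simpa [h6, h4] using hX q.2)) (by simp [h4])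
  exact ⟨_, h3 W W h6 h6, fun u => not_not.1 fun h => h5 ⟨(W, u), by simpa [h7] using h, rfl⟩⟩

theorem shoen {Y : Type} [MeasurableSpace Y] [StandardBorelSpace Y]
    (P : (ℕ → Bool) → (ℕ → Bool) → (ℕ → Bool) → (ℕ → Bool) → Y → Prop)
    (hP : Measurable fun q : (ℕ → Bool) × (ℕ → Bool) × (ℕ → Bool) × (ℕ → Bool) × Y =>
      P q.1 q.2.1 q.2.2.1 q.2.2.2.1 q.2.2.2.2) :
    ∀ᶠ Z in Cf, ∀ a b c, Reals (MM Z) a → Reals (MM Z) b → Reals (MM Z) c →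
      (∃ X, ∀ u, P X a b c u) → ∃ X, Reals (MM Z) X ∧ ∀ u, P X a b c u := by
  filter_upwards [shoen1 (fun X y u => P X (fun i => y (2 * i)) (fun i => y (2 * (2 * i) + 1))
    (fun i => y (2 * (2 * i + 1) + 1)) u) (hP.comp
      (f := fun q : (ℕ → Bool) × (ℕ → Bool) × Y => (q.1, (fun i => q.2.1 (2 * i)),
      (fun i => q.2.1 (2 * (2 * i) + 1)), (fun i => q.2.1 (2 * (2 * i + 1) + 1)), q.2.2))
      (by fun_prop)), clos fun n => if n % 2 = 0 then .inl (n / 2) else .inr (n / 2)]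
    with Z h1 h2 a b c ha hb hc
  have h4 : ∀ i, (2 * i + 1) / 2 = i := fun i => by omega
  simpa [h4] using h1 _ (h2 _ _ ha (h2 _ _ hb hc))

end Pool.Agent.P.MP_b0885c_lc
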