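import Pool.Agent.P.MP_b0885c_lc.Wit

namespace Pool.Agent.P.MP_b0885c_lc

open Set Encodable Filter

/-- components of a letter -/
def dc (c : ℕ) : ℕ × ℕ × ℕ × ℕ := Denumerable.ofNat _ c

section
variable (f : (ℕ → ℕ) → Idx → ℕ)

/-- the witness guessed by a sequence -/
def wz (s : ℕ → ℕ) : Idx → ℕ := f fun i => (dc (s i)).1

/-- the finite conditions -/
structure Cond (J : Re → List ℕ → Prop) (t : Re) (n : ℕ) (s : ℕ → ℕ) : Prop where
  c1 : ∀ i < n, ∀ j < n, te (oe (wz f s)) (i, j) = t (i, j)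
  c2 : ∀ i, i + 1 < n → t ((dc (s (i + 1))).2.2.2, (dc (s i)).2.2.2) = true
  c3 : ∀ k : List (ℕ × ℕ) × List ℕ, encode k < n → k.2.length < n →
    (ox (wz f s) k = true ↔ J (ind k.1) k.2)
  c4 : ∀ c ν, ν ≠ [] → encode (c :: ν) < n → ν.length + 1 < n → J t (c :: ν) →
    oR (wz f s) 0 (dc (s (encode (c :: ν)))).2.1 (dc (s (encode ν))).2.1
  c5 : ∀ (ν : List ℕ) (y c : ℕ), ν ≠ [] → c = (dc (s (encode (ν, y)))).2.2.1 → encode (c :: ν) < n →
    encode ν < n → ν.length + 1 < n → J t ν → oR (wz f s) 0 y (dc (s (encode ν))).2.1 →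
    J t (c :: ν) ∧ ¬ oR (wz f s) 0 (dc (s (encode (c :: ν)))).2.1 y

/-- the self-referential trees -/
def InT (t : Re) (σ : List ℕ) : Prop :=
  (∀ τ : List ℕ, ∀ _ : τ.length < σ.length, τ = σ.tail → InT t τ) ∧ ∃ s, pre s σ.length = σ ∧
    Cond f (fun t' ν => ∃ _ : ν.length < σ.length, InT t' ν) t σ.length s
termination_by σ.length

variable {f}

theorem Cond.congr {J J' : Re → List ℕ → Prop} {t t' : Re} {n : ℕ} {s : ℕ → ℕ}
    (h1 : ∀ r ν, ν.length < n → (J (ind r) ν ↔ J' (ind r) ν))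
    (h2 : ∀ ν, encode ν < n → ν.length < n → (J t ν ↔ J' t' ν))
    (h3 : ∀ i < n, ∀ j < n, t (i, j) = t' (i, j))
    (h4 : ∀ i < n, ∀ j < n, t ((dc (s i)).2.2.2, (dc (s j)).2.2.2) =
      t' ((dc (s i)).2.2.2, (dc (s j)).2.2.2)) (h : Cond f J t n s) : Cond f J' t' n s :=
  ⟨fun i hi j hj => h3 i hi j hj ▸ h.c1 i hi j hj,
    fun i hi => h4 _ hi i (by omega) ▸ h.c2 i hi,
    fun k hk hk' => (h.c3 k hk hk').trans (h1 _ _ hk'),
    fun c ν a b d e => h.c4 c ν a b d ((h2 _ b d).2 e),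
    fun ν y c a b d e g i j => (h.c5 ν y c a b d e g ((h2 _ e (by omega)).2 i) j).imp_left
      (h2 _ d g).1⟩

theorem inT_iff {t : Re} {σ : List ℕ} : InT f t σ ↔ (σ ≠ [] → InT f t σ.tail) ∧
    ∃ s, pre s σ.length = σ ∧ Cond f (InT f) t σ.length s := by
  rw [InT]
  refine and_congr ⟨fun h h1 => h _ (by cases σ <;> simp_all) rfl, fun h τ h1 h2 =>
    h2 ▸ h (by rintro rfl; simp at h1)⟩ (exists_congr fun s => and_congr_right fun _ => ?_)
  constructor <;> exact Cond.congr (fun _ _ h => by simp [h]) (fun _ _ h => by simp [h])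
    (fun _ _ _ _ => rfl) fun _ _ _ _ => rfl

theorem mem_pre {s : ℕ → ℕ} {i n : ℕ} (h : i < n) : s i ∈ pre s n :=
  (pre_suffix s h).subset List.mem_cons_self

theorem lc_InT (σ : List ℕ) : LC fun t => InT f t σ := by
  induction hn : σ.length using Nat.strong_induction_on generalizing σ with
  | _ n ih =>
    have : ∀ ν : List ℕ, ∃ F : Set (ℕ × ℕ), F.Finite ∧ (ν.length < n →
        ∀ t t', (∀ q ∈ F, t q = t' q) → InT f t ν → InT f t' ν) := fun ν => by
      by_cases h : ν.length < n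
      · exact (ih _ h ν rfl).imp fun F hF => ⟨hF.1, fun _ => hF.2⟩
      · exact ⟨∅, finite_empty, fun h' => (h h').elim⟩
    choose F h1 h2 using this
    refine ⟨F σ.tail ∪ (Iio n ×ˢ Iio n ∪ (image2 (fun c c' => ((dc c).2.2.2, (dc c').2.2.2))
      {c | c ∈ σ} {c | c ∈ σ} ∪ ⋃ ν ∈ {ν : List ℕ | encode ν < n}, F ν)), (h1 _).union
      (((finite_Iio n).prod (finite_Iio n)).union (((List.finite_toSet σ).image2 _
      (List.finite_toSet σ)).union (((finite_Iio n).preimage encode_injective.injOn).biUnion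
      fun ν _ => h1 ν))), fun t t' h ht => ?_⟩
    obtain ⟨h3, s, h4, h5⟩ := inT_iff.1 ht
    refine inT_iff.2 ⟨fun h6 => h2 _ (by
      rw [← hn, List.length_tail]; exact Nat.sub_lt (List.length_pos_iff.2 h6) one_pos) t t' (fun q hq => h q (.inl hq))
      (h3 h6), s, h4, h5.congr (fun _ _ _ => Iff.rfl) (fun ν h6 h7 => ?_)
      (fun i hi j hj => h _ (.inr (.inl ⟨hn ▸ hi, hn ▸ hj⟩))) fun i hi j hj =>
      h _ (.inr (.inr (.inl ⟨_, h4 ▸ mem_pre hi, _, h4 ▸ mem_pre hj, rfl⟩)))⟩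
    have h8 : ∀ q ∈ F ν, t q = t' q := fun q hq =>
      h q (.inr (.inr (.inr (mem_biUnion (show encode ν < n from hn ▸ h6) hq))))
    exact ⟨h2 ν (hn ▸ h7) _ _ h8, h2 ν (hn ▸ h7) _ _ fun q hq => (h8 q hq).symm⟩

variable (f) in
/-- the family of trees -/
def trf : Tr := ⟨InT f, fun _ _ _ h => (inT_iff.1 h).1 (by simp), fun σ => (lc_InT σ).meas⟩

open Classical in
variable (f) in
/-- the true table -/
noncomputable def xf : Tb := fun k => decide (InT f (ind k.1) k.2)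

theorem inX_xf : InX (xf f) = InT f :=
  funext₂ fun t σ => propext (inX_iff (by simp [xf]) (lc_InT σ) t)

theorem rank_iff {L : ℕ → ℕ → Prop} (hL : Lin L) {P : List ℕ → Prop} {ρ : List ℕ → ℕ}
    (ha : ∀ c ν, ν ≠ [] → P (c :: ν) → L (ρ (c :: ν)) (ρ ν))
    (hb : ∀ ν y, ν ≠ [] → P ν → L y (ρ ν) → ∃ c, P (c :: ν) ∧ ¬ L (ρ (c :: ν)) y)
    (θ : Ordinal.{0}) : ∀ ν, ν ≠ [] → P ν → (Rk (ch P) θ ν ↔ Rk L θ (ρ ν)) := by
  induction θ using WellFoundedLT.induction with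
  | ind θ ih =>
    intro ν h1 h2
    rw [rk_iff, rk_iff]
    refine forall₂_congr fun μ hμ => ⟨?_, fun ⟨y, h3, h4⟩ => ?_⟩
    · rintro ⟨_, ⟨h3, c, rfl⟩, h4⟩
      exact ⟨_, ha c ν h1 h3, (ih μ hμ _ (by simp) h3).1 h4⟩
    · obtain ⟨c, h5, h6⟩ := hb ν y h1 h2 h3
      refine ⟨_, ⟨h5, c, rfl⟩, (ih μ hμ _ (by simp) h5).2 ?_⟩
      rcases (hL.tot _ _).resolve_left h6 with rfl | h7
      · exact h4
      · exact (rk_succ.2 ⟨y, h7, h4⟩).mono (le_add_right le_rfl)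

theorem branch (hf : Continuous f) {t : Re} {s : ℕ → ℕ} (h : ∀ n, InT f t (pre s n))
    (hL : Lin (oR (wz f s) 0)) :
    te (oe (wz f s)) = t ∧ (∀ i, t ((dc (s (i + 1))).2.2.2, (dc (s i)).2.2.2) = true) ∧
    ox (wz f s) = xf f ∧ ∀ θ ν, ν ≠ [] → InT f t ν →
      (Rk (ch (InT f t)) θ ν ↔ Rk (oR (wz f s) 0) θ (dc (s (encode ν))).2.1) := by
  choose r h1 h2 using fun n => (inT_iff.1 (h n)).2
  simp only [length_pre] at h1 h2
  have h3 : ∀ i, ∀ᶠ n in atTop, r n i = s i := fun i =>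
    (eventually_gt_atTop i).mono fun n hn => pre_inj (h1 n) i hn
  have h4 : ∀ k, ∀ᶠ n in atTop, wz f (r n) k = wz f s k := fun k => by
    have : Tendsto (fun n i => (dc (r n i)).1) atTop (nhds fun i => (dc (s i)).1) :=
      tendsto_pi_nhds.2 fun i => tendsto_const_nhds.congr' ((h3 i).mono fun n hn => by simp only [hn])
    have := (((continuous_apply k).comp hf).tendsto _).comp this
    rwa [nhds_discrete, tendsto_pure] at this
  refine ⟨funext fun ⟨i, j⟩ => ?_, fun i => ?_, funext fun k => ?_,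
    rank_iff hL (ρ := fun ν => (dc (s (encode ν))).2.1) (fun c ν a b => ?_) fun ν y a b c => ?_⟩
  · obtain ⟨n, a, b, c, d⟩ := ((h4 (.inl (3, i, 0))).and ((h4 (.inl (3, j, 0))).and
      ((eventually_gt_atTop i).and (eventually_gt_atTop j)))).exists
    have e1 : oe (wz f (r n)) i = oe (wz f s) i := by rw [oe, a, oe]
    have e2 : oe (wz f (r n)) j = oe (wz f s) j := by rw [oe, b, oe]
    rw [← (h2 n).c1 i c j d]
    simp only [te, e1, e2]
  · obtain ⟨n, a, b, c⟩ := ((h3 i).and ((h3 (i + 1)).and (eventually_gt_atTop (i + 1)))).exists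
    rw [← a, ← b]
    exact (h2 n).c2 i c
  · obtain ⟨n, a, b, c⟩ := ((h4 (.inr (.inl k))).and ((eventually_gt_atTop (encode k)).and
      (eventually_gt_atTop k.2.length))).exists
    have := (h2 n).c3 k b c
    rw [ox, a] at this
    simpa [xf, ox] using this
  · obtain ⟨n, a1, a2, a3, a4, a5⟩ := ((h3 (encode (c :: ν))).and ((h3 (encode ν)).and
      ((h4 (.inl (0, (dc (s (encode (c :: ν)))).2.1, (dc (s (encode ν))).2.1))).and
      ((eventually_gt_atTop (encode (c :: ν))).and (eventually_gt_atTop (ν.length + 1)))))).exists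
    have := (h2 n).c4 c ν a a4 a5 b
    rwa [a1, a2, oR, a3] at this
  · generalize hd : (dc (s (encode (ν, y)))).2.2.1 = d
    obtain ⟨n, a0, a1, a2, a3, a4, a5, a6, a7⟩ := ((h3 (encode (ν, y))).and
      ((h3 (encode (d :: ν))).and ((h3 (encode ν)).and
      ((h4 (.inl (0, y, (dc (s (encode ν))).2.1))).and
      ((h4 (.inl (0, (dc (s (encode (d :: ν)))).2.1, y))).and
      ((eventually_gt_atTop (encode (d :: ν))).and ((eventually_gt_atTop (encode ν)).and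
      (eventually_gt_atTop (ν.length + 1))))))))).exists
    have := (h2 n).c5 ν y d a (by rw [a0, hd]) a5 a6 a7 b (by rw [a2, oR, a3]; exact c)
    rw [a1, oR, a4] at this
    exact ⟨d, this⟩

theorem meas_Rk {X α : Type} [MeasurableSpace X] [Countable α] {r : X → α → α → Prop}
    (hr : ∀ a b, Measurable (r · a b)) {γ : Ordinal.{0}} (hγ : γ < w1) :
    ∀ a, Measurable fun x => Rk (r x) γ a := by
  induction γ using WellFoundedLT.induction with
  | ind γ ih =>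
    intro a
    have := (ctble_Iio hγ).to_subtype
    have := Measurable.forall fun μ : Iio γ => Measurable.exists fun y =>
      (hr y a).and (ih μ μ.2 (μ.2.trans hγ) y)
    convert this using 2 with x
    rw [rk_iff, Subtype.forall]
    rfl

theorem decide_side {q : Zt} (hf : Continuous f) (hw : ∀ z, Wit q (f z)) {φ : Fml LT 0}
    (h : Reals (fun z => ∃ α, Lh (ZZ q (xf f)) α z) φ.code) : ∃ γ < w1, ∃ p : Prop, ∀ t σ δ, Rk (ch (InT f t)) γ σ →
      ¬ Rk (ch (InT f t)) δ σ →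
      (φ.Sat (Fin.elim0 : Fin 0 → (trf f).Md (orb t) fun _ => 1) ↔ p) := by
  classical
  obtain ⟨γ, h1, h2⟩ := wit_gen h
  rw [inX_xf] at h2
  obtain ⟨c, h3, h4⟩ := exists_cb (D := fun u j => j = φ.lab u) φ [] [] rfl fun _ => rfl
  replace h4 := fun t => h4 (trf f) t Fin.elim0 fun i => i.elim0
  have hX : ∀ k, LC fun t => XV (InT f) t k = true := by
    rintro (q | ⟨l, σ⟩)
    · exact ⟨{q}, finite_singleton q, fun t t' h h' => (h q rfl).symm.trans h'⟩
    · simpa [XV] using (lc_InT σ).md l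
  obtain ⟨θ, h5, p, h6⟩ := side hX (c := c) fun t t' a b h => (h4 t').1 (by
    rw [← Subset.antisymm (orb_sub a) (orb_sub b)]; exact (h4 t).2 h)
  have h7 : max γ θ < w1 := max_lt h1 h5
  have hm : ∀ σ, Measurable fun t => InT f t σ := (trf f).meas
  have hch : ∀ a b, Measurable fun t => ch (InT f t) a b := fun a b => (hm a).and measurable_const
  have hZ : MeasurableSet {t | ¬ (c.ev (XV (InT f) t) ↔ p) ∧
      ∃ ν, ν ≠ [] ∧ InT f t ν ∧ Ex (ch (InT f t)) (max γ θ) ν} :=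
    measurableSet_setOfPred.2 (((c.meas.comp (measurable_pi_lambda _ fun k => measurable_to_bool
      (measurableSet_setOfPred.2 (hX k).meas))).iff measurable_const).not.and (.exists fun ν =>
      measurable_const.and ((hm ν).and ((meas_Rk hch h7 ν).and (meas_Rk hch (succ_lt_w1 h7) ν).not))))
  have hg : Measurable fun (t : Re) (σ : List ℕ) => decide (InT f t σ) :=
    measurable_pi_lambda _ fun σ => measurable_to_bool (by
      simpa [preimage] using measurableSet_setOfPred.2 (hm σ))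
  obtain ⟨b, h8, h9⟩ := bounded (hZ.analyticSet_image hg) (by
    rintro _ ⟨t, ⟨a1, ν, a2, a3, a4⟩, rfl⟩ s hs
    have a5 : ∀ n, InT f t (pre s n) := fun n => by
      obtain ⟨m, a6, a7⟩ := hs n
      rw [decide_eq_true_iff] at a7
      induction a6 with
      | refl => exact a7
      | step _ ih => exact ih ((trf f).tl _ _ _ a7)
    obtain ⟨b1, -, b2, b3⟩ := branch hf a5 (hw _).1
    have b4 : Full (oR (wz f s) 0) (max γ θ) := fun μ hμ =>
      let ⟨y, _, hy⟩ := exists_ex_desc (((b3 _ ν a2 a3).1 a4.1).mono hμ.le)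
        (mt (b3 _ ν a2 a3).2 a4.2)
      ⟨y, hy⟩
    refine a1 (b1 ▸ h6 _ _ (hw _).1 (b4.mono (le_max_right _ _)) (hw _).2.1
      (h2 _ (hw _) b2 (b4.mono (le_max_left _ _)) ([], [], 1, 0) _ (.nor rfl rfl fun _ => h3))))
  refine ⟨max (max γ θ) b + 1, succ_lt_w1 (max_lt h7 h8), p, fun t σ δ a1 a2 => ?_⟩
  rw [h4]
  by_contra a3
  obtain ⟨τ, a4, a5⟩ := rk_succ.1 a1
  obtain ⟨y, a6, a7⟩ := exists_ex_desc (a5.mono (le_max_left _ _)) (κ := δ)
    fun h => a2 ((rk_succ.2 ⟨τ, a4, h⟩).mono (le_add_right le_rfl))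
  have a8 : y ≠ [] ∧ InT f t y := by
    rcases a6.cases_head with rfl | ⟨_, ⟨h, c, rfl⟩, -⟩
    · obtain ⟨h, c, rfl⟩ := a4
      exact ⟨by simp, h⟩
    · exact ⟨by simp, h⟩
  refine h9 _ ⟨t, ⟨a3, y, a8.1, a8.2, a7⟩, rfl⟩ τ ?_
  simpa using a5.mono (le_max_right _ _)

theorem exists_high {q : Zt} (hw : ∀ w, Wit q w ↔ ∃ z, f z = w) {β : Ordinal.{0}}
    (hβ : β < w1) : ∃ t σ δ, (∀ t' ∈ orb t, t ∈ orb t') ∧ InT f t σ ∧ Rk (ch (InT f t)) β σ ∧
      ¬ Rk (ch (InT f t)) δ σ := by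
  obtain ⟨w, h1, h2, h3, h4, h5⟩ := exists_wit q (xf f) (succ_lt_w1 hβ)
  obtain ⟨z, rfl⟩ := (hw w).1 h1
  obtain ⟨hL, he, -⟩ := h1
  set L := oR (f z) 0 with hL0
  set e := oe (f z) with he0
  obtain ⟨δ, -, hδ⟩ := wf_bound h3
  have key : ∀ c ν θ, InT f (te e) (c :: ν) → Rk (ch (InT f (te e))) θ (c :: ν) →
      Rk L θ (e (dc c).2.2.2).headI.1 := fun c ν θ a b => by
    refine Rk.map (fun σ y => ∃ c ν, σ = c :: ν ∧ y = (e (dc c).2.2.2).headI.1) ?_
      ⟨c, ν, rfl, rfl⟩ b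
    rintro _ _ _ ⟨c, ν, rfl, rfl⟩ ⟨a1, d, rfl⟩
    refine ⟨_, ⟨d, _, rfl, rfl⟩, ?_⟩
    obtain ⟨-, s, a2, a3⟩ := inT_iff.1 a1
    have a4 := a3.c2 ν.length (by simp)
    simp only [List.length_cons, pre, List.cons.injEq] at a2
    rw [a2.1, a2.2.1] at a4
    simp only [te, decide_eq_true_iff] at a4
    obtain ⟨x, l, hx⟩ := List.exists_cons_of_ne_nil a4.1
    obtain ⟨x', l', hx'⟩ := List.exists_cons_of_ne_nil (he (dc c).2.2.2).1
    have := (he (dc d).2.2.2).2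
    rw [hx] at this a4 ⊢
    rw [hx']
    exact this.1 x' l' (a4.2.trans hx')
  have : ∀ ν, ∃ y, ν ≠ [] → InT f (te e) ν → ∃ μ, Ex (ch (InT f (te e))) μ ν ∧ Ex L μ y := by
    rintro (_ | ⟨c, ν⟩)
    · exact ⟨0, by simp⟩
    by_cases a : InT f (te e) (c :: ν)
    · obtain ⟨μ, -, a1⟩ := exists_ex_lt fun h => hδ _ (key c ν δ a h)
      obtain ⟨y, -, a2⟩ := exists_ex_desc (key c ν μ a a1.1) (hδ _)
      exact ⟨y, fun _ _ => ⟨μ, a1, a2⟩⟩
    · exact ⟨0, fun _ h => (a h).elim⟩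
  choose ρ hρ using this
  have ha : ∀ c ν, ν ≠ [] → InT f (te e) (c :: ν) → L (ρ (c :: ν)) (ρ ν) := fun c ν a b => by
    obtain ⟨μ, a1, a2⟩ := hρ _ (by simp) b
    obtain ⟨μ', a3, a4⟩ := hρ ν a ((trf f).tl _ _ _ b)
    exact hL.below a2 (a4.1.mono (a3.rk_iff.1 (rk_succ.2 ⟨_, ⟨b, c, rfl⟩, a1.1⟩)))
  have : ∀ q : List ℕ × ℕ, ∃ c, q.1 ≠ [] → InT f (te e) q.1 → L q.2 (ρ q.1) →
      InT f (te e) (c :: q.1) ∧ ¬ L (ρ (c :: q.1)) q.2 := fun ⟨ν, y⟩ => by
    by_cases a : ν ≠ [] ∧ InT f (te e) ν ∧ L y (ρ ν)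
    · obtain ⟨μ, a1, a2⟩ := hρ ν a.1 a.2.1
      obtain ⟨μ', -, a3⟩ := exists_ex_lt (hδ y)
      obtain ⟨_, ⟨a4, c, rfl⟩, a5⟩ := rk_succ.1
        (a1.1.mono (a2.rk_iff.1 (rk_succ.2 ⟨y, a.2.2, a3.1⟩)))
      obtain ⟨μ'', a6, a7⟩ := hρ _ (by simp) a4
      exact ⟨c, fun _ _ _ => ⟨a4, fun a8 =>
        a3.2 (rk_succ.2 ⟨_, a8, a7.1.mono (a6.rk_iff.1 a5)⟩)⟩⟩
    · exact ⟨0, fun a1 a2 a3 => (a ⟨a1, a2, a3⟩).elim⟩
  choose κ hκ using this
  let lt : ℕ → ℕ → ℕ := fun i a =>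
    encode (z i, ρ ((decode i).getD []), κ ((decode i).getD ([], 0)), a)
  have hlt : ∀ i a, dc (lt i a) =
      (z i, ρ ((decode i).getD []), κ ((decode i).getD ([], 0)), a) := fun i a =>
    Denumerable.ofNat_encode _
  have hin : ∀ (a : ℕ → ℕ) n, (∀ i, i + 1 < n → te e (a (i + 1), a i) = true) →
      InT f (te e) (pre (fun i => lt i (a i)) n) := fun a n => by
    have hz : wz f (fun i => lt i (a i)) = f z := by simp only [wz, hlt]
    have hc : ∀ n, (∀ i, i + 1 < n → te e (a (i + 1), a i) = true) →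
        Cond f (InT f) (te e) n fun i => lt i (a i) := fun n h =>
      ⟨fun _ _ _ _ => by rw [hz], by simpa only [hlt] using h,
        fun k _ _ => by simp [hz, h2, xf],
        fun c ν a1 _ _ a2 => by simpa only [hz, hlt, encodek, Option.getD_some] using ha c ν a1 a2,
        fun ν y c a1 a2 _ _ _ a3 a4 => by
          simp only [hz, hlt, encodek, Option.getD_some] at a2 a4 ⊢
          exact a2 ▸ hκ (ν, y) a1 a3 a4⟩
    induction n with
    | zero => exact fun h => inT_iff.2 ⟨fun h => (h rfl).elim, _, rfl, hc _ h⟩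
    | succ n ih => exact fun h => inT_iff.2 ⟨fun _ => ih fun i hi => h i (by omega), _,
        by rw [length_pre], by rw [length_pre]; exact hc _ h⟩
  obtain ⟨y, hy, -⟩ := h4 β (lt_add_one β)
  obtain ⟨j, -, hj⟩ := h5 [(y, 0)] ⟨by simp, by simp, trivial⟩ 0
  have a0 := hin (fun _ => j) 1 (by simp)
  refine ⟨te e, _, δ, h5.orb he, a0, ?_, fun h => hδ _ (key _ _ _ a0 h)⟩
  refine Rk.map (fun y σ => ∃ (a : ℕ → ℕ) (n k : ℕ) (l : Nd), σ = pre (fun i => lt i (a i)) (n + 1) ∧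
    e (a n) = (y, k) :: l ∧ ∀ i, i + 1 < n + 1 → te e (a (i + 1), a i) = true) ?_
    ⟨fun _ => j, 0, 0, [], rfl, hj, by simp⟩ hy
  rintro x _ y ⟨a, n, k, l, rfl, a1, a2⟩ a3
  obtain ⟨j, -, hj⟩ := h5 ((y, 0) :: (x, k) :: l) ⟨by simp, fun b _ h => (List.cons.inj h).1 ▸ a3,
    a1 ▸ (he _).2⟩ 0
  have a4 : ∀ i, i + 1 < n + 1 + 1 → te e (Function.update a (n + 1) j (i + 1),
      Function.update a (n + 1) j i) = true := fun i hi => by
    rcases Nat.lt_succ_iff_lt_or_eq.1 (Nat.lt_of_succ_lt_succ hi) with h | rfl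
    · rw [Function.update_of_ne (by omega), Function.update_of_ne (by omega)]
      exact a2 i (by omega)
    · rw [Function.update_self, Function.update_of_ne (by omega)]
      simp [te, hj, a1]
  refine ⟨_, ⟨Function.update a (n + 1) j, n + 1, 0, _, rfl, by simpa using hj, a4⟩, hin _ _ a4,
    _, congrArg _ (pre_congr fun i hi => ?_)⟩
  rw [Function.update_of_ne (by omega)]

end

end Pool.Agent.P.MP_b0885c_lc
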