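import Pool.Agent.P.MP_b0885c_lc.Abs

namespace Pool.Agent.P.MP_b0885c_lc

open Set Ordinal Filter Encodable FirstOrder FirstOrder.Language

instance sb_T1 : StandardBorelSpace T1 := inferInstance

instance sb_T0 : StandardBorelSpace T0 := inferInstance

instance sb_T2 : StandardBorelSpace (ℕ → T0) := inferInstance

instance sb_Rr : StandardBorelSpace Rr := inferInstance

/-- tables for two sentences and the back and forth relations -/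
def HT (c c' W D : Rr) (u : T1 × T1 × (ℕ → T0)) : Prop :=
  ST c D u.1 ∧ ST c' D u.2.1 ∧ BT W D D u.2.2

/-- reading the tables -/
def CT (p : Prop) (u : T1 × T1 × (ℕ → T0)) : Prop :=
  (u.1 [] [] ∧ (u.2.1 [] [] ↔ p)) ∧ ∀ i, ¬ Sy (u.2.2 i)

theorem ht_ex (T φ : Fml LT 0) (W D : Rr) [IsWellOrder ℕ (wr W)] : ∃ u, HT T.code φ.code W D u :=
  let ⟨τ, h⟩ := st_ex T D
  let ⟨τ', h'⟩ := st_ex φ D
  ⟨(τ, τ', _), h, h', bt_ex W D D⟩

theorem HT.use {T φ : Fml LT 0} {W D : Rr} [IsWellOrder ℕ (wr W)] {u : T1 × T1 × (ℕ → T0)}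
    (h : HT T.code φ.code W D u) {p : Prop} :
    CT p u ↔ (Mod T D ∧ (Mod φ D ↔ p)) ∧ type (wr W) ≤ SR LT (Str D) := by
  rw [CT, h.1.use, h.2.1.use, le_sr_iff]
  simp only [h.2.2.use]

/-- unboundedness of one side -/
def UB (R : Rr → Prop) (T φ : Fml LT 0) (p : Prop) : Prop :=
  ∀ W, R W → ∀ _ : IsWellOrder ℕ (wr W),
    ∃ D, R D ∧ (Mod T D ∧ (Mod φ D ↔ p)) ∧ type (wr W) ≤ SR LT (Str D)

theorem ub_abs (p : Prop) : ∀ᶠ Z in Cf, ∀ T φ : Fml LT 0, Reals (MM Z) T.code →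
    Reals (MM Z) φ.code → (UB (Reals (MM Z)) T φ p ↔ UB (fun _ => True) T φ p) := by
  filter_upwards [shoen (fun D c c' W u => HT c c' W D u → CT p u)
      (by unfold HT CT ST Cl BT Sy BF AE; fun_prop),
    shoen (fun W c c' _ (u : Rr × (ℕ → ℕ) × T1 × T1 × (ℕ → T0)) =>
      WO W u.2.1 ∧ (HT c c' W u.1 u.2.2 → ¬ CT p u.2.2))
      (by unfold WO wr HT CT ST Cl BT Sy BF AE; fun_prop)] with Z h1 h2 T φ hT hφ
  refine ⟨fun h W _ hW => ?_, fun h W hR hW => ?_⟩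
  · by_contra h3
    obtain ⟨W', h4, h5⟩ := h2 _ _ _ hT hφ hT ⟨W, fun u => ⟨wo_iff.1 hW _,
      fun h4 h5 => h3 ⟨_, trivial, h4.use.1 h5⟩⟩⟩
    have := wo_iff.2 fun s => (h5 (W, s, default)).1
    obtain ⟨D, -, h6⟩ := h W' h4 this
    obtain ⟨u, hu⟩ := ht_ex T φ W' D
    exact (h5 (D, id, u)).2 hu (hu.use.2 h6)
  · obtain ⟨D, -, h3⟩ := h W trivial hW
    obtain ⟨D', h4, h5⟩ := h1 _ _ _ hT hφ hR ⟨D, fun u hu => hu.use.2 h3⟩
    obtain ⟨u, hu⟩ := ht_ex T φ W D'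
    exact ⟨D', h4, hu.use.1 (h5 u hu)⟩

theorem sc_abs : ∀ᶠ Z in Cf, ∀ ψ : Fml LT 0, Reals (MM Z) ψ.code →
    Scattered (Reals (MM Z)) ψ → Scattered (fun _ => True) ψ := by
  filter_upwards [shoen (fun Q c _ _ (u : Rr × Rr × Rr × T1) => PerfectTree Q ∧
      (Branch Q u.1 → ST c u.1 u.2.2.2 → u.2.2.2 [] []) ∧
      (Branch Q u.1 → Branch Q u.2.1 → IG u.2.2.1 u.1 u.2.1 → u.1 = u.2.1)) (by
    have : ∀ Q D : Rr, Branch Q D ↔ ∀ l : List Bool, (∀ i < l.length, D i = l.getD i true) →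
        Q (encode l) = true := fun Q D => ⟨fun h l h1 => by
      convert h l.length
      exact List.ext_getElem (by simp) fun i h2 _ => by simp [h1 i h2, h2],
      fun h n => h _ (by simp +contextual)⟩
    simp only [this, funext_iff]
    unfold PerfectTree ST Cl IG wr
    fun_prop)] with Z h1 ψ hψ h ⟨Q, _, h2, h3, h4⟩
  obtain ⟨Q', h5, h6⟩ := h1 _ _ _ hψ hψ hψ ⟨Q, fun u => ⟨h2, fun h5 h6 => h6.use.2
    (h3 _ trivial h5), fun h5 h6 h7 => h4 _ _ trivial trivial h5 h6 (iso_iff.2 ⟨_, trivial, h7⟩)⟩⟩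
  refine h ⟨Q', h5, (h6 default).1, fun D _ h7 => ?_, fun D D' _ _ h7 h8 h9 => ?_⟩
  · obtain ⟨τ, h8⟩ := st_ex ψ D
    exact h8.use.1 ((h6 (D, D, D, τ)).2.1 h7 h8)
  · obtain ⟨E, -, h9⟩ := iso_iff.1 h9
    exact (h6 (D, D', E, default)).2.2 h7 h8 h9

theorem few_abs : ∀ᶠ Z in Cf, ∀ ψ : Fml LT 0, Reals (MM Z) ψ.code →
    Few (fun _ => True) ψ → Few (Reals (MM Z)) ψ := by
  filter_upwards [shoen (fun X c _ _ (u : Rr × (ℕ → ℕ) × T1 × (ℕ → ℕ → T0)) =>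
      WO (fun m => X (Nat.pair 0 m)) u.2.1 ∧ (ST c u.1 u.2.2.1 → u.2.2.1 [] [] →
      (∀ n : ℕ, BT (fun m => X (Nat.pair 0 m)) u.1 (fun m => X (n.pair m)) (u.2.2.2 n)) →
      ∃ n i, u.2.2.2 n i 0 Fin.elim0 Fin.elim0 ∧ Sy (u.2.2.2 n i)))
      (by unfold WO wr ST Cl BT Sy BF AE; fun_prop), eventually_countable_forall.2 fun n : ℕ =>
    shoen (fun E D S _ (_ : Unit) => IG E D fun m => S (n.pair m)) (by unfold IG wr; fun_prop)]
    with Z h1 h2 ψ hψ ⟨S, _, hS⟩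
  choose γ h3 h4 using fun n : ℕ => exists_Stab fun m => S (n.pair m)
  obtain ⟨δ, h5, h6⟩ := exists_bound γ h3
  obtain ⟨W, hW, h7⟩ := exists_wo h5
  obtain ⟨X, e0, e1⟩ : ∃ X : Rr, (fun m => X (Nat.pair 0 m)) = W ∧
      ∀ n : ℕ, (fun m => X ((n + 1).pair m)) = fun m => S (n.pair m) :=
    ⟨fun m => Nat.casesOn m.unpair.1 (W m.unpair.2) fun n => S (n.pair m.unpair.2), by simp⟩
  obtain ⟨X', h8, h9⟩ := h1 _ _ _ hψ hψ hψ ⟨X, fun u => by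
    rw [e0]
    refine ⟨wo_iff.1 hW _, fun a1 a2 a3 => ?_⟩
    obtain ⟨n, e, -⟩ := hS _ trivial (a1.use.1 a2)
    obtain ⟨i, hi⟩ := typein_surj _ ((h6 n).trans_le h7)
    refine ⟨n + 1, i, ?_⟩
    rw [(a3 _).use, e1, hi]
    exact ⟨bfe_iso0 e _, sy_iff.2 fun k a b h => (BFE.iso e _ a).trans
      (h4 n k _ _ ((BFE.iso e _ a).symm.trans h))⟩⟩
  refine ⟨X', h8, fun D hD h => ?_⟩
  have := wo_iff.2 fun s => (h9 (D, s, default)).1
  obtain ⟨τ, a1⟩ := st_ex ψ D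
  obtain ⟨n, i, a2, a3⟩ := (h9 (D, id, τ, _)).2 a1 (a1.use.2 h) fun n => bt_ex _ D _
  obtain ⟨E, a4⟩ := bnf a2 a3 fun _ _ _ h => ae_iff.1 (BFE.at h)
  obtain ⟨E', a5, a6⟩ := h2 n _ _ _ hD h8 hD ⟨E, fun _ => a4⟩
  exact ⟨n, iso_iff.2 ⟨E', a5, a6 ()⟩⟩

theorem mm_ord (Z : Zt) (α : Ordinal.{0}) : MM Z α.toZFSet := by
  induction α using WellFoundedLT.induction with
  | ind α ih =>
    by_contra h
    refine h (mm_of _ (fun w hw => ?_) (fun x => (∀ a b, a ∈ b → b ∈ x → a ∈ x) ∧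
      ∀ a b c, a ∈ b → b ∈ c → c ∈ x → a ∈ c) fun x => ⟨fun hx => ?_, fun ⟨h1, h2⟩ => ?_⟩)
    · obtain ⟨β, h1, rfl⟩ := mem_toZFSet_iff.1 hw
      exact ih β h1
    · have := (ZFSet.isOrdinal_toZFSet α).mem hx
      exact ⟨fun _ _ => this.mem_trans, fun _ _ _ => this.mem_trans'⟩
    · have h3 : x.1.IsOrdinal := ⟨fun b hb a ha => h1 ⟨a, (x.2.trans hb).trans ha⟩
        ⟨b, x.2.trans hb⟩ ha hb, fun {a b c} ha hb hc => h2 ⟨a, ((x.2.trans hc).trans hb).trans ha⟩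
        ⟨b, (x.2.trans hc).trans hb⟩ ⟨c, x.2.trans hc⟩ ha hb hc⟩
      rcases h3.mem_trichotomous (ZFSet.isOrdinal_toZFSet α) with h4 | h4 | h4
      exacts [h4, (h (h4 ▸ x.2)).elim, (h (x.2.trans h4)).elim]

theorem final : ∃ Z : Zt, Fact ((fun _ _ _ => True) ∈ range Z) ∧
    (∃ T, MinTheory (Reals (MM Z)) T) ∧ (Counter (Reals (MM Z)) → Counter fun _ => True) := by
  obtain ⟨q, hq⟩ := cf_seq ((cf_mem fun _ _ _ => True).and (((ub_abs True).and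
    (ub_abs False)).and (sc_abs.and few_abs)))
  obtain ⟨T, Z, h1, h2, h3, h4⟩ := main q
  obtain ⟨h5, ⟨h6, h7⟩, h8, h9⟩ := hq Z h1
  have : Fact ((fun i _ _ => T.code i = true) ∈ range Z) := ⟨h2⟩
  have hT : Reals (MM Z) T.code :=
    reals_of (fun x => NR (fun i _ _ => T.code i = true) x x x) (by simp)
  refine ⟨Z, h5, ⟨T, hT, fun φ hφ => ?_⟩, fun ⟨ψ, a1, a2, a3⟩ =>
    ⟨ψ, trivial, h8 ψ a1 a2, fun a4 => a3 (h9 ψ a1 a4)⟩⟩
  have e1 : Unbdd (Reals (MM Z)) (T.and φ) ↔ UB (fun _ => True) T φ True := by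
    rw [← h6 T φ hT hφ]
    simp only [Unbdd, UB, Mod, sat_and, iff_true]
  have e2 : Unbdd (Reals (MM Z)) (T.and φ.neg) ↔ UB (fun _ => True) T φ False := by
    rw [← h7 T φ hT hφ]
    simp only [Unbdd, UB, Mod, sat_and, iff_false, Fml.Sat]
  obtain ⟨α, a1, p, a2⟩ := h4 φ hφ
  have key : ∀ p', UB (fun _ => True) T φ p' ↔ (p ↔ p') := fun p' => by
    refine ⟨fun h => ?_, fun h W _ hW => ?_⟩
    · obtain ⟨W, hW, a3⟩ := exists_wo a1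
      obtain ⟨D, -, ⟨a4, a5⟩, a6⟩ := h W trivial hW
      exact (a2 _ a4 (a3.trans a6)).symm.trans a5
    · obtain ⟨M, _, _, _, a3, a4⟩ := h3 _ (max_lt a1 (lt_w1_iff.2 (show (type (wr W)).card ≤ _ by
        simp)))
      obtain ⟨D, ⟨e⟩⟩ := exists_str M
      rw [← sr_iso e, max_le_iff] at a4
      rw [← sat_iso e] at a3
      exact ⟨D, trivial, ⟨a3, (a2 _ a3 a4.1).trans h⟩, a4.2⟩
  rw [e1, e2, key, key]
  by_cases p <;> simp [*]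

end Pool.Agent.P.MP_b0885c_lc
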