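import Pool.Agent.P.MP_b0885c_lc.Trf

open Pool.Agent.P.MP_b0885c_lc Pool.Agent.Lib.PosetForcing

/-- There is an inner model of ZFC that has a minimal theory, and that has a counterexample to
Vaught's conjecture only if the universe has one. -/
theorem Pool.Agent.P.MP_b0885c_lc.variantInnerModel : ∃ M : ZFSet.{0} → Prop,
    (∀ x y, M x → y ∈ x → M y) ∧ (∀ α : Ordinal.{0}, M α.toZFSet) ∧
    IsZFC (fun a b : {z // M z} => a.1 ∈ b.1) ∧
    (∃ T, MinTheory (Reals M) T) ∧ (Counter (Reals M) → Counter fun _ => True) :=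
  let ⟨Z, _, h⟩ := final
  ⟨MM Z, fun _ _ => MM.trans, mm_ord Z, isZFC, h⟩
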