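import Pool.Agent.P.MP_b0885c_lc.Perf

open Pool.Agent.P.MP_b0885c_lc Pool.Agent.Lib.PosetForcing

/-- There is an inner model of ZFC with a minimal theory `T` such that no sentence `T ∧ φ` is a
counterexample to Vaught's conjecture there. -/
theorem Pool.Agent.P.MP_b0885c_lc.variantLocalFailure : ∃ M : ZFSet.{0} → Prop,
    (∀ x y, M x → y ∈ x → M y) ∧ (∀ α : Ordinal.{0}, M α.toZFSet) ∧
    IsZFC (fun a b : {z // M z} => a.1 ∈ b.1) ∧
    ∃ T, MinTheory (Reals M) T ∧ ∀ φ : Fml LT 0, Reals M φ.code →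
      Scattered (Reals M) (T.and φ) → Few (Reals M) (T.and φ) :=
  let ⟨Z, _, h⟩ := final2
  ⟨MM Z, fun _ _ => MM.trans, mm_ord Z, isZFC, h⟩
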