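import Pool.Agent.P.MP_b0885c_lc.Can
import Pool.Agent.P.MP_b0885c_lc.Frc
import Pool.Agent.P.MP_b0885c_lc.Hier

namespace Pool.Agent.P.MP_b0885c_lc

open Set Encodable

/-- the theory attached to a table -/
noncomputable def TT : Tb → Fml LT 0 := df_isM.choose

theorem sat_TT (x : Tb) (M : Type) [LT.Structure M] (v : Fin 0 → M) :
    (TT x).Sat v ↔ IsM (InX x) M := df_isM.choose_spec.2 x M v

theorem code_pair {φ : Fml LT 0} {u : List ℕ} {j : Jt} :
    φ.code ((encode u).pair (encode j)) = true ↔ j = φ.lab u := by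
  rw [Fml.code, Nat.unpair_pair, decide_eq_true_iff, Denumerable.ofNat_encode,
    Denumerable.ofNat_encode, eq_comm]

/-- the predicates attached to a table -/
def ZZ (q : Zt) (x : Tb) : Zt
  | 0 => fun i _ _ => (TT x).code i = true
  | k + 1 => q k

theorem meas_ZZ (q : Zt) (k a b c : ℕ) : Measurable fun x => ZZ q x k a b c := by
  cases k with
  | zero =>
    simp only [ZZ, Fml.code, decide_eq_true_iff]
    exact df_isM.choose_spec.1 _ _
  | succ k => exact measurable_const (a := q k a b c)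

/-- labelling read from an element -/
def DD (E : ℕ → ℕ → Prop) (a : ℕ) (u : List ℕ) (j : Jt) : Prop :=
  ∀ j', (∃ b, E b a ∧ Rep E (num ((encode u).pair (encode j'))) b) ↔ j' = j

/-- forcing tables -/
def Table (L : ℕ → ℕ → Prop) (X : Re → Kt → Bool) (e : ℕ → Nd) (D : List ℕ → Jt → Prop)
    (G : St → Prop) (F : St → List Nd → Prop) : Prop :=
  ∀ s j, D s.1 j → Sum.elim (fun c => G s ∧ (∀ p, F s p ↔ Frc L X c p) ∧ Gen L X c e)
    (fun g : ℕ → St => (∀ n, G (g n)) → G s ∧ (∀ p, F s p ↔ ∀ n q, Vl L q → ¬ F (g n) (p ++ q)) ∧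
      ∃ m, F s (ini e m) ∨ ∃ n, F (g n) (ini e m)) (act s j)

theorem Table.use {L : ℕ → ℕ → Prop} {X : Re → Kt → Bool} {e : ℕ → Nd} {D : List ℕ → Jt → Prop}
    {G : St → Prop} {F : St → List Nd → Prop} (h : Table L X e D G F) {s : St} {c : BC Kt}
    (hc : Cb D s c) : G s ∧ (∀ p, F s p ↔ Frc L X c p) ∧ Gen L X c e := by
  induction hc with
  | leaf h1 h2 => have := h _ _ h1; rwa [h2] at this
  | nor h1 h2 _ ih =>
    have := h _ _ h1
    rw [h2] at this
    obtain ⟨h3, h4, h5⟩ := this fun n => (ih n).1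
    simp only [fun n => (ih n).2.1] at h4 h5
    simp only [h4] at h5
    exact ⟨h3, h4, h5, fun n => (ih n).2.2⟩

theorem table_of {L : ℕ → ℕ → Prop} {X : Re → Kt → Bool} {e : ℕ → Nd} {D : List ℕ → Jt → Prop}
    (hD : ∀ u j j', D u j → D u j' → j = j') (he : ∀ s c, Cb D s c → Gen L X c e) :
    Table L X e D (fun s => ∃ c, Cb D s c) fun s p => ∃ c, Cb D s c ∧ Frc L X c p := by
  have key : ∀ {s c}, Cb D s c → ∀ p, (∃ c, Cb D s c ∧ Frc L X c p) ↔ Frc L X c p :=
    fun h p => ⟨fun ⟨_, h1, h2⟩ => h1.uniq hD h ▸ h2, fun h1 => ⟨_, h, h1⟩⟩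
  intro s j h
  cases h1 : act s j with
  | inl c => exact ⟨⟨c, .leaf h h1⟩, key (.leaf h h1), he _ _ (.leaf h h1)⟩
  | inr g =>
    intro h2
    choose c hc using h2
    have h3 := Cb.nor h h1 hc
    simp only [key h3, fun n => key (hc n)]
    exact ⟨⟨_, h3⟩, fun _ => Iff.rfl, (he _ _ h3).1⟩

section
variable {Y : Type} [MeasurableSpace Y] {L : Y → ℕ → ℕ → Prop} {X : Y → Re → Kt → Bool}
  {e : Y → ℕ → Nd}

theorem meas_Vn (hL : ∀ a b, Measurable (L · a b)) (x : Nd) : Measurable fun y => Vn (L y) x := by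
  refine measurable_const.and ?_
  induction x with
  | nil => exact measurable_const
  | cons a x ih => exact (Measurable.forall fun b => .forall fun _ =>
      measurable_const.imp (hL _ _)).and ih

theorem meas_Vl (hL : ∀ a b, Measurable (L · a b)) (p : List Nd) :
    Measurable fun y => Vl (L y) p := .forall fun x => measurable_const.imp (meas_Vn hL x)

theorem meas_Frc (hL : ∀ a b, Measurable (L · a b)) (hX : ∀ t k, Measurable (X · t k = true))
    (c : BC Kt) : ∀ p, Measurable fun y => Frc (L y) (X y) c p := by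
  induction c with
  | leaf k => exact fun p => .forall fun q => (meas_Vl hL q).imp (hX _ _)
  | nor f ih => exact fun p => .forall fun n => .forall fun q => (meas_Vl hL q).imp (ih n _).not

theorem meas_ini (he : ∀ i x, Measurable (e · i = x)) {P : Y → List Nd → Prop}
    (hP : ∀ p, Measurable (P · p)) (m : ℕ) : Measurable fun y => P y (ini (e y) m) := by
  have : (fun y => P y (ini (e y) m)) = fun y => ∃ p : List Nd, p.length = m ∧
      (∀ i < p.length, e y i = p.getD i []) ∧ P y p := by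
    funext y
    refine propext ⟨fun h => ⟨_, length_ini _ _, fun i hi => ?_, h⟩, ?_⟩
    · simpa using (getD_ini (by simpa using hi) [] []).symm
    · rintro ⟨p, rfl, h1, h2⟩
      rwa [ini_eq h1]
  rw [this]
  exact .exists fun p => measurable_const.and
    ((Measurable.forall fun i => measurable_const.imp (he _ _)).and (hP p))

theorem meas_Gen (hL : ∀ a b, Measurable (L · a b)) (hX : ∀ t k, Measurable (X · t k = true))
    (he : ∀ i x, Measurable (e · i = x)) (c : BC Kt) :
    Measurable fun y => Gen (L y) (X y) c (e y) := by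
  induction c with
  | leaf k => exact measurable_const
  | nor f ih =>
    exact (Measurable.exists fun m => (meas_ini he (meas_Frc hL hX _) m).or
      (.exists fun n => meas_ini he (meas_Frc hL hX _) m)).and (.forall ih)

theorem meas_Table {D : Y → List ℕ → Jt → Prop} {G : Y → St → Prop} {F : Y → St → List Nd → Prop}
    (hL : ∀ a b, Measurable (L · a b)) (hX : ∀ t k, Measurable (X · t k = true))
    (he : ∀ i x, Measurable (e · i = x)) (hD : ∀ u j, Measurable (D · u j))
    (hG : ∀ s, Measurable (G · s)) (hF : ∀ s p, Measurable (F · s p)) :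
    Measurable fun y => Table (L y) (X y) (e y) (D y) (G y) (F y) := by
  refine .forall fun s => .forall fun j => (hD _ _).imp ?_
  cases act s j with
  | inl c =>
    exact (hG s).and ((Measurable.forall fun p => (hF s p).iff (meas_Frc hL hX c p)).and
      (meas_Gen hL hX he c))
  | inr g =>
    exact (Measurable.forall fun n => hG _).imp ((hG s).and ((Measurable.forall fun p =>
      (hF s p).iff (.forall fun n => .forall fun q => (meas_Vl hL q).imp (hF _ _).not)).and
      (.exists fun m => (meas_ini he (hF s) m).or (.exists fun n => meas_ini he (hF _) m))))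

end

/-- coordinates of a witness -/
abbrev Idx : Type :=
  (ℕ × ℕ × ℕ) ⊕ (List (ℕ × ℕ) × List ℕ) ⊕ (ℕ × St) ⊕ (ℕ × St × List Nd)

set_option synthInstance.maxSize 2000 in
instance : Countable Idx := inferInstance

/-- relations of a witness -/
def oR (w : Idx → ℕ) (k i j : ℕ) : Prop := w (.inl (k, i, j)) = 0

/-- enumeration of a witness -/
def oe (w : Idx → ℕ) (i : ℕ) : Nd := (decode (w (.inl (3, i, 0)))).getD []

/-- table of a witness -/
def ox (w : Idx → ℕ) : Tb := fun k => decide (w (.inr (.inl k)) = 0)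

/-- witnesses -/
def Wit (q : Zt) (w : Idx → ℕ) : Prop :=
  Lin (oR w 0) ∧ (∀ i, Vn (oR w 0) (oe w i)) ∧
    Hier (oR w 0) (oR w 1) (oR w 2) (fun i => oR w (i + 4)) (ZZ q (ox w)) ∧
    ∀ a, Table (oR w 0) (XV (InX (ox w))) (oe w) (DD (oR w 1) a)
      (fun s => w (.inr (.inr (.inl (a, s)))) = 0) fun s p => w (.inr (.inr (.inr (a, s, p)))) = 0

theorem meas_Wit (q : Zt) : Measurable (Wit q) := by
  have h0 : ∀ (k : Idx) (P : ℕ → Prop), Measurable fun w : Idx → ℕ => P (w k) := fun k P =>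
    (measurable_of_countable P).comp (measurable_pi_apply k)
  have hR : ∀ k i j, Measurable fun w => oR w k i j := fun k i j => h0 _ (· = 0)
  have he : ∀ i x, Measurable fun w => oe w i = x := fun i x =>
    h0 _ fun n => (decode n).getD [] = x
  have hx : Measurable ox := measurable_pi_lambda _ fun k =>
    (measurable_of_countable fun n : ℕ => decide (n = 0)).comp (measurable_pi_apply _)
  refine Measurable.and ?_ ((Measurable.forall fun i => ?_).and ((meas_Hier (hR 0) (hR 1) (hR 2)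
    (fun i => hR (i + 4)) fun k a b c => (meas_ZZ q k a b c).comp hx).and
    (.forall fun a => meas_Table (hR 0) ?_ he (fun u j => .forall fun j' => (Measurable.exists
      fun b => (hR 1 _ _).and (meas_Rep (hR 1) _ b)).iff measurable_const)
      (fun s => h0 _ (· = 0)) fun s p => h0 _ (· = 0))))
  · have := (Measurable.forall fun a => Measurable.forall fun b => Measurable.forall fun c =>
      (hR 0 a b).imp ((hR 0 b c).imp (hR 0 a c))).and (Measurable.forall fun a =>
      Measurable.forall fun b => (hR 0 a b).or ((measurable_const (a := a = b)).or (hR 0 b a)))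
    convert this using 2 with w
    exact ⟨fun h => ⟨h.1, h.2⟩, fun h => ⟨h.1, h.2⟩⟩
  · have := Measurable.exists fun x => (he i x).and (meas_Vn (hR 0) x)
    simpa using this
  · rintro t (q | ⟨l, σ⟩)
    · exact measurable_const (a := t q = true)
    · simpa [XV] using meas_InX hx measurable_const σ

theorem wit_gen {q : Zt} {φ : Fml LT 0} {x : Tb} (h : Reals (fun z => ∃ α, Lh (ZZ q x) α z) φ.code) :
    ∃ γ < w1, ∀ w, Wit q w → ox w = x → Full (oR w 0) γ → ∀ s c, Cb (fun u j => j = φ.lab u) s c →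
      Gen (oR w 0) (XV (InX x)) c (oe w) := by
  obtain ⟨y, ⟨α, h⟩, hy⟩ := h
  obtain ⟨γ, h1, h2⟩ := condense (fun w hw => let ⟨n, _, h⟩ := (hy w).1 hw; ⟨n, h⟩) h
  have num_mem_code : ∀ {u : List ℕ} {j : Jt},
      num ((encode u).pair (encode j)) ∈ y ↔ j = φ.lab u :=
    ⟨fun h => let ⟨_, h1, h2⟩ := (hy _).1 h; code_pair.1 (num_inj h2 ▸ h1),
      fun h => (hy _).2 ⟨_, code_pair.2 h, rfl⟩⟩
  refine ⟨γ + 1, succ_lt_w1 h1, ?_⟩
  rintro w ⟨h3, -, h4, h5⟩ rfl h6 s c hc
  obtain ⟨i, hi⟩ := h6 γ (lt_add_one γ)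
  obtain ⟨a, -, ha⟩ := (h4.correct h3 γ i hi).2.1 _ h2
  have : DD (oR w 1) a = fun u j => j = φ.lab u := by
    funext u j
    have : ∀ j' : Jt, (∃ b, oR w 1 b a ∧ 
        Rep (oR w 1) (num ((encode u).pair (encode j'))) b) ↔ j' = φ.lab u :=
      fun j' => ⟨fun ⟨b, h7, h8⟩ => num_mem_code.1 ((ha.mem h4.ext h8).1 h7),
        fun h7 => (rep_iff.1 ha).1 _ (num_mem_code.2 h7)⟩
    simp only [DD, this]
    exact propext ⟨fun h => (h j).2 rfl, fun h _ => by rw [h]⟩
  exact ((h5 a).use (this ▸ hc)).2.2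

theorem exists_wit (q : Zt) (x : Tb) {δ : Ordinal.{0}} (hδ : δ < w1) : ∃ w, Wit q w ∧ ox w = x ∧
    WellFounded (oR w 0) ∧ Full (oR w 0) δ ∧ Rec (oR w 0) (oe w) := by
  classical
  obtain ⟨o, g, ho, h1, -, h2⟩ := hull (ZZ q x) (ctble_Iio hδ) countable_empty
  generalize (fun b a => g b ∈ g a) = E at h2
  generalize (fun i a => Lh (ZZ q x) (o i) (g a)) = V at h2
  generalize (fun i a b => Oh (ZZ q x) (o i) (g a) (g b)) = O at h2
  set L := fun i j => o i < o j
  have hD : ∀ a u j j', DD E a u j → DD E a u j' → j = j' := fun a u j j' h h' =>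
    (h' j).1 ((h j).2 rfl)
  have h3 : ∀ q : ℕ × St, Cm L fun e => ∀ c, Cb (DD E q.1) q.2 c → Gen L (XV (InX x)) c e :=
    fun q => by
      by_cases h : ∃ c, Cb (DD E q.1) q.2 c
      · obtain ⟨c, hc⟩ := h
        exact (cm_gen c).mono fun e _ h c' hc' => hc.uniq (hD _) hc' ▸ h
      · exact cm_true.mono fun e _ _ c hc => (h ⟨c, hc⟩).elim
  obtain ⟨e, he, -, h4, h5⟩ := ((Cm.all h3).and cm_rec).exists vl_nil
  let bt : Prop → ℕ := fun p => if p then 0 else 1
  have hbt : ∀ p, (bt p = 0) = p := fun p => by simp [bt]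
  let w : Idx → ℕ := Sum.elim (fun q => if q.1 = 0 then bt (L q.2.1 q.2.2) else if q.1 = 1 then
    bt (E q.2.1 q.2.2) else if q.1 = 2 then bt (V q.2.1 q.2.2) else
    if q.1 = 3 then encode (e q.2.1) else bt (O (q.1 - 4) q.2.1 q.2.2))
    (Sum.elim (fun k => bt (x k = true)) (Sum.elim (fun q => bt (∃ c, Cb (DD E q.1) q.2 c))
      fun q => bt (∃ c, Cb (DD E q.1) q.2.1 c ∧ Frc L (XV (InX x)) c q.2.2)))
  have e0 : oR w 0 = L := funext₂ fun _ _ => hbt _
  have e1 : oR w 1 = E := funext₂ fun _ _ => hbt _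
  have e2 : oR w 2 = V := funext₂ fun _ _ => hbt _
  have e3 : oe w = e := funext fun i => by simp [oe, w]
  have e5 : (fun i => oR w (i + 4)) = O := funext₃ fun _ _ _ => hbt _
  have e4 : ox w = x := funext fun k => by simp [ox, w, hbt]
  have hup : ∀ θ i, Rk L θ i → θ ≤ o i := fun θ => by
    induction θ using WellFoundedLT.induction with
    | ind θ ih =>
      intro i h
      by_contra h6
      obtain ⟨y, h7, h8⟩ := rk_iff.1 h _ (not_le.1 h6)
      exact (ih _ (not_le.1 h6) y h8).not_gt h7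
  have hlo : ∀ θ < δ, ∀ i, θ ≤ o i → Rk L θ i := fun θ => by
    induction θ using WellFoundedLT.induction with
    | ind θ ih =>
      refine fun h6 i h7 => rk_iff.2 fun μ hμ => ?_
      obtain ⟨y, rfl⟩ := h1 (hμ.trans h6)
      exact ⟨y, hμ.trans_le h7, ih _ hμ (hμ.trans h6) y le_rfl⟩
  refine ⟨w, ?_, e4, ?_⟩
  · rw [Wit, e0, e1, e2, e3, e4, e5]
    refine ⟨lin_of_inj ho, he, h2, fun a => ?_⟩
    simpa only [w, Sum.elim_inr, Sum.elim_inl, hbt] using table_of (hD a) fun s => h4 (a, s)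
  · rw [e0, e3]
    refine ⟨InvImage.wf o wellFounded_lt, fun μ hμ => ?_, h5⟩
    obtain ⟨i, rfl⟩ := h1 hμ
    exact ⟨i, hlo _ hμ i le_rfl, fun h => (hup _ _ h).not_gt (lt_add_one _)⟩

end Pool.Agent.P.MP_b0885c_lc
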