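import Pool.Agent.P.MP_b0885c_lc.Lv
import Pool.Agent.Lib.PosetForcing.ZFC

namespace Pool.Agent.P.MP_b0885c_lc

open Set Ordinal

/-- renaming of variables -/
def SF.rn : SF → (ℕ → ℕ) → SF
  | .atm k i j l, ρ => .atm k (ρ i) (ρ j) (ρ l)
  | .neg φ, ρ => .neg (φ.rn ρ)
  | .and φ ψ, ρ => .and (φ.rn ρ) (ψ.rn ρ)
  | .ex φ, ρ => .ex (φ.rn fun i => Nat.casesOn i 0 fun k => ρ k + 1)

section
variable {U : Type*} {D : U → Prop} {R : ℕ → U → U → U → Prop}

theorem SF.sat_rn (φ : SF) : ∀ (ρ : ℕ → ℕ) (v : ℕ → U),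
    (φ.rn ρ).Sat D R v ↔ φ.Sat D R fun i => v (ρ i) := by
  induction φ with
  | atm => exact fun _ _ => .rfl
  | neg φ ih => exact fun ρ v => not_congr (ih ρ v)
  | and φ ψ ih ih' => exact fun ρ v => and_congr (ih ρ v) (ih' ρ v)
  | ex φ ih =>
    refine fun ρ v => exists_congr fun x => and_congr_right fun _ => (ih _ _).trans ?_
    exact iff_of_eq (congrArg _ (funext fun i => by cases i <;> rfl))

theorem SF.fin (φ : SF) : ∃ n, ∀ v v' : ℕ → U, (∀ i < n, v i = v' i) →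
    (φ.Sat D R v ↔ φ.Sat D R v') := by
  induction φ with
  | atm k i j l =>
    refine ⟨i + j + l + 1, fun v v' h => ?_⟩
    simp only [SF.Sat]
    rw [h i (by omega), h j (by omega), h l (by omega)]
  | neg φ ih => exact ih.imp fun n h v v' h' => not_congr (h v v' h')
  | and φ ψ ih ih' =>
    obtain ⟨n, h⟩ := ih
    obtain ⟨m, h'⟩ := ih'
    exact ⟨n + m, fun v v' h1 => and_congr (h v v' fun i _ => h1 i (by omega))
      (h' v v' fun i _ => h1 i (by omega))⟩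
  | ex φ ih =>
    refine ih.imp fun n h v v' h' => exists_congr fun x => and_congr_right fun _ => h _ _ ?_
    rintro (_ | i) hi
    exacts [rfl, h' i (by omega)]

end

/-- the universe of the inner model -/
abbrev MT (Z : Zt) : Type 1 := {z : ZFSet.{0} // MM Z z}

variable {Z : Zt}

instance : Membership (MT Z) (MT Z) := ⟨fun b a => a.1 ∈ b.1⟩

theorem MM.trans {z w : ZFSet.{0}} (h : MM Z z) (hw : w ∈ z) : MM Z w := h.imp fun _ h => h.trans hw

theorem MT.ext {a b : MT Z} (h : ∀ x, x ∈ a ↔ x ∈ b) : a = b :=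
  Subtype.ext (ZFSet.ext fun w => ⟨fun hw => (h ⟨w, a.2.trans hw⟩).1 hw,
    fun hw => (h ⟨w, b.2.trans hw⟩).2 hw⟩)

theorem MT.wf : WellFounded fun a b : MT Z => a ∈ b := InvImage.wf Subtype.val ZFSet.mem_wf

/-- the basic predicates of the inner model -/
def RM (k : ℕ) (a b c : MT Z) : Prop := RR (· ∈ ·) (num · = ·) Z (OM Z) k a.1 b.1 c.1

/-- definable predicates -/
class DM (P : (ℕ → MT Z) → Prop) : Prop where
  out : ∃ (φ : SF) (s : ℕ → ℕ ⊕ MT Z), ∀ v, P v ↔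
    φ.Sat (fun _ => True) RM fun i => (s i).elim v id

/-- definable terms -/
class TM (t : (ℕ → MT Z) → MT Z) : Prop where
  out : DM fun v => v 0 = t fun i => v (i + 1)

section
variable {P Q : (ℕ → MT Z) → Prop} {t u w : (ℕ → MT Z) → MT Z}

theorem DM.congr [h : DM P] (h' : ∀ v, P v ↔ Q v) : DM Q :=
  (funext fun v => propext (h' v) : P = Q) ▸ h

theorem DM.sb (h : DM P) (s : ℕ → ℕ ⊕ MT Z) : DM fun v => P fun i => (s i).elim v id := by
  obtain ⟨φ, s', h⟩ := h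
  refine ⟨φ, fun i => (s' i).elim s .inr, fun v => (h _).trans (iff_of_eq (congrArg _ ?_))⟩
  funext i
  dsimp only
  cases s' i <;> rfl

theorem DM.rn (h : DM P) (f : ℕ → ℕ) : DM fun v => P fun i => v (f i) := h.sb fun i => .inl (f i)

instance DM.not [h : DM P] : DM fun v => ¬ P v :=
  let ⟨φ, s, h⟩ := h
  ⟨.neg φ, s, fun v => not_congr (h v)⟩

instance DM.and [h : DM P] [h' : DM Q] : DM fun v => P v ∧ Q v := by
  obtain ⟨φ, s, h⟩ := h
  obtain ⟨ψ, s', h'⟩ := h'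
  refine ⟨.and (φ.rn (2 * ·)) (ψ.rn (2 * · + 1)),
    fun i => if i % 2 = 0 then s (i / 2) else s' (i / 2), fun v => ?_⟩
  simp only [SF.Sat, SF.sat_rn, h, h']
  congr! 4 with i i
  · simp
  · rw [if_neg (by omega), show (2 * i + 1) / 2 = i by omega]

instance DM.ex {P : MT Z → (ℕ → MT Z) → Prop} [h : DM fun v => P (v 0) fun i => v (i + 1)] :
    DM fun v => ∃ x, P x v := by
  classical
  obtain ⟨φ, s, h⟩ := h
  refine ⟨.ex (φ.rn fun i => if s i = .inl 0 then 0 else i + 1),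
    fun i => (s i).map (· - 1) id, fun v => exists_congr fun x => ?_⟩
  simp only [SF.sat_rn, true_and]
  refine (h fun i => Nat.casesOn i x v).trans (iff_of_eq (congrArg _ (funext fun i => ?_)))
  rcases hs : s i with (_ | k) | c <;> simp [hs]

instance DM.or [DM P] [DM Q] : DM fun v => P v ∨ Q v :=
  DM.congr (P := fun v => ¬ (¬ P v ∧ ¬ Q v)) fun _ => by tauto

instance DM.imp [DM P] [DM Q] : DM fun v => P v → Q v :=
  DM.congr (P := fun v => ¬ P v ∨ Q v) fun _ => by tauto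

instance DM.iff [DM P] [DM Q] : DM fun v => P v ↔ Q v :=
  DM.congr (P := fun v => (P v → Q v) ∧ (Q v → P v)) fun _ => iff_iff_implies_and_implies.symm

instance DM.all {P : MT Z → (ℕ → MT Z) → Prop} [h : DM fun v => P (v 0) fun i => v (i + 1)] :
    DM fun v => ∀ x, P x v :=
  DM.congr (P := fun v => ¬ ∃ x, ¬ P x v) fun _ => by simp

theorem DM.atm (k i j l : ℕ) : DM fun v : ℕ → MT Z => RM k (v i) (v j) (v l) :=
  ⟨.atm k i j l, .inl, fun _ => .rfl⟩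

theorem DM.eq0 (i j : ℕ) : DM fun v : ℕ → MT Z => v i = v j :=
  have := DM.atm (Z := Z) 1 i j 0
  DM.congr (P := fun v => RM 1 (v i) (v j) (v 0)) fun _ => Subtype.ext_iff.symm

instance TM.var (i : ℕ) : TM fun v : ℕ → MT Z => v i := ⟨DM.eq0 0 (i + 1)⟩

instance TM.const (c : MT Z) : TM fun _ => c :=
  ⟨(DM.eq0 0 1).sb fun i => if i = 0 then .inl 0 else .inr c⟩

theorem TM.rn (h : TM t) (f : ℕ → ℕ) : TM fun v => t fun i => v (f i) :=
  ⟨h.out.rn fun i => Nat.casesOn i 0 fun k => f k + 1⟩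

theorem DM.app3 {A : MT Z → MT Z → MT Z → Prop} (h : DM fun v => A (v 0) (v 1) (v 2))
    [h1 : TM t] [h2 : TM u] [h3 : TM w] : DM fun v => A (t v) (u v) (w v) :=
  have := h3.out
  have := (h2.rn (· + 1)).out
  have := (h1.rn (· + 1 + 1)).out
  DM.congr (P := fun v => ∃ c, c = w v ∧ ∃ b, b = u v ∧ ∃ a, a = t v ∧ A a b c) fun _ => by simp

theorem DM.app2 {A : MT Z → MT Z → Prop} (h : DM fun v => A (v 0) (v 1))
    [TM t] [TM u] : DM fun v => A (t v) (u v) :=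
  DM.app3 (A := fun a b _ => A a b) (w := t) h

theorem DM.app1 {A : MT Z → Prop} (h : DM fun v => A (v 0)) [TM t] : DM fun v => A (t v) :=
  DM.app2 (A := fun a _ => A a) (u := t) h

instance DM.eq [TM t] [TM u] : DM fun v => t v = u v := (DM.eq0 0 1).app2

instance DM.mem [TM t] [TM u] : DM fun v => t v ∈ u v :=
  DM.app2 (A := fun a b => a ∈ b) (DM.atm 0 0 1 0)

/-- the order of the inner model -/
def om (a b : MT Z) : Prop := OM Z a.1 b.1

instance DM.om [TM t] [TM u] : DM fun v => om (t v) (u v) := DM.app2 (DM.atm 2 0 1 0)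

/-- relations on numerals -/
def NR (r : ℕ → ℕ → ℕ → Prop) (a b c : MT Z) : Prop :=
  ∃ i j l, num i = a.1 ∧ num j = b.1 ∧ num l = c.1 ∧ r i j l

instance DM.nr {r : ℕ → ℕ → ℕ → Prop} [h : Fact (r ∈ range Z)] [TM t] [TM u] [TM w] :
    DM fun v => NR r (t v) (u v) (w v) := by
  obtain ⟨k, rfl⟩ := h
  exact DM.app3 (DM.atm (k + 3) 0 1 2)

theorem TM.app2 {f : MT Z → MT Z → MT Z} (h : DM fun v => v 0 = f (v 1) (v 2)) [h1 : TM t]
    [h2 : TM u] : TM fun v => f (t v) (u v) :=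
  have := h1.rn (· + 1)
  have := h2.rn (· + 1)
  ⟨DM.app3 (A := fun a b c => a = f b c) h⟩

end

theorem compr (P : MT Z → Prop) [h : DM fun v => P (v 0)] [Small.{0} {x // P x}] :
    ∃ z : MT Z, ∀ x, x ∈ z ↔ P x := by
  obtain ⟨γ, hγ⟩ := bound (fun x : {x // P x} => x.1.1) fun x => x.1.2
  obtain ⟨φ, s, h⟩ := h
  obtain ⟨n, hn⟩ := φ.fin (D := fun _ : MT Z => True) (R := RM)
  obtain ⟨d, hd, -⟩ := exists_lv Z 0
  let ps : List (MT Z) := (List.range n).map fun i => (s i).elim (fun _ => ⟨d, _, hd⟩) id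
  obtain ⟨δ, hδ⟩ := bound (fun i : ULift.{1} ℕ => (ps.getD i.down ⟨d, _, hd⟩).1) fun _ =>
    Subtype.prop _
  obtain ⟨α, h1, h2⟩ := reflect Z (max γ δ)
  have h3 : ∀ p ∈ ps.map Subtype.val, Lh Z α p := fun p hp => by
    obtain ⟨p, h4, rfl⟩ := List.mem_map.1 hp
    obtain ⟨i, h5, rfl⟩ := List.getElem_of_mem h4
    have := hδ ⟨i⟩
    rw [List.getD_eq_getElem _ _ h5] at this
    exact this.mono ((le_max_right _ _).trans h1)
  obtain ⟨z, hz⟩ := exists_DL (φ.rn fun i => if (s i).isLeft then 0 else i + 1) h3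
  refine ⟨⟨z, _, hz.lh⟩, fun x => (hz.2 x.1).trans ?_⟩
  have key : P x ↔ (φ.rn fun i => if (s i).isLeft then 0 else i + 1).Sat (MM Z)
      (RR (· ∈ ·) (num · = ·) Z (OM Z)) fun i => (x.1 :: ps.map Subtype.val).getD i x.1 := by
    refine (h fun _ => x).trans ((hn _ (fun i => (x :: ps).getD
      (if (s i).isLeft then 0 else i + 1) x) fun i hi => ?_).trans ((SF.sat_rn _ _
      fun i => (x :: ps).getD i x).symm.trans
      (SF.transfer (fun (a : MT Z) b => a.1 = b) (fun a _ => ⟨_, a.2, rfl⟩)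
        (fun b hb => ⟨⟨b, hb⟩, trivial, rfl⟩) ?_ _ _ _ fun i => ?_)))
    · rcases hs : s i with k | c <;> simp [ps, hs, hi]
    · rintro _ _ _ _ _ _ _ rfl rfl rfl
      rfl
    · rw [← List.map_cons, List.getD_map]
  refine ⟨fun ⟨h4, h5⟩ => key.2 ((h2 _ _ _ (List.forall_mem_cons.2 ⟨h4, h3⟩) h4).1 h5),
    fun h4 => ?_⟩
  have h5 := (hγ ⟨x, h4⟩).mono ((le_max_left _ _).trans h1)
  exact ⟨h5, (h2 _ _ _ (List.forall_mem_cons.2 ⟨h5, h3⟩) h5).2 (key.1 h4)⟩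

theorem small_of (y : ZFSet.{0}) {P : MT Z → Prop} (h : ∀ x, P x → x.1 ∈ y) :
    Small.{0} {x // P x} :=
  small_of_injective (f := fun x => (⟨x.1.1, h _ x.2⟩ : y)) fun _ _ h =>
    Subtype.ext (Subtype.ext (Subtype.mk.inj h))

theorem sep (a : MT Z) (P : MT Z → Prop) [DM fun v => P (v 0)] :
    ∃ z : MT Z, ∀ x, x ∈ z ↔ x ∈ a ∧ P x :=
  have := small_of a.1 (P := fun x => x ∈ a ∧ P x) fun _ h => h.1
  compr _

theorem mm_of (y : ZFSet.{0}) (h1 : ∀ w ∈ y, MM Z w) (P : MT Z → Prop) [DM fun v => P (v 0)]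
    (h2 : ∀ x : MT Z, x.1 ∈ y ↔ P x) : MM Z y := by
  have := small_of y fun x => (h2 x).2
  obtain ⟨z, hz⟩ := compr P
  refine (ZFSet.ext fun w => ⟨fun hw => ?_, fun hw => ?_⟩ : z.1 = y) ▸ z.2
  · exact (h2 ⟨w, z.2.trans hw⟩).2 ((hz _).1 hw)
  · exact (hz ⟨w, h1 w hw⟩).2 ((h2 _).1 hw)

/-- the empty set -/
def emp : MT Z := ⟨∅, mm_of _ (by simp) (fun x => ¬ x = x) (by simp)⟩

/-- adding a point -/
def ins (a b : MT Z) : MT Z :=
  ⟨insert a.1 b.1, mm_of _ (fun _ hw => (ZFSet.mem_insert_iff.1 hw).elim (fun h => h ▸ a.2) b.2.trans)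
    (fun x => x = a ∨ x ∈ b) fun _ => ZFSet.mem_insert_iff.trans (or_congr_left Subtype.ext_iff.symm)⟩

@[simp] theorem mem_emp {x : MT Z} : ¬ x ∈ (emp : MT Z) := ZFSet.notMem_empty _

@[simp] theorem mem_ins {x a b : MT Z} : x ∈ ins a b ↔ x = a ∨ x ∈ b :=
  ZFSet.mem_insert_iff.trans (or_congr_left Subtype.ext_iff.symm)

instance TM.ins {t u : (ℕ → MT Z) → MT Z} [TM t] [TM u] : TM fun v => ins (t v) (u v) :=
  TM.app2 (DM.congr (P := fun v => ∀ x, x ∈ v 0 ↔ x = v 1 ∨ x ∈ v 2) fun _ =>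
    ⟨fun h => MT.ext fun x => (h x).trans mem_ins.symm, fun h _ => h ▸ mem_ins⟩)

/-- ordered pairs -/
def pr (a b : MT Z) : MT Z := ins (ins a emp) (ins (ins a (ins b emp)) emp)

instance TM.pr {t u : (ℕ → MT Z) → MT Z} [TM t] [TM u] : TM fun v => pr (t v) (u v) := by
  unfold MP_b0885c_lc.pr
  infer_instance

@[simp] theorem pr_inj {a b c d : MT Z} : pr a b = pr c d ↔ a = c ∧ b = d := by
  simp only [Subtype.ext_iff]
  exact ZFSet.pair_inj

/-- numerals -/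
noncomputable def nu (n : ℕ) : MT Z :=
  ⟨num n, by
    induction n with
    | zero => exact emp.2
    | succ n ih => exact (ins ⟨_, ih⟩ ⟨_, ih⟩).2⟩

theorem nu_succ (n : ℕ) : (nu (n + 1) : MT Z) = ins (nu n) (nu n) := rfl

@[simp] theorem nu_inj {m n : ℕ} : (nu m : MT Z) = nu n ↔ m = n :=
  Subtype.ext_iff.trans num_inj.eq_iff

theorem nr_iff {r : ℕ → ℕ → ℕ → Prop} {a b c : MT Z} :
    NR r a b c ↔ ∃ i j l, nu i = a ∧ nu j = b ∧ nu l = c ∧ r i j l := by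
  simp only [Subtype.ext_iff]
  rfl

@[simp] theorem nr_nu {r : ℕ → ℕ → ℕ → Prop} {i j l : ℕ} :
    NR r (nu i : MT Z) (nu j) (nu l) ↔ r i j l := by simp [nr_iff]

theorem om_min (S : MT Z → Prop) (h : ∃ a, S a) : ∃! a, S a ∧ ∀ b, S b → b = a ∨ om a b := by
  obtain ⟨a, ha⟩ := h
  obtain ⟨α, h1⟩ := a.2
  obtain ⟨a, ⟨h2, h3, h4⟩, h5⟩ := oh_min α (fun z => Lh Z α z ∧ ∃ h, S ⟨z, h⟩) (fun _ h => h.1)
    ⟨_, h1, _, ha⟩
  refine existsUnique_of_exists_of_unique ⟨⟨a, h3⟩, h4, fun b hb => ?_⟩ fun b c hb hc =>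
    (hc.2 b hb.1).elim id fun h6 => (hb.2 c hc.1).elim Eq.symm fun h7 => (om_asymm h6 h7).elim
  by_cases h6 : Lh Z α b.1
  · exact (h5 _ ⟨h6, _, hb⟩).imp Subtype.ext (om_iff h6).1
  · obtain ⟨β, h7⟩ := b.2
    obtain ⟨j, h8, φ, ps, h9⟩ := lh_iff.1 h2
    exact .inr ⟨max α β, h7.mono (le_max_right _ _), oh_iff.2 ⟨j, lt_max_of_lt_left h8, φ, ps, h9,
      fun j' _ φ' ps' h => .inl (h8.trans_le (not_lt.1 fun h' => h6 (lh_iff.2 ⟨j', h', _, _, h⟩)))⟩⟩

theorem exists_om [Fact ((fun _ _ _ => True) ∈ range Z)] :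
    ∃ w : MT Z, ∀ x, x ∈ w ↔ ∃ n, nu n = x :=
  have : Small.{0} {x : MT Z // NR (fun _ _ _ => True) x x x} :=
    small_of (.range num) fun _ ⟨i, _, _, h, _⟩ => ZFSet.mem_range.2 ⟨i, h⟩
  (compr fun x => NR (fun _ _ _ => True) x x x).imp fun _ h x => (h x).trans (by simp [nr_iff])

open Lib.PosetForcing in
theorem dm_sat (φ : Lib.PosetForcing.Fml) : DM fun v : ℕ → MT Z => Sat (· ∈ ·) φ v := by
  induction φ with
  | mem => exact DM.mem
  | eq => exact DM.eq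
  | neg => exact DM.not
  | and => exact DM.and
  | all i φ ih =>
    have := ih.rn fun j => if j = i then 0 else j + 1
    refine DM.all (P := fun x v => Sat (· ∈ ·) φ (Function.update v i x)) (h := DM.congr (h := this)
      fun v => iff_of_eq (congrArg _ (funext fun j => ?_)))
    by_cases h : j = i <;> simp [h]

open Lib.PosetForcing in
theorem isZFC [Fact ((fun _ _ _ => True) ∈ range Z)] : IsZFC fun a b : MT Z => a ∈ b where
  ext _ _ := MT.ext
  found a h := (MT.wf.has_min {x | x ∈ a} h).imp fun _ h => ⟨h.1, fun y h1 h2 => h.2 y h2 h1⟩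
  pair a b := ⟨ins a (ins b emp), by simp⟩
  union a :=
    have := small_of (ZFSet.sUnion a.1) (P := fun x => ∃ y, y ∈ a ∧ x ∈ y) fun _ ⟨_, h1, h2⟩ =>
      ZFSet.mem_sUnion_of_mem h2 h1
    compr _
  power a :=
    have := small_of a.1.powerset (P := fun x => ∀ y, y ∈ x → y ∈ a) fun x h =>
      ZFSet.mem_powerset.2 fun y hy => h ⟨y, x.2.trans hy⟩ hy
    compr _
  inf := by
    obtain ⟨w, hw⟩ := exists_om (Z := Z)
    refine ⟨w, ⟨emp, (hw _).2 ⟨0, rfl⟩, by simp⟩, fun x hx => ?_⟩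
    obtain ⟨n, rfl⟩ := (hw _).1 hx
    exact ⟨_, (hw _).2 ⟨n + 1, rfl⟩, by simp [nu_succ, or_comm]⟩
  sep φ v a :=
    have : DM fun w => Sat (· ∈ ·) φ (Function.update v 0 (w 0)) :=
      DM.congr (h := (dm_sat φ).sb fun i => if i = 0 then .inl 0 else .inr (v i)) fun _ =>
        iff_of_eq (congrArg _ (funext fun i => by cases i <;> rfl))
    sep a _
  repl φ v a h := by
    have h1 : DM fun w => Sat (· ∈ ·) φ (Function.update (Function.update v 0 (w 0)) 1 (w 1)) :=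
      DM.congr (h := (dm_sat φ).sb fun i => if i ≤ 1 then .inl i else .inr (v i)) fun _ =>
        iff_of_eq (congrArg _ (funext fun i => by rcases i with _ | _ | i <;> rfl))
    choose f hf using h
    have := small_of a.1 (P := (· ∈ a)) fun _ h => h
    have : Small.{0} {y // ∃ x, x ∈ a ∧
        Sat (· ∈ ·) φ (Function.update (Function.update v 0 x) 1 y)} :=
      small_of_surjective (f := fun x : {x // x ∈ a} => ⟨f x.1 x.2, x.1, x.2, (hf _ _).1⟩)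
        fun ⟨y, x, h2, h3⟩ => ⟨⟨x, h2⟩, Subtype.ext ((hf _ _).2 y h3).symm⟩
    exact compr _
  choice a h1 h2 := by
    have := small_of (ZFSet.sUnion a.1)
      (P := fun z => ∃ x, x ∈ a ∧ z ∈ x ∧ ∀ b, b ∈ x → b = z ∨ om z b) fun _ ⟨_, h1, h2, _⟩ =>
      ZFSet.mem_sUnion_of_mem h2 h1
    obtain ⟨c, hc⟩ := compr fun z => ∃ x, x ∈ a ∧ z ∈ x ∧ ∀ b, b ∈ x → b = z ∨ om z b
    refine ⟨c, fun x hx => ?_⟩
    obtain ⟨z, h3, h4⟩ := om_min (· ∈ x) (h1 x hx)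
    refine ⟨z, ⟨h3.1, (hc _).2 ⟨x, hx, h3⟩⟩, fun y ⟨h5, h6⟩ => ?_⟩
    obtain ⟨x', h7, h8⟩ := (hc _).1 h6
    exact h4 y (h2 x' x y h7 hx h8.1 h5 ▸ h8)

end Pool.Agent.P.MP_b0885c_lc
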